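import Pool.Agent.N820.SU.Stm

/-!
# Project SU: the coefficients of a normal form are algebraic over the multipliers

`t_ALG`: if a coefficient of a normal form were transcendental over the multipliers, the
automorphisms of the field which fix the multipliers would give infinitely many pairwise
different normal forms with the same multipliers.  Also: transport of `IsMult` and `NF` by an
automorphism.
-/

set_option autoImplicit false

namespace Pool.Agent.N820.SU.Alg

open Polynomial Pool.Agent.N820.SU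

universe u

/-- iterates commute with an extension of the field -/
lemma iter_map (hMAP : S_MAP.{u}) {K K' : Type u} [Field K] [Field K'] (φ : K →+* K') (d : ℕ)
    (p q : K[X]) (n : ℕ) (z : Option K) :
    (mapP1 (p.map φ) (q.map φ) d)^[n] (z.map φ) = ((mapP1 p q d)^[n] z).map φ := by
  induction n generalizing z with
  | zero => rfl
  | succ n ih =>
    rw [Function.iterate_succ_apply, Function.iterate_succ_apply, (hMAP K K' φ d).1 p q z, ih]

/-- transport of a multiplier by an isomorphism -/
lemma isMult_map (hMAP : S_MAP.{u}) {K K' : Type u} [Field K] [Field K'] (σ : K ≃+* K') (d : ℕ)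
    (p q : K[X]) (n : ℕ) (l : K) (h : IsMult p q d n l) :
    IsMult (p.map (σ : K →+* K')) (q.map (σ : K →+* K')) d n (σ l) := by
  obtain ⟨a, b, c, e, hdet, P, Q, hco, hdeg, h0, hl, hz⟩ := h
  refine ⟨σ a, σ b, σ c, σ e, ?_, P.map (σ : K →+* K'), Q.map (σ : K →+* K'), ?_, ?_, ?_, ?_, ?_⟩
  · rw [← map_mul, ← map_mul, ← map_sub]
    exact (map_ne_zero σ).mpr hdet
  · exact hco.map (Polynomial.mapRingHom (σ : K →+* K'))
  · rw [Polynomial.natDegree_map, Polynomial.natDegree_map]
    exact hdeg
  · rw [Polynomial.coeff_map, h0, map_zero]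
  · rw [Polynomial.coeff_map, Polynomial.coeff_map, hl, map_div₀]
    rfl
  · intro z'
    obtain ⟨z, rfl⟩ : ∃ z : Option K, z.map (σ : K →+* K') = z' := by
      refine ⟨z'.map (σ.symm : K' →+* K), ?_⟩
      cases z' with
      | none => rfl
      | some x => simp
    have h1 := (hMAP K K' (σ : K →+* K') d).2.1 a b c e
    have h2 := (hMAP K K' (σ : K →+* K') (d ^ n)).1 P Q
    have h3 := iter_map hMAP (σ : K →+* K') d p q n z
    have h1' : ∀ z : Option K, mob (σ a) (σ b) (σ c) (σ e) (z.map (σ : K →+* K')) =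
        (mob a b c e z).map (σ : K →+* K') := h1
    rw [h1', h2, hz, h3, h1']

lemma map_symm_map {K K' : Type u} [Field K] [Field K'] (σ : K ≃+* K') (p : K[X]) :
    (p.map (σ : K →+* K')).map (σ.symm : K' →+* K) = p := by
  ext i
  simp

/-- transport of a multiplier by an isomorphism, equivalence -/
lemma isMult_map_iff (hMAP : S_MAP.{u}) {K K' : Type u} [Field K] [Field K'] (σ : K ≃+* K')
    (d : ℕ) (p q : K[X]) (n : ℕ) (l : K) :
    IsMult (p.map (σ : K →+* K')) (q.map (σ : K →+* K')) d n (σ l) ↔ IsMult p q d n l := by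
  refine ⟨fun h => ?_, isMult_map hMAP σ d p q n l⟩
  have h1 := isMult_map hMAP σ.symm d _ _ n _ h
  rw [map_symm_map, map_symm_map, RingEquiv.symm_apply_apply] at h1
  exact h1

/-- transport of a normal form -/
lemma NF_map (hMAP : S_MAP.{u}) {K K' : Type u} [Field K] [Field K'] (φ : K →+* K') (d n : ℕ)
    (p q : K[X]) (h : NF d n p q) : NF d n (p.map φ) (q.map φ) := by
  obtain ⟨hR, h0, hinf, h1, hone⟩ := h
  refine ⟨(hMAP K K' φ d).2.2.1 p q hR, ?_, ?_, ?_, ?_⟩
  · have := iter_map hMAP φ d p q n (some 0)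
    rw [h0] at this
    simpa using this
  · have := iter_map hMAP φ d p q n none
    rw [hinf] at this
    simpa using this
  · have := iter_map hMAP φ d p q n (some 1)
    rw [h1] at this
    simpa using this
  · rcases hone with ⟨i, hi⟩ | ⟨i, hi⟩
    · exact Or.inl ⟨i, by rw [Polynomial.coeff_map, hi, map_one]⟩
    · exact Or.inr ⟨i, by rw [Polynomial.coeff_map, hi, map_one]⟩

/-- an automorphism which fixes the multipliers gives a map with the same multipliers -/
lemma sameMult_map (hMAP : S_MAP.{u}) {K : Type u} [Field K] (σ : K ≃+* K) (d B : ℕ)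
    (p q : K[X]) (hσ : ∀ l ∈ Ms p q d B, σ l = l) :
    SameMult p q (p.map (σ : K →+* K)) (q.map (σ : K →+* K)) d B := by
  intro m hm1 hmB l
  constructor
  · intro h
    have h1 := isMult_map hMAP σ.symm d _ _ m _ h
    rw [map_symm_map, map_symm_map] at h1
    have h2 := hσ _ ⟨m, hm1, hmB, h1⟩
    rw [RingEquiv.apply_symm_apply] at h2
    rw [← h2] at h1
    exact h1
  · intro h
    have h1 := isMult_map hMAP σ d p q m l h
    rw [hσ l ⟨m, hm1, hmB, h⟩] at h1
    exact h1

/-- infinitely many normal forms with the same multipliers contradict `Few` -/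
lemma not_few (hFNF : S_FNF.{u}) {K : Type u} [Field K] [Infinite K] (d n B : ℕ) (hd : 2 ≤ d)
    (hn : 1 ≤ n) (p q : K[X]) (f : ℕ → K[X] × K[X]) (hf : Function.Injective f)
    (hNF : ∀ c, NF d n (f c).1 (f c).2) (hS : ∀ c, SameMult p q (f c).1 (f c).2 d B) :
    ¬ Few p q d B := by
  intro hFew
  obtain ⟨g, -, hg⟩ := exists_seq_of_forall_finset_exists (fun _ : ℕ => True)
    (fun c c' => ¬ (ConjP1 (f c).1 (f c).2 (f c').1 (f c').2 d ∨
      ConjP1 (f c').1 (f c').2 (f c).1 (f c).2 d)) (by
    intro s _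
    have hfin : (⋃ c ∈ s, {c' : ℕ | ConjP1 (f c).1 (f c).2 (f c').1 (f c').2 d ∨
        ConjP1 (f c').1 (f c').2 (f c).1 (f c).2 d}).Finite := by
      refine Set.Finite.biUnion s.finite_toSet fun c _ => ?_
      have h1 := hFNF K d n hd hn (f c).1 (f c).2 (hNF c).1
      refine Set.Finite.subset (h1.preimage hf.injOn) ?_
      intro c' hc'
      exact ⟨hNF c', hc'⟩
    obtain ⟨y, hy⟩ := hfin.exists_notMem
    refine ⟨y, trivial, fun x hx hcon => hy ?_⟩
    exact Set.mem_biUnion (Finset.mem_coe.mpr hx) hcon)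
  obtain ⟨i, j, hij, hC⟩ := hFew (fun i => (f (g i)).1) (fun i => (f (g i)).2)
    (fun i => ⟨(hNF _).1, hS _⟩)
  rcases lt_or_gt_of_ne hij with h | h
  · exact hg i j h (Or.inl hC)
  · exact hg j i h (Or.inr hC)

theorem t_ALG (hMAP : S_MAP.{u}) (hAUT : S_AUT.{u}) (hFNF : S_FNF.{u}) : S_ALG.{u} := by
  intro Ω _ _ _ d n B hd hn p q hNF hFew i
  have main : ∀ x : Ω, (∀ f : ℕ → Ω ≃+* Ω, (∀ c, f c x = x + c) →
      Function.Injective fun c => (p.map (f c : Ω →+* Ω), q.map (f c : Ω →+* Ω))) →
      IsAlgebraic (Algebra.adjoin ℤ (Ms p q d B)) x := by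
    intro x hx
    by_contra hcon
    choose σ hσ1 hσ2 using hAUT Ω (Ms p q d B) x hcon
    exact not_few hFNF d n B hd hn p q
      (fun c => (p.map (σ c : Ω →+* Ω), q.map (σ c : Ω →+* Ω))) (hx σ hσ2)
      (fun c => NF_map hMAP _ d n p q hNF)
      (fun c => sameMult_map hMAP (σ c) d B p q (hσ1 c)) hFew
  constructor
  · refine main _ fun f hf c c' hcc => ?_
    have h1 := congrArg (fun g : Polynomial Ω × Polynomial Ω => g.1.coeff i) hcc
    simp only [Polynomial.coeff_map, RingHom.coe_coe] at h1
    rw [hf c, hf c'] at h1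
    exact_mod_cast add_left_cancel h1
  · refine main _ fun f hf c c' hcc => ?_
    have h1 := congrArg (fun g : Polynomial Ω × Polynomial Ω => g.2.coeff i) hcc
    simp only [Polynomial.coeff_map, RingHom.coe_coe] at h1
    rw [hf c, hf c'] at h1
    exact_mod_cast add_left_cancel h1

end Pool.Agent.N820.SU.Alg
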