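import Pool.Agent.N820.SU.Stm

/-!
# Project SU: automorphisms of algebraically closed fields
-/

set_option autoImplicit false

namespace Pool.Agent.N820.SU.Aut0

open Pool.Agent.N820.SU

universe u v w

theorem t_AUT : S_AUT.{u} := by
  classical
  intro Ω _ _ _ M x hx c
  set R := Algebra.adjoin ℤ M with hR
  have hind : AlgebraicIndepOn R id ({x} : Set Ω) := by
    have h1 := (algebraicIndependent_unique_type_iff (R := R)
      (x := fun i : ({x} : Set Ω) => id (i : Ω))).mpr
    apply h1
    exact hx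
  obtain ⟨t, hst, ht⟩ := exists_isTranscendenceBasis_superset hind
  set v : t → Ω := ((↑) : t → Ω) with hv
  let i₀ : t := ⟨x, hst (Set.mem_singleton x)⟩
  have hvi : v i₀ = x := rfl
  letI := IsAlgClosed.isAlgClosure_of_transcendence_basis v ht
  -- the automorphism of the polynomial ring
  let f : ∀ s : R, MvPolynomial t R →ₐ[R] MvPolynomial t R := fun s =>
    MvPolynomial.aeval fun i => if i = i₀ then MvPolynomial.X i + MvPolynomial.C s
      else MvPolynomial.X i
  have hf : ∀ s : R, (f s).comp (f (-s)) = AlgHom.id R _ := by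
    intro s
    apply MvPolynomial.algHom_ext
    intro i
    simp only [f, AlgHom.comp_apply, MvPolynomial.aeval_X, AlgHom.id_apply]
    by_cases hi : i = i₀
    · simp [hi, MvPolynomial.aeval_X]
    · simp [hi, MvPolynomial.aeval_X]
  let τ : MvPolynomial t R ≃ₐ[R] MvPolynomial t R := AlgEquiv.ofAlgHom (f (c : R)) (f (-(c : R)))
    (hf _) (by
      have := hf (-(c : R))
      rwa [neg_neg] at this)
  let e : Algebra.adjoin R (Set.range v) ≃ₐ[R] Algebra.adjoin R (Set.range v) :=
    (ht.1.aevalEquiv.symm.trans τ).trans ht.1.aevalEquiv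
  let σ : Ω ≃+* Ω := IsAlgClosure.equivOfEquiv Ω Ω e.toRingEquiv
  have hσ : ∀ a : Algebra.adjoin R (Set.range v), σ (algebraMap _ Ω a) = algebraMap _ Ω (e a) :=
    fun a => IsAlgClosure.equivOfEquiv_algebraMap Ω Ω e.toRingEquiv a
  refine ⟨σ, ?_, ?_⟩
  · intro m hm
    have h1 : m = algebraMap (Algebra.adjoin R (Set.range v)) Ω
        (algebraMap R _ ⟨m, Algebra.subset_adjoin hm⟩) := rfl
    rw [h1, hσ, AlgEquiv.commutes]
  · have h1 : x = algebraMap (Algebra.adjoin R (Set.range v)) Ω
        (ht.1.aevalEquiv (MvPolynomial.X i₀)) := by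
      rw [AlgebraicIndependent.algebraMap_aevalEquiv, MvPolynomial.aeval_X]
    have h2 : e (ht.1.aevalEquiv (MvPolynomial.X i₀)) =
        ht.1.aevalEquiv (MvPolynomial.X i₀ + MvPolynomial.C (c : R)) := by
      simp only [e, AlgEquiv.trans_apply, AlgEquiv.symm_apply_apply]
      congr 1
      simp [τ, f]
    conv_lhs => rw [h1]
    rw [hσ, h2, AlgebraicIndependent.algebraMap_aevalEquiv, map_add, MvPolynomial.aeval_X,
      MvPolynomial.aeval_C, map_natCast]

end Pool.Agent.N820.SU.Aut0
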