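import Pool.Agent.N820.SU.Stm

/-!
# Project SU: conjugates exist
-/

set_option autoImplicit false

namespace Pool.Agent.N820.SU.Cnj

open Polynomial Pool.Agent.N820.SU

universe u

noncomputable section

variable {K : Type*} [Field K]

/-- homogeneous evaluation -/
def hv (d : ℕ) (p : K[X]) (x y : K) : K :=
  ∑ i ∈ Finset.range (d + 1), p.coeff i * x ^ i * y ^ (d - i)

/-- the point of the projective line -/
def ptv (x y : K) : Option K := by classical exact if y = 0 then none else some (x / y)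

theorem ptv_zero (x : K) : ptv x 0 = none := by simp [ptv]

theorem ptv_ne {x y : K} (h : y ≠ 0) : ptv x y = some (x / y) := by simp [ptv, h]

theorem ptv_smul {t : K} (ht : t ≠ 0) (x y : K) : ptv (t * x) (t * y) = ptv x y := by
  by_cases hy : y = 0
  · rw [hy, mul_zero, ptv_zero, ptv_zero]
  · rw [ptv_ne (mul_ne_zero ht hy), ptv_ne hy, mul_div_mul_left _ _ ht]

theorem exists_ptv (z : Option K) : ∃ x y : K, (x ≠ 0 ∨ y ≠ 0) ∧ z = ptv x y := by
  cases z with
  | none => exact ⟨1, 0, Or.inl one_ne_zero, (ptv_zero 1).symm⟩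
  | some x => exact ⟨x, 1, Or.inr one_ne_zero, by rw [ptv_ne one_ne_zero, div_one]⟩

theorem hv_smul (d : ℕ) (p : K[X]) (t x y : K) : hv d p (t * x) (t * y) = t ^ d * hv d p x y := by
  unfold hv
  rw [Finset.mul_sum]
  refine Finset.sum_congr rfl fun i hi => ?_
  have h1 : i + (d - i) = d := by
    have := Finset.mem_range.1 hi
    omega
  rw [mul_pow, mul_pow]
  conv_rhs => rw [← h1, pow_add]
  rw [h1]
  ring

theorem hv_add (d : ℕ) (a b : K) (p q : K[X]) (x y : K) :
    hv d (C a * p + C b * q) x y = a * hv d p x y + b * hv d q x y := by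
  unfold hv
  rw [Finset.mul_sum, Finset.mul_sum, ← Finset.sum_add_distrib]
  refine Finset.sum_congr rfl fun i _ => ?_
  rw [coeff_add, coeff_C_mul, coeff_C_mul]
  ring

theorem hv_one (d : ℕ) {p : K[X]} (hp : p.natDegree ≤ d) (x : K) : hv d p x 1 = p.eval x := by
  rw [eval_eq_sum_range' (Nat.lt_succ_of_le hp)]
  refine Finset.sum_congr rfl fun i _ => ?_
  rw [one_pow, mul_one]

theorem hv_ne (d : ℕ) {p : K[X]} (hp : p.natDegree ≤ d) (x : K) {y : K} (hy : y ≠ 0) :
    hv d p x y = y ^ d * p.eval (x / y) := by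
  rw [← hv_one d hp, ← hv_smul, mul_div_cancel₀ _ hy, mul_one]

theorem hv_zero (d : ℕ) (p : K[X]) (x : K) : hv d p x 0 = x ^ d * p.coeff d := by
  unfold hv
  rw [Finset.sum_range_succ, Finset.sum_eq_zero, zero_add, Nat.sub_self, pow_zero, mul_one,
    mul_comm]
  intro i hi
  have h1 : d - i ≠ 0 := by
    have := Finset.mem_range.1 hi
    omega
  rw [zero_pow h1, mul_zero]

theorem mapP1_ptv (d : ℕ) {p q : K[X]} (hp : p.natDegree ≤ d) (hq : q.natDegree ≤ d) {x y : K}
    (h : x ≠ 0 ∨ y ≠ 0) : mapP1 p q d (ptv x y) = ptv (hv d p x y) (hv d q x y) := by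
  by_cases hy : y = 0
  · have hx : x ≠ 0 := by
      rcases h with h | h
      · exact h
      · exact absurd hy h
    rw [hy, ptv_zero, hv_zero, hv_zero, ptv_smul (pow_ne_zero _ hx)]
    simp only [mapP1, ptv]
  · rw [ptv_ne hy, hv_ne d hp x hy, hv_ne d hq x hy, ptv_smul (pow_ne_zero _ hy)]
    simp only [mapP1, ptv]

theorem mob_ptv (a b c e : K) {x y : K} (h : x ≠ 0 ∨ y ≠ 0) :
    mob a b c e (ptv x y) = ptv (a * x + b * y) (c * x + e * y) := by
  by_cases hy : y = 0
  · have hx : x ≠ 0 := by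
      rcases h with h | h
      · exact h
      · exact absurd hy h
    rw [hy, ptv_zero, mul_zero, mul_zero, add_zero, add_zero, mul_comm a, mul_comm c,
      ptv_smul hx]
    simp only [mob, ptv]
  · have h1 : a * x + b * y = y * (a * (x / y) + b) := by
      rw [mul_add, ← mul_assoc, mul_comm y a, mul_assoc, mul_div_cancel₀ _ hy, mul_comm y b]
    have h2 : c * x + e * y = y * (c * (x / y) + e) := by
      rw [mul_add, ← mul_assoc, mul_comm y c, mul_assoc, mul_div_cancel₀ _ hy, mul_comm y e]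
    rw [ptv_ne hy, h1, h2, ptv_smul hy]
    simp only [mob, ptv]

/-- no common zeros -/
theorem nozero {d : ℕ} (hd : 1 ≤ d) {p q : K[X]} (h : IsRat d p q) {x y : K}
    (hxy : x ≠ 0 ∨ y ≠ 0) : hv d p x y ≠ 0 ∨ hv d q x y ≠ 0 := by
  have hp : p.natDegree ≤ d := h.2 ▸ le_max_left _ _
  have hq : q.natDegree ≤ d := h.2 ▸ le_max_right _ _
  by_contra hcon
  push Not at hcon
  obtain ⟨h1, h2⟩ := hcon
  by_cases hy : y = 0
  · have hx : x ≠ 0 := by
      rcases hxy with h | h
      · exact h
      · exact absurd hy h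
    rw [hy, hv_zero] at h1 h2
    have h3 : p.coeff d = 0 := (mul_eq_zero.1 h1).resolve_left (pow_ne_zero _ hx)
    have h4 : q.coeff d = 0 := (mul_eq_zero.1 h2).resolve_left (pow_ne_zero _ hx)
    rcases max_choice p.natDegree q.natDegree with h5 | h5
    · have h6 : p.natDegree = d := by rw [← h5, h.2]
      have h7 : p = 0 := by
        rw [← leadingCoeff_eq_zero, leadingCoeff, h6, h3]
      rw [h7, natDegree_zero] at h6
      omega
    · have h6 : q.natDegree = d := by rw [← h5, h.2]
      have h7 : q = 0 := by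
        rw [← leadingCoeff_eq_zero, leadingCoeff, h6, h4]
      rw [h7, natDegree_zero] at h6
      omega
  · rw [hv_ne d hp x hy] at h1
    rw [hv_ne d hq x hy] at h2
    have h3 : p.eval (x / y) = 0 := (mul_eq_zero.1 h1).resolve_left (pow_ne_zero _ hy)
    have h4 : q.eval (x / y) = 0 := (mul_eq_zero.1 h2).resolve_left (pow_ne_zero _ hy)
    obtain ⟨r, s, hrs⟩ := h.1
    have h5 := congrArg (fun f => f.eval (x / y)) hrs
    simp only [eval_add, eval_mul, h3, h4, mul_zero, add_zero, eval_one] at h5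
    exact one_ne_zero h5.symm

/-- the value of the homogeneous substitution -/
theorem eval_hm (d : ℕ) (p A B : K[X]) (x : K) :
    (hm d p A B).eval x = hv d p (A.eval x) (B.eval x) := by
  unfold hm hv
  rw [eval_finsetSum]
  refine Finset.sum_congr rfl fun i _ => ?_
  rw [eval_mul, eval_mul, eval_C, eval_pow, eval_pow]

theorem natDegree_term {d i : ℕ} (hi : i ≤ d) (c : K) {A B : K[X]} (hA : A.natDegree ≤ 1)
    (hB : B.natDegree ≤ 1) : (C c * A ^ i * B ^ (d - i)).natDegree ≤ d ∧
      (C c * A ^ i * B ^ (d - i)).coeff d = c * A.coeff 1 ^ i * B.coeff 1 ^ (d - i) := by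
  have h1 : (A ^ i).natDegree ≤ i := by
    have := natDegree_pow_le_of_le i hA
    rwa [mul_one] at this
  have h2 : (B ^ (d - i)).natDegree ≤ d - i := by
    have := natDegree_pow_le_of_le (d - i) hB
    rwa [mul_one] at this
  have h3 : (C c * A ^ i).natDegree ≤ i := (natDegree_C_mul_le _ _).trans h1
  have h4 : i + (d - i) = d := by omega
  have h5 : (A ^ i).coeff i = A.coeff 1 ^ i := by
    have := coeff_pow_of_natDegree_le (n := 1) (m := i) hA
    rwa [mul_one] at this
  have h6 : (B ^ (d - i)).coeff (d - i) = B.coeff 1 ^ (d - i) := by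
    have := coeff_pow_of_natDegree_le (n := 1) (m := d - i) hB
    rwa [mul_one] at this
  refine ⟨?_, ?_⟩
  · refine natDegree_mul_le.trans ?_
    omega
  · have h7 := coeff_mul_add_eq_of_natDegree_le h3 h2
    rw [h4] at h7
    rw [h7, coeff_C_mul, h5, h6]

theorem natDegree_hm (d : ℕ) (p : K[X]) {A B : K[X]} (hA : A.natDegree ≤ 1)
    (hB : B.natDegree ≤ 1) : (hm d p A B).natDegree ≤ d :=
  natDegree_sum_le_of_forall_le _ _ fun _ hi =>
    (natDegree_term (Nat.lt_succ_iff.1 (Finset.mem_range.1 hi)) _ hA hB).1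

theorem coeff_hm (d : ℕ) (p : K[X]) {A B : K[X]} (hA : A.natDegree ≤ 1)
    (hB : B.natDegree ≤ 1) : (hm d p A B).coeff d = hv d p (A.coeff 1) (B.coeff 1) := by
  unfold hm hv
  rw [finsetSum_coeff]
  exact Finset.sum_congr rfl fun i hi =>
    (natDegree_term (Nat.lt_succ_iff.1 (Finset.mem_range.1 hi)) _ hA hB).2

/-- substitution -/
theorem hv_hm (d : ℕ) (p : K[X]) {A B : K[X]} (hA : A.natDegree ≤ 1) (hB : B.natDegree ≤ 1)
    (x y : K) : hv d (hm d p A B) x y = hv d p (hv 1 A x y) (hv 1 B x y) := by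
  by_cases hy : y = 0
  · rw [hy, hv_zero, hv_zero, hv_zero, coeff_hm d p hA hB, pow_one, hv_smul]
  · rw [hv_ne d (natDegree_hm d p hA hB) x hy, hv_ne 1 hA x hy, hv_ne 1 hB x hy, eval_hm, pow_one,
      hv_smul]

/-- a linear polynomial -/
def li (a b : K) : K[X] := C a * X + C b

theorem li_deg (a b : K) : (li a b).natDegree ≤ 1 := natDegree_linear_le

theorem li_hv (a b x y : K) : hv 1 (li a b) x y = a * x + b * y := by
  simp [hv, li, Finset.sum_range_succ, coeff_X, coeff_C]
  ring

theorem det_ne {a b c e : K} (h : a * e - b * c ≠ 0) {x y : K} (hxy : x ≠ 0 ∨ y ≠ 0) :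
    a * x + b * y ≠ 0 ∨ c * x + e * y ≠ 0 := by
  by_contra hcon
  push Not at hcon
  obtain ⟨h1, h2⟩ := hcon
  have h3 : (a * e - b * c) * x = 0 := by linear_combination e * h1 - b * h2
  have h4 : (a * e - b * c) * y = 0 := by linear_combination a * h2 - c * h1
  rcases hxy with h5 | h5
  · exact h5 ((mul_eq_zero.1 h3).resolve_left h)
  · exact h5 ((mul_eq_zero.1 h4).resolve_left h)

theorem map_hm {L : Type*} [Field L] (φ : K →+* L) (d : ℕ) (p A B : K[X]) :
    (hm d p A B).map φ = hm d (p.map φ) (A.map φ) (B.map φ) := by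
  unfold hm
  rw [Polynomial.map_sum]
  refine Finset.sum_congr rfl fun i _ => ?_
  rw [Polynomial.map_mul, Polynomial.map_mul, map_C, Polynomial.map_pow, Polynomial.map_pow,
    coeff_map]

theorem isRat_map {L : Type*} [Field L] (φ : K →+* L) {d : ℕ} {p q : K[X]} (h : IsRat d p q) :
    IsRat d (p.map φ) (q.map φ) := by
  refine ⟨?_, ?_⟩
  · obtain ⟨r, s, hrs⟩ := h.1
    refine ⟨r.map φ, s.map φ, ?_⟩
    rw [← Polynomial.map_mul, ← Polynomial.map_mul, ← Polynomial.map_add, hrs,
      Polynomial.map_one]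
  · rw [natDegree_map, natDegree_map]
    exact h.2

/-- coprime polynomials have no common roots in the algebraic closure, and conversely -/
theorem coprime_of {u w : K[X]}
    (h : ∀ t : AlgebraicClosure K, ¬ ((u.map (algebraMap K (AlgebraicClosure K))).eval t = 0 ∧
      (w.map (algebraMap K (AlgebraicClosure K))).eval t = 0)) : IsCoprime u w := by
  classical
  by_contra hcon
  have h1 : ¬ IsUnit (EuclideanDomain.gcd u w) := by
    rw [EuclideanDomain.gcd_isUnit_iff]
    exact hcon
  have h2 : (EuclideanDomain.gcd u w).degree ≠ 0 := fun h2 => h1 (isUnit_iff_degree_eq_zero.2 h2)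
  have h3 : ((EuclideanDomain.gcd u w).map (algebraMap K (AlgebraicClosure K))).degree ≠ 0 := by
    rwa [degree_map]
  obtain ⟨t, ht⟩ := IsAlgClosed.exists_root _ h3
  refine h t ⟨?_, ?_⟩
  · exact eval_eq_zero_of_dvd_of_eval_eq_zero
      (Polynomial.map_dvd _ (EuclideanDomain.gcd_dvd_left u w)) ht
  · exact eval_eq_zero_of_dvd_of_eval_eq_zero
      (Polynomial.map_dvd _ (EuclideanDomain.gcd_dvd_right u w)) ht

theorem map_li {L : Type*} [Field L] (φ : K →+* L) (a b : K) :
    (li a b).map φ = li (φ a) (φ b) := by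
  unfold li
  rw [Polynomial.map_add, Polynomial.map_mul, map_C, map_X, map_C]

/-- CNJ: conjugate maps exist -/
theorem t_CNJ : S_CNJ.{u} := by
  intro K _ d hd p q h a b c e hdet
  have hp : p.natDegree ≤ d := h.2 ▸ le_max_left _ _
  have hq : q.natDegree ≤ d := h.2 ▸ le_max_right _ _
  let A : K[X] := li e (-b)
  let B : K[X] := li (-c) a
  let P' : K[X] := hm d p A B
  let Q' : K[X] := hm d q A B
  let u : K[X] := C a * P' + C b * Q'
  let w : K[X] := C c * P' + C e * Q'
  have hP' : P'.natDegree ≤ d := natDegree_hm d p (li_deg _ _) (li_deg _ _)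
  have hQ' : Q'.natDegree ≤ d := natDegree_hm d q (li_deg _ _) (li_deg _ _)
  have hdeg : ∀ r s : K, (C r * P' + C s * Q').natDegree ≤ d := fun r s =>
    natDegree_add_le_of_degree_le ((natDegree_C_mul_le _ _).trans hP')
      ((natDegree_C_mul_le _ _).trans hQ')
  have hdet' : e * a - -b * -c ≠ 0 := by
    intro h0
    exact hdet (by linear_combination h0)
  have hcop : IsCoprime u w := by
    refine coprime_of fun t ht => ?_
    let φ := algebraMap K (AlgebraicClosure K)
    have h1 : (u.map φ).eval t = φ a * hv d (p.map φ) (φ e * t + φ (-b)) (φ (-c) * t + φ a) +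
        φ b * hv d (q.map φ) (φ e * t + φ (-b)) (φ (-c) * t + φ a) := by
      change ((C a * hm d p A B + C b * hm d q A B).map φ).eval t = _
      rw [Polynomial.map_add, Polynomial.map_mul, Polynomial.map_mul, map_C, map_C, map_hm, map_hm,
        eval_add, eval_mul, eval_mul, eval_C, eval_C, eval_hm, eval_hm, map_li, map_li]
      simp only [li, eval_add, eval_mul, eval_C, eval_X]
    have h2 : (w.map φ).eval t = φ c * hv d (p.map φ) (φ e * t + φ (-b)) (φ (-c) * t + φ a) +
        φ e * hv d (q.map φ) (φ e * t + φ (-b)) (φ (-c) * t + φ a) := by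
      change ((C c * hm d p A B + C e * hm d q A B).map φ).eval t = _
      rw [Polynomial.map_add, Polynomial.map_mul, Polynomial.map_mul, map_C, map_C, map_hm, map_hm,
        eval_add, eval_mul, eval_mul, eval_C, eval_C, eval_hm, eval_hm, map_li, map_li]
      simp only [li, eval_add, eval_mul, eval_C, eval_X]
    have h3 : φ e * t + φ (-b) * 1 ≠ 0 ∨ φ (-c) * t + φ a * 1 ≠ 0 := by
      refine det_ne ?_ (Or.inr one_ne_zero)
      rw [← map_mul, ← map_mul, ← map_sub]
      exact (map_ne_zero φ).2 hdet'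
    rw [mul_one, mul_one] at h3
    have h4 := nozero hd (isRat_map φ h) h3
    have h5 : φ a * φ e - φ b * φ c ≠ 0 := by
      rw [← map_mul, ← map_mul, ← map_sub]
      exact (map_ne_zero φ).2 hdet
    rcases det_ne h5 h4 with h6 | h6
    · exact h6 (h1.symm.trans ht.1)
    · exact h6 (h2.symm.trans ht.2)
  refine ⟨u, w, ⟨hcop, ?_⟩, ?_⟩
  · have h1 : u.coeff d = a * hv d p e (-c) + b * hv d q e (-c) := by
      change (C a * hm d p A B + C b * hm d q A B).coeff d = _
      rw [coeff_add, coeff_C_mul, coeff_C_mul, coeff_hm d p (li_deg _ _) (li_deg _ _),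
        coeff_hm d q (li_deg _ _) (li_deg _ _)]
      simp [li, coeff_C]
    have h2 : w.coeff d = c * hv d p e (-c) + e * hv d q e (-c) := by
      change (C c * hm d p A B + C e * hm d q A B).coeff d = _
      rw [coeff_add, coeff_C_mul, coeff_C_mul, coeff_hm d p (li_deg _ _) (li_deg _ _),
        coeff_hm d q (li_deg _ _) (li_deg _ _)]
      simp [li, coeff_C]
    have h3 : e ≠ 0 ∨ -c ≠ 0 := by
      by_contra hcon
      push Not at hcon
      refine hdet ?_
      rw [hcon.1, neg_eq_zero.1 hcon.2]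
      ring
    refine le_antisymm (max_le (hdeg _ _) (hdeg _ _)) ?_
    rcases det_ne hdet (nozero hd h h3) with h4 | h4
    · rw [← h1] at h4
      exact (le_natDegree_of_ne_zero h4).trans (le_max_left _ _)
    · rw [← h2] at h4
      exact (le_natDegree_of_ne_zero h4).trans (le_max_right _ _)
  · intro z
    obtain ⟨x, y, hxy, rfl⟩ := exists_ptv z
    have key : ∀ f : K[X], hv d (hm d f A B) (a * x + b * y) (c * x + e * y) =
        (a * e - b * c) ^ d * hv d f x y := by
      intro f
      rw [hv_hm d f (li_deg _ _) (li_deg _ _), li_hv, li_hv, ← hv_smul]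
      congr 1 <;> ring
    rw [mob_ptv a b c e hxy, mapP1_ptv d (hdeg _ _) (hdeg _ _) (det_ne hdet hxy),
      mapP1_ptv d hp hq hxy, mob_ptv a b c e (nozero hd h hxy)]
    change ptv (hv d (C a * hm d p A B + C b * hm d q A B) _ _)
      (hv d (C c * hm d p A B + C e * hm d q A B) _ _) = _
    rw [hv_add, hv_add, key, key]
    have h1 : ∀ r s : K, r * ((a * e - b * c) ^ d * hv d p x y) +
        s * ((a * e - b * c) ^ d * hv d q x y) =
        (a * e - b * c) ^ d * (r * hv d p x y + s * hv d q x y) := fun r s => by ring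
    rw [h1, h1, ptv_smul (pow_ne_zero _ hdet)]

end

end Pool.Agent.N820.SU.Cnj
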