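import Pool.Agent.N820.SU.Stm
import Pool.Agent.N820.SU.Cnj

/-!
# Project SU: conjugation of functions and of polynomials; iterates
-/

set_option autoImplicit false

namespace Pool.Agent.N820.SU.Cnp0

open Polynomial Pool.Agent.N820.SU Pool.Agent.N820.SU.Cnj

universe u v w

variable {K : Type u} [Field K]

lemma ptv_cross {x y x' y' : K} (h : x ≠ 0 ∨ y ≠ 0) (h' : x' ≠ 0 ∨ y' ≠ 0)
    (he : ptv x y = ptv x' y') : x * y' = x' * y := by
  by_cases hy : y = 0
  · rw [hy, ptv_zero] at he
    by_cases hy' : y' = 0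
    · rw [hy, hy', mul_zero, mul_zero]
    · rw [ptv_ne hy'] at he
      simp at he
  · rw [ptv_ne hy] at he
    by_cases hy' : y' = 0
    · rw [hy', ptv_zero] at he
      simp at he
    · rw [ptv_ne hy', Option.some.injEq, div_eq_div_iff hy hy'] at he
      exact he

lemma unit_C {s : K[X]} (h : IsUnit s) : ∃ r : K, r ≠ 0 ∧ s = C r := by
  obtain ⟨r, hr, hs⟩ := Polynomial.isUnit_iff.mp h
  exact ⟨r, hr.ne_zero, hs.symm⟩

theorem t_CNP : S_CNP.{u} := by
  intro K _ _ d hd p q u w hpq huw a b c e hdet h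
  have hp : p.natDegree ≤ d := hpq.2 ▸ le_max_left _ _
  have hq : q.natDegree ≤ d := hpq.2 ▸ le_max_right _ _
  have hu : u.natDegree ≤ d := huw.2 ▸ le_max_left _ _
  have hw : w.natDegree ≤ d := huw.2 ▸ le_max_right _ _
  set U := hm d u (C a * X + C b) (C c * X + C e) with hU
  set V := hm d w (C a * X + C b) (C c * X + C e) with hV
  set R := C a * p + C b * q with hR
  set S := C c * p + C e * q with hS
  have hev : U * S = V * R := by
    apply Polynomial.funext
    intro x
    have h1 := h (ptv x 1)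
    have hx : x ≠ 0 ∨ (1 : K) ≠ 0 := Or.inr one_ne_zero
    rw [mob_ptv a b c e hx, mapP1_ptv d hu hw (det_ne hdet hx), mapP1_ptv d hp hq hx,
      mob_ptv a b c e (nozero hd hpq hx)] at h1
    have h2 := ptv_cross (nozero hd huw (det_ne hdet hx)) (det_ne hdet (nozero hd hpq hx)) h1
    rw [hv_one d hp, hv_one d hq] at h2
    rw [hU, hV, hR, hS, eval_mul, eval_mul, eval_hm, eval_hm]
    simp only [eval_add, eval_mul, eval_C, eval_X]
    simp only [mul_one] at h2
    linear_combination h2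
  have hcUV : IsCoprime U V := by
    apply coprime_of
    rintro t ⟨h1, h2⟩
    rw [hU, map_hm, eval_hm] at h1
    rw [hV, map_hm, eval_hm] at h2
    have hdet' : (algebraMap K (AlgebraicClosure K)) a * (algebraMap K (AlgebraicClosure K)) e -
        (algebraMap K (AlgebraicClosure K)) b * (algebraMap K (AlgebraicClosure K)) c ≠ 0 := by
      rw [← map_mul, ← map_mul, ← map_sub]
      exact (_root_.map_ne_zero _).mpr hdet
    have h3 := nozero hd (isRat_map (algebraMap K (AlgebraicClosure K)) huw)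
      (det_ne hdet' (Or.inr one_ne_zero : t ≠ 0 ∨ (1 : AlgebraicClosure K) ≠ 0))
    simp only [Polynomial.map_add, Polynomial.map_mul, map_C, map_X, eval_add, eval_mul, eval_C,
      eval_X] at h1 h2
    simp only [mul_one] at h3
    rcases h3 with h3 | h3
    · exact h3 h1
    · exact h3 h2
  have hcRS : IsCoprime R S := by
    obtain ⟨α, β, hαβ⟩ := hpq.1
    set δ := a * e - b * c with hδ
    refine ⟨C δ⁻¹ * (α * C e - β * C c), C δ⁻¹ * (β * C a - α * C b), ?_⟩
    have h1 : C δ⁻¹ * (C a * C e - C b * C c) = (1 : K[X]) := by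
      rw [← C_mul, ← C_mul, ← C_sub, ← C_mul, inv_mul_cancel₀ hdet, C_1]
    calc C δ⁻¹ * (α * C e - β * C c) * R + C δ⁻¹ * (β * C a - α * C b) * S
        = (C δ⁻¹ * (C a * C e - C b * C c)) * (α * p + β * q) := by
          rw [hR, hS]
          ring
      _ = 1 := by rw [h1, hαβ, mul_one]
  have hUR : U ∣ R := hcUV.dvd_of_dvd_mul_left (Dvd.intro _ hev)
  have hRU : R ∣ U := hcRS.dvd_of_dvd_mul_right (Dvd.intro_left _ hev.symm)
  have hVS : V ∣ S := hcUV.symm.dvd_of_dvd_mul_left (Dvd.intro _ hev.symm)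
  have hSV : S ∣ V := hcRS.symm.dvd_of_dvd_mul_right (Dvd.intro_left _ hev)
  by_cases hR0 : R = 0
  · obtain ⟨s, hs⟩ := associated_of_dvd_dvd hSV hVS
    obtain ⟨r, hr, hsr⟩ := unit_C s.isUnit
    refine ⟨r, hr, ?_, ?_⟩
    · show U = C r * R
      rw [hR0, mul_zero]
      rw [hR0] at hRU
      exact zero_dvd_iff.mp hRU
    · show V = C r * S
      rw [← hs, hsr, mul_comm]
  · obtain ⟨s, hs⟩ := associated_of_dvd_dvd hRU hUR
    obtain ⟨r, hr, hsr⟩ := unit_C s.isUnit
    have h1 : U = C r * R := by rw [← hs, hsr, mul_comm]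
    refine ⟨r, hr, h1, ?_⟩
    show V = C r * S
    apply mul_right_cancel₀ hR0
    rw [← hev, h1]
    ring

theorem t_UNQ : S_UNQ.{u} := by
  intro K _ _ d hd p q u w hpq huw h
  have hmob : ∀ z : Option K, mob 1 0 0 1 z = z := by
    intro z
    cases z with
    | none => simp [mob]
    | some x => simp [mob]
  obtain ⟨s, hs, h1, h2⟩ := t_CNP K d hd p q u w hpq huw 1 0 0 1 (by simp) (fun z => by
    rw [hmob, hmob, h])
  have hu : u.natDegree ≤ d := huw.2 ▸ le_max_left _ _
  have hw : w.natDegree ≤ d := huw.2 ▸ le_max_right _ _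
  have key : ∀ f : K[X], f.natDegree ≤ d → hm d f (C 1 * X + C 0) (C 0 * X + C 1) = f := by
    intro f hf
    unfold hm
    simp only [C_1, C_0, one_mul, add_zero, zero_mul, zero_add, one_pow, mul_one]
    exact (f.as_sum_range_C_mul_X_pow' (Nat.lt_succ_of_le hf)).symm
  rw [key u hu] at h1
  rw [key w hw] at h2
  refine ⟨s, hs, ?_, ?_⟩
  · rw [h1]
    simp
  · rw [h2]
    simp

/-! iterates -/

lemma term_facts {d i D : ℕ} (hi : i ≤ d) (c : K) {A B : K[X]} (hA : A.natDegree ≤ D)
    (hB : B.natDegree ≤ D) : (C c * A ^ i * B ^ (d - i)).natDegree ≤ D * d ∧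
      (C c * A ^ i * B ^ (d - i)).coeff (D * d) = c * A.coeff D ^ i * B.coeff D ^ (d - i) := by
  have h1 : (A ^ i).natDegree ≤ i * D := natDegree_pow_le_of_le i hA
  have h2 : (B ^ (d - i)).natDegree ≤ (d - i) * D := natDegree_pow_le_of_le _ hB
  have h3 : (C c * A ^ i).natDegree ≤ i * D := (natDegree_C_mul_le _ _).trans h1
  have h4 : i * D + (d - i) * D = D * d := by
    rw [← add_mul, Nat.add_sub_cancel' hi, mul_comm]
  refine ⟨?_, ?_⟩
  · rw [← h4]
    exact natDegree_mul_le_of_le h3 h2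
  · rw [← h4, coeff_mul_add_eq_of_natDegree_le h3 h2, coeff_C_mul]
    rw [coeff_pow_of_natDegree_le hA, coeff_pow_of_natDegree_le hB]

lemma deg_hm (d D : ℕ) (p : K[X]) {A B : K[X]} (hA : A.natDegree ≤ D)
    (hB : B.natDegree ≤ D) : (hm d p A B).natDegree ≤ D * d :=
  natDegree_sum_le_of_forall_le _ _ fun _ hi =>
    (term_facts (Nat.lt_succ_iff.1 (Finset.mem_range.1 hi)) _ hA hB).1

lemma co_hm (d D : ℕ) (p : K[X]) {A B : K[X]} (hA : A.natDegree ≤ D)
    (hB : B.natDegree ≤ D) : (hm d p A B).coeff (D * d) = hv d p (A.coeff D) (B.coeff D) := by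
  unfold hm hv
  rw [finsetSum_coeff]
  exact Finset.sum_congr rfl fun i hi =>
    (term_facts (Nat.lt_succ_iff.1 (Finset.mem_range.1 hi)) _ hA hB).2

lemma hv_hm' (d D : ℕ) (p : K[X]) {A B : K[X]} (hA : A.natDegree ≤ D)
    (hB : B.natDegree ≤ D) (x y : K) :
    hv (D * d) (hm d p A B) x y = hv d p (hv D A x y) (hv D B x y) := by
  by_cases hy : y = 0
  · rw [hy, hv_zero, hv_zero, hv_zero, co_hm d D p hA hB, hv_smul, ← pow_mul]
  · rw [hv_ne (D * d) (deg_hm d D p hA hB) x hy, hv_ne D hA x hy, hv_ne D hB x hy, eval_hm,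
      hv_smul, ← pow_mul]

theorem t_ITR : S_ITR.{u} := by
  intro K _ d hd p q hpq n
  have hp : p.natDegree ≤ d := hpq.2 ▸ le_max_left _ _
  have hq : q.natDegree ≤ d := hpq.2 ▸ le_max_right _ _
  induction n with
  | zero =>
    refine ⟨⟨?_, ?_⟩, ?_⟩
    · exact isCoprime_one_right
    · simp [itP]
    · intro z
      cases z with
      | none => simp [itP, mapP1, coeff_one]
      | some x => simp [itP, mapP1]
  | succ n ih =>
    obtain ⟨hrat, hmap⟩ := ih
    set A := (itP d p q n).1 with hA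
    set B := (itP d p q n).2 with hB
    have h1 : (itP d p q (n + 1)).1 = hm d p A B := rfl
    have h2 : (itP d p q (n + 1)).2 = hm d q A B := rfl
    have hD1 : 1 ≤ d ^ n := Nat.one_le_pow _ _ hd
    have hAd : A.natDegree ≤ d ^ n := hrat.2 ▸ le_max_left _ _
    have hBd : B.natDegree ≤ d ^ n := hrat.2 ▸ le_max_right _ _
    rw [h1, h2]
    have htop : A.coeff (d ^ n) ≠ 0 ∨ B.coeff (d ^ n) ≠ 0 := by
      by_contra hcon
      push Not at hcon
      have h3 : ∀ f : K[X], f.natDegree ≤ d ^ n → f.coeff (d ^ n) = 0 → f.natDegree < d ^ n := by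
        intro f hf hf0
        rcases hf.lt_or_eq with h | h
        · exact h
        · exfalso
          have h4 : f.leadingCoeff = 0 := by
            unfold leadingCoeff
            rw [h]
            exact hf0
          rw [leadingCoeff_eq_zero] at h4
          rw [h4, natDegree_zero] at h
          omega
      have h4 := max_lt (h3 A hAd hcon.1) (h3 B hBd hcon.2)
      rw [hrat.2] at h4
      exact lt_irrefl _ h4
    have hdegA := deg_hm d (d ^ n) p hAd hBd
    have hdegB := deg_hm d (d ^ n) q hAd hBd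
    have hco : IsCoprime (hm d p A B) (hm d q A B) := by
      apply coprime_of
      rintro t ⟨g1, g2⟩
      rw [map_hm, eval_hm] at g1 g2
      have hrat' := isRat_map (algebraMap K (AlgebraicClosure K)) hrat
      have hAd' : (A.map (algebraMap K (AlgebraicClosure K))).natDegree ≤ d ^ n :=
        hrat'.2 ▸ le_max_left _ _
      have hBd' : (B.map (algebraMap K (AlgebraicClosure K))).natDegree ≤ d ^ n :=
        hrat'.2 ▸ le_max_right _ _
      have g3 := nozero hD1 hrat' (Or.inr one_ne_zero : t ≠ 0 ∨ (1 : AlgebraicClosure K) ≠ 0)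
      rw [hv_one _ hAd', hv_one _ hBd'] at g3
      rcases nozero hd (isRat_map (algebraMap K (AlgebraicClosure K)) hpq) g3 with g4 | g4
      · exact g4 g1
      · exact g4 g2
    have hpow : d ^ (n + 1) = d ^ n * d := pow_succ d n
    refine ⟨⟨hco, ?_⟩, ?_⟩
    · rw [hpow]
      apply le_antisymm (max_le hdegA hdegB)
      rcases nozero hd hpq htop with g | g
      · rw [← co_hm d (d ^ n) p hAd hBd] at g
        exact le_max_of_le_left (le_natDegree_of_ne_zero g)
      · rw [← co_hm d (d ^ n) q hAd hBd] at g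
        exact le_max_of_le_right (le_natDegree_of_ne_zero g)
    · intro z
      rw [Function.iterate_succ_apply', ← hmap z]
      obtain ⟨x, y, hxy, rfl⟩ := exists_ptv z
      rw [hpow, mapP1_ptv _ hdegA hdegB hxy, mapP1_ptv _ hAd hBd hxy,
        mapP1_ptv d hp hq (nozero hD1 hrat hxy), hv_hm' d _ p hAd hBd, hv_hm' d _ q hAd hBd]

end Pool.Agent.N820.SU.Cnp0
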