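import Pool.Agent.N820.SU.Defs

/-!
# Project SU: strong uniform boundedness in characteristic zero. Statements of the jobs
-/

namespace Pool.Agent.N820.SU

open Polynomial Pool.Agent.W277.UB

universe u v w

/-- MAP: extension of the field -/
def S_MAP : Prop := ∀ (K K' : Type u) [Field K] [Field K'] (φ : K →+* K') (d : ℕ),
  (∀ (p q : K[X]) (z : Option K), mapP1 (p.map φ) (q.map φ) d (z.map φ) =
    (mapP1 p q d z).map φ) ∧
  (∀ (a b c e : K) (z : Option K), mob (φ a) (φ b) (φ c) (φ e) (z.map φ) =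
    (mob a b c e z).map φ) ∧
  (∀ (p q : K[X]), IsRat d p q → IsRat d (p.map φ) (q.map φ)) ∧
  (∀ (p q : K[X]) (n : ℕ), itP d (p.map φ) (q.map φ) n =
    ((itP d p q n).1.map φ, (itP d p q n).2.map φ))

/-- MOB: the group of Moebius transformations -/
def S_MOB : Prop := ∀ (K : Type u) [Field K],
  (∀ a b c e : K, a * e - b * c ≠ 0 → ∀ z, mob e (-b) (-c) a (mob a b c e z) = z ∧
    mob a b c e (mob e (-b) (-c) a z) = z) ∧
  (∀ a b c e a' b' c' e' : K, a * e - b * c ≠ 0 → a' * e' - b' * c' ≠ 0 → ∀ z,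
    mob a b c e (mob a' b' c' e' z) =
      mob (a * a' + b * c') (a * b' + b * e') (c * a' + e * c') (c * b' + e * e') z) ∧
  (∀ x y z : Option K, x ≠ y → x ≠ z → y ≠ z → ∃ a b c e : K, a * e - b * c ≠ 0 ∧
    mob a b c e x = some 0 ∧ mob a b c e y = none ∧ mob a b c e z = some 1) ∧
  (∀ a b c e : K, a * e - b * c ≠ 0 → mob a b c e (some 0) = some 0 → mob a b c e none = none →
    mob a b c e (some 1) = some 1 → ∀ z, mob a b c e z = z)

/-- CNP: conjugation of functions and of polynomials -/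
def S_CNP : Prop := ∀ (K : Type u) [Field K] [Infinite K] (d : ℕ), 1 ≤ d →
  ∀ p q u w : K[X], IsRat d p q → IsRat d u w → ∀ a b c e : K, a * e - b * c ≠ 0 →
  (∀ z, mapP1 u w d (mob a b c e z) = mob a b c e (mapP1 p q d z)) → PolyConj p q u w d a b c e

/-- UNQ: a rational map has only one representation, up to a scalar -/
def S_UNQ : Prop := ∀ (K : Type u) [Field K] [Infinite K] (d : ℕ), 1 ≤ d →
  ∀ p q u w : K[X], IsRat d p q → IsRat d u w → (∀ z, mapP1 p q d z = mapP1 u w d z) →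
  ∃ s : K, s ≠ 0 ∧ u = C s * p ∧ w = C s * q

/-- CNJ: conjugate maps exist -/
def S_CNJ : Prop := ∀ (K : Type u) [Field K] (d : ℕ), 1 ≤ d →
  ∀ p q : K[X], IsRat d p q → ∀ a b c e : K, a * e - b * c ≠ 0 → ∃ u w : K[X], IsRat d u w ∧
  ∀ z, mapP1 u w d (mob a b c e z) = mob a b c e (mapP1 p q d z)

/-- ITR: iterates -/
def S_ITR : Prop := ∀ (K : Type u) [Field K] (d : ℕ), 1 ≤ d → ∀ p q : K[X], IsRat d p q →
  ∀ n : ℕ, IsRat (d ^ n) (itP d p q n).1 (itP d p q n).2 ∧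
    ∀ z, mapP1 (itP d p q n).1 (itP d p q n).2 (d ^ n) z = (mapP1 p q d)^[n] z

/-- FIB: fibres -/
def S_FIB : Prop := ∀ (K : Type u) [Field K] (d : ℕ), 1 ≤ d →
  ∀ p q : K[X], IsRat d p q → (∀ y, {z | mapP1 p q d z = y}.Finite) ∧
  (2 ≤ d → {z | mapP1 p q d z = z}.Finite) ∧
  (IsAlgClosed K → ∀ y, ∃ z, mapP1 p q d z = y)

/-- MIV: the multiplier of a fixed point does not depend on the coordinate -/
def S_MIV : Prop := ∀ (K : Type u) [Field K] [Infinite K] (D : ℕ), 1 ≤ D →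
  ∀ P Q P' Q' : K[X], IsRat D P Q → IsRat D P' Q' → P.coeff 0 = 0 → P'.coeff 0 = 0 →
  ∀ a b c e : K, a * e - b * c ≠ 0 → mob a b c e (some 0) = some 0 →
  (∀ z, mapP1 P' Q' D (mob a b c e z) = mob a b c e (mapP1 P Q D z)) →
  P'.coeff 1 / Q'.coeff 0 = P.coeff 1 / Q.coeff 0

/-- CIV: conjugate maps have the same multipliers -/
def S_CIV : Prop := ∀ (K : Type u) [Field K] (d : ℕ) (p q u w : K[X]), ConjP1 p q u w d →
  (∀ n l, IsMult u w d n l ↔ IsMult p q d n l) ∧ ∀ B, Few p q d B → Few u w d B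

/-- FMS: there are finitely many multipliers -/
def S_FMS : Prop := ∀ (K : Type u) [Field K] [Infinite K] (d B : ℕ), 2 ≤ d →
  ∀ p q : K[X], IsRat d p q → (Ms p q d B).Finite

/-- FIX: a fixed point which is not totally ramified -/
def S_FIX : Prop := ∀ (K : Type u) [Field K] [CharZero K] [IsAlgClosed K] (d : ℕ), 2 ≤ d →
  ∀ p q : K[X], IsRat d p q → ∃ x y, mapP1 p q d x = x ∧ y ≠ x ∧ mapP1 p q d y = x

/-- AUT: automorphisms of an algebraically closed field -/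
def S_AUT : Prop := ∀ (Ω : Type u) [Field Ω] [CharZero Ω] [IsAlgClosed Ω] (M : Set Ω) (x : Ω),
  Transcendental (Algebra.adjoin ℤ M) x → ∀ c : ℕ, ∃ σ : Ω ≃+* Ω, (∀ m ∈ M, σ m = m) ∧
    σ x = x + c

/-- FNF: a map has finitely many normal forms -/
def S_FNF : Prop := ∀ (K : Type u) [Field K] [Infinite K] (d n : ℕ), 2 ≤ d → 1 ≤ n →
  ∀ p q : K[X], IsRat d p q → {g : K[X] × K[X] | NF d n g.1 g.2 ∧
    (ConjP1 p q g.1 g.2 d ∨ ConjP1 g.1 g.2 p q d)}.Finite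

/-- ALG: the coefficients of a normal form are algebraic over the multipliers -/
def S_ALG : Prop := ∀ (Ω : Type u) [Field Ω] [CharZero Ω] [IsAlgClosed Ω] (d n B : ℕ), 2 ≤ d →
  1 ≤ n → ∀ u w : Polynomial Ω, NF d n u w → Few u w d B → ∀ i,
  IsAlgebraic (Algebra.adjoin ℤ (Ms u w d B)) (u.coeff i) ∧
  IsAlgebraic (Algebra.adjoin ℤ (Ms u w d B)) (w.coeff i)

/-- ISO: a map with constant multipliers is isotrivial -/
def S_ISO : Prop := ∀ (k : Type v) (Ω : Type u) [Field k] [Field Ω] [CharZero Ω] [IsAlgClosed Ω]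
  [Algebra k Ω] (d B : ℕ), 2 ≤ d → ∀ p q : Polynomial Ω, IsRat d p q → Few p q d B →
  (∀ l ∈ Ms p q d B, IsAlgebraic k l) → ConjAlg k p q d

/-- ULT: ultraproducts -/
def S_ULT : Prop := ∀ (U : Ultrafilter ℕ) (Ω : ℕ → Type u) [∀ j, Field (Ω j)]
  [∀ j, CharZero (Ω j)] [∀ j, IsAlgClosed (Ω j)], ∃ (Ω' : Type u) (_ : Field Ω')
  (_ : CharZero Ω') (_ : IsAlgClosed Ω') (π : (∀ j, Ω j) →+* Ω'), Function.Surjective π ∧
  ∀ x, π x = 0 ↔ ∀ᶠ j in (U : Filter ℕ), x j = 0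

/-- LSM: multipliers in an ultraproduct -/
def S_LSM : Prop := ∀ (U : Ultrafilter ℕ) (Ω : ℕ → Type u) [∀ j, Field (Ω j)]
  [∀ j, CharZero (Ω j)] [∀ j, IsAlgClosed (Ω j)] (Ω' : Type u) [Field Ω'] [CharZero Ω']
  [IsAlgClosed Ω'] (π : (∀ j, Ω j) →+* Ω'), Function.Surjective π →
  (∀ x, π x = 0 ↔ ∀ᶠ j in (U : Filter ℕ), x j = 0) → ∀ d n : ℕ, 1 ≤ d →
  ∀ (p q : ∀ j, (Ω j)[X]), (∀ j, (p j).natDegree ≤ d ∧ (q j).natDegree ≤ d) →
  ∀ l : ∀ j, Ω j, IsMult (up π d p) (up π d q) d n (π l) ↔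
    ∀ᶠ j in (U : Filter ℕ), IsMult (p j) (q j) d n (l j)

/-- LSF: finiteness of the fibres of the multipliers in an ultraproduct -/
def S_LSF : Prop := ∀ (U : Ultrafilter ℕ) (Ω : ℕ → Type u) [∀ j, Field (Ω j)]
  [∀ j, CharZero (Ω j)] [∀ j, IsAlgClosed (Ω j)] (Ω' : Type u) [Field Ω'] [CharZero Ω']
  [IsAlgClosed Ω'] (π : (∀ j, Ω j) →+* Ω'), Function.Surjective π →
  (∀ x, π x = 0 ↔ ∀ᶠ j in (U : Filter ℕ), x j = 0) → ∀ d n B : ℕ, 1 ≤ d →
  ∀ (p q : ∀ j, (Ω j)[X]), (∀ j, NF d n (p j) (q j) ∧ Few (p j) (q j) d B) →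
  NF d n (up π d p) (up π d q) ∧ Few (up π d p) (up π d q) d B

/-- UNI: uniform equations for the coefficients of normal forms -/
def S_UNI : Prop := ∀ d n B : ℕ, 2 ≤ d → 1 ≤ n →
  ∃ S : Finset (Polynomial (MvPolynomial ℕ ℤ)), ∀ (Ω : Type u) [Field Ω] [CharZero Ω]
  [IsAlgClosed Ω] (u w : Polynomial Ω), NF d n u w → Few u w d B → ∀ x : Ω,
  (∃ i, x = u.coeff i ∨ x = w.coeff i) → ∃ P ∈ S, ∃ l : ℕ → Ω,
  (∀ i, l i = 0 ∨ l i ∈ Ms u w d B) ∧
  P.map (MvPolynomial.eval₂Hom (Int.castRingHom Ω) l) ≠ 0 ∧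
  (P.map (MvPolynomial.eval₂Hom (Int.castRingHom Ω) l)).eval x = 0

/-- NFE: normal forms over an extension of bounded degree -/
def S_NFE : Prop := ∀ d B : ℕ, 2 ≤ d → ∃ r : ℕ, ∀ (L Ω : Type u) [Field L] [CharZero L]
  [Field Ω] [Algebra L Ω] [IsAlgClosed Ω] (p q : L[X]), IsRat d p q →
  ∃ E : IntermediateField L Ω, FiniteDimensional L E ∧ Module.finrank L E ≤ r ∧
  ∀ (n : ℕ) (l : Ω), 1 ≤ n → n ≤ B →
  IsMult (p.map (algebraMap L Ω)) (q.map (algebraMap L Ω)) d n l → l ≠ 0 →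
  ∃ a b c e : E, a * e - b * c ≠ 0 ∧ ∃ u w : E[X], IsRat d u w ∧
  (∀ z : Option E, mapP1 u w d (mob a b c e z) =
    mob a b c e (mapP1 (p.map (algebraMap L E)) (q.map (algebraMap L E)) d z)) ∧
  NF d n (u.map (algebraMap E Ω)) (w.map (algebraMap E Ω)) ∧
  algebraMap E Ω ((itP d u w n).1.coeff 1 / (itP d u w n).2.coeff 0) = l

/-- CNT: the number of zeros of the Wronskian in a disc -/
def S_CNT : Prop := ∀ (Ω : Type u) [NormedField Ω] [IsUltrametricDist Ω] [IsAlgClosed Ω],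
  (∀ n : ℕ, n ≠ 0 → ‖(n : Ω)‖ = 1) → (∃ x : Ω, x ≠ 0 ∧ ‖x‖ ≠ 1) →
  ∀ p q : Polynomial Ω, p ≠ 0 → q ≠ 0 → ∀ (a : Ω) (ρ : ℝ), 0 < ρ →
  (nr p (Metric.ball a ρ) ≠ nr q (Metric.ball a ρ) →
    nr (Wr p q) (Metric.ball a ρ) + 1 = nr p (Metric.ball a ρ) + nr q (Metric.ball a ρ)) ∧
  (nr p (Metric.closedBall a ρ) ≠ nr q (Metric.closedBall a ρ) →
    nr (Wr p q) (Metric.closedBall a ρ) + 1 =
      nr p (Metric.closedBall a ρ) + nr q (Metric.closedBall a ρ))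

/-- LOC: a critical point in the basin of an attracting fixed point -/
def S_LOC : Prop := ∀ (Ω : Type u) [NormedField Ω] [IsUltrametricDist Ω] [IsAlgClosed Ω],
  (∀ n : ℕ, n ≠ 0 → ‖(n : Ω)‖ = 1) → ∀ p q : Polynomial Ω, IsCoprime p q → p.coeff 0 = 0 →
  q.coeff 0 = 1 → p.natDegree < q.natDegree → 2 ≤ q.natDegree → 0 < ‖p.coeff 1‖ →
  ‖p.coeff 1‖ < 1 → ∀ y : Ω, q.eval y = 0 →
  ∃ c : Ω, (Wr p q).eval c = 0 ∧ ∀ j : ℕ, ∃ x : Ω,
    (mapP1 p q q.natDegree)^[j + 1] (some c) = some x ∧ x ≠ 0 ∧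
    ‖x‖ ≤ ‖p.coeff 1‖ ^ (j + 1) * ‖y‖

/-- LCP: the local lemma at a place -/
def S_LCP : Prop := ∀ (k : Type v) (K : Type u) [Field k] [CharZero k] [Field K] [Algebra k K]
  (Q : PlaceData.{w} k K) (v : Q.Pl) (p q : K[X]), IsCoprime p q → p.coeff 0 = 0 →
  q.coeff 0 = 1 → p.natDegree < q.natDegree → 2 ≤ q.natDegree → p.coeff 1 ≠ 0 →
  0 < Q.ord v (p.coeff 1) → q.eval 1 = 0 → (Wr p q).Splits →
  ∃ c : K, (Wr p q).eval c = 0 ∧ ∀ j : ℕ, ∃ x : K,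
    (mapP1 p q q.natDegree)^[j + 1] (some c) = some x ∧ x ≠ 0 ∧
    (j + 1) * Q.ord v (p.coeff 1) ≤ Q.ord v x

/-- HQ: properties of the height -/
def S_HQ : Prop := ∀ (k : Type v) (K : Type u) [Field k] [CharZero k] [Field K] [Algebra k K]
  (Q : PlaceData.{w} k K),
  (∀ x : K, 0 ≤ hq Q x) ∧
  (∀ x : K, {v | Q.wt v * Q.pole v x ≠ 0}.Finite) ∧
  (∀ (x : K) (S : Finset Q.Pl), (∀ v, v ∉ S → Q.pole v x = 0) →
    hq Q x = ∑ v ∈ S, Q.wt v * Q.pole v x) ∧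
  (∀ x : K, x ≠ 0 → hq Q x⁻¹ = hq Q x) ∧
  (∀ (x : K) (S : Finset Q.Pl), x ≠ 0 → (∀ v, Q.ord v x ≠ 0 → v ∈ S) →
    ∑ v ∈ S, Q.wt v * Q.ord v x = 0) ∧
  (∀ x y : K, hq Q (x * y) ≤ hq Q x + hq Q y) ∧
  (∀ x y : K, hq Q (x + y) ≤ hq Q x + hq Q y) ∧
  (∀ c : k, hq Q (algebraMap k K c) = 0) ∧
  (∀ (x : K) (n : ℕ), hq Q (x ^ n) ≤ n * hq Q x)

/-- HF: the height of the image of a point -/
def S_HF : Prop := ∀ D : ℕ, 2 ≤ D → ∃ C : ℕ, ∀ (k : Type v) (K : Type u) [Field k] [CharZero k]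
  [Field K] [Algebra k K] (Q : PlaceData.{w} k K) (p q : K[X]), IsRat D p q → ∀ H : ℤ,
  (∀ i, hq Q (p.coeff i) ≤ H ∧ hq Q (q.coeff i) ≤ H) → ∀ x y : K,
  mapP1 p q D (some x) = some y → D * hq Q x ≤ hq Q y + C * H

/-- GLB: a critical point of large canonical height -/
def S_GLB : Prop := ∀ D C₀ : ℕ, 2 ≤ D → ∃ B₂ m₀ : ℕ, ∀ (k : Type v) (K : Type u) [Field k]
  [CharZero k] [Field K] [Algebra k K] (Q : PlaceData.{w} k K) (p q : K[X]), IsCoprime p q →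
  p.coeff 0 = 0 → q.coeff 0 = 1 → p.natDegree < q.natDegree → q.natDegree = D →
  q.eval 1 = 0 → (Wr p q).Splits → 0 < hq Q (p.coeff 1) →
  (∀ i, hq Q (p.coeff i) ≤ C₀ * hq Q (p.coeff 1) ∧ hq Q (q.coeff i) ≤ C₀ * hq Q (p.coeff 1)) →
  ∃ c : K, (Wr p q).eval c = 0 ∧ ∀ m, m₀ ≤ m → ∃ x, (mapP1 p q D)^[m] (some c) = some x ∧
    D ^ m * hq Q (p.coeff 1) ≤ B₂ * hq Q x

/-- ROO: the height of a root -/
def S_ROO : Prop := ∀ P : Polynomial (MvPolynomial ℕ ℤ), ∃ C : ℕ, ∀ (k : Type v) (K : Type u)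
  [Field k] [CharZero k] [Field K] [Algebra k K] (Q : PlaceData.{w} k K) (l : ℕ → K) (x : K)
  (H : ℤ), (∀ i, hq Q (l i) ≤ H) → P.map (MvPolynomial.eval₂Hom (Int.castRingHom K) l) ≠ 0 →
  (P.map (MvPolynomial.eval₂Hom (Int.castRingHom K) l)).eval x = 0 → hq Q x ≤ C * H

/-- ITH: the heights of the coefficients of an iterate -/
def S_ITH : Prop := ∀ d n : ℕ, 1 ≤ d → ∃ C : ℕ, ∀ (k : Type v) (K : Type u) [Field k]
  [CharZero k] [Field K] [Algebra k K] (Q : PlaceData.{w} k K) (p q : K[X]) (H : ℤ),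
  p.natDegree ≤ d → q.natDegree ≤ d → (∀ i, hq Q (p.coeff i) ≤ H ∧ hq Q (q.coeff i) ≤ H) →
  ∀ i, hq Q ((itP d p q n).1.coeff i) ≤ C * H ∧ hq Q ((itP d p q n).2.coeff i) ≤ C * H

/-- HGT: the heights given by places and by degrees -/
def S_HGT : Prop := ∃ C : ℕ → ℕ, ∀ (k : Type v) (E : Type u) [Field k] [CharZero k] [Field E]
  [Algebra k E] (t : E), Transcendental k t →
  FiniteDimensional (IntermediateField.adjoin k {t}) E →
  ∃ Q : PlaceData.{u} (algebraicClosure k E) E, ∀ x : E,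
    hq Q x ≤ C (Module.finrank (IntermediateField.adjoin k {t}) E) *
      Module.finrank (IntermediateField.adjoin k {x}) E ∧
    (Module.finrank (IntermediateField.adjoin k {x}) E : ℤ) ≤
      C (Module.finrank (IntermediateField.adjoin k {t}) E) * hq Q x

/-- KEY: a conjugate of an iterate over an extension of bounded degree, with an attracting or
repelling fixed point whose multiplier has large height -/
def S_KEY : Prop := ∀ n d B : ℕ, 2 ≤ d → ∃ r C₀ : ℕ, ∀ (k : Type v) (L : Type u) [Field k]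
  [CharZero k] [Field L] [Algebra k L] (t : L), Transcendental k t →
  FiniteDimensional (IntermediateField.adjoin k {t}) L →
  Module.finrank (IntermediateField.adjoin k {t}) L ≤ n → ∀ p q : L[X], IsRat d p q →
  ¬ ConjAlg k (p.map (algebraMap L (AlgebraicClosure L)))
    (q.map (algebraMap L (AlgebraicClosure L))) d →
  Few (p.map (algebraMap L (AlgebraicClosure L))) (q.map (algebraMap L (AlgebraicClosure L))) d B →
  ∃ E : IntermediateField L (AlgebraicClosure L), FiniteDimensional L E ∧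
  Module.finrank L E ≤ r ∧ ∃ m : ℕ, 1 ≤ m ∧ m ≤ B ∧ ∃ a b c e : E, a * e - b * c ≠ 0 ∧
  ∃ P Q : E[X], IsRat (d ^ m) P Q ∧ P.coeff 0 = 0 ∧ Q.coeff 0 = 1 ∧
  P.natDegree < Q.natDegree ∧ Q.eval 1 = 0 ∧
  (∀ z : Option E, mapP1 P Q (d ^ m) (mob a b c e z) = mob a b c e
    ((mapP1 (p.map (algebraMap L E)) (q.map (algebraMap L E)) d)^[m] z)) ∧
  0 < Module.finrank (IntermediateField.adjoin k {P.coeff 1}) E ∧ ∀ i,
    Module.finrank (IntermediateField.adjoin k {P.coeff i}) E ≤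
      C₀ * Module.finrank (IntermediateField.adjoin k {P.coeff 1}) E ∧
    Module.finrank (IntermediateField.adjoin k {Q.coeff i}) E ≤
      C₀ * Module.finrank (IntermediateField.adjoin k {P.coeff 1}) E

end Pool.Agent.N820.SU
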