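import Mathlib
import Pool.Agent.N820.SU.Stm

/-!
# Project SU: zeros of the Wronskian in a disc (residue characteristic zero)
-/

set_option autoImplicit false
set_option linter.unusedSectionVars false

namespace Pool.Agent.N820.SU.Cnt

open Polynomial Pool.Agent.N820.SU

universe u

section

variable {Ω : Type u} [NormedField Ω]

theorem exists_norm_between [IsAlgClosed Ω] (h1 : ∃ x : Ω, x ≠ 0 ∧ ‖x‖ ≠ 1) {s t : ℝ}
    (hs : 0 < s) (hst : s < t) : ∃ y : Ω, s < ‖y‖ ∧ ‖y‖ < t := by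
  obtain ⟨x, hx⟩ : ∃ x : Ω, 1 < ‖x‖ := by
    obtain ⟨x, hx0, hx1⟩ := h1
    rcases lt_or_gt_of_ne hx1 with h | h
    · refine ⟨x⁻¹, ?_⟩
      rw [norm_inv]
      exact (one_lt_inv₀ (norm_pos_iff.2 hx0)).2 h
    · exact ⟨x, h⟩
  obtain ⟨n, hn⟩ := pow_unbounded_of_one_lt ‖x‖ ((one_lt_div hs).2 hst)
  have hn0 : n ≠ 0 := by
    rintro rfl
    simp at hn
    linarith
  obtain ⟨y, hy⟩ := IsAlgClosed.exists_pow_nat_eq x (Nat.pos_of_ne_zero hn0)
  have hy' : ‖y‖ ^ n = ‖x‖ := by rw [← norm_pow, hy]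
  have hy1 : 1 < ‖y‖ := by
    by_contra hcon
    have := pow_le_one₀ (n := n) (norm_nonneg y) (not_lt.1 hcon)
    linarith
  have hy2 : ‖y‖ < t / s := by
    apply lt_of_pow_lt_pow_left₀ n (div_pos (hs.trans hst) hs).le
    rw [hy']
    exact hn
  obtain ⟨k, hk1, hk2⟩ := exists_mem_Ico_zpow hs hy1
  refine ⟨y ^ (k + 1), ?_, ?_⟩
  · rw [norm_zpow]
    exact hk2
  · rw [norm_zpow, zpow_add_one₀ (zero_lt_one.trans hy1).ne']
    calc ‖y‖ ^ k * ‖y‖ ≤ s * ‖y‖ := by gcongr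
      _ < s * (t / s) := by gcongr
      _ = t := by field_simp

variable [IsUltrametricDist Ω]

theorem norm_sub_of_lt {x z a : Ω} {r : ℝ} (hx : ‖x - a‖ = r) (hz : ‖z - a‖ < r) :
    ‖x - z‖ = r := by
  have h := IsUltrametricDist.norm_add_eq_max_of_norm_ne_norm (x := x - a) (y := -(z - a))
    (by rw [norm_neg, hx]; exact hz.ne')
  rw [norm_neg, hx, max_eq_left hz.le] at h
  rw [← h]
  congr 1
  ring

theorem norm_sub_of_gt {x z a : Ω} {r : ℝ} (hx : ‖x - a‖ = r) (hz : r < ‖z - a‖) :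
    ‖x - z‖ = ‖z - a‖ := by
  rw [norm_sub_rev]
  exact norm_sub_of_lt rfl (by rw [hx]; exact hz)

open Classical in
theorem norm_prod_roots (s : Multiset Ω) (A : Set Ω) {x a : Ω} {r : ℝ} (hx : ‖x - a‖ = r)
    (hs : ∀ z ∈ s, (z ∈ A → ‖z - a‖ < r) ∧ (z ∉ A → r < ‖z - a‖)) :
    ‖(s.map (x - ·)).prod‖ =
      ((s.filter (· ∉ A)).map (fun z => ‖z - a‖)).prod * r ^ (s.filter (· ∈ A)).card := by
  induction s using Multiset.induction_on with
  | empty => simp
  | cons z s ih =>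
    have ih' := ih fun w hw => hs w (Multiset.mem_cons_of_mem hw)
    have hz := hs z (Multiset.mem_cons_self z s)
    rw [Multiset.map_cons, Multiset.prod_cons, norm_mul, ih']
    by_cases hA : z ∈ A
    · rw [Multiset.filter_cons_of_pos (p := (· ∈ A)) _ hA,
        Multiset.filter_cons_of_neg (p := (· ∉ A)) _ (not_not.2 hA), Multiset.card_cons,
        norm_sub_of_lt hx (hz.1 hA), pow_succ]
      ring
    · rw [Multiset.filter_cons_of_neg (p := (· ∈ A)) _ hA,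
        Multiset.filter_cons_of_pos (p := (· ∉ A)) _ hA, Multiset.map_cons, Multiset.prod_cons,
        norm_sub_of_gt hx (hz.2 hA)]
      ring

open Classical in
theorem norm_sum_roots (s : Multiset Ω) (A : Set Ω) {x a : Ω} {r : ℝ} (hr : 0 < r)
    (hx : ‖x - a‖ = r)
    (hs : ∀ z ∈ s, (z ∈ A → ‖z - a‖ < r) ∧ (z ∉ A → r < ‖z - a‖)) :
    ‖(s.map (fun z => 1 / (x - z))).sum - (s.filter (· ∈ A)).card / (x - a)‖ < 1 / r := by
  have hxa : x - a ≠ 0 := norm_pos_iff.1 (hx ▸ hr)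
  induction s using Multiset.induction_on with
  | empty => simpa using hr
  | cons z s ih =>
    have ih' := ih fun w hw => hs w (Multiset.mem_cons_of_mem hw)
    have hz := hs z (Multiset.mem_cons_self z s)
    rw [Multiset.map_cons, Multiset.sum_cons]
    by_cases hA : z ∈ A
    · have hxz : ‖x - z‖ = r := norm_sub_of_lt hx (hz.1 hA)
      have hxz0 : x - z ≠ 0 := norm_pos_iff.1 (hxz ▸ hr)
      rw [Multiset.filter_cons_of_pos (p := (· ∈ A)) _ hA, Multiset.card_cons]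
      have he : 1 / (x - z) + (s.map (fun z => 1 / (x - z))).sum -
          ((((s.filter (· ∈ A)).card + 1 : ℕ) : Ω)) / (x - a) =
          (z - a) / ((x - z) * (x - a)) + ((s.map (fun z => 1 / (x - z))).sum -
          (s.filter (· ∈ A)).card / (x - a)) := by
        push_cast
        field_simp
        ring
      rw [he]
      refine lt_of_le_of_lt (IsUltrametricDist.norm_add_le_max _ _) (max_lt ?_ ih')
      rw [norm_div, norm_mul, hxz, hx, div_lt_div_iff₀ (by positivity) hr]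
      nlinarith [hz.1 hA]
    · have hxz : ‖x - z‖ = ‖z - a‖ := norm_sub_of_gt hx (hz.2 hA)
      rw [Multiset.filter_cons_of_neg (p := (· ∈ A)) _ hA, add_sub_assoc]
      refine lt_of_le_of_lt (IsUltrametricDist.norm_add_le_max _ _) (max_lt ?_ ih')
      rw [norm_div, norm_one, hxz]
      exact one_div_lt_one_div_of_lt hr (hz.2 hA)

variable [IsAlgClosed Ω]

open Classical in
/-- the constant in the formula for the norm of the value -/
noncomputable def cst (f : Polynomial Ω) (A : Set Ω) (a : Ω) : ℝ :=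
  ‖f.leadingCoeff‖ * ((f.roots.filter (· ∉ A)).map (fun z => ‖z - a‖)).prod

theorem nr_eq (f : Polynomial Ω) (A : Set Ω) [DecidablePred (· ∈ A)] :
    nr f A = (f.roots.filter (· ∈ A)).card := by
  unfold nr
  congr!

/-- the circle of radius `r` around `a` separates the roots in `A` from the other roots -/
def Sep (f : Polynomial Ω) (A : Set Ω) (a : Ω) (r : ℝ) : Prop :=
  ∀ z ∈ f.roots, (z ∈ A → ‖z - a‖ < r) ∧ (z ∉ A → r < ‖z - a‖)

theorem norm_eval {f : Polynomial Ω} {A : Set Ω} {a x : Ω} {r : ℝ} (hs : Sep f A a r)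
    (hx : ‖x - a‖ = r) : ‖f.eval x‖ = cst f A a * r ^ nr f A := by
  classical
  rw [(IsAlgClosed.splits f).eval_eq_prod_roots, norm_mul, norm_prod_roots f.roots A hx hs,
    nr_eq, cst, mul_assoc]

theorem eval_ne_zero {f : Polynomial Ω} (hf : f ≠ 0) {A : Set Ω} {a x : Ω} {r : ℝ}
    (hs : Sep f A a r) (hx : ‖x - a‖ = r) : f.eval x ≠ 0 := by
  intro h0
  have hz := hs x ((mem_roots hf).2 h0)
  by_cases hA : x ∈ A
  · have := hz.1 hA
    linarith
  · have := hz.2 hA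
    linarith

theorem norm_log {f : Polynomial Ω} (hf : f ≠ 0) {A : Set Ω} {a x : Ω} {r : ℝ} (hr : 0 < r)
    (hs : Sep f A a r) (hx : ‖x - a‖ = r) :
    ‖f.derivative.eval x / f.eval x - nr f A / (x - a)‖ < 1 / r := by
  classical
  rw [(IsAlgClosed.splits f).eval_derivative_div_eval_of_ne_zero (eval_ne_zero hf hs hx), nr_eq]
  exact norm_sum_roots f.roots A hr hx hs

theorem norm_wr (hn : ∀ n : ℕ, n ≠ 0 → ‖(n : Ω)‖ = 1) {p q : Polynomial Ω} (hp : p ≠ 0)
    (hq : q ≠ 0) {A : Set Ω} {a x : Ω} {r : ℝ} (hr : 0 < r) (hsp : Sep p A a r)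
    (hsq : Sep q A a r) (hx : ‖x - a‖ = r) (hne : nr p A ≠ nr q A) :
    ‖(Wr p q).eval x‖ * r = ‖p.eval x‖ * ‖q.eval x‖ := by
  have hxa : x - a ≠ 0 := norm_pos_iff.1 (hx ▸ hr)
  have hp0 := eval_ne_zero hp hsp hx
  have hq0 := eval_ne_zero hq hsq hx
  have h1 := norm_log hp hr hsp hx
  have h2 := norm_log hq hr hsq hx
  have h3 : ‖((nr p A : Ω) - nr q A) / (x - a)‖ = 1 / r := by
    rw [norm_div, hx]
    congr 1
    rcases lt_or_gt_of_ne hne with h | h
    · have := hn (nr q A - nr p A) (by omega)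
      rw [Nat.cast_sub h.le] at this
      rw [norm_sub_rev]
      exact this
    · have := hn (nr p A - nr q A) (by omega)
      rw [Nat.cast_sub h.le] at this
      exact this
  have h4 : ‖(p.derivative.eval x / p.eval x - nr p A / (x - a)) -
      (q.derivative.eval x / q.eval x - nr q A / (x - a))‖ < 1 / r := by
    rw [sub_eq_add_neg]
    refine lt_of_le_of_lt (IsUltrametricDist.norm_add_le_max _ _) (max_lt h1 ?_)
    rw [norm_neg]
    exact h2
  have h5 : ‖p.derivative.eval x / p.eval x - q.derivative.eval x / q.eval x‖ = 1 / r := by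
    have h := IsUltrametricDist.norm_add_eq_max_of_norm_ne_norm
      (x := ((nr p A : Ω) - nr q A) / (x - a))
      (y := (p.derivative.eval x / p.eval x - nr p A / (x - a)) -
      (q.derivative.eval x / q.eval x - nr q A / (x - a))) (by rw [h3]; exact h4.ne')
    rw [h3, max_eq_left h4.le] at h
    rw [← h]
    congr 1
    ring
  have h6 : (Wr p q).eval x = (p.derivative.eval x / p.eval x - q.derivative.eval x / q.eval x) *
      (p.eval x * q.eval x) := by
    simp only [Wr, eval_sub, eval_mul]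
    field_simp
  rw [h6, norm_mul, h5, norm_mul]
  field_simp

theorem main_nr (hn : ∀ n : ℕ, n ≠ 0 → ‖(n : Ω)‖ = 1) {p q : Polynomial Ω} (hp : p ≠ 0)
    (hq : q ≠ 0) {A : Set Ω} {a x₁ x₂ : Ω} {r₁ r₂ : ℝ} (hr₁ : 0 < r₁) (hr : r₁ < r₂)
    (hp₁ : Sep p A a r₁) (hp₂ : Sep p A a r₂) (hq₁ : Sep q A a r₁) (hq₂ : Sep q A a r₂)
    (hw₁ : Sep (Wr p q) A a r₁) (hw₂ : Sep (Wr p q) A a r₂) (hx₁ : ‖x₁ - a‖ = r₁)
    (hx₂ : ‖x₂ - a‖ = r₂) (hne : nr p A ≠ nr q A) :
    nr (Wr p q) A + 1 = nr p A + nr q A := by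
  have hr₂ : 0 < r₂ := hr₁.trans hr
  have e₁ := norm_wr hn hp hq hr₁ hp₁ hq₁ hx₁ hne
  have e₂ := norm_wr hn hp hq hr₂ hp₂ hq₂ hx₂ hne
  have hc := norm_pos_iff.2 (eval_ne_zero hp hp₁ hx₁)
  have hc' := norm_pos_iff.2 (eval_ne_zero hq hq₁ hx₁)
  rw [norm_eval hp₁ hx₁] at hc
  rw [norm_eval hq₁ hx₁] at hc'
  rw [norm_eval hw₁ hx₁, norm_eval hp₁ hx₁, norm_eval hq₁ hx₁] at e₁
  rw [norm_eval hw₂ hx₂, norm_eval hp₂ hx₂, norm_eval hq₂ hx₂] at e₂
  generalize cst (Wr p q) A a = W at *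
  generalize cst p A a = P at *
  generalize cst q A a = Q at *
  generalize nr (Wr p q) A = n at *
  generalize nr p A = k at *
  generalize nr q A = l at *
  have hP : P ≠ 0 := by
    rintro rfl
    simp at hc
  have hQ : Q ≠ 0 := by
    rintro rfl
    simp at hc'
  have f₁ : W * r₁ ^ (n + 1) = P * Q * r₁ ^ (k + l) := by
    rw [pow_succ, pow_add, ← mul_assoc, e₁]
    ring
  have f₂ : W * r₂ ^ (n + 1) = P * Q * r₂ ^ (k + l) := by
    rw [pow_succ, pow_add, ← mul_assoc, e₂]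
    ring
  have hW : W ≠ 0 := by
    rintro rfl
    rw [zero_mul] at f₁
    have : P * Q * r₁ ^ (k + l) ≠ 0 := by positivity
    exact this f₁.symm
  have f₃ : (r₂ / r₁) ^ (n + 1) = (r₂ / r₁) ^ (k + l) := by
    rw [div_pow, div_pow, div_eq_div_iff (by positivity) (by positivity)]
    apply mul_left_cancel₀ (mul_ne_zero hW (mul_ne_zero hP hQ))
    calc W * (P * Q) * (r₂ ^ (n + 1) * r₁ ^ (k + l))
        = (W * r₂ ^ (n + 1)) * (P * Q * r₁ ^ (k + l)) := by ring
      _ = (P * Q * r₂ ^ (k + l)) * (W * r₁ ^ (n + 1)) := by rw [f₂, ← f₁]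
      _ = W * (P * Q) * (r₂ ^ (k + l) * r₁ ^ (n + 1)) := by ring
  exact pow_right_injective₀ (by positivity) ((one_lt_div hr₁).2 hr).ne' f₃

/-- all the roots of three polynomials are separated by the circles in some annulus -/
theorem main_ann (h1 : ∃ x : Ω, x ≠ 0 ∧ ‖x‖ ≠ 1) (hn : ∀ n : ℕ, n ≠ 0 → ‖(n : Ω)‖ = 1)
    {p q : Polynomial Ω} (hp : p ≠ 0) (hq : q ≠ 0) {A : Set Ω} {a : Ω} {s t : ℝ} (hs : 0 < s)
    (hst : s < t)
    (hA : ∀ z, (z ∈ p.roots ∨ z ∈ q.roots ∨ z ∈ (Wr p q).roots) →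
      (z ∈ A → ‖z - a‖ ≤ s) ∧ (z ∉ A → t ≤ ‖z - a‖)) (hne : nr p A ≠ nr q A) :
    nr (Wr p q) A + 1 = nr p A + nr q A := by
  obtain ⟨y₁, hy₁, hy₁'⟩ := exists_norm_between h1 hs hst
  obtain ⟨y₂, hy₂, hy₂'⟩ := exists_norm_between h1 (hs.trans hy₁) hy₁'
  have hsep : ∀ f : Polynomial Ω, (∀ z ∈ f.roots, z ∈ p.roots ∨ z ∈ q.roots ∨
      z ∈ (Wr p q).roots) → ∀ r, s < r → r < t → Sep f A a r := by
    intro f hf r hr hr' z hz
    have := hA z (hf z hz)
    exact ⟨fun h => (this.1 h).trans_lt hr, fun h => hr'.trans_le (this.2 h)⟩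
  have hy₂s : s < ‖y₂‖ := hy₁.trans hy₂
  refine main_nr hn hp hq (x₁ := a + y₁) (x₂ := a + y₂) (hs.trans hy₁) hy₂
    (hsep p (fun z hz => Or.inl hz) _ hy₁ hy₁') (hsep p (fun z hz => Or.inl hz) _ hy₂s hy₂')
    (hsep q (fun z hz => Or.inr (Or.inl hz)) _ hy₁ hy₁')
    (hsep q (fun z hz => Or.inr (Or.inl hz)) _ hy₂s hy₂')
    (hsep _ (fun z hz => Or.inr (Or.inr hz)) _ hy₁ hy₁')
    (hsep _ (fun z hz => Or.inr (Or.inr hz)) _ hy₂s hy₂') (by simp) (by simp) hne

/-- a gap below `ρ` -/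
theorem gap_below (F : Finset Ω) (a : Ω) {ρ : ℝ} (hρ : 0 < ρ) :
    ∃ s, 0 < s ∧ s < ρ ∧ ∀ z ∈ F, ‖z - a‖ < ρ → ‖z - a‖ ≤ s := by
  classical
  induction F using Finset.induction_on with
  | empty => exact ⟨ρ / 2, by positivity, by linarith, by simp⟩
  | insert z F _ ih =>
    obtain ⟨s, hs, hsρ, h⟩ := ih
    by_cases hz : ‖z - a‖ < ρ
    · refine ⟨max s ‖z - a‖, lt_max_of_lt_left hs, max_lt hsρ hz, ?_⟩
      intro w hw hwρ
      rcases Finset.mem_insert.1 hw with rfl | hw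
      · exact le_max_right _ _
      · exact (h w hw hwρ).trans (le_max_left _ _)
    · refine ⟨s, hs, hsρ, ?_⟩
      intro w hw hwρ
      rcases Finset.mem_insert.1 hw with rfl | hw
      · exact absurd hwρ hz
      · exact h w hw hwρ

/-- a gap above `ρ` -/
theorem gap_above (F : Finset Ω) (a : Ω) (ρ : ℝ) :
    ∃ t, ρ < t ∧ ∀ z ∈ F, ρ < ‖z - a‖ → t ≤ ‖z - a‖ := by
  classical
  induction F using Finset.induction_on with
  | empty => exact ⟨ρ + 1, by linarith, by simp⟩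
  | insert z F _ ih =>
    obtain ⟨t, hρt, h⟩ := ih
    by_cases hz : ρ < ‖z - a‖
    · refine ⟨min t ‖z - a‖, lt_min hρt hz, ?_⟩
      intro w hw hwρ
      rcases Finset.mem_insert.1 hw with rfl | hw
      · exact min_le_right _ _
      · exact (min_le_left _ _).trans (h w hw hwρ)
    · refine ⟨t, hρt, ?_⟩
      intro w hw hwρ
      rcases Finset.mem_insert.1 hw with rfl | hw
      · exact absurd hwρ hz
      · exact h w hw hwρ

end

theorem t_CNT : S_CNT.{u} := by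
  intro Ω _ _ _ hn h1 p q hp hq a ρ hρ
  classical
  set F : Finset Ω := p.roots.toFinset ∪ (q.roots.toFinset ∪ (Wr p q).roots.toFinset) with hF
  have hmem : ∀ z, (z ∈ p.roots ∨ z ∈ q.roots ∨ z ∈ (Wr p q).roots) → z ∈ F := by
    intro z hz
    simp only [hF, Finset.mem_union, Multiset.mem_toFinset]
    exact hz
  constructor
  · intro hne
    obtain ⟨s, hs, hsρ, h⟩ := gap_below F a hρ
    refine main_ann (a := a) h1 hn hp hq hs hsρ ?_ hne
    intro z hz
    rw [mem_ball_iff_norm]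
    exact ⟨fun hz' => h z (hmem z hz) hz', fun hz' => not_lt.1 hz'⟩
  · intro hne
    obtain ⟨t, hρt, h⟩ := gap_above F a ρ
    refine main_ann (a := a) h1 hn hp hq hρ hρt ?_ hne
    intro z hz
    rw [mem_closedBall_iff_norm]
    exact ⟨fun hz' => hz', fun hz' => h z (hmem z hz) (not_le.1 hz')⟩

end Pool.Agent.N820.SU.Cnt
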