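import Pool.Agent.N820.SU.Stm

/-!
# Project SU: fibres, fixed points, invariance of the multiplier, finiteness of the multipliers
-/

set_option autoImplicit false

namespace Pool.Agent.N820.SU.Fib

open Polynomial Pool.Agent.N820.SU

universe u

section basic

variable {K : Type u} [Field K]

theorem map_some_zero {p q : K[X]} {d : ℕ} {x : K} (h : q.eval x = 0) :
    mapP1 p q d (some x) = none := by
  simp [mapP1, h]

theorem map_some_ne {p q : K[X]} {d : ℕ} {x : K} (h : q.eval x ≠ 0) :
    mapP1 p q d (some x) = some (p.eval x / q.eval x) := by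
  simp [mapP1, h]

theorem map_none_zero {p q : K[X]} {d : ℕ} (h : q.coeff d = 0) :
    mapP1 p q d none = none := by
  simp [mapP1, h]

theorem map_none_ne {p q : K[X]} {d : ℕ} (h : q.coeff d ≠ 0) :
    mapP1 p q d none = some (p.coeff d / q.coeff d) := by
  simp [mapP1, h]

theorem mob_some_ne {a b c e x : K} (h : c * x + e ≠ 0) :
    mob a b c e (some x) = some ((a * x + b) / (c * x + e)) := by
  simp [mob, h]

theorem mob_some_zero {a b c e x : K} (h : c * x + e = 0) :
    mob a b c e (some x) = none := by
  simp [mob, h]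

theorem natDegree_unit {f : K[X]} (h : IsUnit f) : f.natDegree = 0 :=
  natDegree_eq_zero_of_isUnit h

theorem q_ne {d : ℕ} (hd : 1 ≤ d) {p q : K[X]} (h : IsRat d p q) : q ≠ 0 := by
  rintro rfl
  obtain ⟨h1, h2⟩ := h
  have h3 := natDegree_unit (isCoprime_zero_right.1 h1)
  rw [h3, natDegree_zero] at h2
  simp at h2
  omega

theorem sub_ne {d : ℕ} (hd : 1 ≤ d) {p q : K[X]} (h : IsRat d p q) (c : K) :
    p - C c * q ≠ 0 := by
  intro h0
  obtain ⟨h1, h2⟩ := h
  have h3 : p = C c * q := sub_eq_zero.1 h0
  have h4 : IsUnit q := by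
    rw [h3] at h1
    exact h1.isUnit_of_dvd' (dvd_mul_left _ _) dvd_rfl
  have h5 := natDegree_unit h4
  have h6 : p.natDegree ≤ 0 := by
    rw [h3, ← h5]
    exact natDegree_C_mul_le _ _
  have h7 : max p.natDegree q.natDegree ≤ 0 := max_le h6 h5.le
  omega

theorem subX_ne {d : ℕ} (hd : 2 ≤ d) {p q : K[X]} (h : IsRat d p q) : p - X * q ≠ 0 := by
  intro h0
  obtain ⟨h1, h2⟩ := h
  have h3 : p = X * q := sub_eq_zero.1 h0
  have h4 : IsUnit q := by
    rw [h3] at h1
    exact h1.isUnit_of_dvd' (dvd_mul_left _ _) dvd_rfl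
  have h5 := natDegree_unit h4
  have h6 : p.natDegree ≤ 1 := by
    rw [h3]
    refine natDegree_mul_le.trans ?_
    rw [h5, natDegree_X]
  have h7 : max p.natDegree q.natDegree ≤ 1 := max_le h6 (by omega)
  omega

theorem fin_roots {f : K[X]} (hf : f ≠ 0) : {x : K | f.eval x = 0}.Finite :=
  Polynomial.finite_setOf_isRoot hf

theorem eval_ne {p q : K[X]} (h : IsCoprime p q) {x : K} (hp : p.eval x = 0) : q.eval x ≠ 0 := by
  intro hq
  obtain ⟨a, b, hab⟩ := h
  have h1 := congrArg (Polynomial.eval x) hab
  simp [hp, hq] at h1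

end basic

theorem t_FIB : S_FIB.{u} := by
  intro K _ d hd p q h
  refine ⟨?_, ?_, ?_⟩
  · intro y
    cases y with
    | none =>
      have hf := (fin_roots (q_ne hd h)).image (some : K → Option K)
      refine (hf.union (Set.finite_singleton none)).subset fun z hz => ?_
      cases z with
      | none => right; rfl
      | some x =>
        left
        refine ⟨x, ?_, rfl⟩
        by_contra hx
        have h1 : mapP1 p q d (some x) = none := hz
        rw [map_some_ne hx] at h1
        exact absurd h1 (by simp)
    | some c =>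
      have hf := (fin_roots (sub_ne hd h c)).image (some : K → Option K)
      refine (hf.union (Set.finite_singleton none)).subset fun z hz => ?_
      cases z with
      | none => right; rfl
      | some x =>
        left
        refine ⟨x, ?_, rfl⟩
        have h1 : mapP1 p q d (some x) = some c := hz
        by_cases hx : q.eval x = 0
        · rw [map_some_zero hx] at h1
          exact absurd h1 (by simp)
        · rw [map_some_ne hx, Option.some_inj, div_eq_iff hx] at h1
          show (p - C c * q).eval x = 0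
          rw [eval_sub, eval_mul, eval_C, h1, sub_self]
  · intro hd2
    have hf := (fin_roots (subX_ne hd2 h)).image (some : K → Option K)
    refine (hf.union (Set.finite_singleton none)).subset fun z hz => ?_
    cases z with
    | none => right; rfl
    | some x =>
      left
      refine ⟨x, ?_, rfl⟩
      have h1 : mapP1 p q d (some x) = some x := hz
      by_cases hx : q.eval x = 0
      · rw [map_some_zero hx] at h1
        exact absurd h1 (by simp)
      · rw [map_some_ne hx, Option.some_inj, div_eq_iff hx] at h1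
        show (p - X * q).eval x = 0
        rw [eval_sub, eval_mul, eval_X, h1, sub_self]
  · intro hK y
    have hq0 := q_ne hd h
    cases y with
    | none =>
      by_cases hdeg : q.degree = 0
      · refine ⟨none, map_none_zero ?_⟩
        refine coeff_eq_zero_of_natDegree_lt ?_
        rw [natDegree_eq_of_degree_eq_some hdeg]
        exact hd
      · obtain ⟨x, hx⟩ := IsAlgClosed.exists_root q hdeg
        exact ⟨some x, map_some_zero hx⟩
    | some c =>
      have hf0 := sub_ne hd h c
      by_cases hdeg : (p - C c * q).degree = 0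
      · refine ⟨none, ?_⟩
        have h1 : (p - C c * q).coeff d = 0 := by
          refine coeff_eq_zero_of_natDegree_lt ?_
          rw [natDegree_eq_of_degree_eq_some hdeg]
          exact hd
        rw [coeff_sub, coeff_C_mul] at h1
        have h2 : p.coeff d = c * q.coeff d := sub_eq_zero.1 h1
        have h3 : q.coeff d ≠ 0 := by
          intro h4
          rw [h4, mul_zero] at h2
          rcases max_choice p.natDegree q.natDegree with h5 | h5
          · have h6 : p.natDegree = d := by rw [← h5]; exact h.2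
            have h7 : p.leadingCoeff = 0 := by
              rw [leadingCoeff, h6]
              exact h2
            rw [leadingCoeff_eq_zero] at h7
            rw [h7, natDegree_zero] at h6
            omega
          · have h6 : q.natDegree = d := by rw [← h5]; exact h.2
            have h7 : q.leadingCoeff = 0 := by
              rw [leadingCoeff, h6]
              exact h4
            rw [leadingCoeff_eq_zero] at h7
            exact hq0 h7
        rw [map_none_ne h3, h2, mul_div_cancel_right₀ _ h3]
      · obtain ⟨x, hx⟩ := IsAlgClosed.exists_root _ hdeg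
        have hx' : p.eval x = c * q.eval x := by
          have : (p - C c * q).eval x = 0 := hx
          rw [eval_sub, eval_mul, eval_C] at this
          exact sub_eq_zero.1 this
        have hqx : q.eval x ≠ 0 := by
          intro h0
          rw [h0, mul_zero] at hx'
          exact eval_ne h.1 hx' h0
        exact ⟨some x, by rw [map_some_ne hqx, hx', mul_div_cancel_right₀ _ hqx]⟩

section mult

variable {K : Type u} [Field K]

theorem eval_hm {d : ℕ} {p A B : K[X]} {x : K} (hp : p.natDegree ≤ d) (hB : B.eval x ≠ 0) :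
    (hm d p A B).eval x = B.eval x ^ d * p.eval (A.eval x / B.eval x) := by
  unfold hm
  rw [eval_finsetSum, eval_eq_sum_range' (Nat.lt_succ_of_le hp), Finset.mul_sum]
  refine Finset.sum_congr rfl fun i hi => ?_
  rw [Finset.mem_range] at hi
  rw [eval_mul, eval_mul, eval_C, eval_pow, eval_pow, div_pow]
  have h1 : B.eval x ^ d = B.eval x ^ i * B.eval x ^ (d - i) := by
    rw [← pow_add]
    congr 1
    omega
  rw [h1]
  field_simp

end mult

theorem t_MIV : S_MIV.{u} := by
  intro K _ _ D hD P Q P' Q' hPQ hPQ' hP0 hP0' a b c e hdet hmob heq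
  have hQ0 : Q.coeff 0 ≠ 0 := by
    have := eval_ne hPQ.1 (x := 0) (by rw [← coeff_zero_eq_eval_zero]; exact hP0)
    rwa [← coeff_zero_eq_eval_zero] at this
  have hQ0' : Q'.coeff 0 ≠ 0 := by
    have := eval_ne hPQ'.1 (x := 0) (by rw [← coeff_zero_eq_eval_zero]; exact hP0')
    rwa [← coeff_zero_eq_eval_zero] at this
  have he : e ≠ 0 := by
    intro h0
    rw [mob_some_zero (by rw [h0]; ring)] at hmob
    exact absurd hmob (by simp)
  have hb : b = 0 := by
    have h1 : c * 0 + e ≠ 0 := by rwa [mul_zero, zero_add]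
    rw [mob_some_ne h1, Option.some_inj, div_eq_iff h1] at hmob
    simpa using hmob
  have ha : a ≠ 0 := by
    intro h0
    apply hdet
    rw [h0, hb]
    ring
  -- divide by `X`
  obtain ⟨P2, hP2⟩ : ∃ P2 : K[X], P = X * P2 := X_dvd_iff.2 hP0
  obtain ⟨P2', hP2'⟩ : ∃ P2' : K[X], P' = X * P2' := X_dvd_iff.2 hP0'
  have hc1 : P.coeff 1 = P2.eval 0 := by
    rw [hP2, coeff_X_mul, coeff_zero_eq_eval_zero]
  have hc1' : P'.coeff 1 = P2'.eval 0 := by
    rw [hP2', coeff_X_mul, coeff_zero_eq_eval_zero]
  have hdeg' : P2'.natDegree ≤ D - 1 := by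
    by_cases h0 : P2' = 0
    · rw [h0, natDegree_zero]
      exact Nat.zero_le _
    · have h1 : P'.natDegree ≤ D := by
        rw [← hPQ'.2]
        exact le_max_left _ _
      rw [hP2', natDegree_X_mul h0] at h1
      omega
  have hdegQ' : Q'.natDegree ≤ D := by
    rw [← hPQ'.2]
    exact le_max_right _ _
  set M : K[X] := C c * X + C e with hM
  set A2 : K[X] := hm (D - 1) P2' (C a * X) M with hA2
  set B : K[X] := hm D Q' (C a * X) M with hBd
  set S : K[X] := C c * P + C e * Q with hS
  have hMx : ∀ x : K, M.eval x = c * x + e := fun x => by simp [hM]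
  have hax : ∀ x : K, (C a * X : K[X]).eval x = a * x := fun x => by simp
  have hM0 : M.eval 0 = e := by rw [hMx]; ring
  have hA20 : A2.eval 0 = e ^ (D - 1) * P2'.eval 0 := by
    rw [hA2, eval_hm hdeg' (by rw [hM0]; exact he), hM0, hax, mul_zero, zero_div]
  have hB0 : B.eval 0 = e ^ D * Q'.eval 0 := by
    rw [hBd, eval_hm hdegQ' (by rw [hM0]; exact he), hM0, hax, mul_zero, zero_div]
  have hP00 : P.eval 0 = 0 := by rw [← coeff_zero_eq_eval_zero]; exact hP0
  have hS0 : S.eval 0 = e * Q.eval 0 := by
    simp [hS, hP00]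
  have hQe : Q.eval 0 ≠ 0 := by rw [← coeff_zero_eq_eval_zero]; exact hQ0
  have hQe' : Q'.eval 0 ≠ 0 := by rw [← coeff_zero_eq_eval_zero]; exact hQ0'
  set R : K[X] := M * Q * S * B with hR
  have hR0 : R ≠ 0 := by
    intro h0
    have h1 : R.eval 0 = 0 := by rw [h0, eval_zero]
    rw [hR, eval_mul, eval_mul, eval_mul, hM0, hS0, hB0] at h1
    have : e * Q.eval 0 * (e * Q.eval 0) * (e ^ D * Q'.eval 0) ≠ 0 := by
      have := pow_ne_zero D he
      positivity
    exact this h1
  have key : (C a * X) * (A2 * S - B * P2) * R = 0 := by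
    refine Polynomial.funext fun x => ?_
    rw [eval_zero]
    by_cases hRx : R.eval x = 0
    · rw [eval_mul, hRx, mul_zero]
    · rw [hR, eval_mul, eval_mul, eval_mul] at hRx
      have hBx : B.eval x ≠ 0 := right_ne_zero_of_mul hRx
      have h3 := left_ne_zero_of_mul hRx
      have hSx : S.eval x ≠ 0 := right_ne_zero_of_mul h3
      have h4 := left_ne_zero_of_mul h3
      have hQx : Q.eval x ≠ 0 := right_ne_zero_of_mul h4
      have hMxx : M.eval x ≠ 0 := left_ne_zero_of_mul h4
      have hm1 : c * x + e ≠ 0 := by rw [← hMx]; exact hMxx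
      set y : K := (a * x) / (c * x + e) with hy
      have hBv : B.eval x = (c * x + e) ^ D * Q'.eval y := by
        rw [hBd, eval_hm hdegQ' hMxx, hMx, hax]
      have hA2v : A2.eval x = (c * x + e) ^ (D - 1) * P2'.eval y := by
        rw [hA2, eval_hm hdeg' hMxx, hMx, hax]
      have hQy : Q'.eval y ≠ 0 := by
        intro h0
        rw [hBv, h0, mul_zero] at hBx
        exact hBx rfl
      have h5 := heq (some x)
      have h6 : mob a b c e (some x) = some y := by
        rw [mob_some_ne hm1, hb, add_zero]
      have hSx' : c * (P.eval x / Q.eval x) + e ≠ 0 := by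
        intro h0
        apply hSx
        have : S.eval x = (c * (P.eval x / Q.eval x) + e) * Q.eval x := by
          simp only [hS, eval_add, eval_mul, eval_C]
          field_simp
        rw [this, h0, zero_mul]
      rw [h6, map_some_ne hQy, map_some_ne hQx, mob_some_ne hSx', Option.some_inj, hb,
        add_zero] at h5
      have hSv : S.eval x = c * P.eval x + e * Q.eval x := by
        simp only [hS, eval_add, eval_mul, eval_C]
      have h7 : P'.eval y * S.eval x = Q'.eval y * (a * P.eval x) := by
        rw [div_eq_div_iff hQy hSx'] at h5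
        rw [hSv]
        have h8 : (c * P.eval x + e * Q.eval x) = (c * (P.eval x / Q.eval x) + e) * Q.eval x := by
          field_simp
        have h9 : a * P.eval x = (a * (P.eval x / Q.eval x)) * Q.eval x := by
          field_simp
        rw [h8, h9, ← mul_assoc, h5]
        ring
      have hPx : P.eval x = x * P2.eval x := by rw [hP2, eval_mul, eval_X]
      have hPy : P'.eval y = y * P2'.eval y := by rw [hP2', eval_mul, eval_X]
      rw [eval_mul, eval_mul, hax, eval_sub, eval_mul, eval_mul, hA2v, hBv]
      have h10 : (c * x + e) ^ D = (c * x + e) ^ (D - 1) * (c * x + e) := by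
        rw [← pow_succ]
        congr 1
        omega
      have h11 : y * (c * x + e) = a * x := by
        rw [hy]
        exact div_mul_cancel₀ _ hm1
      rw [hPy, hPx] at h7
      have h12 : a * x * ((c * x + e) ^ (D - 1) * P2'.eval y * S.eval x -
          (c * x + e) ^ D * Q'.eval y * P2.eval x) = 0 := by
        rw [h10, ← h11]
        have h13 : y * (c * x + e) * ((c * x + e) ^ (D - 1) * P2'.eval y * S.eval x -
            (c * x + e) ^ (D - 1) * (c * x + e) * Q'.eval y * P2.eval x) =
            (c * x + e) ^ (D - 1) * (c * x + e) * (y * P2'.eval y * S.eval x -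
              Q'.eval y * ((y * (c * x + e)) * P2.eval x)) := by ring
        rw [h13, h7, h11]
        ring
      rw [h12, zero_mul]
  have key2 : A2 * S - B * P2 = 0 := by
    rcases mul_eq_zero.1 key with h1 | h1
    · rcases mul_eq_zero.1 h1 with h2 | h2
      · rcases mul_eq_zero.1 h2 with h3 | h3
        · exact absurd (C_eq_zero.1 h3) ha
        · exact absurd h3 X_ne_zero
      · exact h2
    · exact absurd h1 hR0
  have h14 : A2.eval 0 * S.eval 0 = B.eval 0 * P2.eval 0 := by
    have h15 : (A2 * S - B * P2).eval 0 = 0 := by rw [key2, eval_zero]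
    rw [eval_sub, eval_mul, eval_mul] at h15
    exact sub_eq_zero.1 h15
  rw [hA20, hS0, hB0] at h14
  rw [hc1, hc1', coeff_zero_eq_eval_zero, coeff_zero_eq_eval_zero, div_eq_div_iff hQe' hQe]
  have h16 : e ^ D = e ^ (D - 1) * e := by
    rw [← pow_succ]
    congr 1
    omega
  rw [h16] at h14
  have h17 : (e ^ (D - 1) * e) * (P2'.eval 0 * Q.eval 0) =
      (e ^ (D - 1) * e) * (P2.eval 0 * Q'.eval 0) := by
    linear_combination h14
  exact mul_left_cancel₀ (mul_ne_zero (pow_ne_zero _ he) he) h17

theorem t_FMS (hMOB : S_MOB.{u}) (hITR : S_ITR.{u}) (hFIB : S_FIB.{u}) (hMIV : S_MIV.{u}) :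
    S_FMS.{u} := by
  intro K _ _ d B hd p q hpq
  obtain ⟨hinv, hcomp, -, -⟩ := hMOB K
  have hone : ∀ m, 1 ≤ m → {l | IsMult p q d m l}.Finite := by
    intro m hm
    have hD : 2 ≤ d ^ m := by
      calc 2 ≤ d := hd
        _ = d ^ 1 := (pow_one d).symm
        _ ≤ d ^ m := Nat.pow_le_pow_right (by omega) hm
    obtain ⟨hrat, hit⟩ := hITR K d (by omega) p q hpq m
    have hfix : {z | (mapP1 p q d)^[m] z = z}.Finite := by
      have h1 := (hFIB K (d ^ m) (by omega) _ _ hrat).2.1 hD
      refine h1.subset fun z hz => ?_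
      show mapP1 _ _ _ z = z
      rw [hit]
      exact hz
    have hsub : {l | IsMult p q d m l} ⊆ ⋃ z ∈ {z | (mapP1 p q d)^[m] z = z},
        {l | ∃ a b c e : K, a * e - b * c ≠ 0 ∧ mob a b c e z = some 0 ∧ ∃ P Q : K[X],
          IsCoprime P Q ∧ max P.natDegree Q.natDegree = d ^ m ∧ P.coeff 0 = 0 ∧
          l = P.coeff 1 / Q.coeff 0 ∧
          ∀ z, mapP1 P Q (d ^ m) (mob a b c e z) = mob a b c e ((mapP1 p q d)^[m] z)} := by
      rintro l ⟨a, b, c, e, hdet, P, Q, hcop, hmax, hP0, hl, hconj⟩
      have hz : mob a b c e (mob e (-b) (-c) a (some 0)) = some 0 := (hinv a b c e hdet _).2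
      refine Set.mem_biUnion (x := mob e (-b) (-c) a (some 0)) ?_
        ⟨a, b, c, e, hdet, hz, P, Q, hcop, hmax, hP0, hl, hconj⟩
      show (mapP1 p q d)^[m] (mob e (-b) (-c) a (some 0)) = mob e (-b) (-c) a (some 0)
      have h1 := hconj (mob e (-b) (-c) a (some 0))
      have hP00 : P.eval 0 = 0 := by rw [← coeff_zero_eq_eval_zero]; exact hP0
      rw [hz, map_some_ne (eval_ne hcop hP00), hP00, zero_div] at h1
      have h2 := (hinv a b c e hdet ((mapP1 p q d)^[m] (mob e (-b) (-c) a (some 0)))).1
      rw [← h1] at h2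
      exact h2.symm
    refine (Set.Finite.biUnion hfix fun z _ => ?_).subset hsub
    refine Set.Subsingleton.finite ?_
    rintro l ⟨a, b, c, e, hdet, hz, P, Q, hcop, hmax, hP0, hl, hconj⟩ l' ⟨a', b', c', e', hdet',
      hz', P', Q', hcop', hmax', hP0', hl', hconj'⟩
    have hdi : e * a - (-b) * (-c) ≠ 0 := by
      have : e * a - (-b) * (-c) = a * e - b * c := by ring
      rw [this]
      exact hdet
    have hmu := hcomp a' b' c' e' e (-b) (-c) a hdet' hdi
    have hdmu : (a' * e + b' * -c) * (c' * -b + e' * a) - (a' * -b + b' * a) * (c' * e + e' * -c) ≠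
        0 := by
      have h1 : (a' * e + b' * -c) * (c' * -b + e' * a) -
          (a' * -b + b' * a) * (c' * e + e' * -c) = (a' * e' - b' * c') * (a * e - b * c) := by
        ring
      rw [h1]
      exact mul_ne_zero hdet' hdet
    have h0 : mob e (-b) (-c) a (some 0) = z := by
      rw [← hz]
      exact (hinv a b c e hdet z).1
    have hfin := hMIV K (d ^ m) (by omega) P Q P' Q' ⟨hcop, hmax⟩ ⟨hcop', hmax'⟩ hP0 hP0'
      (a' * e + b' * -c) (a' * -b + b' * a) (c' * e + e' * -c) (c' * -b + e' * a) hdmu
      (by rw [← hmu, h0, hz'])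
      (by
        intro w
        rw [← hmu, ← hmu]
        obtain ⟨v, hv⟩ : ∃ v, v = mob e (-b) (-c) a w := ⟨_, rfl⟩
        have hw : w = mob a b c e v := by
          rw [hv]
          exact ((hinv a b c e hdet w).2).symm
        rw [← hv, hconj']
        conv_rhs => rw [hw]
        rw [hconj, (hinv a b c e hdet _).1])
    rw [hl, hl', hfin]
  have hsub : Ms p q d B ⊆ ⋃ m ∈ (Finset.Icc 1 B : Set ℕ), {l | IsMult p q d m l} := by
    rintro l ⟨m, hm1, hm2, hl⟩
    refine Set.mem_biUnion (x := m) ?_ hl
    rw [Finset.mem_coe, Finset.mem_Icc]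
    exact ⟨hm1, hm2⟩
  refine (Set.Finite.biUnion (Finset.finite_toSet _) fun m hm => ?_).subset hsub
  rw [Finset.mem_coe, Finset.mem_Icc] at hm
  exact hone m hm.1

end Pool.Agent.N820.SU.Fib
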