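import Pool.Agent.N820.SU.Stm

/-!
# Project SU: a fixed point which is not totally ramified
-/

set_option autoImplicit false

namespace Pool.Agent.N820.SU.Fix

open Polynomial Pool.Agent.N820.SU

universe u

/-- a polynomial over an algebraically closed field with only one root -/
lemma one_root {K : Type u} [Field K] [IsAlgClosed K] (f : K[X]) (z : K)
    (h : ∀ w, f.eval w = 0 → w = z) (hf : f ≠ 0) :
    f = C f.leadingCoeff * (X - C z) ^ f.natDegree := by
  classical
  have h1 : f.roots = Multiset.replicate f.natDegree z := by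
    rw [Multiset.eq_replicate]
    refine ⟨?_, fun w hw => h w ((mem_roots hf).1 hw)⟩
    exact (IsAlgClosed.splits f).natDegree_eq_card_roots.symm
  have h2 := (IsAlgClosed.splits f).eq_prod_roots
  rw [h1, Multiset.map_replicate, Multiset.prod_replicate] at h2
  exact h2

/-- the case in which infinity is not fixed -/
theorem fix_aux {K : Type u} [Field K] [CharZero K] [IsAlgClosed K] (d : ℕ) (hd : 2 ≤ d)
    (p q : K[X]) (hpq : IsCoprime p q) (hp : p.natDegree ≤ d) (hq : q.natDegree = d) :
    ∃ x y, mapP1 p q d x = x ∧ y ≠ x ∧ mapP1 p q d y = x := by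
  classical
  by_contra hcon
  push Not at hcon
  have hq0 : q ≠ 0 := by
    rintro rfl
    simp at hq
    omega
  have hqd : q.coeff d ≠ 0 := by
    rw [← hq]
    exact leadingCoeff_ne_zero.2 hq0
  -- no common roots
  have hcop : ∀ x, p.eval x = 0 → q.eval x ≠ 0 := by
    intro x h1 h2
    obtain ⟨a, b, hab⟩ := hpq
    have := congrArg (Polynomial.eval x) hab
    simp [h1, h2] at this
  set A : K[X] := p - X * q with hA
  have hAroot : ∀ z, A.eval z = 0 → q.eval z ≠ 0 ∧ p.eval z = z * q.eval z := by
    intro z hz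
    have h1 : p.eval z = z * q.eval z := by
      have : A.eval z = p.eval z - z * q.eval z := by simp [hA]
      rw [this] at hz
      exact sub_eq_zero.1 hz
    refine ⟨fun h2 => ?_, h1⟩
    exact hcop z (by rw [h1, h2, mul_zero]) h2
  -- the shape of p - z q
  have hshape : ∀ z, A.eval z = 0 → ∃ c : K, c ≠ 0 ∧ p - C z * q = C c * (X - C z) ^ d := by
    intro z hz
    obtain ⟨h1, h2⟩ := hAroot z hz
    have hfix : mapP1 p q d (some z) = some z := by
      simp only [mapP1, h1, if_false]
      rw [h2]
      congr 1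
      field_simp
    have hcoef : (p - C z * q).coeff d ≠ 0 := by
      intro h3
      have h4 : mapP1 p q d none = some z := by
        simp only [mapP1, hqd, if_false]
        congr 1
        rw [coeff_sub, coeff_C_mul, sub_eq_zero] at h3
        rw [h3]
        field_simp
      exact hcon (some z) none hfix (by simp) h4
    have hne : p - C z * q ≠ 0 := by
      intro h3
      rw [h3] at hcoef
      simp at hcoef
    have hdeg : (p - C z * q).natDegree = d := by
      refine le_antisymm ?_ (le_natDegree_of_ne_zero hcoef)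
      refine (natDegree_sub_le _ _).trans (max_le hp ?_)
      exact (natDegree_C_mul_le _ _).trans hq.le
    have hone : ∀ w, (p - C z * q).eval w = 0 → w = z := by
      intro w hw
      have h3 : p.eval w = z * q.eval w := by
        have : (p - C z * q).eval w = p.eval w - z * q.eval w := by simp
        rw [this] at hw
        exact sub_eq_zero.1 hw
      have h4 : q.eval w ≠ 0 := fun h5 => hcop w (by rw [h3, h5, mul_zero]) h5
      have h5 : mapP1 p q d (some w) = some z := by
        simp only [mapP1, h4, if_false]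
        rw [h3]
        congr 1
        field_simp
      by_contra h6
      exact hcon (some z) (some w) hfix (by simpa using h6) h5
    refine ⟨(p - C z * q).leadingCoeff, leadingCoeff_ne_zero.2 hne, ?_⟩
    have := one_root (p - C z * q) z hone hne
    rw [hdeg] at this
    exact this
  -- A has degree d + 1
  have hXq : (X * q).natDegree = d + 1 := by
    rw [natDegree_X_mul hq0, hq]
  have hAdeg : A.natDegree = d + 1 := by
    rw [hA, ← hXq]
    refine natDegree_sub_eq_right_of_natDegree_lt ?_
    rw [hXq]
    omega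
  have hA0 : A ≠ 0 := by
    intro h
    rw [h] at hAdeg
    simp at hAdeg
  -- A is separable
  have hAsep : ∀ z, A.eval z = 0 → (derivative A).eval z ≠ 0 := by
    intro z hz
    obtain ⟨c, hc, hs⟩ := hshape z hz
    have h1 : A = C c * (X - C z) ^ d - (X - C z) * q := by
      rw [← hs, hA]
      ring
    have h2 : (derivative A).eval z = - q.eval z := by
      rw [h1]
      simp only [derivative_sub, derivative_mul, derivative_C, zero_mul, zero_add,
        derivative_X_sub_C_pow, derivative_X, sub_zero, one_mul]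
      simp only [eval_sub, eval_mul, eval_add, eval_pow, eval_X, eval_C, sub_self,
        zero_mul, add_zero]
      rw [zero_pow (by omega)]
      ring
    rw [h2]
    exact neg_ne_zero.2 (hAroot z hz).1
  have hnodup : A.roots.Nodup := by
    rw [Multiset.nodup_iff_count_le_one]
    intro z
    rw [count_roots]
    by_contra h
    push Not at h
    have h1 : (derivative A).IsRoot z := by
      have := (one_lt_rootMultiplicity_iff_isRoot hA0).1 h
      exact this.2
    have h2 : A.eval z = 0 := by
      have := (one_lt_rootMultiplicity_iff_isRoot hA0).1 h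
      exact this.1
    exact hAsep z h2 h1
  have hcard : A.roots.toFinset.card = d + 1 := by
    rw [Multiset.toFinset_card_of_nodup hnodup, ← hAdeg]
    exact (IsAlgClosed.splits A).natDegree_eq_card_roots.symm
  obtain ⟨z0, z1, z2, h0, h1, h2, h01, h02, h12⟩ :
      ∃ z0 z1 z2, z0 ∈ A.roots.toFinset ∧ z1 ∈ A.roots.toFinset ∧ z2 ∈ A.roots.toFinset ∧
        z0 ≠ z1 ∧ z0 ≠ z2 ∧ z1 ≠ z2 := by
    have := Finset.two_lt_card.1 (show 2 < A.roots.toFinset.card by omega)
    obtain ⟨a, ha, b, hb, c, hc, hab, hac, hbc⟩ := this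
    exact ⟨a, b, c, ha, hb, hc, hab, hac, hbc⟩
  have hroot : ∀ z, z ∈ A.roots.toFinset → A.eval z = 0 := by
    intro z hz
    rw [Multiset.mem_toFinset, mem_roots hA0] at hz
    exact hz
  obtain ⟨c0, hc0, e0⟩ := hshape z0 (hroot z0 h0)
  obtain ⟨c1, hc1, e1⟩ := hshape z1 (hroot z1 h1)
  obtain ⟨c2, hc2, e2⟩ := hshape z2 (hroot z2 h2)
  have key : C (z1 - z0) * (C c2 * (X - C z2) ^ d) =
      C (z1 - z2) * (C c0 * (X - C z0) ^ d) + C (z2 - z0) * (C c1 * (X - C z1) ^ d) := by
    rw [← e0, ← e1, ← e2]
    simp only [C_sub]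
    ring
  have v1 := congrArg (Polynomial.eval z2) key
  have v2 := congrArg (fun f => Polynomial.eval z2 (derivative f)) key
  simp only [eval_mul, eval_add, eval_sub, eval_pow, eval_C, eval_X, sub_self] at v1
  rw [zero_pow (by omega)] at v1
  simp only [derivative_add, derivative_mul, derivative_C, zero_mul, zero_add,
    derivative_X_sub_C_pow] at v2
  simp only [eval_mul, eval_add, eval_sub, eval_pow, eval_C, eval_X, sub_self] at v2
  rw [zero_pow (by omega)] at v2
  have hd0 : (d : K) ≠ 0 := by
    have : d ≠ 0 := by omega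
    exact_mod_cast this
  obtain ⟨m, rfl⟩ : ∃ m, d = m + 1 := ⟨d - 1, by omega⟩
  simp only [Nat.add_sub_cancel] at v2
  have v3 : 0 = (z1 - z2) * c0 * (z2 - z0) ^ m + (z2 - z0) * c1 * (z2 - z1) ^ m := by
    have : ((m + 1 : ℕ) : K) * 0 = ((m + 1 : ℕ) : K) *
        ((z1 - z2) * c0 * (z2 - z0) ^ m + (z2 - z0) * c1 * (z2 - z1) ^ m) := by
      linear_combination v2
    exact mul_left_cancel₀ hd0 this
  have v4 : (z1 - z2) * c0 * (z2 - z0) ^ m * (z1 - z0) = 0 := by
    rw [pow_succ] at v1
    linear_combination (z2 - z1) * v3 - v1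
  have h5 : z1 - z2 ≠ 0 := sub_ne_zero.2 h12
  have h6 : z2 - z0 ≠ 0 := sub_ne_zero.2 (Ne.symm h02)
  have h7 : z1 - z0 ≠ 0 := sub_ne_zero.2 (Ne.symm h01)
  exact absurd v4 (mul_ne_zero (mul_ne_zero (mul_ne_zero h5 hc0) (pow_ne_zero _ h6)) h7)

theorem t_FIX (hMOB : S_MOB.{u}) (hCNJ : S_CNJ.{u}) (hFIB : S_FIB.{u}) : S_FIX.{u} := by
  intro K _ _ _ d hd p q hpq
  classical
  obtain ⟨-, hfin, -⟩ := hFIB K d (by omega) p q hpq
  have hfin := hfin hd
  -- a finite point which is not fixed
  obtain ⟨t, ht⟩ : ∃ t : K, mapP1 p q d (some t) ≠ some t := by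
    by_contra h
    push Not at h
    have h1 : (Set.range (some : K → Option K)) ⊆ {z | mapP1 p q d z = z} := by
      rintro _ ⟨t, rfl⟩
      exact h t
    have h2 : (Set.range (some : K → Option K)).Finite := hfin.subset h1
    exact Set.infinite_range_of_injective (Option.some_injective K) h2
  have hdet : (0 : K) * (-t) - 1 * 1 ≠ 0 := by simp
  obtain ⟨u, w, huw, hconj⟩ := hCNJ K d (by omega) p q hpq 0 1 1 (-t) hdet
  obtain ⟨hinv, -, -, -⟩ := hMOB K
  have hinv := hinv 0 1 1 (-t) hdet
  have hmt : mob (0 : K) 1 1 (-t) (some t) = none := by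
    simp [mob]
  have hinj : ∀ z z', mob (0 : K) 1 1 (-t) z = mob 0 1 1 (-t) z' → z = z' := by
    intro z z' h
    rw [← (hinv z).1, ← (hinv z').1, h]
  have hnone : mapP1 u w d none ≠ none := by
    intro h
    have h1 := hconj (some t)
    rw [hmt, h, ← hmt] at h1
    exact ht (hinj _ _ h1).symm
  have hwd : w.coeff d ≠ 0 := by
    intro h
    apply hnone
    simp [mapP1, h]
  have hu : u.natDegree ≤ d := by
    have := huw.2
    rw [← this]
    exact le_max_left _ _
  have hw : w.natDegree = d := by
    refine le_antisymm ?_ (le_natDegree_of_ne_zero hwd)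
    have := huw.2
    rw [← this]
    exact le_max_right _ _
  obtain ⟨x, y, hx, hyx, hy⟩ := fix_aux d hd u w huw.1 hu hw
  refine ⟨mob (-t) (-1) (-1) 0 x, mob (-t) (-1) (-1) 0 y, ?_, ?_, ?_⟩
  · apply hinj
    rw [← hconj, (hinv x).2, hx]
  · intro h
    apply hyx
    rw [← (hinv x).2, ← (hinv y).2, h]
  · apply hinj
    rw [← hconj, (hinv y).2, (hinv x).2, hy]

end Pool.Agent.N820.SU.Fix
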