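import Pool.Agent.N820.SU.Stm2

/-!
# Project SU: a map has finitely many normal forms (job FNF)
-/

set_option autoImplicit false

namespace Pool.Agent.N820.SU.Fnf

open Polynomial Pool.Agent.N820.SU

universe u

/-- conjugation passes to the iterates -/
lemma iter_conj {A : Type*} (f g phi : A → A) (h : ∀ z, g (phi z) = phi (f z)) (n : ℕ) :
    ∀ z, g^[n] (phi z) = phi (f^[n] z) := by
  induction n with
  | zero => intro z; rfl
  | succ n ih =>
    intro z
    rw [Function.iterate_succ_apply, Function.iterate_succ_apply, h, ih]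

/-- the scalar multiples of a pair with a coefficient one -/
lemma scal_fin {K : Type*} [Field K] (p q : K[X]) :
    {g : K[X] × K[X] | (∃ s : K, s ≠ 0 ∧ g.1 = C s * p ∧ g.2 = C s * q) ∧
      ((∃ i, g.1.coeff i = 1) ∨ ∃ i, g.2.coeff i = 1)}.Finite := by
  classical
  have h1 : ((fun s : K => ((C s * p, C s * q) : K[X] × K[X])) ''
      ((↑(p.support.image fun i => (p.coeff i)⁻¹) : Set K) ∪
        (↑(q.support.image fun i => (q.coeff i)⁻¹) : Set K))).Finite :=
    Set.Finite.image _ ((Finset.finite_toSet _).union (Finset.finite_toSet _))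
  refine h1.subset ?_
  rintro ⟨g1, g2⟩ ⟨⟨s, hs, rfl, rfl⟩, hc⟩
  refine ⟨s, ?_, rfl⟩
  rcases hc with ⟨i, hi⟩ | ⟨i, hi⟩
  · left
    simp only [coeff_C_mul] at hi
    have hne : p.coeff i ≠ 0 := by
      intro h0
      rw [h0, mul_zero] at hi
      exact zero_ne_one hi
    rw [Finset.mem_coe, Finset.mem_image]
    exact ⟨i, mem_support_iff.mpr hne, (eq_inv_of_mul_eq_one_left hi).symm⟩
  · right
    simp only [coeff_C_mul] at hi
    have hne : q.coeff i ≠ 0 := by
      intro h0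
      rw [h0, mul_zero] at hi
      exact zero_ne_one hi
    rw [Finset.mem_coe, Finset.mem_image]
    exact ⟨i, mem_support_iff.mpr hne, (eq_inv_of_mul_eq_one_left hi).symm⟩

/-- the triples -/
lemma trip_fin {A : Type*} (F : A → A) (hfib : ∀ y, {z | F z = y}.Finite)
    (hfix : {z | F z = z}.Finite) :
    {t : A × A × A | F t.1 = t.1 ∧ F t.2.1 = t.1 ∧ F t.2.2 = t.2.1}.Finite := by
  have h1 : (⋃ x ∈ {z | F z = z}, {z | F z = x}).Finite := hfix.biUnion fun x _ => hfib x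
  have h2 : (⋃ y ∈ (⋃ x ∈ {z | F z = z}, {z | F z = x}), {z | F z = y}).Finite :=
    h1.biUnion fun y _ => hfib y
  refine (hfix.prod (h1.prod h2)).subset ?_
  rintro ⟨x, y, z⟩ ⟨hx, hy, hz⟩
  have hy' : y ∈ (⋃ x ∈ {z | F z = z}, {z | F z = x}) := by
    rw [Set.mem_iUnion₂]
    exact ⟨x, hx, hy⟩
  refine ⟨hx, hy', ?_⟩
  show z ∈ _
  rw [Set.mem_iUnion₂]
  exact ⟨y, hy', hz⟩

theorem t_FNF (hMOB : S_MOB.{u}) (hITR : S_ITR.{u}) (hFIB : S_FIB.{u}) (hUNQ : S_UNQ.{u}) :
    S_FNF.{u} := by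
  intro K _ _ d n hd hn p q hpq
  obtain ⟨hM1, hM2, -, hM4⟩ := hMOB K
  have hd1 : 1 ≤ d := by omega
  have hD : 2 ≤ d ^ n := by
    calc 2 ≤ d := hd
      _ = d ^ 1 := (pow_one d).symm
      _ ≤ d ^ n := Nat.pow_le_pow_right hd1 hn
  obtain ⟨hR, hRz⟩ := hITR K d hd1 p q hpq n
  obtain ⟨hF1, hF2, -⟩ := hFIB K (d ^ n) (by omega) _ _ hR
  have hF2' := hF2 hD
  simp only [hRz] at hF1 hF2'
  have hT := trip_fin (mapP1 p q d)^[n] hF1 hF2'
  -- the set is covered by finite sets indexed by the triples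
  have hcov : (⋃ t ∈ {t : Option K × Option K × Option K | (mapP1 p q d)^[n] t.1 = t.1 ∧
      (mapP1 p q d)^[n] t.2.1 = t.1 ∧ (mapP1 p q d)^[n] t.2.2 = t.2.1},
      {g : K[X] × K[X] | NF d n g.1 g.2 ∧ ∃ a b c e : K, a * e - b * c ≠ 0 ∧
        (∀ z, mapP1 g.1 g.2 d (mob a b c e z) = mob a b c e (mapP1 p q d z)) ∧
        mob e (-b) (-c) a (some 0) = t.1 ∧ mob e (-b) (-c) a none = t.2.1 ∧
        mob e (-b) (-c) a (some 1) = t.2.2}).Finite := by
    refine hT.biUnion fun t _ => ?_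
    by_cases hne : ∃ g0 : K[X] × K[X], NF d n g0.1 g0.2 ∧ ∃ a b c e : K, a * e - b * c ≠ 0 ∧
        (∀ z, mapP1 g0.1 g0.2 d (mob a b c e z) = mob a b c e (mapP1 p q d z)) ∧
        mob e (-b) (-c) a (some 0) = t.1 ∧ mob e (-b) (-c) a none = t.2.1 ∧
        mob e (-b) (-c) a (some 1) = t.2.2
    · obtain ⟨g0, hg0, a0, b0, c0, e0, hdet0, hconj0, h00, h01, h02⟩ := hne
      refine (scal_fin g0.1 g0.2).subset ?_
      rintro g ⟨hg, a, b, c, e, hdet, hconj, h10, h11, h12⟩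
      refine ⟨?_, hg.2.2.2.2⟩
      refine hUNQ K d hd1 _ _ _ _ hg0.1 hg.1 ?_
      -- the coordinates agree
      have hdet0' : e0 * a0 - -b0 * -c0 ≠ 0 := by
        intro h; apply hdet0; linear_combination h
      have hfix : ∀ y, mob (a * e0 + b * -c0) (a * -b0 + b * a0) (c * e0 + e * -c0)
          (c * -b0 + e * a0) y = mob a b c e (mob e0 (-b0) (-c0) a0 y) := fun y =>
        (hM2 a b c e e0 (-b0) (-c0) a0 hdet hdet0' y).symm
      have hdet' : (a * e0 + b * -c0) * (c * -b0 + e * a0) -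
          (a * -b0 + b * a0) * (c * e0 + e * -c0) ≠ 0 := by
        have : (a * e0 + b * -c0) * (c * -b0 + e * a0) -
          (a * -b0 + b * a0) * (c * e0 + e * -c0) = (a * e - b * c) * (a0 * e0 - b0 * c0) := by
          ring
        rw [this]
        exact mul_ne_zero hdet hdet0
      have hid := hM4 _ _ _ _ hdet'
        (by rw [hfix, h00, ← h10]; exact (hM1 a b c e hdet _).2)
        (by rw [hfix, h01, ← h11]; exact (hM1 a b c e hdet _).2)
        (by rw [hfix, h02, ← h12]; exact (hM1 a b c e hdet _).2)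
      have hphi : ∀ z, mob a b c e z = mob a0 b0 c0 e0 z := by
        intro z
        have h1 := hid (mob a0 b0 c0 e0 z)
        rw [hfix, (hM1 a0 b0 c0 e0 hdet0 z).1] at h1
        exact h1
      intro z
      have h3 := hconj (mob e (-b) (-c) a z)
      rw [(hM1 a b c e hdet z).2] at h3
      have h4 := hconj0 (mob e (-b) (-c) a z)
      rw [← hphi, (hM1 a b c e hdet z).2, ← hphi] at h4
      rw [h3, h4]
    · convert Set.finite_empty
      ext g
      exact ⟨fun hg => absurd ⟨g, hg⟩ hne, fun h => absurd h (Set.notMem_empty _)⟩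
  refine hcov.subset ?_
  rintro g ⟨hg, hc⟩
  have hex : ∃ a b c e : K, a * e - b * c ≠ 0 ∧
      ∀ z, mapP1 g.1 g.2 d (mob a b c e z) = mob a b c e (mapP1 p q d z) := by
    rcases hc with ⟨a, b, c, e, hdet, h⟩ | ⟨a, b, c, e, hdet, h⟩
    · exact ⟨a, b, c, e, hdet, h⟩
    · refine ⟨e, -b, -c, a, by intro h0; apply hdet; linear_combination h0, fun z => ?_⟩
      have h1 := h (mob e (-b) (-c) a z)
      rw [(hM1 a b c e hdet z).2] at h1
      rw [h1, (hM1 a b c e hdet _).1]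
  obtain ⟨a, b, c, e, hdet, h⟩ := hex
  have hit := iter_conj _ _ _ h n
  have hinv : ∀ y, (mapP1 p q d)^[n] (mob e (-b) (-c) a y) =
      mob e (-b) (-c) a ((mapP1 g.1 g.2 d)^[n] y) := by
    intro y
    have h1 := hit (mob e (-b) (-c) a y)
    rw [(hM1 a b c e hdet y).2] at h1
    rw [h1, (hM1 a b c e hdet _).1]
  have hz := hg.2.1
  have hi := hg.2.2.1
  have ho := hg.2.2.2.1
  rw [Set.mem_iUnion₂]
  refine ⟨(mob e (-b) (-c) a (some 0), mob e (-b) (-c) a none, mob e (-b) (-c) a (some 1)),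
    ⟨?_, ?_, ?_⟩, hg, a, b, c, e, hdet, h, rfl, rfl, rfl⟩
  · show (mapP1 p q d)^[n] (mob e (-b) (-c) a (some 0)) = _
    rw [hinv, hz]
  · show (mapP1 p q d)^[n] (mob e (-b) (-c) a none) = _
    rw [hinv, hi]
  · show (mapP1 p q d)^[n] (mob e (-b) (-c) a (some 1)) = _
    rw [hinv, ho]

end Pool.Agent.N820.SU.Fnf
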