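import Pool.Agent.N820.SU.Stm

/-!
# Project SU: a critical point of large canonical height (job GLB)
-/

set_option autoImplicit false

namespace Pool.Agent.N820.SU.Glb

open Polynomial Pool.Agent.W277.UB Pool.Agent.N820.SU

universe u v w

lemma wr_ne {L : Type*} [Field L] [CharZero L] (p q : L[X]) (hco : IsCoprime p q) (d : ℕ)
    (hd : 1 ≤ d) (hmax : max p.natDegree q.natDegree = d) : Wr p q ≠ 0 := by
  intro h
  have h1 : wronskian p q = 0 := by
    unfold wronskian
    unfold Wr at h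
    linear_combination -h
  obtain ⟨h2, h3⟩ := hco.wronskian_eq_zero_iff.mp h1
  have h4 := natDegree_eq_zero_of_derivative_eq_zero h2
  have h5 := natDegree_eq_zero_of_derivative_eq_zero h3
  rw [h4, h5] at hmax
  simp at hmax
  omega

lemma wr_deg {L : Type*} [Field L] (p q : L[X]) (d : ℕ)
    (hmax : max p.natDegree q.natDegree = d) : (Wr p q).natDegree ≤ 2 * d := by
  unfold Wr
  refine (natDegree_sub_le _ _).trans (max_le ?_ ?_)
  · refine natDegree_mul_le.trans ?_
    have := natDegree_derivative_le p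
    omega
  · refine natDegree_mul_le.trans ?_
    have := natDegree_derivative_le q
    omega

section
variable {k : Type v} {K : Type u} [Field k] [CharZero k] [Field K] [Algebra k K]

lemma hq_zero (Q : PlaceData.{w} k K) : hq Q (0 : K) = 0 := by
  unfold hq
  simp [PlaceData.pole_zero]

/-- lower bound of the height by a partial sum -/
lemma le_hq (hHQ : S_HQ.{u, v, w}) (Q : PlaceData.{w} k K) (x : K) (T : Finset Q.Pl) :
    ∑ v ∈ T, Q.wt v * Q.pole v x ≤ hq Q x := by
  classical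
  obtain ⟨-, h2, h3, -⟩ := hHQ k K Q
  have hf := h2 x
  rw [h3 x (T ∪ hf.toFinset)]
  · refine Finset.sum_le_sum_of_subset_of_nonneg Finset.subset_union_left ?_
    intro v _ _
    exact mul_nonneg (Q.wt_nonneg v) (PlaceData.pole_nonneg v x)
  · intro v hv
    by_contra hne
    apply hv
    rw [Finset.mem_union]
    right
    rw [Set.Finite.mem_toFinset]
    have := Q.wt_one v
    show Q.wt v * Q.pole v x ≠ 0
    exact mul_ne_zero (by omega) hne

end

theorem t_GLB (hHQ : S_HQ.{u, v, w}) (hHF : S_HF.{u, v, w}) (hLCP : S_LCP.{u, v, w}) :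
    S_GLB.{u, v, w} := by
  classical
  intro D C₀ hD
  obtain ⟨C, hC⟩ := hHF D hD
  set K0 : ℕ := C * C₀ + 1 with hK0
  set j0 : ℕ := 2 * D * (K0 + 1) with hj0
  refine ⟨D ^ j0, j0, ?_⟩
  intro k K _ _ _ _ Q p q hco hp0 hq0 hdeg hqD hq1 hsp hpos hcoef
  obtain ⟨H1, H2, H3, H4, H5, H6, H7, H8, H9⟩ := hHQ k K Q
  set lam := p.coeff 1 with hlam
  have hlam0 : lam ≠ 0 := by
    intro h
    rw [h, hq_zero] at hpos
    exact lt_irrefl _ hpos
  haveI : CharZero K := charZero_of_injective_algebraMap (algebraMap k K).injective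
  have hmax : max p.natDegree q.natDegree = D := by omega
  have hW0 : Wr p q ≠ 0 := wr_ne p q hco D (by omega) hmax
  set h := hq Q lam with hh
  -- the local lemma
  have hloc : ∀ v : Q.Pl, 0 < Q.ord v lam → ∃ c : K, (Wr p q).eval c = 0 ∧ ∀ j : ℕ, ∃ x : K,
      (mapP1 p q D)^[j + 1] (some c) = some x ∧ x ≠ 0 ∧ (j + 1) * Q.ord v lam ≤ Q.ord v x := by
    intro v hv
    have := hLCP k K Q v p q hco hp0 hq0 hdeg (by omega) hlam0 hv hq1 hsp
    rw [hqD] at this
    exact this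
  choose! c hc1 hc2 using hloc
  set S : Finset Q.Pl := (Q.fin lam hlam0).toFinset with hS
  set T : Finset Q.Pl := S.filter (fun v => 0 < Q.ord v lam) with hT
  have hTpos : ∀ v ∈ T, 0 < Q.ord v lam := fun v hv => (Finset.mem_filter.mp hv).2
  have hsum : ∑ v ∈ T, Q.wt v * Q.ord v lam = h := by
    have e1 : hq Q lam⁻¹ = h := H4 lam hlam0
    rw [← e1, H3 lam⁻¹ S]
    · rw [hT, Finset.sum_filter]
      refine Finset.sum_congr rfl ?_
      intro v _
      rw [PlaceData.pole_of_ne (inv_ne_zero hlam0), PlaceData.ord_inv hlam0, neg_neg]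
      split_ifs with hv
      · rw [max_eq_right hv.le]
      · rw [max_eq_left (not_lt.mp hv), mul_zero]
    · intro v hv
      have : Q.ord v lam = 0 := by
        by_contra hne
        apply hv
        rw [hS, Set.Finite.mem_toFinset]
        exact hne
      rw [PlaceData.pole_of_ne (inv_ne_zero hlam0), PlaceData.ord_inv hlam0, this]
      simp
  set R : Finset K := (Wr p q).roots.toFinset with hR
  have hRcard : R.card ≤ 2 * D :=
    (Multiset.toFinset_card_le _).trans ((card_roots' _).trans (wr_deg p q D hmax))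
  have hcR : ∀ v ∈ T, c v ∈ R := by
    intro v hv
    rw [hR, Multiset.mem_toFinset, mem_roots hW0]
    exact hc1 v (hTpos v hv)
  have hfib : ∑ b ∈ R, ∑ v ∈ T.filter (fun v => c v = b), Q.wt v * Q.ord v lam = h := by
    rw [← hsum]
    exact Finset.sum_fiberwise_of_maps_to hcR _
  obtain ⟨b, hbR, hb⟩ : ∃ b ∈ R, h ≤ 2 * D *
      ∑ v ∈ T.filter (fun v => c v = b), Q.wt v * Q.ord v lam := by
    by_contra hcon
    push Not at hcon
    have hTne : T.Nonempty := by
      rw [Finset.nonempty_iff_ne_empty]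
      intro he
      rw [he, Finset.sum_empty] at hsum
      omega
    obtain ⟨v0, hv0⟩ := hTne
    have hRne : R.Nonempty := ⟨c v0, hcR v0 hv0⟩
    have h1 : ∑ b ∈ R, 2 * (D : ℤ) * ∑ v ∈ T.filter (fun v => c v = b), Q.wt v * Q.ord v lam <
        ∑ b ∈ R, h := Finset.sum_lt_sum_of_nonempty hRne fun b hb => hcon b hb
    rw [← Finset.mul_sum, hfib, Finset.sum_const, nsmul_eq_mul] at h1
    have h2 : (R.card : ℤ) ≤ 2 * D := by exact_mod_cast hRcard
    nlinarith
  set Tb := T.filter (fun v => c v = b) with hTb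
  set s := ∑ v ∈ Tb, Q.wt v * Q.ord v lam with hs
  have hTbne : Tb.Nonempty := by
    rw [Finset.nonempty_iff_ne_empty]
    intro he
    rw [hs, he, Finset.sum_empty] at hb
    omega
  obtain ⟨v0, hv0⟩ := hTbne
  have hmem : ∀ v ∈ Tb, v ∈ T ∧ c v = b := fun v hv => Finset.mem_filter.mp hv
  have hWb : (Wr p q).eval b = 0 := by
    rw [hR, Multiset.mem_toFinset, mem_roots hW0] at hbR
    exact hbR
  -- the orbit
  have horb : ∀ j : ℕ, ∃ x : K, (mapP1 p q D)^[j + 1] (some b) = some x ∧ x ≠ 0 ∧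
      ∀ v ∈ Tb, (j + 1) * Q.ord v lam ≤ Q.ord v x := by
    intro j
    obtain ⟨hv0T, hv0b⟩ := hmem v0 hv0
    obtain ⟨x, hx1, hx2, -⟩ := hc2 v0 (hTpos v0 hv0T) j
    rw [hv0b] at hx1
    refine ⟨x, hx1, hx2, ?_⟩
    intro v hv
    obtain ⟨hvT, hvb⟩ := hmem v hv
    obtain ⟨x', hx1', -, hx3'⟩ := hc2 v (hTpos v hvT) j
    rw [hvb, hx1] at hx1'
    have : x = x' := Option.some_injective _ hx1'
    rw [this]
    exact hx3'
  choose x hx1 hx2 hx3 using horb
  have hlow : ∀ j : ℕ, ((j : ℤ) + 1) * h ≤ 2 * D * hq Q (x j) := by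
    intro j
    have e1 : hq Q (x j)⁻¹ = hq Q (x j) := H4 _ (hx2 j)
    have e2 := le_hq hHQ Q (x j)⁻¹ Tb
    have e3 : ∑ v ∈ Tb, Q.wt v * (((j : ℤ) + 1) * Q.ord v lam) ≤
        ∑ v ∈ Tb, Q.wt v * Q.pole v (x j)⁻¹ := by
      refine Finset.sum_le_sum ?_
      intro v hv
      refine mul_le_mul_of_nonneg_left ?_ (Q.wt_nonneg v)
      rw [PlaceData.pole_of_ne (inv_ne_zero (hx2 j)), PlaceData.ord_inv (hx2 j), neg_neg]
      exact (hx3 j v hv).trans (le_max_right _ _)
    have e4 : ∑ v ∈ Tb, Q.wt v * (((j : ℤ) + 1) * Q.ord v lam) = ((j : ℤ) + 1) * s := by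
      rw [hs, Finset.mul_sum]
      refine Finset.sum_congr rfl fun v _ => by ring
    rw [e4] at e3
    rw [e1] at e2
    have e5 : ((j : ℤ) + 1) * s ≤ hq Q (x j) := e3.trans e2
    have e6 : ((j : ℤ) + 1) * h ≤ ((j : ℤ) + 1) * (2 * D * s) :=
      mul_le_mul_of_nonneg_left hb (by positivity)
    have e7 : (2 * (D : ℤ)) * (((j : ℤ) + 1) * s) ≤ 2 * D * hq Q (x j) :=
      mul_le_mul_of_nonneg_left e5 (by positivity)
    linarith
  have hstep : ∀ j : ℕ, (D : ℤ) * hq Q (x j) ≤ hq Q (x (j + 1)) + C * (C₀ * h) := by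
    intro j
    refine hC k K Q p q ⟨hco, hmax⟩ (C₀ * h) hcoef (x j) (x (j + 1)) ?_
    have := hx1 (j + 1)
    rw [Function.iterate_succ_apply', hx1 j] at this
    exact this
  have hD' : (2 : ℤ) ≤ D := by exact_mod_cast hD
  have hj0pos : 1 ≤ j0 := by
    rw [hj0]
    have : 0 < 2 * D * (K0 + 1) := by positivity
    omega
  have hind : ∀ i : ℕ, (D : ℤ) ^ i * h + K0 * h ≤ hq Q (x (j0 - 1 + i)) := by
    intro i
    induction i with
    | zero =>
      have e := hlow (j0 - 1)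
      have e1 : ((j0 - 1 : ℕ) : ℤ) + 1 = 2 * D * (K0 + 1) := by
        have : (j0 - 1 + 1 : ℕ) = 2 * D * (K0 + 1) := by omega
        exact_mod_cast this
      rw [e1] at e
      have e2 : 2 * (D : ℤ) * (((K0 : ℤ) + 1) * h) ≤ 2 * D * hq Q (x (j0 - 1)) := by
        linarith
      have e3 : ((K0 : ℤ) + 1) * h ≤ hq Q (x (j0 - 1)) :=
        le_of_mul_le_mul_left e2 (by positivity)
      simp only [pow_zero, one_mul, add_zero]
      linarith
    | succ i ih =>
      have e := hstep (j0 - 1 + i)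
      rw [← add_assoc]
      have e1 : (D : ℤ) * ((D : ℤ) ^ i * h + K0 * h) ≤ D * hq Q (x (j0 - 1 + i)) :=
        mul_le_mul_of_nonneg_left ih (by positivity)
      have e2 : ((K0 : ℕ) : ℤ) = C * C₀ + 1 := by rw [hK0]; push_cast; ring
      have e3 : (2 : ℤ) * (K0 * h) ≤ D * (K0 * h) :=
        mul_le_mul_of_nonneg_right hD' (by positivity)
      have e4 : (D : ℤ) ^ (i + 1) * h = D * (D ^ i * h) := by ring
      rw [e4]
      have e5 : (K0 : ℤ) * h = C * (C₀ * h) + h := by rw [e2]; ring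
      linarith
  refine ⟨b, hWb, ?_⟩
  intro m hm
  obtain ⟨i, rfl⟩ : ∃ i, m = j0 + i := ⟨m - j0, by omega⟩
  refine ⟨x (j0 - 1 + i), ?_, ?_⟩
  · have := hx1 (j0 - 1 + i)
    rw [show j0 - 1 + i + 1 = j0 + i by omega] at this
    exact this
  · have e := hind i
    have e1 : (D : ℤ) ^ i * h ≤ hq Q (x (j0 - 1 + i)) := by
      have : (0 : ℤ) ≤ K0 * h := by positivity
      linarith
    have e2 : (D : ℤ) ^ j0 * ((D : ℤ) ^ i * h) ≤ (D : ℤ) ^ j0 * hq Q (x (j0 - 1 + i)) :=
      mul_le_mul_of_nonneg_left e1 (by positivity)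
    rw [pow_add, mul_assoc]
    push_cast
    exact e2

end Pool.Agent.N820.SU.Glb
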