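import Pool.Agent.N820.SU.Stm
import Pool.Agent.Y784.CH.A

set_option autoImplicit false

/-!
# Project SU: the height of the image of a point (S_HF)
-/

namespace Pool.Agent.N820.SU.Hf

open Pool.Agent.N820.SU
open Pool.Agent.W277.UB Finset Polynomial

universe u v w

lemma res_ne_aux {K : Type u} [Field K] (d : ℕ) (p q : Polynomial K) (hp : p.natDegree ≤ d) (hq : q.natDegree = d)
    (hd : 1 ≤ d) (hco : IsCoprime p q) : resultant q p d d ≠ 0 := by
  intro h0
  set φ := algebraMap K (AlgebraicClosure K) with hφ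
  have h1 := resultant_eq_prod_eval (q.map φ) (p.map φ) d (natDegree_map_le.trans hp)
    (IsAlgClosed.splits _)
  rw [natDegree_map, hq, resultant_map_map, h0, map_zero] at h1
  have hq0 : q.map φ ≠ 0 := by
    intro h
    have h2 : (q.map φ).natDegree = d := by rw [natDegree_map, hq]
    rw [h, natDegree_zero] at h2
    omega
  have h2 := (mul_eq_zero.mp h1.symm).resolve_left (pow_ne_zero _ (leadingCoeff_ne_zero.mpr hq0))
  rw [Multiset.prod_eq_zero_iff, Multiset.mem_map] at h2
  obtain ⟨x, hx, hpx⟩ := h2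
  have hqx : (q.map φ).eval x = 0 := (mem_roots hq0).mp hx
  obtain ⟨u, w, h⟩ := hco
  have h3 := congrArg (fun g : Polynomial K => (g.map φ).eval x) h
  simp only [Polynomial.map_add, Polynomial.map_mul, Polynomial.map_one, eval_add, eval_mul,
    eval_one] at h3
  rw [hpx, hqx, mul_zero, mul_zero, add_zero] at h3
  exact zero_ne_one h3

lemma res_ne {K : Type u} [Field K] (d : ℕ) (p q : Polynomial K) (h : IsRat d p q) (hd : 1 ≤ d) :
    resultant q p d d ≠ 0 := by
  obtain ⟨hco, hmax⟩ := h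
  have hp : p.natDegree ≤ d := by rw [← hmax]; exact le_max_left _ _
  have hq : q.natDegree ≤ d := by rw [← hmax]; exact le_max_right _ _
  rcases max_choice p.natDegree q.natDegree with h1 | h1
  · have h2 := res_ne_aux d q p hq (by rw [← h1]; exact hmax) hd hco.symm
    rw [resultant_comm]
    exact mul_ne_zero (pow_ne_zero _ (by norm_num)) h2
  · exact res_ne_aux d p q hp (by rw [← h1]; exact hmax) hd hco

variable {k : Type v} {K : Type u} [Field k] [Field K] [Algebra k K]

/-- the local inequality -/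
lemma loc (Q : PlaceData.{w} k K) (v : Q.Pl) (d : ℕ) (hd : 1 ≤ d) (p q : K[X]) (h : IsRat d p q) (M : ℤ)
    (hpM : ∀ i, Q.pole v (p.coeff i) ≤ M) (hqM : ∀ i, Q.pole v (q.coeff i) ≤ M) (x : K) (hx : q.eval x ≠ 0) :
    (d : ℤ) * Q.pole v x ≤ Q.pole v (p.eval x / q.eval x) - Q.ord v (q.eval x) +
      Q.ord v (resultant q p d d) + (2 * d - 1) * M := by
  classical
  have hres := res_ne d p q h hd
  obtain ⟨hco, hmax⟩ := h
  have hp : p.natDegree ≤ d := by rw [← hmax]; exact le_max_left _ _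
  have hq : q.natDegree ≤ d := by rw [← hmax]; exact le_max_right _ _
  have hq0 : q ≠ 0 := by
    rintro rfl
    exact hx eval_zero
  have hne : (p.coeffs ∪ q.coeffs).Nonempty := by
    refine ⟨q.leadingCoeff, Finset.mem_union_right _ ?_⟩
    rw [mem_coeffs_iff]
    exact ⟨q.natDegree, natDegree_mem_support_of_nonzero hq0, rfl⟩
  obtain ⟨c, hcm, hcmin⟩ := Finset.exists_min_image (p.coeffs ∪ q.coeffs) (fun x => Q.ord v x) hne
  have hcc : c ≠ 0 ∧ -M ≤ Q.ord v c := by
    have haux : ∀ y : K, y ≠ 0 → Q.pole v y ≤ M → -M ≤ Q.ord v y := by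
      intro y hy h
      rw [PlaceData.pole_of_ne hy] at h
      have := le_max_right 0 (-Q.ord v y)
      linarith
    rcases Finset.mem_union.mp hcm with h | h
    · rw [mem_coeffs_iff] at h
      obtain ⟨i, hi, rfl⟩ := h
      exact ⟨mem_support_iff.mp hi, haux _ (mem_support_iff.mp hi) (hpM i)⟩
    · rw [mem_coeffs_iff] at h
      obtain ⟨i, hi, rfl⟩ := h
      exact ⟨mem_support_iff.mp hi, haux _ (mem_support_iff.mp hi) (hqM i)⟩
  obtain ⟨hc0, hcM⟩ := hcc
  have hpc : ∀ i, Q.G v (Q.ord v c) (p.coeff i) := by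
    intro i hi
    exact hcmin _ (Finset.mem_union_left _ (mem_coeffs_iff.mpr ⟨i, mem_support_iff.mpr hi, rfl⟩))
  have hqc : ∀ i, Q.G v (Q.ord v c) (q.coeff i) := by
    intro i hi
    exact hcmin _ (Finset.mem_union_right _ (mem_coeffs_iff.mpr ⟨i, mem_support_iff.mpr hi, rfl⟩))
  have h1 : Q.G v (Q.ord v (q.eval x) - Q.pole v (p.eval x / q.eval x)) (p.eval x) := by
    have h2 : Q.G v (Q.ord v (q.eval x)) (q.eval x) := fun _ => le_rfl
    have h3 := PlaceData.G_mul h2 (PlaceData.G_pole v (p.eval x / q.eval x))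
    rw [mul_div_cancel₀ _ hx] at h3
    exact PlaceData.G_mono h3 (by linarith)
  have h2 : Q.G v (Q.ord v (q.eval x) - Q.pole v (p.eval x / q.eval x)) (q.eval x) := by
    intro _
    have := PlaceData.pole_nonneg v (p.eval x / q.eval x)
    linarith
  have h3 := Pool.Agent.Y784.CH.low d hd p q hp hq c hc0 hpc hqc hres x _ h1 h2
  have hd1 : (1 : ℤ) ≤ d := by exact_mod_cast hd
  have h5 : (0 : ℤ) ≤ (2 * d - 1) * (M + Q.ord v c) := mul_nonneg (by linarith) (by linarith)
  nlinarith

theorem t_HF (hHQ : S_HQ.{u, v, w}) : S_HF.{u, v, w} := by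
  classical
  intro D hD
  refine ⟨(2 * D - 1) * (2 * D + 2), ?_⟩
  intro k K _ _ _ _ Q p q hpq H hH x y hxy
  obtain ⟨hnn, hfin, hsum, hinv, hprod, hmul, hadd, halg, hpow⟩ := hHQ k K Q
  have h0 : q.eval x ≠ 0 := by
    intro h
    simp [mapP1, h] at hxy
  have hy : p.eval x / q.eval x = y := by
    simpa [mapP1, h0] using hxy
  have hres := res_ne D p q hpq (by omega)
  have hco := hpq.1
  have hmax := hpq.2
  have hp : p.natDegree ≤ D := by rw [← hmax]; exact le_max_left _ _
  have hqd : q.natDegree ≤ D := by rw [← hmax]; exact le_max_right _ _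
  set M : Q.Pl → ℤ := fun v => ∑ i ∈ range (D + 1), (Q.pole v (p.coeff i) + Q.pole v (q.coeff i)) with hM
  have hMp : ∀ v i, Q.pole v (p.coeff i) ≤ M v := by
    intro v i
    by_cases hi : i ≤ D
    · refine le_trans ?_ (Finset.single_le_sum (f := fun i => Q.pole v (p.coeff i) + Q.pole v (q.coeff i))
        (fun j _ => add_nonneg (PlaceData.pole_nonneg _ _) (PlaceData.pole_nonneg _ _)) (mem_range.mpr (Nat.lt_succ_of_le hi)))
      exact le_add_of_nonneg_right (PlaceData.pole_nonneg _ _)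
    · rw [coeff_eq_zero_of_natDegree_lt (lt_of_le_of_lt hp (not_le.mp hi)), PlaceData.pole_zero]
      exact Finset.sum_nonneg fun j _ => add_nonneg (PlaceData.pole_nonneg _ _) (PlaceData.pole_nonneg _ _)
  have hMq : ∀ v i, Q.pole v (q.coeff i) ≤ M v := by
    intro v i
    by_cases hi : i ≤ D
    · refine le_trans ?_ (Finset.single_le_sum (f := fun i => Q.pole v (p.coeff i) + Q.pole v (q.coeff i))
        (fun j _ => add_nonneg (PlaceData.pole_nonneg _ _) (PlaceData.pole_nonneg _ _)) (mem_range.mpr (Nat.lt_succ_of_le hi)))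
      exact le_add_of_nonneg_left (PlaceData.pole_nonneg _ _)
    · rw [coeff_eq_zero_of_natDegree_lt (lt_of_le_of_lt hqd (not_le.mp hi)), PlaceData.pole_zero]
      exact Finset.sum_nonneg fun j _ => add_nonneg (PlaceData.pole_nonneg _ _) (PlaceData.pole_nonneg _ _)
  -- the set of places
  set E : Finset K := {x, y, q.eval x, resultant q p D D} ∪ ((range (D + 1)).image p.coeff ∪ (range (D + 1)).image q.coeff) with hE
  set S : Finset Q.Pl := E.biUnion (fun z => if h : z ≠ 0 then (Q.fin z h).toFinset else ∅) with hS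
  have hSE : ∀ v, v ∉ S → ∀ z ∈ E, z ≠ 0 → Q.ord v z = 0 := by
    intro v hv z hz hz0
    by_contra h
    apply hv
    rw [hS, Finset.mem_biUnion]
    refine ⟨z, hz, ?_⟩
    rw [dif_pos hz0, Set.Finite.mem_toFinset]
    exact h
  have hSp : ∀ z ∈ E, ∀ v, v ∉ S → Q.pole v z = 0 := by
    intro z hz v hv
    by_cases hz0 : z = 0
    · rw [hz0, PlaceData.pole_zero]
    · rw [PlaceData.pole_of_ne hz0, hSE v hv z hz hz0]
      simp
  have hx1 : hq Q x = ∑ v ∈ S, Q.wt v * Q.pole v x := hsum x S (hSp x (by simp [hE]))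
  have hy1 : hq Q y = ∑ v ∈ S, Q.wt v * Q.pole v y := hsum y S (hSp y (by simp [hE]))
  have hq1 : ∑ v ∈ S, Q.wt v * Q.ord v (q.eval x) = 0 := hprod _ S h0 (fun v hv => by
    by_contra h
    exact hv (hSE v h _ (by simp [hE]) h0))
  have hr1 : ∑ v ∈ S, Q.wt v * Q.ord v (resultant q p D D) = 0 := hprod _ S hres (fun v hv => by
    by_contra h
    exact hv (hSE v h _ (by simp [hE]) hres))
  have hM1 : ∑ v ∈ S, Q.wt v * M v ≤ (2 * D + 2) * H := by
    have h1 : ∑ v ∈ S, Q.wt v * M v = ∑ i ∈ range (D + 1), (hq Q (p.coeff i) + hq Q (q.coeff i)) := by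
      simp only [hM, Finset.mul_sum]
      rw [Finset.sum_comm]
      refine Finset.sum_congr rfl fun i hi => ?_
      rw [hsum (p.coeff i) S (hSp _ (by
          rw [hE]; refine mem_union_right _ (mem_union_left _ (mem_image_of_mem _ hi)))),
        hsum (q.coeff i) S (hSp _ (by
          rw [hE]; refine mem_union_right _ (mem_union_right _ (mem_image_of_mem _ hi)))),
        ← Finset.sum_add_distrib]
      refine Finset.sum_congr rfl fun v _ => ?_
      ring
    rw [h1]
    calc ∑ i ∈ range (D + 1), (hq Q (p.coeff i) + hq Q (q.coeff i)) ≤ ∑ _i ∈ range (D + 1), (2 * H) :=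
          Finset.sum_le_sum fun i _ => by have := hH i; linarith
      _ = (2 * D + 2) * H := by
          rw [Finset.sum_const, card_range, nsmul_eq_mul]
          push_cast
          ring
  have hD1 : (1 : ℤ) ≤ D := by exact_mod_cast (by omega : 1 ≤ D)
  have key : (D : ℤ) * hq Q x ≤ hq Q y + (2 * D - 1) * ((2 * D + 2) * H) := by
    rw [hx1, hy1]
    have h1 : ∀ v ∈ S, (D : ℤ) * (Q.wt v * Q.pole v x) ≤ Q.wt v * Q.pole v y - Q.wt v * Q.ord v (q.eval x) +
        Q.wt v * Q.ord v (resultant q p D D) + (2 * D - 1) * (Q.wt v * M v) := by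
      intro v _
      have h2 := loc Q v D (by omega) p q hpq (M v) (hMp v) (hMq v) x h0
      rw [hy] at h2
      have h3 := mul_le_mul_of_nonneg_left h2 (Q.wt_nonneg v)
      linarith
    have h2 := Finset.sum_le_sum h1
    rw [← Finset.mul_sum, Finset.sum_add_distrib, Finset.sum_add_distrib, Finset.sum_sub_distrib, hq1, hr1,
      ← Finset.mul_sum] at h2
    have h3 : (2 * (D : ℤ) - 1) * ∑ v ∈ S, Q.wt v * M v ≤ (2 * D - 1) * ((2 * D + 2) * H) :=
      mul_le_mul_of_nonneg_left hM1 (by linarith)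
    linarith
  refine key.trans (le_of_eq ?_)
  have : (((2 * D - 1) * (2 * D + 2) : ℕ) : ℤ) = (2 * (D : ℤ) - 1) * (2 * D + 2) := by
    have h1 : 1 ≤ 2 * D := by omega
    push_cast [Nat.cast_sub h1]
    ring
  rw [this]
  ring

end Pool.Agent.N820.SU.Hf
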