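import Pool.Agent.N820.SU.Stm
import Pool.Agent.Y362.CH.PD
import Pool.Agent.Y968.CH.Deg
import Pool.Agent.Y195.CH.NRM
import Pool.Agent.W277.UD.StrongFin
import Pool.Agent.W277.UD.Prim

/-!
# Project SU: the heights given by places and by degrees (HGT)
-/

set_option autoImplicit false

namespace Pool.Agent.N820.SU.Hgt

open Polynomial Pool.Agent.W277.UB Pool.Agent.N820.SU
open Pool.Agent.W277.UB.PlaceData (pole_nonneg pole_zero pole_of_ne)

universe u v w

/-- the height is the sum over any finite set containing the poles -/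
lemma hq_eq {k : Type v} {K : Type u} [Field k] [Field K] [Algebra k K]
    (Q : PlaceData.{w} k K) (x : K) (S : Finset Q.Pl) (hS : ∀ v, v ∉ S → Q.pole v x = 0) :
    hq Q x = ∑ v ∈ S, Q.wt v * Q.pole v x := by
  unfold hq
  apply finsum_eq_sum_of_support_subset
  intro v hv
  by_contra h
  apply hv
  show Q.wt v * Q.pole v x = 0
  rw [hS v (by simpa using h), mul_zero]

lemma poles_fin {k : Type v} {K : Type u} [Field k] [Field K] [Algebra k K]
    (Q : PlaceData.{w} k K) (x : K) : ∃ S : Finset Q.Pl, ∀ v, v ∉ S → Q.pole v x = 0 := by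
  by_cases hx : x = 0
  · exact ⟨∅, fun v _ => by rw [hx, pole_zero]⟩
  · refine ⟨(Q.fin x hx).toFinset, fun v hv => ?_⟩
    rw [Set.Finite.mem_toFinset, Set.mem_ofPred_eq, not_not] at hv
    rw [pole_of_ne hx, hv]
    simp

theorem t_HGT : S_HGT.{u, v} := by
  obtain ⟨C, hC⟩ : Pool.Agent.Y706.CH.S_PD.{u, u} := Pool.Agent.Y362.CH.t_PD
  refine ⟨fun n => (Finset.range (n + 1)).sup C * (n + 1), ?_⟩
  intro k E _ _ _ _ t ht hfd
  classical
  set n := Module.finrank (IntermediateField.adjoin k {t}) E with hn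
  obtain ⟨inst, hst, hfin, hle⟩ := Pool.Agent.W277.UD.exists_ratAlg k E t ht
  obtain ⟨hkf, hkfle⟩ := Pool.Agent.Y968.CH.t_KF k E t ht hfd
  have cK : CharZero (algebraicClosure k E) :=
    charZero_of_injective_algebraMap (algebraMap k (algebraicClosure k E)).injective
  have cR : CharZero (RatFunc (algebraicClosure k E)) := charZero_of_injective_algebraMap
    (algebraMap (algebraicClosure k E) (RatFunc (algebraicClosure k E))).injective
  have halg : ∀ x : E, IsAlgebraic (algebraicClosure k E) x →
      ∃ c : (algebraicClosure k E), algebraMap (algebraicClosure k E) E c = x := by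
    intro y hy
    have h1 : IsAlgebraic k y := hy.restrictScalars k
    exact ⟨⟨y, h1.isIntegral⟩, rfl⟩
  obtain ⟨t₁, ht₁, hfd₁⟩ := Pool.Agent.Y195.CH.t_FDA (algebraicClosure k E) E
  have hcomp : ∀ x : E, Module.finrank (IntermediateField.adjoin (algebraicClosure k E) {x}) E ≤
      Module.finrank (IntermediateField.adjoin k {x}) E ∧
      Module.finrank (IntermediateField.adjoin k {x}) E ≤
        n * Module.finrank (IntermediateField.adjoin (algebraicClosure k E) {x}) E := by
    intro x
    obtain ⟨h1, h2⟩ := Pool.Agent.Y968.CH.t_HT k (algebraicClosure k E) E E t₁ ht₁ hfd₁ x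
    refine ⟨h1, h2.trans ?_⟩
    rw [Module.finrank_self, mul_one]
    exact Nat.mul_le_mul_right _ hkfle
  have ht' : ∀ c : algebraicClosure k E, t ≠ algebraMap (algebraicClosure k E) E c := by
    intro c hc
    apply ht
    rw [hc]
    exact mem_algebraicClosure_iff.mp c.2
  obtain ⟨u, -, hugen, huc⟩ := Pool.Agent.W277.UD.exists_gen (k := algebraicClosure k E)
    (F := RatFunc (algebraicClosure k E)) (E := E)
    Set.univ (IntermediateField.adjoin_univ _ _) t (Set.mem_univ t) ht'
  obtain ⟨Q, -, hQ⟩ := hC (algebraicClosure k E) E halg u hugen huc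
  refine ⟨Q, fun x => ?_⟩
  obtain ⟨S, hS⟩ := poles_fin Q x
  obtain ⟨h1, h2⟩ := hQ x S hS
  rw [← hq_eq Q x S hS] at h1 h2
  obtain ⟨h3, h4⟩ := hcomp x
  set r := Module.finrank (RatFunc (algebraicClosure k E)) E with hr
  have hCr : C r ≤ (Finset.range (n + 1)).sup C :=
    Finset.le_sup (f := C) (Finset.mem_range.mpr (by omega))
  have hq0 : 0 ≤ hq Q x := by
    unfold hq
    exact finsum_nonneg fun v => mul_nonneg (Q.wt_nonneg v) (pole_nonneg v x)
  set S' := (Finset.range (n + 1)).sup C with hS'
  constructor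
  · refine h1.trans ?_
    have h5 : C r * Module.finrank (IntermediateField.adjoin (algebraicClosure k E) {x}) E ≤
        S' * (n + 1) * Module.finrank (IntermediateField.adjoin k {x}) E := by
      refine Nat.mul_le_mul (hCr.trans (Nat.le_mul_of_pos_right _ (by omega))) h3
    exact_mod_cast h5
  · have h5 : ((Module.finrank (IntermediateField.adjoin k {x}) E : ℕ) : ℤ) ≤
        n * (Module.finrank (IntermediateField.adjoin (algebraicClosure k E) {x}) E : ℤ) := by
      exact_mod_cast h4
    refine h5.trans ?_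
    have h6 : (n : ℤ) * (Module.finrank (IntermediateField.adjoin (algebraicClosure k E) {x}) E : ℤ)
        ≤ n * (C r * hq Q x) := mul_le_mul_of_nonneg_left h2 (by positivity)
    refine h6.trans ?_
    have h7 : (n : ℤ) * C r ≤ ((S' * (n + 1) : ℕ) : ℤ) := by
      rw [mul_comm]
      exact_mod_cast Nat.mul_le_mul hCr (Nat.le_succ n)
    calc (n : ℤ) * (C r * hq Q x) = (n : ℤ) * C r * hq Q x := by ring
      _ ≤ ((S' * (n + 1) : ℕ) : ℤ) * hq Q x := mul_le_mul_of_nonneg_right h7 hq0

end Pool.Agent.N820.SU.Hgt
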