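import Pool.Agent.N820.SU.Stm

/-!
# Project SU: properties of the height
-/

set_option autoImplicit false

namespace Pool.Agent.N820.SU.Hq0

open Polynomial Pool.Agent.W277.UB Pool.Agent.N820.SU PlaceData Finset

universe u v w

variable {k : Type v} {K : Type u} [Field k] [Field K] [Algebra k K] (Q : PlaceData.{w} k K)

lemma fin (x : K) : {v | Q.pole v x ≠ 0}.Finite := by
  by_cases hx : x = 0
  · subst hx
    simp only [pole_zero, ne_eq, not_true_eq_false, Set.setOf_false, Set.finite_empty]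
  · refine (Q.fin x hx).subset fun v hv => ?_
    intro h
    apply hv
    rw [pole_of_ne hx, h]
    simp

lemma fin' (x : K) : {v | Q.wt v * Q.pole v x ≠ 0}.Finite :=
  (fin Q x).subset fun v hv h => hv (by rw [h, mul_zero])

lemma eq_sum (x : K) (S : Finset Q.Pl) (h : ∀ v, v ∉ S → Q.pole v x = 0) :
    hq Q x = ∑ v ∈ S, Q.wt v * Q.pole v x := by
  unfold hq
  apply finsum_eq_sum_of_support_subset
  intro v hv
  by_contra hvS
  apply hv
  show Q.wt v * Q.pole v x = 0
  rw [h v (by simpa using hvS), mul_zero]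

lemma nonneg (x : K) : 0 ≤ hq Q x := by
  unfold hq
  apply finsum_nonneg
  intro v
  exact mul_nonneg (Q.wt_nonneg v) (pole_nonneg v x)

lemma prodf (x : K) (S : Finset Q.Pl) (hx : x ≠ 0) (hS : ∀ v, Q.ord v x ≠ 0 → v ∈ S) :
    ∑ v ∈ S, Q.wt v * Q.ord v x = 0 := by
  have h0 : ∀ v, v ∉ S → Q.ord v x = 0 := fun v hv => by
    by_contra h
    exact hv (hS v h)
  have h1 := Q.prod_formula x hx S (fun v hv => (h0 v hv).ge)
  have h2 := Q.prod_formula x⁻¹ (inv_ne_zero hx) S (fun v hv => by
    rw [ord_inv hx, h0 v hv, neg_zero])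
  have h3 : ∑ v ∈ S, Q.wt v * Q.ord v x⁻¹ = - ∑ v ∈ S, Q.wt v * Q.ord v x := by
    rw [← sum_neg_distrib]
    refine sum_congr rfl fun v _ => ?_
    rw [ord_inv hx]
    ring
  rw [h3] at h2
  omega

lemma inv_eq (x : K) (hx : x ≠ 0) : hq Q x⁻¹ = hq Q x := by
  classical
  set S := (Q.fin x hx).toFinset with hS
  have hmem : ∀ v, v ∉ S → Q.ord v x = 0 := by
    intro v hv
    rw [hS, Set.Finite.mem_toFinset] at hv
    simpa using hv
  rw [eq_sum Q x S (fun v hv => by rw [pole_of_ne hx, hmem v hv]; simp),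
    eq_sum Q x⁻¹ S (fun v hv => by rw [pole_of_ne (inv_ne_zero hx), ord_inv hx, hmem v hv]; simp)]
  have h := prodf Q x S hx (fun v hv => by
    by_contra hvS
    exact hv (hmem v hvS))
  rw [← sub_eq_zero, ← sum_sub_distrib]
  rw [← h]
  refine sum_congr rfl fun v _ => ?_
  rw [pole_of_ne hx, pole_of_ne (inv_ne_zero hx), ord_inv hx, ← mul_sub]
  congr 1
  rcases le_total 0 (Q.ord v x) with h1 | h1
  · rw [max_eq_right (by omega), max_eq_left (by omega)]
    omega
  · rw [max_eq_left (by omega), max_eq_right (by omega)]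
    omega

lemma pole_mul (v : Q.Pl) (x y : K) : Q.pole v (x * y) ≤ Q.pole v x + Q.pole v y := by
  apply pole_le_of_G (add_nonneg (pole_nonneg v x) (pole_nonneg v y))
  have := G_mul (G_pole (Q := Q) v x) (G_pole (Q := Q) v y)
  convert this using 1
  ring

lemma pole_add (v : Q.Pl) (x y : K) : Q.pole v (x + y) ≤ Q.pole v x + Q.pole v y := by
  have hx := pole_nonneg (Q := Q) v x
  have hy := pole_nonneg (Q := Q) v y
  apply pole_le_of_G (add_nonneg hx hy)
  exact G_add (G_mono (G_pole v x) (by omega)) (G_mono (G_pole v y) (by omega))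

lemma le_of_pole (x y z : K) (h : ∀ v, Q.pole v z ≤ Q.pole v x + Q.pole v y) :
    hq Q z ≤ hq Q x + hq Q y := by
  classical
  set S := (fin Q x).toFinset ∪ (fin Q y).toFinset with hS
  have hx : ∀ v, v ∉ S → Q.pole v x = 0 := by
    intro v hv
    rw [hS, mem_union, not_or, Set.Finite.mem_toFinset, Set.Finite.mem_toFinset] at hv
    simpa using hv.1
  have hy : ∀ v, v ∉ S → Q.pole v y = 0 := by
    intro v hv
    rw [hS, mem_union, not_or, Set.Finite.mem_toFinset, Set.Finite.mem_toFinset] at hv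
    simpa using hv.2
  have hz : ∀ v, v ∉ S → Q.pole v z = 0 := by
    intro v hv
    have h1 := h v
    rw [hx v hv, hy v hv] at h1
    have := pole_nonneg (Q := Q) v z
    omega
  rw [eq_sum Q x S hx, eq_sum Q y S hy, eq_sum Q z S hz, ← sum_add_distrib]
  refine sum_le_sum fun v _ => ?_
  rw [← mul_add]
  exact mul_le_mul_of_nonneg_left (h v) (Q.wt_nonneg v)

lemma alg (c : k) : hq Q (algebraMap k K c) = 0 := by
  rw [eq_sum Q _ ∅, sum_empty]
  intro v _
  by_cases hc : c = 0
  · rw [hc, map_zero, pole_zero]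
  · rw [pole_of_ne ((_root_.map_ne_zero _).mpr hc), Q.ord_alg v c hc]
    simp

theorem t_HQ : S_HQ.{u, v, w} := by
  intro k K _ _ _ _ Q
  refine ⟨nonneg Q, fin' Q, eq_sum Q, fun x hx => inv_eq Q x hx,
    fun x S hx hS => prodf Q x S hx hS, fun x y => le_of_pole Q x y _ fun v => pole_mul Q v x y,
    fun x y => le_of_pole Q x y _ fun v => pole_add Q v x y, alg Q, ?_⟩
  intro x n
  induction n with
  | zero =>
    rw [pow_zero, Nat.cast_zero, zero_mul, ← map_one (algebraMap k K), alg]
  | succ n ih =>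
    rw [pow_succ]
    refine (le_of_pole Q (x ^ n) x _ fun v => pole_mul Q v _ _).trans ?_
    push_cast
    linarith

end Pool.Agent.N820.SU.Hq0
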