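import Pool.Agent.N820.SU.Stm

/-!
# Project SU: maps with constant multipliers are isotrivial
-/

set_option autoImplicit false

namespace Pool.Agent.N820.SU.Iso

open Polynomial Pool.Agent.N820.SU

universe u v

lemma mapP1_smul {K : Type u} [Field K] (s : K) (hs : s ≠ 0) (u w : K[X]) (d : ℕ)
    (z : Option K) : mapP1 (C s * u) (C s * w) d z = mapP1 u w d z := by
  cases z with
  | none =>
    by_cases h : w.coeff d = 0
    · have h' : (C s * w).coeff d = 0 := by rw [coeff_C_mul, h, mul_zero]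
      simp only [mapP1]
      rw [if_pos h, if_pos h']
    · have h' : (C s * w).coeff d ≠ 0 := by
        rw [coeff_C_mul]
        exact mul_ne_zero hs h
      simp only [mapP1]
      rw [if_neg h, if_neg h', coeff_C_mul, coeff_C_mul, mul_div_mul_left _ _ hs]
  | some x =>
    by_cases h : w.eval x = 0
    · have h' : (C s * w).eval x = 0 := by rw [eval_mul, h, mul_zero]
      simp only [mapP1]
      rw [if_pos h, if_pos h']
    · have h' : (C s * w).eval x ≠ 0 := by
        rw [eval_mul, eval_C]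
        exact mul_ne_zero hs h
      simp only [mapP1]
      rw [if_neg h, if_neg h', eval_mul, eval_mul, eval_C, mul_div_mul_left _ _ hs]

lemma isRat_smul {K : Type u} [Field K] (s : K) (hs : s ≠ 0) (u w : K[X]) (d : ℕ)
    (h : IsRat d u w) : IsRat d (C s * u) (C s * w) := by
  obtain ⟨⟨a, b, hab⟩, hd⟩ := h
  refine ⟨⟨C s⁻¹ * a, C s⁻¹ * b, ?_⟩, ?_⟩
  · have : C s⁻¹ * C s = (1 : K[X]) := by
      rw [← C_mul, inv_mul_cancel₀ hs, C_1]
    calc C s⁻¹ * a * (C s * u) + C s⁻¹ * b * (C s * w) = (C s⁻¹ * C s) * (a * u + b * w) := by ring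
      _ = 1 := by rw [this, hab, one_mul]
  · rw [natDegree_C_mul hs, natDegree_C_mul hs, hd]

theorem t_ISO (hMOB : S_MOB.{u}) (hCNP : S_CNP.{u}) (hCNJ : S_CNJ.{u}) (hFIB : S_FIB.{u})
    (hFIX : S_FIX.{u}) (hCIV : S_CIV.{u}) (hALG : S_ALG.{u}) : S_ISO.{u, v} := by
  intro k Ω _ _ _ _ _ d B hd p q hpq hFew hMs
  obtain ⟨x, y, hx, hyx, hy⟩ := hFIX Ω d hd p q hpq
  obtain ⟨z, hz⟩ := (hFIB Ω d (by omega) p q hpq).2.2 inferInstance y
  have hzy : z ≠ y := by
    rintro rfl
    exact hyx (hz.symm.trans hy)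
  have hzx : z ≠ x := by
    rintro rfl
    exact hyx (hz.symm.trans hx)
  obtain ⟨a, b, c, e, hdet, h0, h1, h2⟩ := (hMOB Ω).2.2.1 x y z hyx.symm hzx.symm hzy.symm
  obtain ⟨u0, w0, huw0, hcj0⟩ := hCNJ Ω d (by omega) p q hpq a b c e hdet
  -- scaling
  have hs : ∃ s : Ω, s ≠ 0 ∧ ((∃ i, (C s * u0).coeff i = 1) ∨ ∃ i, (C s * w0).coeff i = 1) := by
    by_cases hu : u0 = 0
    · have hw : w0 ≠ 0 := by
        rintro rfl
        have := huw0.2
        rw [hu] at this
        simp at this
        omega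
      refine ⟨(w0.leadingCoeff)⁻¹, inv_ne_zero (leadingCoeff_ne_zero.mpr hw), Or.inr
        ⟨w0.natDegree, ?_⟩⟩
      rw [coeff_C_mul, coeff_natDegree, inv_mul_cancel₀ (leadingCoeff_ne_zero.mpr hw)]
    · refine ⟨(u0.leadingCoeff)⁻¹, inv_ne_zero (leadingCoeff_ne_zero.mpr hu), Or.inl
        ⟨u0.natDegree, ?_⟩⟩
      rw [coeff_C_mul, coeff_natDegree, inv_mul_cancel₀ (leadingCoeff_ne_zero.mpr hu)]
  obtain ⟨s, hs0, hs1⟩ := hs
  have huw : IsRat d (C s * u0) (C s * w0) := isRat_smul s hs0 u0 w0 d huw0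
  have hcj : ∀ z, mapP1 (C s * u0) (C s * w0) d (mob a b c e z) =
      mob a b c e (mapP1 p q d z) := by
    intro z
    rw [mapP1_smul s hs0, hcj0]
  generalize C s * u0 = u at *
  generalize C s * w0 = w at *
  have hNF : NF d 1 u w := by
    refine ⟨huw, ?_, ?_, ?_, hs1⟩
    · show mapP1 u w d (some 0) = some 0
      rw [← h0, hcj, hx]
    · show mapP1 u w d none = some 0
      rw [← h1, hcj, hy, h0]
    · show mapP1 u w d (some 1) = none
      rw [← h2, hcj, hz, h1]
  obtain ⟨hM, hF⟩ := hCIV Ω d p q u w ⟨a, b, c, e, hdet, hcj⟩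
  have hFew' : Few u w d B := hF B hFew
  have halg := hALG Ω d 1 B hd le_rfl u w hNF hFew'
  have hMs' : ∀ l ∈ Ms u w d B, IsAlgebraic k l := by
    rintro l ⟨m, hm1, hm2, hm3⟩
    exact hMs l ⟨m, hm1, hm2, (hM m l).mp hm3⟩
  have hsub : ∀ x ∈ Algebra.adjoin ℤ (Ms u w d B), IsAlgebraic k x := by
    intro x hx
    induction hx using Algebra.adjoin_induction with
    | mem x hx => exact hMs' x hx
    | algebraMap r =>
      have : (algebraMap ℤ Ω) r = algebraMap k Ω (algebraMap ℤ k r) := by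
        simp
      rw [this]
      exact isAlgebraic_algebraMap _
    | add x y _ _ hx hy => exact hx.add hy
    | mul x y _ _ hx hy => exact hx.mul hy
  have hkey : ∀ x : Ω, IsAlgebraic (Algebra.adjoin ℤ (Ms u w d B)) x → IsAlgebraic k x := by
    intro x hx
    obtain ⟨P, hP0, hP⟩ := hx
    have h3 : IsAlgebraic (algebraicClosure k Ω) x := by
      let φ : (Algebra.adjoin ℤ (Ms u w d B)) →+* (algebraicClosure k Ω) :=
        { toFun := fun x => ⟨x.1, mem_algebraicClosure_iff.mpr (hsub x.1 x.2)⟩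
          map_one' := rfl
          map_mul' := fun _ _ => rfl
          map_zero' := rfl
          map_add' := fun _ _ => rfl }
      have hφ : Function.Injective φ := by
        intro x y hxy
        apply Subtype.ext
        exact congrArg (fun t => (t : algebraicClosure k Ω).1) hxy
      refine ⟨P.map φ, (Polynomial.map_ne_zero_iff hφ).mpr hP0, ?_⟩
      rw [aeval_def, eval₂_map]
      rw [aeval_def] at hP
      exact hP
    have h4 : Algebra.IsAlgebraic k (algebraicClosure k Ω) := inferInstance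
    exact h3.restrictScalars k
  refine ⟨a, b, c, e, hdet, u, w, ?_, ?_, ?_, fun n => hkey _ (halg n).1,
    fun n => hkey _ (halg n).2, ?_⟩
  · by_contra hcon
    push Not at hcon
    have := huw.2
    rw [hcon.1, hcon.2] at this
    simp at this
    omega
  · rw [← huw.2]; exact le_max_left _ _
  · rw [← huw.2]; exact le_max_right _ _
  · obtain ⟨t, ht, h3, h4⟩ := hCNP Ω d (by omega) p q u w hpq huw a b c e hdet hcj
    unfold hm at h3 h4
    rw [h3, h4]
    ring

end Pool.Agent.N820.SU.Iso
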