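import Pool.Agent.N820.SU.Stm

set_option autoImplicit false

/-!
# Project SU, job LOC: a critical point in the basin of an attracting fixed point
-/

namespace Pool.Agent.N820.SU.Loc

open Polynomial Pool.Agent.N820.SU

universe u

/-! ### Crossing points of a continuous function -/

theorem first_cross {g : ℝ → ℝ} (hg : Continuous g) {a b : ℝ} (hab : a ≤ b) (ha : g a ≤ 0)
    (hb : 0 < g b) : ∃ R, a ≤ R ∧ R < b ∧ g R = 0 ∧ (∀ r, a ≤ r → r ≤ R → g r ≤ 0) ∧
      ∀ δ, R < δ → ∃ r, R < r ∧ r < δ ∧ 0 < g r := by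
  set S : Set ℝ := {R | a ≤ R ∧ R ≤ b ∧ ∀ r, a ≤ r → r ≤ R → g r ≤ 0} with hS
  have haS : a ∈ S := ⟨le_rfl, hab, fun r h1 h2 => by rw [le_antisymm h2 h1]; exact ha⟩
  have hbd : BddAbove S := ⟨b, fun r hr => hr.2.1⟩
  set R := sSup S with hR
  have haR : a ≤ R := le_csSup hbd haS
  have hRb : R ≤ b := csSup_le ⟨a, haS⟩ fun r hr => hr.2.1
  have h1 : ∀ r, a ≤ r → r < R → g r ≤ 0 := by
    intro r har hrR
    obtain ⟨t, htS, hrt⟩ := exists_lt_of_lt_csSup ⟨a, haS⟩ hrR
    exact htS.2.2 r har hrt.le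
  have h2 : g R ≤ 0 := by
    rcases haR.eq_or_lt with h | h
    · rw [← h]; exact ha
    · exact le_of_tendsto (hg.continuousWithinAt (s := Set.Iio R) (x := R)).tendsto
        (Filter.mem_of_superset (Ioo_mem_nhdsLT h) fun r hr => h1 r hr.1.le hr.2)
  have h3 : ∀ r, a ≤ r → r ≤ R → g r ≤ 0 := by
    intro r har hrR
    rcases hrR.eq_or_lt with h | h
    · rw [h]; exact h2
    · exact h1 r har h
  have h4 : R < b := by
    rcases hRb.eq_or_lt with h | h
    · rw [h] at h2; exact absurd hb (not_lt.mpr h2)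
    · exact h
  have h5 : ∀ δ, R < δ → ∃ r, R < r ∧ r < δ ∧ 0 < g r := by
    intro δ hδ
    by_contra hcon
    push Not at hcon
    have h6 : R < min δ b := lt_min hδ h4
    have h7 : (R + min δ b) / 2 ∈ S := by
      refine ⟨by linarith, by linarith [min_le_right δ b], fun r hr1 hr2 => ?_⟩
      rcases le_or_gt r R with h | h
      · exact h3 r hr1 h
      · exact hcon r h (by linarith [min_le_left δ b])
    have h8 := le_csSup hbd h7
    linarith
  refine ⟨R, haR, h4, le_antisymm h2 ?_, h3, h5⟩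
  by_contra hcon
  push Not at hcon
  have h9 : ∀ᶠ x in nhds R, g x < 0 := hg.continuousAt.eventually (gt_mem_nhds hcon)
  obtain ⟨ε, hε, h10⟩ := Metric.eventually_nhds_iff.mp h9
  obtain ⟨r, hr1, hr2, hr3⟩ := h5 (R + ε) (by linarith)
  have := h10 (y := r) (by rw [Real.dist_eq, abs_lt]; constructor <;> linarith)
  linarith

theorem last_cross {g : ℝ → ℝ} (hg : Continuous g) {a b : ℝ} (hab : a ≤ b) (ha : 0 < g a)
    (hb : g b ≤ 0) : ∃ ρ, a < ρ ∧ ρ ≤ b ∧ g ρ = 0 ∧ (∀ r, ρ ≤ r → r ≤ b → g r ≤ 0) ∧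
      ∀ δ, δ < ρ → ∃ r, δ < r ∧ r < ρ ∧ 0 < g r := by
  obtain ⟨R, h1, h2, h3, h4, h5⟩ := first_cross (g := fun t => g (-t)) (hg.comp continuous_neg)
    (a := -b) (b := -a) (by linarith) (by simpa using hb) (by simpa using ha)
  refine ⟨-R, by linarith, by linarith, h3, fun r hr1 hr2 => ?_, fun δ hδ => ?_⟩
  · have := h4 (-r) (by linarith) (by linarith)
    simpa using this
  · obtain ⟨r, hr1, hr2, hr3⟩ := h5 (-δ) (by linarith)
    exact ⟨-r, by linarith, by linarith, hr3⟩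

/-! ### Multisets -/

section Mult

variable {Ω : Type u} [NormedField Ω]

/-- the value at the radius `r` -/
noncomputable def P (M : Multiset Ω) (a : Ω) (r : ℝ) : ℝ := (M.map fun z => max r ‖a - z‖).prod

/-- the number of elements in a set -/
noncomputable def cnt (M : Multiset Ω) (A : Set Ω) : ℕ := by
  classical exact (M.filter (· ∈ A)).card

@[simp] theorem P_zero (a : Ω) (r : ℝ) : P (0 : Multiset Ω) a r = 1 := by simp [P]

@[simp] theorem P_cons (z : Ω) (M : Multiset Ω) (a : Ω) (r : ℝ) :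
    P (z ::ₘ M) a r = max r ‖a - z‖ * P M a r := by simp [P]

theorem cnt_zero (A : Set Ω) : cnt (0 : Multiset Ω) A = 0 := by simp [cnt]

theorem cnt_cons_mem {z : Ω} {A : Set Ω} (M : Multiset Ω) (h : z ∈ A) :
    cnt (z ::ₘ M) A = cnt M A + 1 := by
  classical
  simp only [cnt]
  rw [Multiset.filter_cons_of_pos _ h, Multiset.card_cons]

theorem cnt_cons_notMem {z : Ω} {A : Set Ω} (M : Multiset Ω) (h : z ∉ A) :
    cnt (z ::ₘ M) A = cnt M A := by
  classical
  simp only [cnt]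
  rw [Multiset.filter_cons_of_neg _ h]

theorem P_pos (M : Multiset Ω) (a : Ω) {r : ℝ} (hr : 0 < r) : 0 < P M a r := by
  induction M using Multiset.induction_on with
  | empty => simp
  | cons z M ih => rw [P_cons]; exact mul_pos (lt_max_of_lt_left hr) ih

theorem P_cont (M : Multiset Ω) (a : Ω) : Continuous (P M a) := by
  induction M using Multiset.induction_on with
  | empty =>
    have : P (0 : Multiset Ω) a = fun _ => 1 := by funext r; simp
    rw [this]; exact continuous_const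
  | cons z M ih =>
    have : P (z ::ₘ M) a = fun r => max r ‖a - z‖ * P M a r := by funext r; simp
    rw [this]
    exact (continuous_id.max continuous_const).mul ih

theorem P_norm (M : Multiset Ω) (a : Ω) : ‖(M.map (a - ·)).prod‖ = P M a 0 := by
  induction M using Multiset.induction_on with
  | empty => simp
  | cons z M ih => simp [ih]

theorem P_left (M : Multiset Ω) (a : Ω) {ρ : ℝ} (hρ : 0 < ρ) : ∃ δ, δ < ρ ∧ 0 ≤ δ ∧
    ∀ r, δ < r → r ≤ ρ → P M a r * ρ ^ cnt M (Metric.ball a ρ) =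
      P M a ρ * r ^ cnt M (Metric.ball a ρ) := by
  induction M using Multiset.induction_on with
  | empty => exact ⟨0, hρ, le_rfl, fun r _ _ => by simp [cnt_zero]⟩
  | cons z M ih =>
    obtain ⟨δ, h1, h2, h3⟩ := ih
    by_cases hz : z ∈ Metric.ball a ρ
    · have hz' : ‖a - z‖ < ρ := by
        rw [Metric.mem_ball, dist_eq_norm, norm_sub_rev] at hz; exact hz
      refine ⟨max δ ‖a - z‖, max_lt h1 hz', le_max_of_le_left h2, fun r hr1 hr2 => ?_⟩
      rw [cnt_cons_mem M hz, P_cons, P_cons, max_eq_left hz'.le,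
        max_eq_left ((le_max_right _ _).trans hr1.le), pow_succ, pow_succ]
      have := h3 r ((le_max_left _ _).trans_lt hr1) hr2
      linear_combination (r * ρ) * this
    · have hz' : ρ ≤ ‖a - z‖ := by
        rw [Metric.mem_ball, dist_eq_norm, norm_sub_rev, not_lt] at hz; exact hz
      refine ⟨δ, h1, h2, fun r hr1 hr2 => ?_⟩
      rw [cnt_cons_notMem M hz, P_cons, P_cons, max_eq_right hz', max_eq_right (hr2.trans hz')]
      have := h3 r hr1 hr2
      linear_combination ‖a - z‖ * this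

theorem P_right (M : Multiset Ω) (a : Ω) {ρ : ℝ} (hρ : 0 < ρ) : ∃ δ, ρ < δ ∧
    ∀ r, ρ ≤ r → r < δ → P M a r * ρ ^ cnt M (Metric.closedBall a ρ) =
      P M a ρ * r ^ cnt M (Metric.closedBall a ρ) := by
  induction M using Multiset.induction_on with
  | empty => exact ⟨ρ + 1, by linarith, fun r _ _ => by simp [cnt_zero]⟩
  | cons z M ih =>
    obtain ⟨δ, h1, h3⟩ := ih
    by_cases hz : z ∈ Metric.closedBall a ρ
    · have hz' : ‖a - z‖ ≤ ρ := by
        rw [Metric.mem_closedBall, dist_eq_norm, norm_sub_rev] at hz; exact hz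
      refine ⟨δ, h1, fun r hr1 hr2 => ?_⟩
      rw [cnt_cons_mem M hz, P_cons, P_cons, max_eq_left hz', max_eq_left (hz'.trans hr1),
        pow_succ, pow_succ]
      have := h3 r hr1 hr2
      linear_combination (r * ρ) * this
    · have hz' : ρ < ‖a - z‖ := by
        rw [Metric.mem_closedBall, dist_eq_norm, norm_sub_rev, not_le] at hz; exact hz
      refine ⟨min δ ‖a - z‖, lt_min h1 hz', fun r hr1 hr2 => ?_⟩
      rw [cnt_cons_notMem M hz, P_cons, P_cons, max_eq_right hz'.le,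
        max_eq_right (hr2.le.trans (min_le_right _ _))]
      have := h3 r hr1 (hr2.trans_le (min_le_left _ _))
      linear_combination ‖a - z‖ * this

theorem cnt_union (M : Multiset Ω) {A B : Set Ω} (h : Disjoint A B) :
    cnt M (A ∪ B) = cnt M A + cnt M B := by
  induction M using Multiset.induction_on with
  | empty => simp [cnt_zero]
  | cons z M ih =>
    by_cases hA : z ∈ A
    · have hB : z ∉ B := Set.disjoint_left.mp h hA
      rw [cnt_cons_mem M (Or.inl hA : z ∈ A ∪ B), cnt_cons_mem M hA, cnt_cons_notMem M hB, ih]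
      ring
    · by_cases hB : z ∈ B
      · rw [cnt_cons_mem M (Or.inr hB : z ∈ A ∪ B), cnt_cons_notMem M hA, cnt_cons_mem M hB, ih]
        ring
      · have hAB : z ∉ A ∪ B := fun h => h.elim hA hB
        rw [cnt_cons_notMem M hAB, cnt_cons_notMem M hA, cnt_cons_notMem M hB, ih]

theorem cnt_sUnion (M : Multiset Ω) (H : Finset (Set Ω))
    (h : ∀ A ∈ H, ∀ B ∈ H, A ≠ B → Disjoint A B) :
    cnt M (⋃ A ∈ H, A) = ∑ A ∈ H, cnt M A := by
  classical
  induction H using Finset.induction_on with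
  | empty =>
    simp only [Finset.notMem_empty, Set.iUnion_of_empty, Set.iUnion_empty, Finset.sum_empty]
    simp [cnt]
  | insert A H hA ih =>
    rw [Finset.sum_insert hA, Finset.set_biUnion_insert, cnt_union, ih]
    · intro B hB C hC
      exact h B (Finset.mem_insert_of_mem hB) C (Finset.mem_insert_of_mem hC)
    · rw [Set.disjoint_iUnion₂_right]
      intro B hB
      refine h A (Finset.mem_insert_self _ _) B (Finset.mem_insert_of_mem hB) ?_
      rintro rfl
      exact hA hB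

theorem exists_of_cnt_pos {M : Multiset Ω} {A : Set Ω} (h : 0 < cnt M A) : ∃ z ∈ M, z ∈ A := by
  classical
  unfold cnt at h
  obtain ⟨z, hz⟩ := Multiset.card_pos_iff_exists_mem.mp h
  rw [Multiset.mem_filter] at hz
  exact ⟨z, hz.1, hz.2⟩

theorem cnt_eq_zero {M : Multiset Ω} {A : Set Ω} (h : ∀ z ∈ M, z ∉ A) : cnt M A = 0 := by
  by_contra hcon
  obtain ⟨z, h1, h2⟩ := exists_of_cnt_pos (Nat.pos_of_ne_zero hcon)
  exact h z h1 h2

theorem cnt_all {M : Multiset Ω} {A : Set Ω} (h : ∀ z ∈ M, z ∈ A) : cnt M A = M.card := by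
  classical
  unfold cnt
  rw [Multiset.filter_eq_self.mpr h]

end Mult

section Ultra

variable {Ω : Type u} [NormedField Ω] [IsUltrametricDist Ω]

theorem norm_sub_le_max' (a b c : Ω) : ‖a - c‖ ≤ max ‖a - b‖ ‖b - c‖ := by
  have := dist_triangle_max a b c
  rwa [dist_eq_norm, dist_eq_norm, dist_eq_norm] at this

theorem P_congr (M : Multiset Ω) {a b : Ω} {r : ℝ} (h : ‖a - b‖ ≤ r) : P M a r = P M b r := by
  unfold P
  congr 1
  refine Multiset.map_congr rfl fun z _ => ?_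
  apply le_antisymm
  · refine max_le (le_max_left _ _) ((norm_sub_le_max' a b z).trans ?_)
    exact max_le_max h le_rfl
  · refine max_le (le_max_left _ _) ((norm_sub_le_max' b a z).trans ?_)
    rw [norm_sub_rev b a]
    exact max_le_max h le_rfl

theorem norm_eq_of_sub_lt {a b : Ω} (h : ‖a - b‖ < ‖b‖) : ‖a‖ = ‖b‖ := by
  apply le_antisymm
  · have := norm_sub_le_max' a b 0
    simp only [sub_zero] at this
    exact this.trans (max_le h.le le_rfl)
  · by_contra hcon
    push Not at hcon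
    have := norm_sub_le_max' b a 0
    simp only [sub_zero] at this
    rw [norm_sub_rev b a] at this
    exact absurd this (not_le.mpr (max_lt h hcon))

theorem P_far (M : Multiset Ω) {R : ℝ} (hM : ∀ z ∈ M, R ≤ ‖z‖) {r : ℝ} (hr : r ≤ R) :
    P M 0 r = P M 0 0 := by
  unfold P
  congr 1
  refine Multiset.map_congr rfl fun z hz => ?_
  rw [zero_sub, norm_neg, max_eq_right (hr.trans (hM z hz)), max_eq_right (norm_nonneg _)]

theorem P_far' (M : Multiset Ω) {R : ℝ} (hM : ∀ z ∈ M, R ≤ ‖z‖) {x : Ω} (hx : ‖x‖ < R) :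
    P M x 0 = P M 0 0 := by
  unfold P
  congr 1
  refine Multiset.map_congr rfl fun z hz => ?_
  have h : ‖x - z‖ = ‖(0 : Ω) - z‖ := by
    apply norm_eq_of_sub_lt
    rw [sub_sub_sub_cancel_right, sub_zero, zero_sub, norm_neg]
    exact hx.trans_le (hM z hz)
  rw [h]

end Ultra

/-! ### Polynomials -/

section Poly

variable {Ω : Type u} [NormedField Ω]

/-- the norm of a polynomial on the disc of centre `a` and radius `r` -/
noncomputable def N (f : Polynomial Ω) (a : Ω) (r : ℝ) : ℝ := ‖f.leadingCoeff‖ * P f.roots a r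

theorem nr_eq (f : Polynomial Ω) (A : Set Ω) : nr f A = cnt f.roots A := rfl

theorem N_zero [IsAlgClosed Ω] (f : Polynomial Ω) (a : Ω) : N f a 0 = ‖f.eval a‖ := by
  rw [(IsAlgClosed.splits f).eval_eq_prod_roots, norm_mul, P_norm]; rfl

theorem N_pos {f : Polynomial Ω} (hf : f ≠ 0) (a : Ω) {r : ℝ} (hr : 0 < r) : 0 < N f a r :=
  mul_pos (norm_pos_iff.mpr (leadingCoeff_ne_zero.mpr hf)) (P_pos _ _ hr)

theorem N_cont (f : Polynomial Ω) (a : Ω) : Continuous (N f a) :=
  continuous_const.mul (P_cont _ _)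

theorem N_X_mul {f : Polynomial Ω} (hf : f ≠ 0) {r : ℝ} (hr : 0 ≤ r) :
    N (X * f) 0 r = r * N f 0 r := by
  unfold N
  rw [leadingCoeff_mul, leadingCoeff_X, one_mul, roots_mul (mul_ne_zero X_ne_zero hf), roots_X,
    Multiset.singleton_add, P_cons, sub_zero, norm_zero, max_eq_left hr]
  ring

theorem N_congr [IsUltrametricDist Ω] (f : Polynomial Ω) {a b : Ω} {r : ℝ} (h : ‖a - b‖ ≤ r) :
    N f a r = N f b r := by
  unfold N; rw [P_congr _ h]

theorem cross_left {p q : Polynomial Ω} {s : ℝ} {a : Ω} {ρ : ℝ} (hp : p ≠ 0) (hρ : 0 < ρ)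
    (h0 : N p a ρ = s * N q a ρ)
    (h : ∀ δ, δ < ρ → ∃ r, δ < r ∧ r < ρ ∧ s * N q a r < N p a r) :
    nr p (Metric.ball a ρ) < nr q (Metric.ball a ρ) := by
  obtain ⟨δ1, h1, h2, h3⟩ := P_left p.roots a hρ
  obtain ⟨δ2, h4, h5, h6⟩ := P_left q.roots a hρ
  obtain ⟨r, hr1, hr2, hr3⟩ := h (max δ1 δ2) (max_lt h1 h4)
  have hr0 : 0 < r := h2.trans_lt ((le_max_left _ _).trans_lt hr1)
  have e1 := h3 r ((le_max_left _ _).trans_lt hr1) hr2.le
  have e2 := h6 r ((le_max_right _ _).trans_lt hr1) hr2.le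
  rw [← nr_eq] at e1 e2
  by_contra hcon
  rw [not_lt] at hcon
  set m := nr p (Metric.ball a ρ)
  set n := nr q (Metric.ball a ρ)
  have e1' : N p a r = N p a ρ * (r / ρ) ^ m := by
    rw [div_pow]
    unfold N
    field_simp
    linear_combination ‖p.leadingCoeff‖ * e1
  have e2' : s * N q a r = N p a ρ * (r / ρ) ^ n := by
    rw [h0, div_pow]
    unfold N
    field_simp
    linear_combination s * ‖q.leadingCoeff‖ * e2
  rw [e1', e2'] at hr3
  have h7 : (r / ρ) ^ m ≤ (r / ρ) ^ n :=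
    pow_le_pow_of_le_one (div_pos hr0 hρ).le ((div_le_one hρ).mpr hr2.le) hcon
  have h8 := mul_le_mul_of_nonneg_left h7 (N_pos hp a hρ).le
  linarith

theorem cross_right {p q : Polynomial Ω} {s : ℝ} {a : Ω} {ρ : ℝ} (hp : p ≠ 0) (hρ : 0 < ρ)
    (h0 : N p a ρ = s * N q a ρ)
    (h : ∀ δ, ρ < δ → ∃ r, ρ < r ∧ r < δ ∧ s * N q a r < N p a r) :
    nr q (Metric.closedBall a ρ) < nr p (Metric.closedBall a ρ) := by
  obtain ⟨δ1, h1, h3⟩ := P_right p.roots a hρ
  obtain ⟨δ2, h4, h6⟩ := P_right q.roots a hρ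
  obtain ⟨r, hr1, hr2, hr3⟩ := h (min δ1 δ2) (lt_min h1 h4)
  have hr0 : 0 < r := hρ.trans hr1
  have e1 := h3 r hr1.le (hr2.trans_le (min_le_left _ _))
  have e2 := h6 r hr1.le (hr2.trans_le (min_le_right _ _))
  rw [← nr_eq] at e1 e2
  by_contra hcon
  rw [not_lt] at hcon
  set m := nr p (Metric.closedBall a ρ)
  set n := nr q (Metric.closedBall a ρ)
  have e1' : N p a r = N p a ρ * (r / ρ) ^ m := by
    rw [div_pow]
    unfold N
    field_simp
    linear_combination ‖p.leadingCoeff‖ * e1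
  have e2' : s * N q a r = N p a ρ * (r / ρ) ^ n := by
    rw [h0, div_pow]
    unfold N
    field_simp
    linear_combination s * ‖q.leadingCoeff‖ * e2
  rw [e1', e2'] at hr3
  have h7 : (r / ρ) ^ m ≤ (r / ρ) ^ n :=
    pow_le_pow_right₀ ((one_le_div hρ).mpr hr1.le) hcon
  have h8 := mul_le_mul_of_nonneg_left h7 (N_pos hp a hρ).le
  linarith

/-- the disc of centre `c` and radius `ρ` is a hole -/
def IsHole (p q : Polynomial Ω) (s : ℝ) (c : Ω) (ρ : ℝ) : Prop :=
  0 < ρ ∧ ρ ≤ ‖c‖ ∧ N p c ρ = s * N q c ρ ∧ (∀ r, ρ ≤ r → r ≤ ‖c‖ → N p c r ≤ s * N q c r) ∧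
    ∀ δ, δ < ρ → ∃ r, δ < r ∧ r < ρ ∧ s * N q c r < N p c r

theorem hole_exists [IsUltrametricDist Ω] [IsAlgClosed Ω] {p q : Polynomial Ω} {s R : ℝ}
    (hg : ∀ r, 0 ≤ r → r ≤ R → N p 0 r ≤ s * N q 0 r) {c : Ω} (hc : ‖c‖ ≤ R)
    (h : s * ‖q.eval c‖ < ‖p.eval c‖) : ∃ ρ, IsHole p q s c ρ := by
  obtain ⟨ρ, h1, h2, h3, h4, h5⟩ := last_cross (g := fun r => N p c r - s * N q c r)
    ((N_cont p c).sub (continuous_const.mul (N_cont q c))) (a := 0) (b := ‖c‖) (norm_nonneg c)
    (by simp only [N_zero]; linarith)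
    (by
      have := hg ‖c‖ (norm_nonneg c) hc
      have e : ‖c - 0‖ ≤ ‖c‖ := by rw [sub_zero]
      simp only [N_congr p e, N_congr q e]
      linarith)
  refine ⟨ρ, h1, h2, sub_eq_zero.mp h3, fun r hr1 hr2 => ?_, fun δ hδ => ?_⟩
  · have := h4 r hr1 hr2
    linarith
  · obtain ⟨r, hr1, hr2, hr3⟩ := h5 δ hδ
    exact ⟨r, hr1, hr2, by linarith⟩

theorem hole_eq' [IsUltrametricDist Ω] {p q : Polynomial Ω} {s : ℝ} {c c' : Ω} {ρ ρ' : ℝ}
    (h : IsHole p q s c ρ) (h' : IsHole p q s c' ρ') (hle : ρ ≤ ρ')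
    (hne : ¬ Disjoint (Metric.ball c ρ) (Metric.ball c' ρ')) :
    Metric.ball c ρ = Metric.ball c' ρ' := by
  obtain ⟨x, hx1, hx2⟩ := Set.not_disjoint_iff.mp hne
  rw [Metric.mem_ball, dist_eq_norm] at hx1 hx2
  have hcc : ‖c - c'‖ < ρ' := by
    refine (norm_sub_le_max' c x c').trans_lt (max_lt ?_ hx2)
    rw [norm_sub_rev]
    exact hx1.trans_le hle
  have hnorm : ‖c‖ = ‖c'‖ := norm_eq_of_sub_lt (hcc.trans_le h'.2.1)
  have hρ : ρ = ρ' := by
    by_contra hcon
    have hlt : ρ < ρ' := lt_of_le_of_ne hle hcon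
    obtain ⟨r, hr1, hr2, hr3⟩ := h'.2.2.2.2 (max ρ ‖c - c'‖) (max_lt hlt hcc)
    have h1 := h.2.2.2.1 r ((le_max_left _ _).trans hr1.le)
      (by rw [hnorm]; exact hr2.le.trans h'.2.1)
    have e : ‖c - c'‖ ≤ r := (le_max_right _ _).trans hr1.le
    rw [N_congr p e, N_congr q e] at h1
    linarith
  subst hρ
  refine (IsUltrametricDist.ball_eq_of_mem ?_).symm
  rw [Metric.mem_ball, dist_eq_norm]
  exact hcc

theorem hole_eq [IsUltrametricDist Ω] {p q : Polynomial Ω} {s : ℝ} {c c' : Ω} {ρ ρ' : ℝ}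
    (h : IsHole p q s c ρ) (h' : IsHole p q s c' ρ')
    (hne : ¬ Disjoint (Metric.ball c ρ) (Metric.ball c' ρ')) :
    Metric.ball c ρ = Metric.ball c' ρ' := by
  rcases le_total ρ ρ' with hle | hle
  · exact hole_eq' h h' hle hne
  · exact (hole_eq' h' h hle (fun hd => hne hd.symm)).symm

theorem count_Wr [CharZero Ω] {p q : Polynomial Ω} (hpq : IsCoprime p q) (hp0 : p ≠ 0) {z : Ω}
    (hz : p.eval z = 0) [DecidableEq Ω] :
    (Wr p q).roots.count z + 1 ≤ p.roots.count z := by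
  rw [count_roots, count_roots]
  have hroot : p.IsRoot z := hz
  have hm : 0 < p.rootMultiplicity z := (rootMultiplicity_pos hp0).mpr hroot
  by_cases hW : Wr p q = 0
  · rw [hW, rootMultiplicity_zero]; omega
  by_contra hcon
  have hle : p.rootMultiplicity z ≤ (Wr p q).rootMultiplicity z := by omega
  rw [le_rootMultiplicity_iff hW] at hle
  have hd1 : (X - C z) ^ p.rootMultiplicity z ∣ p := pow_rootMultiplicity_dvd p z
  have hd2 : (X - C z) ^ p.rootMultiplicity z ∣ derivative p * q := by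
    have : derivative p * q = Wr p q + p * derivative q := by unfold Wr; ring
    rw [this]
    exact dvd_add hle (hd1.mul_right _)
  have hco : IsCoprime ((X - C z) ^ p.rootMultiplicity z) q :=
    IsCoprime.of_isCoprime_of_dvd_left hpq hd1
  have hd3 : (X - C z) ^ p.rootMultiplicity z ∣ derivative p := hco.dvd_of_dvd_mul_right hd2
  have hp' : derivative p ≠ 0 := by
    intro h0
    have hdeg := natDegree_eq_zero_of_derivative_eq_zero h0
    rw [eq_C_of_natDegree_eq_zero hdeg, eval_C] at hz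
    exact hp0 (by rw [eq_C_of_natDegree_eq_zero hdeg, hz, C_0])
  rw [← le_rootMultiplicity_iff hp', derivative_rootMultiplicity_of_root hroot] at hd3
  omega

end Poly

/-! ### The critical point -/

section Crit

variable {Ω : Type u} [NormedField Ω] [IsUltrametricDist Ω] [IsAlgClosed Ω]

theorem exists_crit (hCNT : S_CNT.{u}) [CharZero Ω] (hn : ∀ n : ℕ, n ≠ 0 → ‖(n : Ω)‖ = 1)
    (hex : ∃ x : Ω, x ≠ 0 ∧ ‖x‖ ≠ 1) {p q : Polynomial Ω} (hpq : IsCoprime p q) (hp0 : p ≠ 0)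
    (hq0 : q ≠ 0) (hp : p.eval 0 = 0) {s R : ℝ} (hR : 0 < R)
    (hg : ∀ r, 0 ≤ r → r ≤ R → N p 0 r ≤ s * N q 0 r)
    (hne : nr p (Metric.closedBall 0 R) ≠ nr q (Metric.closedBall 0 R))
    (hz : ∃ z : Ω, z ≠ 0 ∧ ‖z‖ ≤ R ∧ (p.eval z = 0 ∨ q.eval z = 0)) :
    ∃ c, (Wr p q).eval c = 0 ∧ p.eval c ≠ 0 ∧ ‖p.eval c‖ ≤ s * ‖q.eval c‖ := by
  classical
  have hco : ∀ z, p.eval z = 0 → q.eval z = 0 → False := by
    intro z h1 h2
    obtain ⟨a, b, hab⟩ := hpq
    have := congrArg (eval z) hab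
    rw [eval_add, eval_mul, eval_mul, h1, h2, mul_zero, mul_zero, add_zero, eval_one] at this
    exact zero_ne_one this
  have hole : ∀ c : Ω, ‖c‖ ≤ R → s * ‖q.eval c‖ < ‖p.eval c‖ → ∃ ρ, IsHole p q s c ρ :=
    fun c hc h => hole_exists hg hc h
  choose! ρ hρ using hole
  set T : Set Ω := Metric.closedBall 0 R with hT
  have hmT : ∀ x : Ω, x ∈ T ↔ ‖x‖ ≤ R := fun x => by rw [hT, mem_closedBall_zero_iff]
  set Z : Finset Ω := (q.roots.filter (· ∈ T)).toFinset with hZdef
  set H : Finset (Set Ω) := Z.image fun z => Metric.ball z (ρ z) with hH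
  have hZ : ∀ z, z ∈ Z ↔ q.eval z = 0 ∧ ‖z‖ ≤ R := by
    intro z
    rw [hZdef, Multiset.mem_toFinset, Multiset.mem_filter, mem_roots hq0, hmT]
    rfl
  have hZh : ∀ z ∈ Z, IsHole p q s z (ρ z) := by
    intro z hzZ
    obtain ⟨h1, h2⟩ := (hZ z).mp hzZ
    refine hρ z h2 ?_
    rw [h1, norm_zero, mul_zero]
    exact norm_pos_iff.mpr fun h => hco z h h1
  have hHd : ∀ A ∈ H, ∀ B ∈ H, A ≠ B → Disjoint A B := by
    intro A hA B hB hAB
    obtain ⟨z, hz1, rfl⟩ := Finset.mem_image.mp hA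
    obtain ⟨w, hw1, rfl⟩ := Finset.mem_image.mp hB
    by_contra hcon
    exact hAB (hole_eq (hZh z hz1) (hZh w hw1) hcon)
  -- discs inside `T`
  have hsub : ∀ (c : Ω) (r : ℝ) (x : Ω), ‖c‖ ≤ R → r ≤ ‖c‖ → x ∈ Metric.ball c r → ‖x‖ ≤ R := by
    intro c r x hc hr hx
    rw [Metric.mem_ball, dist_eq_norm] at hx
    have h := norm_sub_le_max' x c 0
    rw [sub_zero, sub_zero] at h
    exact h.trans (max_le ((hx.le.trans hr).trans hc) hc)
  have hHT : ∀ A ∈ H, A ⊆ T := by
    intro A hA x hx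
    obtain ⟨z, hz1, rfl⟩ := Finset.mem_image.mp hA
    exact (hmT x).mpr (hsub z _ x ((hZ z).mp hz1).2 (hZh z hz1).2.1 hx)
  have hHn : ∀ A ∈ H, nr (Wr p q) A + 1 = nr p A + nr q A := by
    intro A hA
    obtain ⟨z, hz1, rfl⟩ := Finset.mem_image.mp hA
    have h := hZh z hz1
    exact (hCNT Ω hn hex p q hp0 hq0 z (ρ z) h.1).1
      (cross_left hp0 h.1 h.2.2.1 h.2.2.2.2).ne
  set V : Set Ω := ⋃ A ∈ H, A with hV
  have hVT : V ⊆ T := Set.iUnion₂_subset hHT
  set U : Set Ω := T \ V with hU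
  have key : ∀ f : Polynomial Ω, nr f T = nr f U + ∑ A ∈ H, nr f A := by
    intro f
    simp only [nr_eq]
    rw [← cnt_sUnion _ H hHd, ← cnt_union, hU, Set.diff_union_of_subset hVT]
    rw [hU]
    exact Set.disjoint_sdiff_left
  have hW := (hCNT Ω hn hex p q hp0 hq0 0 R hR).2 hne
  rw [← hT, key, key, key] at hW
  have hzV : ∀ z ∈ Z, z ∈ V := by
    intro z hz1
    rw [hV, Set.mem_iUnion₂]
    exact ⟨_, Finset.mem_image_of_mem _ hz1, Metric.mem_ball_self (hZh z hz1).1⟩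
  have hqU : nr q U = 0 := by
    rw [nr_eq]
    refine cnt_eq_zero fun z hz1 hz2 => hz2.2 (hzV z ((hZ z).mpr ⟨?_, (hmT z).mp hz2.1⟩))
    exact (mem_roots hq0).mp hz1
  have hsum : ∑ A ∈ H, nr (Wr p q) A + H.card = ∑ A ∈ H, nr p A + ∑ A ∈ H, nr q A := by
    rw [Finset.card_eq_sum_ones, ← Finset.sum_add_distrib, ← Finset.sum_add_distrib]
    exact Finset.sum_congr rfl hHn
  have cU : nr (Wr p q) U + 1 = nr p U + H.card := by omega
  have hUle : ∀ c ∈ U, ‖p.eval c‖ ≤ s * ‖q.eval c‖ := by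
    intro c hc
    by_contra hcon
    rw [not_le] at hcon
    have hcR : ‖c‖ ≤ R := (hmT c).mp hc.1
    have h := hρ c hcR hcon
    have hlt := cross_left hp0 h.1 h.2.2.1 h.2.2.2.2
    obtain ⟨π, hπ1, hπ2⟩ := exists_of_cnt_pos (M := q.roots) (A := Metric.ball c (ρ c))
      (by rw [← nr_eq]; omega)
    have hπR : ‖π‖ ≤ R := hsub c _ π hcR h.2.1 hπ2
    have hπZ : π ∈ Z := (hZ π).mpr ⟨(mem_roots hq0).mp hπ1, hπR⟩
    have hdis : ¬ Disjoint (Metric.ball c (ρ c)) (Metric.ball π (ρ π)) :=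
      Set.not_disjoint_iff.mpr ⟨π, hπ2, Metric.mem_ball_self (hZh π hπZ).1⟩
    have he := hole_eq h (hZh π hπZ) hdis
    apply hc.2
    rw [hV, Set.mem_iUnion₂]
    refine ⟨_, Finset.mem_image_of_mem _ hπZ, ?_⟩
    rw [← he]
    exact Metric.mem_ball_self h.1
  by_contra hcon
  have hall : ∀ c ∈ U, (Wr p q).eval c = 0 → p.eval c = 0 := by
    intro c hc h1
    by_contra h2
    exact hcon ⟨c, h1, h2, hUle c hc⟩
  have h0U : (0 : Ω) ∈ U := by
    refine ⟨(hmT 0).mpr (by rw [norm_zero]; exact hR.le), fun h0V => ?_⟩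
    rw [hV, Set.mem_iUnion₂] at h0V
    obtain ⟨A, hA, h0A⟩ := h0V
    obtain ⟨z, hz1, rfl⟩ := Finset.mem_image.mp hA
    rw [Metric.mem_ball, dist_eq_norm, zero_sub, norm_neg] at h0A
    exact absurd (hZh z hz1).2.1 (not_le.mpr h0A)
  set MP : Multiset Ω := p.roots.filter (· ∈ U) with hMP
  set MW : Multiset Ω := (Wr p q).roots.filter (· ∈ U) with hMW
  have hle : MW + MP.dedup ≤ MP := by
    rw [Multiset.le_iff_count]
    intro z
    rw [Multiset.count_add, Multiset.count_dedup]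
    by_cases hzU : z ∈ U
    · by_cases hzp : p.eval z = 0
      · have h1 := count_Wr hpq hp0 hzp
        have h2 : z ∈ MP := by
          rw [hMP, Multiset.mem_filter, mem_roots hp0]; exact ⟨hzp, hzU⟩
        rw [if_pos h2, hMW, hMP, Multiset.count_filter_of_pos hzU,
          Multiset.count_filter_of_pos hzU]
        exact h1
      · have h1 : z ∉ MW := by
          rw [hMW, Multiset.mem_filter]
          rintro ⟨h1, -⟩
          exact hzp (hall z hzU (isRoot_of_mem_roots h1))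
        have h2 : z ∉ MP := by
          rw [hMP, Multiset.mem_filter, mem_roots hp0]
          rintro ⟨h1, -⟩
          exact hzp h1
        rw [if_neg h2, Multiset.count_eq_zero_of_notMem h1]
        exact Nat.zero_le _
    · have h1 : z ∉ MW := by
        rw [hMW, Multiset.mem_filter]; exact fun h => hzU h.2
      have h2 : z ∉ MP := by
        rw [hMP, Multiset.mem_filter]; exact fun h => hzU h.2
      rw [if_neg h2, Multiset.count_eq_zero_of_notMem h1]
      exact Nat.zero_le _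
  have hcard := Multiset.card_le_card hle
  rw [Multiset.card_add] at hcard
  have e1 : nr (Wr p q) U = MW.card := by
    rw [hMW]; unfold nr; congr!
  have e2 : nr p U = MP.card := by
    rw [hMP]; unfold nr; congr!
  have e3 : MP.dedup.card = MP.toFinset.card := rfl
  have h0m : (0 : Ω) ∈ MP.toFinset := by
    rw [Multiset.mem_toFinset, hMP, Multiset.mem_filter, mem_roots hp0]; exact ⟨hp, h0U⟩
  have hpos : 0 < MP.toFinset.card := Finset.card_pos.mpr ⟨0, h0m⟩
  have hH0 : H.card = 0 := by omega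
  have hHe : H = ∅ := Finset.card_eq_zero.mp hH0
  have hZe : Z = ∅ := by rw [hH] at hHe; exact Finset.image_eq_empty.mp hHe
  obtain ⟨z, hz0, hzR, hzpq⟩ := hz
  have hzq : q.eval z ≠ 0 := by
    intro h
    have := (hZ z).mpr ⟨h, hzR⟩
    rw [hZe] at this
    exact absurd this (Finset.notMem_empty z)
  have hzp : p.eval z = 0 := hzpq.resolve_right hzq
  have hzU : z ∈ U := by
    refine ⟨(hmT z).mpr hzR, fun h => ?_⟩
    rw [hV, hHe] at h
    simp at h
  have hzm : z ∈ MP.toFinset := by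
    rw [Multiset.mem_toFinset, hMP, Multiset.mem_filter, mem_roots hp0]; exact ⟨hzp, hzU⟩
  have h2 : 1 < MP.toFinset.card := Finset.one_lt_card.mpr ⟨z, hzm, 0, h0m, hz0⟩
  omega

end Crit

theorem mapP1_some {K : Type u} [Field K] {p q : Polynomial K} {d : ℕ} {x : K}
    (h : q.eval x ≠ 0) : mapP1 p q d (some x) = some (p.eval x / q.eval x) := by
  simp [mapP1, h]

theorem t_LOC (hCNT : S_CNT.{u}) : S_LOC.{u} := by
  classical
  intro Ω _ _ _ hn p q hpq hp hq hdeg h2 hl0 hl1 y hy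
  have : CharZero Ω := by
    refine charZero_of_inj_zero fun n hn0 => ?_
    by_contra h
    have := hn n h
    rw [hn0, norm_zero] at this
    exact zero_ne_one this
  set l := p.coeff 1 with hl
  have hex : ∃ x : Ω, x ≠ 0 ∧ ‖x‖ ≠ 1 := ⟨l, norm_pos_iff.mp hl0, hl1.ne⟩
  set p1 := p.divX with hp1
  have hpX : p = X * p1 := by
    have := divX_mul_X_add p
    rw [hp, C_0, add_zero] at this
    rw [mul_comm]; exact this.symm
  have hp1l : p1.eval 0 = l := by
    rw [← coeff_zero_eq_eval_zero, hp1, coeff_divX, zero_add]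
  have hp10 : p1 ≠ 0 := by
    intro h
    rw [h, eval_zero] at hp1l
    rw [← hp1l, norm_zero] at hl0
    exact lt_irrefl _ hl0
  have hp0 : p ≠ 0 := by rw [hpX]; exact mul_ne_zero X_ne_zero hp10
  have hq0 : q ≠ 0 := by
    intro h
    rw [h, coeff_zero] at hq
    exact zero_ne_one hq
  have hqe : q.eval 0 = 1 := by rw [← coeff_zero_eq_eval_zero, hq]
  have hpe : p.eval 0 = 0 := by rw [← coeff_zero_eq_eval_zero, hp]
  -- the smallest nonzero root
  obtain ⟨z0, hz0M, hmin⟩ := Finset.exists_min_image (p1.roots + q.roots).toFinset (fun z => ‖z‖)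
    ⟨y, by rw [Multiset.mem_toFinset, Multiset.mem_add, mem_roots hq0]; exact Or.inr hy⟩
  simp only [Multiset.mem_toFinset, Multiset.mem_add, mem_roots hq0, mem_roots hp10] at hz0M hmin
  have hz00 : z0 ≠ 0 := by
    rintro rfl
    rcases hz0M with h | h
    · rw [IsRoot.def, hp1l] at h
      rw [h, norm_zero] at hl0
      exact lt_irrefl _ hl0
    · rw [IsRoot.def, hqe] at h
      exact one_ne_zero h
  set rs := ‖z0‖ with hrs
  have hrs0 : 0 < rs := norm_pos_iff.mpr hz00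
  have hfarp : ∀ z ∈ p1.roots, rs ≤ ‖z‖ := fun z hz => hmin z (Or.inl ((mem_roots hp10).mp hz))
  have hfarq : ∀ z ∈ q.roots, rs ≤ ‖z‖ := fun z hz => hmin z (Or.inr ((mem_roots hq0).mp hz))
  have hNq : ∀ r, r ≤ rs → N q 0 r = 1 := by
    intro r hr
    have : N q 0 r = N q 0 0 := by unfold N; rw [P_far _ hfarq hr]
    rw [this, N_zero, hqe, norm_one]
  have hNp : ∀ r, 0 ≤ r → r ≤ rs → N p 0 r = r * ‖l‖ := by
    intro r h0 hr
    have : N p1 0 r = N p1 0 0 := by unfold N; rw [P_far _ hfarp hr]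
    rw [hpX, N_X_mul hp10 h0, this, N_zero, hp1l]
  have hg0 : ∀ r, 0 ≤ r → r ≤ rs → N p 0 r ≤ (‖l‖ * rs) * N q 0 r := by
    intro r h0 hr
    rw [hNq r hr, hNp r h0 hr, mul_one, mul_comm]
    exact mul_le_mul_of_nonneg_left hr hl0.le
  -- the trunk
  obtain ⟨R, hR1, hg, hne⟩ : ∃ R, rs ≤ R ∧ (∀ r, 0 ≤ r → r ≤ R →
      N p 0 r ≤ (‖l‖ * rs) * N q 0 r) ∧
      nr p (Metric.closedBall 0 R) ≠ nr q (Metric.closedBall 0 R) := by
    by_cases hA : ∀ r, 0 ≤ r → N p 0 r ≤ (‖l‖ * rs) * N q 0 r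
    · obtain ⟨R0, hR0⟩ := Finset.exists_le ((p.roots + q.roots).toFinset.image fun z => ‖z‖)
      have hR0' : ∀ z ∈ p.roots + q.roots, ‖z‖ ≤ R0 := fun z hz =>
        hR0 _ (Finset.mem_image_of_mem _ (Multiset.mem_toFinset.mpr hz))
      refine ⟨max rs R0, le_max_left _ _, fun r h0 _ => hA r h0, ?_⟩
      rw [nr_eq, nr_eq, cnt_all, cnt_all]
      · rw [← (IsAlgClosed.splits p).natDegree_eq_card_roots,
          ← (IsAlgClosed.splits q).natDegree_eq_card_roots]
        exact hdeg.ne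
      · intro z hz
        rw [mem_closedBall_zero_iff]
        exact (hR0' z (Multiset.mem_add.mpr (Or.inr hz))).trans (le_max_right _ _)
      · intro z hz
        rw [mem_closedBall_zero_iff]
        exact (hR0' z (Multiset.mem_add.mpr (Or.inl hz))).trans (le_max_right _ _)
    · push Not at hA
      obtain ⟨r1, h10, h11⟩ := hA
      have h12 : rs ≤ r1 := by
        by_contra hcon
        rw [not_le] at hcon
        exact absurd (hg0 r1 h10 hcon.le) (not_le.mpr h11)
      obtain ⟨R, k1, k2, k3, k4, k5⟩ := first_cross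
        (g := fun r => N p 0 r - (‖l‖ * rs) * N q 0 r)
        ((N_cont p 0).sub (continuous_const.mul (N_cont q 0))) h12
        (by have := hg0 rs hrs0.le le_rfl; linarith) (by linarith)
      refine ⟨R, k1, fun r h0 hr => ?_, ?_⟩
      · rcases le_total r rs with h | h
        · exact hg0 r h0 h
        · have := k4 r h hr
          linarith
      · refine (cross_right hp0 (hrs0.trans_le k1) (sub_eq_zero.mp k3) fun δ hδ => ?_).ne'
        obtain ⟨r, j1, j2, j3⟩ := k5 δ hδ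
        exact ⟨r, j1, j2, by linarith⟩
  obtain ⟨c, hc1, hc2, hc3⟩ := exists_crit hCNT hn hex hpq hp0 hq0 hpe (hrs0.trans_le hR1) hg hne
    ⟨z0, hz00, hR1, hz0M.imp (fun h => by rw [hpX, eval_mul, h, mul_zero]) id⟩
  have hqc : q.eval c ≠ 0 := by
    intro h
    rw [h, norm_zero, mul_zero] at hc3
    exact hc2 (norm_le_zero_iff.mp hc3)
  refine ⟨c, hc1, ?_⟩
  -- the orbit
  have horb : ∀ j : ℕ, ∃ x : Ω, (mapP1 p q q.natDegree)^[j + 1] (some c) = some x ∧ x ≠ 0 ∧
      ‖x‖ ≤ ‖l‖ ^ (j + 1) * rs := by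
    intro j
    induction j with
    | zero =>
      refine ⟨p.eval c / q.eval c, ?_, div_ne_zero hc2 hqc, ?_⟩
      · rw [zero_add, Function.iterate_one, mapP1_some hqc]
      · rw [norm_div, zero_add, pow_one, div_le_iff₀ (norm_pos_iff.mpr hqc)]
        exact hc3
    | succ j ih =>
      obtain ⟨x, hx1, hx2, hx3⟩ := ih
      have hxr : ‖x‖ < rs := by
        refine hx3.trans_lt ?_
        have : ‖l‖ ^ (j + 1) < 1 := pow_lt_one₀ hl0.le hl1 (Nat.succ_ne_zero j)
        calc ‖l‖ ^ (j + 1) * rs < 1 * rs := mul_lt_mul_of_pos_right this hrs0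
          _ = rs := one_mul _
      have hqx : ‖q.eval x‖ = 1 := by
        rw [← N_zero]
        have : N q x 0 = N q 0 0 := by unfold N; rw [P_far' _ hfarq hxr]
        rw [this, N_zero, hqe, norm_one]
      have hp1x : ‖p1.eval x‖ = ‖l‖ := by
        rw [← N_zero]
        have : N p1 x 0 = N p1 0 0 := by unfold N; rw [P_far' _ hfarp hxr]
        rw [this, N_zero, hp1l]
      have hpx : ‖p.eval x‖ = ‖x‖ * ‖l‖ := by
        rw [hpX, eval_mul, eval_X, norm_mul, hp1x]
      have hqx0 : q.eval x ≠ 0 := by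
        intro h
        rw [h, norm_zero] at hqx
        exact zero_ne_one hqx
      refine ⟨p.eval x / q.eval x, ?_, div_ne_zero ?_ hqx0, ?_⟩
      · rw [Function.iterate_succ_apply', hx1, mapP1_some hqx0]
      · rw [← norm_pos_iff, hpx]
        exact mul_pos (norm_pos_iff.mpr hx2) hl0
      · rw [norm_div, hqx, div_one, hpx, pow_succ]
        calc ‖x‖ * ‖l‖ ≤ (‖l‖ ^ (j + 1) * rs) * ‖l‖ := mul_le_mul_of_nonneg_right hx3 hl0.le
          _ = ‖l‖ ^ (j + 1) * ‖l‖ * rs := by ring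
  intro j
  obtain ⟨x, hx1, hx2, hx3⟩ := horb j
  refine ⟨x, hx1, hx2, hx3.trans ?_⟩
  exact mul_le_mul_of_nonneg_left (hmin y (Or.inr hy)) (pow_nonneg hl0.le _)

end Pool.Agent.N820.SU.Loc
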