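import Pool.Agent.N820.SU.Lsm

/-!
# Project SU, job LSF: normal forms and finiteness of the fibres in an ultraproduct
-/

set_option autoImplicit false

namespace Pool.Agent.N820.SU.Lsf

open Polynomial Pool.Agent.N820.SU Pool.Agent.N820.SU.Lsm

universe u

variable {U : Ultrafilter ℕ} {Ω : ℕ → Type u} [∀ j, Field (Ω j)] {Ω' : Type u} [Field Ω']
  {π : (∀ j, Ω j) →+* Ω'}

theorem nf_up [∀ j, IsAlgClosed (Ω j)] [IsAlgClosed Ω'] (hs : Function.Surjective π)
    (hk : Ker U π) {d : ℕ} (n : ℕ) (hd : 1 ≤ d) (p q : ∀ j, (Ω j)[X])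
    (h : ∀ j, NF d n (p j) (q j)) : NF d n (up π d p) (up π d q) := by
  have hp : ∀ j, (p j).natDegree ≤ d := fun j => by have := (h j).1.2; omega
  have hq : ∀ j, (q j).natDegree ≤ d := fun j => by have := (h j).1.2; omega
  have h0 : Rep U π (fun j => some (0 : Ω j)) (some 0) := by
    have := rep_some (U := U) (π := π) 0
    rwa [map_zero] at this
  have h1 : Rep U π (fun j => some (1 : Ω j)) (some 1) := by
    have := rep_some (U := U) (π := π) 1
    rwa [map_one] at this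
  have hF := (repF_mapP1 hk d p q hp hq).iterate n
  refine ⟨?_, ?_, ?_, ?_, ?_⟩
  · rw [isRat_up hs hk hd p q hp hq]
    exact Filter.Eventually.of_forall fun j => (h j).1
  · rw [rep_eq_iff hk (hF _ _ h0) h0]
    exact Filter.Eventually.of_forall fun j => (h j).2.1
  · rw [rep_eq_iff hk (hF _ _ rep_none) h0]
    exact Filter.Eventually.of_forall fun j => (h j).2.2.1
  · rw [rep_eq_iff hk (hF _ _ h1) rep_none]
    exact Filter.Eventually.of_forall fun j => (h j).2.2.2.1
  · have h5 : ∀ᶠ j in (U : Filter ℕ), ∃ i ∈ (Finset.range (d + 1) : Set ℕ),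
        ((p j).coeff i = 1 ∨ (q j).coeff i = 1) := by
      refine Filter.Eventually.of_forall fun j => ?_
      rcases (h j).2.2.2.2 with ⟨i, hi⟩ | ⟨i, hi⟩
      · refine ⟨i, ?_, Or.inl hi⟩
        have := le_natDegree_of_ne_zero (p := p j) (n := i) (by rw [hi]; exact one_ne_zero)
        have := hp j
        simp
        omega
      · refine ⟨i, ?_, Or.inr hi⟩
        have := le_natDegree_of_ne_zero (p := q j) (n := i) (by rw [hi]; exact one_ne_zero)
        have := hq j
        simp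
        omega
    rw [Ultrafilter.eventually_exists_mem_iff (Finset.finite_toSet _)] at h5
    obtain ⟨i, _, hi⟩ := h5
    rw [Ultrafilter.eventually_or] at hi
    have e1 : (1 : Ω') = π 1 := (map_one π).symm
    rcases hi with hi | hi
    · left
      refine ⟨i, ?_⟩
      rw [up_coeff d p hp, e1, eq_iff hk]
      exact hi
    · right
      refine ⟨i, ?_⟩
      rw [up_coeff d q hq, e1, eq_iff hk]
      exact hi

theorem sameMult_up [∀ j, CharZero (Ω j)] [∀ j, IsAlgClosed (Ω j)] [CharZero Ω']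
    [IsAlgClosed Ω'] (hs : Function.Surjective π)
    (hk : Ker U π) {d : ℕ} (B : ℕ) (hd : 1 ≤ d) (p q u w : ∀ j, (Ω j)[X])
    (hp : ∀ j, (p j).natDegree ≤ d) (hq : ∀ j, (q j).natDegree ≤ d)
    (hu : ∀ j, (u j).natDegree ≤ d) (hw : ∀ j, (w j).natDegree ≤ d)
    (h : SameMult (up π d p) (up π d q) (up π d u) (up π d w) d B) :
    ∀ᶠ j in (U : Filter ℕ), SameMult (p j) (q j) (u j) (w j) d B := by
  have key : ∀ n ∈ Finset.Icc 1 B, ∀ᶠ j in (U : Filter ℕ),
      ∀ l, IsMult (u j) (w j) d n l ↔ IsMult (p j) (q j) d n l := by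
    intro n hn
    rw [Finset.mem_Icc] at hn
    by_contra hc
    rw [← Ultrafilter.eventually_not] at hc
    have hc' : ∀ j, ∃ l, (¬ ∀ l, IsMult (u j) (w j) d n l ↔ IsMult (p j) (q j) d n l) →
        ¬ (IsMult (u j) (w j) d n l ↔ IsMult (p j) (q j) d n l) := by
      intro j
      by_cases hj : ∀ l, IsMult (u j) (w j) d n l ↔ IsMult (p j) (q j) d n l
      · exact ⟨0, fun h => absurd hj h⟩
      · rw [not_forall] at hj
        obtain ⟨l, hl⟩ := hj
        exact ⟨l, fun _ => hl⟩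
    choose l hl using hc'
    have h1 := h n hn.1 hn.2 (π l)
    rw [isMult_up hs hk n hd u w hu hw l, isMult_up hs hk n hd p q hp hq l] at h1
    rcases (em (∀ᶠ j in (U : Filter ℕ), IsMult (u j) (w j) d n (l j))) with h2 | h2
    · obtain ⟨j, a, b, c⟩ := (hc.and (h2.and (h1.1 h2))).exists
      exact hl j a ⟨fun _ => c, fun _ => b⟩
    · have h3 := fun h => h2 (h1.2 h)
      rw [← Ultrafilter.eventually_not] at h2
      replace h3 := Ultrafilter.eventually_not.2 h3
      obtain ⟨j, a, b, c⟩ := (hc.and (h2.and h3)).exists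
      exact hl j a ⟨fun h => absurd h b, fun h => absurd h c⟩
  rw [← Filter.eventually_all_finset] at key
  filter_upwards [key] with j hj n h1 h2
  exact hj n (Finset.mem_Icc.2 ⟨h1, h2⟩)

theorem conj_up [∀ j, IsAlgClosed (Ω j)] [IsAlgClosed Ω'] (hs : Function.Surjective π)
    (hk : Ker U π) {d : ℕ} (p q u w : ∀ j, (Ω j)[X])
    (hp : ∀ j, (p j).natDegree ≤ d) (hq : ∀ j, (q j).natDegree ≤ d)
    (hu : ∀ j, (u j).natDegree ≤ d) (hw : ∀ j, (w j).natDegree ≤ d)
    (h : ∀ᶠ j in (U : Filter ℕ), ConjP1 (p j) (q j) (u j) (w j) d) :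
    ConjP1 (up π d p) (up π d q) (up π d u) (up π d w) d := by
  have h1 : ∀ j, ∃ a b c e : Ω j, ConjP1 (p j) (q j) (u j) (w j) d → (a * e - b * c ≠ 0 ∧
      ∀ z, mapP1 (u j) (w j) d (mob a b c e z) = mob a b c e (mapP1 (p j) (q j) d z)) := by
    intro j
    by_cases hj : ConjP1 (p j) (q j) (u j) (w j) d
    · obtain ⟨a, b, c, e, hh⟩ := hj
      exact ⟨a, b, c, e, fun _ => hh⟩
    · exact ⟨0, 0, 0, 0, fun h => absurd h hj⟩
  choose a b c e hh using h1
  refine ⟨π a, π b, π c, π e, ?_, ?_⟩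
  · rw [← map_mul, ← map_mul, ← map_sub, ne_zero_iff hk]
    filter_upwards [h] with j hj
    exact (hh j hj).1
  · rw [repF_eq_iff hs hk ((repF_mapP1 hk _ u w hu hw).comp (repF_mob hk a b c e))
      ((repF_mob hk a b c e).comp (repF_mapP1 hk d p q hp hq))]
    filter_upwards [h] with j hj
    exact (hh j hj).2

theorem few_up [∀ j, CharZero (Ω j)] [∀ j, IsAlgClosed (Ω j)] [CharZero Ω'] [IsAlgClosed Ω']
    (hs : Function.Surjective π)
    (hk : Ker U π) {d : ℕ} (B : ℕ) (hd : 1 ≤ d) (p q : ∀ j, (Ω j)[X])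
    (hp : ∀ j, (p j).natDegree ≤ d) (hq : ∀ j, (q j).natDegree ≤ d)
    (h : ∀ᶠ j in (U : Filter ℕ), Few (p j) (q j) d B) : Few (up π d p) (up π d q) d B := by
  intro u' w' h'
  have hu' : ∀ i, (u' i).natDegree ≤ d := fun i => by have := (h' i).1.2; omega
  have hw' : ∀ i, (w' i).natDegree ≤ d := fun i => by have := (h' i).1.2; omega
  choose u hu hu1 using fun i => up_surj hs d (u' i) (hu' i)
  choose w hw hw1 using fun i => up_surj hs d (w' i) (hw' i)
  have h1 : ∀ i, ∀ᶠ j in (U : Filter ℕ), IsRat d (u i j) (w i j) ∧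
      SameMult (p j) (q j) (u i j) (w i j) d B := by
    intro i
    have h2 := h' i
    rw [← hu1, ← hw1] at h2
    refine Filter.Eventually.and ?_ ?_
    · exact (isRat_up hs hk hd (u i) (w i) (hu i) (hw i)).1 h2.1
    · exact sameMult_up hs hk B hd p q (u i) (w i) hp hq (hu i) (hw i) h2.2
  rw [← Filter.eventually_all] at h1
  have h2 : ∀ᶠ j in (U : Filter ℕ), ∃ x : Fin (B + 1) × Fin (B + 1), x.1 ≠ x.2 ∧
      ConjP1 (u x.1 j) (w x.1 j) (u x.2 j) (w x.2 j) d := by
    filter_upwards [h, h1] with j hj hj1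
    obtain ⟨i, i', hi⟩ := hj (fun i => u i j) (fun i => w i j) hj1
    exact ⟨(i, i'), hi⟩
  rw [Ultrafilter.eventually_exists_iff] at h2
  obtain ⟨x, hx⟩ := h2
  rw [Filter.eventually_and] at hx
  obtain ⟨_, hx1⟩ := hx.1.exists
  refine ⟨x.1, x.2, hx1, ?_⟩
  rw [← hu1, ← hw1, ← hu1, ← hw1]
  exact conj_up hs hk _ _ _ _ (hu _) (hw _) (hu _) (hw _) hx.2

theorem t_LSF : S_LSF.{u} := by
  intro U Ω _ _ _ Ω' _ _ _ π hs hk d n B hd p q h
  have hp : ∀ j, (p j).natDegree ≤ d := fun j => by have := (h j).1.1.2; omega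
  have hq : ∀ j, (q j).natDegree ≤ d := fun j => by have := (h j).1.1.2; omega
  exact ⟨nf_up hs hk n hd p q fun j => (h j).1,
    few_up hs hk B hd p q hp hq (Filter.Eventually.of_forall fun j => (h j).2)⟩

end Pool.Agent.N820.SU.Lsf
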