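import Pool.Agent.N820.SU.Stm

/-!
# Project SU, job LSM: Los' theorem for multipliers, by hand
-/

set_option autoImplicit false

namespace Pool.Agent.N820.SU.Lsm

open Polynomial Pool.Agent.N820.SU

universe u

variable {U : Ultrafilter ℕ} {Ω : ℕ → Type u} [∀ j, Field (Ω j)] {Ω' : Type u} [Field Ω']
  {π : (∀ j, Ω j) →+* Ω'}

/-- the kernel of `π` consists of the families vanishing almost everywhere -/
def Ker (U : Ultrafilter ℕ) (π : (∀ j, Ω j) →+* Ω') : Prop :=
  ∀ x, π x = 0 ↔ ∀ᶠ j in (U : Filter ℕ), x j = 0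

theorem eq_iff (hk : Ker U π) (x y : ∀ j, Ω j) :
    π x = π y ↔ ∀ᶠ j in (U : Filter ℕ), x j = y j := by
  rw [← sub_eq_zero, ← map_sub, hk]
  simp [sub_eq_zero]

theorem ne_iff (hk : Ker U π) (x y : ∀ j, Ω j) :
    π x ≠ π y ↔ ∀ᶠ j in (U : Filter ℕ), x j ≠ y j := by
  rw [Ne, eq_iff hk, Ultrafilter.eventually_not]

theorem ne_zero_iff (hk : Ker U π) (x : ∀ j, Ω j) :
    π x ≠ 0 ↔ ∀ᶠ j in (U : Filter ℕ), x j ≠ 0 := by
  rw [Ne, hk, Ultrafilter.eventually_not]

theorem map_div (hk : Ker U π) (x y : ∀ j, Ω j) :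
    π (fun j => x j / y j) = π x / π y := by
  by_cases h : π y = 0
  · rw [h, div_zero, hk]
    have := (hk y).1 h
    filter_upwards [this] with j hj
    simp [hj]
  · rw [eq_div_iff h, ← map_mul, eq_iff hk]
    have := (ne_zero_iff hk y).1 h
    filter_upwards [this] with j hj
    simp [hj]

/-- the family `z` of points represents the point `z'` -/
def Rep (U : Ultrafilter ℕ) (π : (∀ j, Ω j) →+* Ω') (z : ∀ j, Option (Ω j))
    (z' : Option Ω') : Prop :=
  (z' = none ∧ ∀ᶠ j in (U : Filter ℕ), z j = none) ∨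
  ∃ x : ∀ j, Ω j, z' = some (π x) ∧ ∀ᶠ j in (U : Filter ℕ), z j = some (x j)

theorem rep_none : Rep U π (fun _ => none) none := Or.inl ⟨rfl, by simp⟩

theorem rep_some (x : ∀ j, Ω j) : Rep U π (fun j => some (x j)) (some (π x)) :=
  Or.inr ⟨x, rfl, by simp⟩

theorem Rep.congr {z y : ∀ j, Option (Ω j)} {z' : Option Ω'} (h : Rep U π z z')
    (he : ∀ᶠ j in (U : Filter ℕ), z j = y j) : Rep U π y z' := by
  rcases h with ⟨h1, h2⟩ | ⟨x, h1, h2⟩
  · left
    refine ⟨h1, ?_⟩
    filter_upwards [h2, he] with j hj hj'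
    rw [← hj', hj]
  · right
    refine ⟨x, h1, ?_⟩
    filter_upwards [h2, he] with j hj hj'
    rw [← hj', hj]

/-- every point is represented -/
theorem rep_exists (hs : Function.Surjective π) (z' : Option Ω') : ∃ z, Rep U π z z' := by
  rcases z' with _ | x'
  · exact ⟨_, rep_none⟩
  · obtain ⟨x, rfl⟩ := hs x'
    exact ⟨_, rep_some x⟩

/-- every family represents a point -/
theorem rep_exists' (z : ∀ j, Option (Ω j)) : ∃ z', Rep U π z z' := by
  by_cases h : ∀ᶠ j in (U : Filter ℕ), z j = none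
  · exact ⟨none, Or.inl ⟨rfl, h⟩⟩
  · rw [← Ultrafilter.eventually_not] at h
    refine ⟨some (π fun j => (z j).getD 0), Or.inr ⟨_, rfl, ?_⟩⟩
    filter_upwards [h] with j hj
    obtain ⟨x, hx⟩ := Option.ne_none_iff_exists'.1 hj
    simp [hx]

theorem rep_eq_iff (hk : Ker U π) {z y : ∀ j, Option (Ω j)} {z' y' : Option Ω'}
    (hz : Rep U π z z') (hy : Rep U π y y') :
    z' = y' ↔ ∀ᶠ j in (U : Filter ℕ), z j = y j := by
  rcases hz with ⟨rfl, h2⟩ | ⟨x, rfl, h2⟩ <;> rcases hy with ⟨rfl, h4⟩ | ⟨x', rfl, h4⟩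
  · refine ⟨fun _ => ?_, fun _ => rfl⟩
    filter_upwards [h2, h4] with j a b
    rw [a, b]
  · refine ⟨fun h => by simp at h, fun h => ?_⟩
    exfalso
    obtain ⟨j, a, b, c⟩ := (h2.and (h4.and h)).exists
    rw [a, b] at c
    simp at c
  · refine ⟨fun h => by simp at h, fun h => ?_⟩
    exfalso
    obtain ⟨j, a, b, c⟩ := (h2.and (h4.and h)).exists
    rw [a, b] at c
    simp at c
  · rw [Option.some_inj, eq_iff hk]
    constructor
    · intro h
      filter_upwards [h2, h4, h] with j a b c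
      rw [a, b, c]
    · intro h
      filter_upwards [h2, h4, h] with j a b c
      rw [a, b] at c
      exact Option.some_inj.1 c

theorem rep_quot (hk : Ker U π) (x y : ∀ j, Ω j) :
    Rep U π (fun j => by classical exact if y j = 0 then none else some (x j / y j))
      (by classical exact if π y = 0 then none else some (π x / π y)) := by
  classical
  by_cases h : π y = 0
  · left
    refine ⟨by simp [h], ?_⟩
    filter_upwards [(hk y).1 h] with j hj
    simp [hj]
  · right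
    refine ⟨fun j => x j / y j, by rw [map_div hk]; simp [h], ?_⟩
    filter_upwards [(ne_zero_iff hk y).1 h] with j hj
    simp [hj]

/-- the family `F` of self-maps represents the self-map `F'` -/
def RepF (U : Ultrafilter ℕ) (π : (∀ j, Ω j) →+* Ω') (F : ∀ j, Option (Ω j) → Option (Ω j))
    (F' : Option Ω' → Option Ω') : Prop :=
  ∀ z z', Rep U π z z' → Rep U π (fun j => F j (z j)) (F' z')

theorem RepF.comp {F G : ∀ j, Option (Ω j) → Option (Ω j)} {F' G' : Option Ω' → Option Ω'}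
    (hF : RepF U π F F') (hG : RepF U π G G') :
    RepF U π (fun j z => F j (G j z)) (fun z => F' (G' z)) :=
  fun z z' h => hF _ _ (hG z z' h)

theorem RepF.iterate {F : ∀ j, Option (Ω j) → Option (Ω j)} {F' : Option Ω' → Option Ω'}
    (hF : RepF U π F F') (n : ℕ) : RepF U π (fun j => (F j)^[n]) (F'^[n]) := by
  induction n with
  | zero => intro z z' h; exact h
  | succ n ih =>
    intro z z' h
    simp only [Function.iterate_succ', Function.comp_apply]
    exact hF _ _ (ih z z' h)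

theorem repF_eq_iff (hs : Function.Surjective π) (hk : Ker U π)
    {F G : ∀ j, Option (Ω j) → Option (Ω j)} {F' G' : Option Ω' → Option Ω'}
    (hF : RepF U π F F') (hG : RepF U π G G') :
    (∀ z, F' z = G' z) ↔ ∀ᶠ j in (U : Filter ℕ), ∀ z, F j z = G j z := by
  constructor
  · intro h
    by_contra hc
    rw [← Ultrafilter.eventually_not] at hc
    have hc' : ∀ j, ∃ z, (¬ ∀ z, F j z = G j z) → F j z ≠ G j z := by
      intro j
      by_cases hj : ∀ z, F j z = G j z
      · exact ⟨none, fun h => absurd hj h⟩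
      · push Not at hj
        obtain ⟨z, hz⟩ := hj
        exact ⟨z, fun _ => hz⟩
    choose z hz using hc'
    obtain ⟨z', hz'⟩ := rep_exists' (U := U) (π := π) z
    have h1 := (rep_eq_iff hk (hF z z' hz') (hG z z' hz')).1 (h z')
    obtain ⟨j, a, b⟩ := (hc.and h1).exists
    exact hz j a b
  · intro h z'
    obtain ⟨z, hz⟩ := rep_exists (U := U) hs z'
    refine (rep_eq_iff hk (hF z z' hz) (hG z z' hz)).2 ?_
    filter_upwards [h] with j hj
    exact hj _

theorem repF_mob (hk : Ker U π) (a b c e : ∀ j, Ω j) :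
    RepF U π (fun j => mob (a j) (b j) (c j) (e j)) (mob (π a) (π b) (π c) (π e)) := by
  rintro z z' (⟨rfl, h⟩ | ⟨x, rfl, h⟩)
  · refine (rep_quot hk a c).congr ?_
    filter_upwards [h] with j hj
    rw [hj]
    rfl
  · have := rep_quot hk (a * x + b) (c * x + e)
    rw [map_add, map_mul, map_add, map_mul] at this
    refine this.congr ?_
    filter_upwards [h] with j hj
    rw [hj]
    rfl

/-! ### Polynomials -/

theorem up_coeff (d : ℕ) (f : ∀ j, (Ω j)[X]) (hf : ∀ j, (f j).natDegree ≤ d) (i : ℕ) :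
    (up π d f).coeff i = π fun j => (f j).coeff i := by
  rw [up, finsetSum_coeff]
  simp only [coeff_C_mul, coeff_X_pow, mul_ite, mul_one, mul_zero]
  rw [Finset.sum_ite_eq]
  split_ifs with h
  · rfl
  · have : (fun j => (f j).coeff i) = 0 := by
      funext j
      apply coeff_eq_zero_of_natDegree_lt
      have := hf j
      simp at h
      omega
    rw [this, map_zero]

theorem up_natDegree_le (d : ℕ) (f : ∀ j, (Ω j)[X]) : (up π d f).natDegree ≤ d := by
  rw [up]
  apply natDegree_sum_le_of_forall_le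
  intro i hi
  refine (natDegree_C_mul_X_pow_le _ _).trans ?_
  simp at hi
  omega

theorem up_eval (d : ℕ) (f : ∀ j, (Ω j)[X]) (hf : ∀ j, (f j).natDegree ≤ d) (x : ∀ j, Ω j) :
    (up π d f).eval (π x) = π fun j => (f j).eval (x j) := by
  have h1 : (fun j => (f j).eval (x j)) =
      ∑ i ∈ Finset.range (d + 1), (fun j => (f j).coeff i) * x ^ i := by
    funext j
    rw [eval_eq_sum_range' (n := d + 1) (by have := hf j; omega)]
    simp
  rw [h1, map_sum, up, eval_finsetSum]
  simp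

theorem up_surj (hs : Function.Surjective π) (d : ℕ) (F : Ω'[X]) (hF : F.natDegree ≤ d) :
    ∃ f : ∀ j, (Ω j)[X], (∀ j, (f j).natDegree ≤ d) ∧ up π d f = F := by
  choose c hc using fun i => hs (F.coeff i)
  have hd : ∀ j, (∑ i ∈ Finset.range (d + 1), C (c i j) * X ^ i).natDegree ≤ d := by
    intro j
    apply natDegree_sum_le_of_forall_le
    intro i hi
    refine (natDegree_C_mul_X_pow_le _ _).trans ?_
    simp at hi
    omega
  refine ⟨fun j => ∑ i ∈ Finset.range (d + 1), C (c i j) * X ^ i, hd, ?_⟩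
  ext i
  rw [up_coeff d _ hd]
  by_cases h : i ≤ d
  · rw [← hc i]
    congr 1
    funext j
    rw [finsetSum_coeff]
    simp only [coeff_C_mul, coeff_X_pow, mul_ite, mul_one, mul_zero]
    rw [Finset.sum_ite_eq]
    simp [h]
  · rw [coeff_eq_zero_of_natDegree_lt (by omega : F.natDegree < i)]
    have : (fun j => (∑ i ∈ Finset.range (d + 1), C (c i j) * X ^ i).coeff i) = 0 := by
      funext j
      apply coeff_eq_zero_of_natDegree_lt
      have := hd j
      omega
    rw [this, map_zero]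

theorem up_eq_iff (hk : Ker U π) (d : ℕ) (f g : ∀ j, (Ω j)[X])
    (hf : ∀ j, (f j).natDegree ≤ d) (hg : ∀ j, (g j).natDegree ≤ d) :
    up π d f = up π d g ↔ ∀ᶠ j in (U : Filter ℕ), f j = g j := by
  constructor
  · intro h
    have h1 : ∀ i ∈ Finset.range (d + 1),
        ∀ᶠ j in (U : Filter ℕ), (f j).coeff i = (g j).coeff i := by
      intro i _
      rw [← eq_iff hk]
      rw [← up_coeff d f hf, ← up_coeff d g hg, h]
    rw [← Filter.eventually_all_finset] at h1
    filter_upwards [h1] with j hj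
    ext i
    by_cases hi : i ≤ d
    · exact hj i (by simp; omega)
    · rw [coeff_eq_zero_of_natDegree_lt (by have := hf j; omega),
        coeff_eq_zero_of_natDegree_lt (by have := hg j; omega)]
  · intro h
    ext i
    rw [up_coeff d f hf, up_coeff d g hg, eq_iff hk]
    filter_upwards [h] with j hj
    rw [hj]

theorem repF_mapP1 (hk : Ker U π) (d : ℕ) (p q : ∀ j, (Ω j)[X])
    (hp : ∀ j, (p j).natDegree ≤ d) (hq : ∀ j, (q j).natDegree ≤ d) :
    RepF U π (fun j => mapP1 (p j) (q j) d) (mapP1 (up π d p) (up π d q) d) := by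
  rintro z z' (⟨rfl, h⟩ | ⟨x, rfl, h⟩)
  · have := rep_quot hk (fun j => (p j).coeff d) (fun j => (q j).coeff d)
    rw [← up_coeff d p hp, ← up_coeff d q hq] at this
    refine this.congr ?_
    filter_upwards [h] with j hj
    rw [hj]
    rfl
  · have := rep_quot hk (fun j => (p j).eval (x j)) (fun j => (q j).eval (x j))
    rw [← up_eval d p hp, ← up_eval d q hq] at this
    refine this.congr ?_
    filter_upwards [h] with j hj
    rw [hj]
    rfl

theorem isCoprime_iff {K : Type*} [Field K] [IsAlgClosed K] (P Q : K[X]) :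
    IsCoprime P Q ↔ ∀ x, ¬ (P.eval x = 0 ∧ Q.eval x = 0) := by
  classical
  constructor
  · rintro ⟨a, b, hab⟩ x ⟨h1, h2⟩
    have := congrArg (eval x) hab
    simp [h1, h2] at this
  · intro h
    by_contra hc
    have h1 : (EuclideanDomain.gcd P Q).degree ≠ 0 := by
      intro h0
      apply hc
      rw [← EuclideanDomain.gcd_isUnit_iff]
      exact isUnit_iff_degree_eq_zero.2 h0
    obtain ⟨x, hx⟩ := IsAlgClosed.exists_root _ h1
    exact h x ⟨(hx.dvd (EuclideanDomain.gcd_dvd_left P Q)),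
      (hx.dvd (EuclideanDomain.gcd_dvd_right P Q))⟩

theorem coprime_up [∀ j, IsAlgClosed (Ω j)] [IsAlgClosed Ω'] (hs : Function.Surjective π)
    (hk : Ker U π) (d : ℕ) (p q : ∀ j, (Ω j)[X])
    (hp : ∀ j, (p j).natDegree ≤ d) (hq : ∀ j, (q j).natDegree ≤ d) :
    IsCoprime (up π d p) (up π d q) ↔ ∀ᶠ j in (U : Filter ℕ), IsCoprime (p j) (q j) := by
  simp only [isCoprime_iff]
  constructor
  · intro h
    by_contra hc
    rw [← Ultrafilter.eventually_not] at hc
    have hc' : ∀ j, ∃ x, (¬ ∀ x, ¬ ((p j).eval x = 0 ∧ (q j).eval x = 0)) →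
        ((p j).eval x = 0 ∧ (q j).eval x = 0) := by
      intro j
      by_cases hj : ∀ x, ¬ ((p j).eval x = 0 ∧ (q j).eval x = 0)
      · exact ⟨0, fun h => absurd hj h⟩
      · push Not at hj
        obtain ⟨z, hz⟩ := hj
        exact ⟨z, fun _ => hz⟩
    choose x hx using hc'
    apply h (π x)
    rw [up_eval d p hp, up_eval d q hq, hk, hk]
    refine ⟨?_, ?_⟩
    · filter_upwards [hc] with j hj
      exact (hx j hj).1
    · filter_upwards [hc] with j hj
      exact (hx j hj).2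
  · rintro h x' ⟨h1, h2⟩
    obtain ⟨x, rfl⟩ := hs x'
    rw [up_eval d p hp, hk] at h1
    rw [up_eval d q hq, hk] at h2
    obtain ⟨j, a, b, c⟩ := (h.and (h1.and h2)).exists
    exact a (x j) ⟨b, c⟩

theorem maxdeg_iff {K : Type*} [Field K] {N : ℕ} (hN : 1 ≤ N) (P Q : K[X]) :
    max P.natDegree Q.natDegree = N ↔
      (P.natDegree ≤ N ∧ Q.natDegree ≤ N) ∧ (P.coeff N ≠ 0 ∨ Q.coeff N ≠ 0) := by
  constructor
  · intro h
    refine ⟨by omega, ?_⟩
    rcases max_choice P.natDegree Q.natDegree with h' | h'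
    · left
      rw [← h, h']
      intro h0
      rw [coeff_natDegree, leadingCoeff_eq_zero] at h0
      rw [h0] at h'
      simp at h'
      rw [h0, h'] at h
      simp at h
      omega
    · right
      rw [← h, h']
      intro h0
      rw [coeff_natDegree, leadingCoeff_eq_zero] at h0
      rw [h0] at h'
      simp at h'
      rw [h0, h'] at h
      simp at h
      omega
  · rintro ⟨⟨h1, h2⟩, h3 | h3⟩
    · have := le_natDegree_of_ne_zero h3
      omega
    · have := le_natDegree_of_ne_zero h3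
      omega

theorem maxdeg_up (hk : Ker U π) {N : ℕ} (hN : 1 ≤ N) (p q : ∀ j, (Ω j)[X])
    (hp : ∀ j, (p j).natDegree ≤ N) (hq : ∀ j, (q j).natDegree ≤ N) :
    max (up π N p).natDegree (up π N q).natDegree = N ↔
      ∀ᶠ j in (U : Filter ℕ), max (p j).natDegree (q j).natDegree = N := by
  simp only [maxdeg_iff hN]
  have h1 : (up π N p).natDegree ≤ N ∧ (up π N q).natDegree ≤ N :=
    ⟨up_natDegree_le N p, up_natDegree_le N q⟩
  have h2 : ∀ j, (p j).natDegree ≤ N ∧ (q j).natDegree ≤ N := fun j => ⟨hp j, hq j⟩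
  simp only [h1, h2, true_and]
  rw [up_coeff N p hp, up_coeff N q hq, Ultrafilter.eventually_or, ne_zero_iff hk,
    ne_zero_iff hk]

theorem isRat_up [∀ j, IsAlgClosed (Ω j)] [IsAlgClosed Ω'] (hs : Function.Surjective π)
    (hk : Ker U π) {N : ℕ} (hN : 1 ≤ N) (p q : ∀ j, (Ω j)[X])
    (hp : ∀ j, (p j).natDegree ≤ N) (hq : ∀ j, (q j).natDegree ≤ N) :
    IsRat N (up π N p) (up π N q) ↔ ∀ᶠ j in (U : Filter ℕ), IsRat N (p j) (q j) := by
  unfold IsRat
  rw [coprime_up hs hk N p q hp hq, maxdeg_up hk hN p q hp hq, Filter.eventually_and]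

/-- the clauses of `IsMult`, for given coordinates and representation -/
def Cl {K : Type*} [Field K] (p q : K[X]) (d n : ℕ) (l a b c e : K) (P Q : K[X]) : Prop :=
  a * e - b * c ≠ 0 ∧ IsRat (d ^ n) P Q ∧ P.coeff 0 = 0 ∧ l = P.coeff 1 / Q.coeff 0 ∧
    ∀ z, mapP1 P Q (d ^ n) (mob a b c e z) = mob a b c e ((mapP1 p q d)^[n] z)

theorem isMult_iff {K : Type*} [Field K] (p q : K[X]) (d n : ℕ) (l : K) :
    IsMult p q d n l ↔ ∃ a b c e P Q, Cl p q d n l a b c e P Q := by
  unfold IsMult Cl IsRat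
  constructor
  · rintro ⟨a, b, c, e, h1, P, Q, h2, h3, h4⟩
    exact ⟨a, b, c, e, P, Q, h1, ⟨h2, h3⟩, h4⟩
  · rintro ⟨a, b, c, e, P, Q, h1, ⟨h2, h3⟩, h4⟩
    exact ⟨a, b, c, e, h1, P, Q, h2, h3, h4⟩

theorem cl_up [∀ j, IsAlgClosed (Ω j)] [IsAlgClosed Ω'] (hs : Function.Surjective π)
    (hk : Ker U π) {d n : ℕ} (hd : 1 ≤ d) (p q : ∀ j, (Ω j)[X])
    (hp : ∀ j, (p j).natDegree ≤ d) (hq : ∀ j, (q j).natDegree ≤ d)
    (l a b c e : ∀ j, Ω j) (P Q : ∀ j, (Ω j)[X])
    (hP : ∀ j, (P j).natDegree ≤ d ^ n) (hQ : ∀ j, (Q j).natDegree ≤ d ^ n) :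
    Cl (up π d p) (up π d q) d n (π l) (π a) (π b) (π c) (π e) (up π (d ^ n) P)
      (up π (d ^ n) Q) ↔
      ∀ᶠ j in (U : Filter ℕ), Cl (p j) (q j) d n (l j) (a j) (b j) (c j) (e j) (P j) (Q j) := by
  have hN : 1 ≤ d ^ n := Nat.one_le_pow _ _ hd
  unfold Cl
  simp only [Filter.eventually_and]
  refine and_congr ?_ (and_congr ?_ (and_congr ?_ (and_congr ?_ ?_)))
  · rw [← map_mul, ← map_mul, ← map_sub, ne_zero_iff hk]
    rfl
  · exact isRat_up hs hk hN P Q hP hQ
  · rw [up_coeff _ P hP, hk]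
  · rw [up_coeff _ P hP, up_coeff _ Q hQ, ← map_div hk, eq_iff hk]
  · exact repF_eq_iff hs hk ((repF_mapP1 hk _ P Q hP hQ).comp (repF_mob hk a b c e))
      ((repF_mob hk a b c e).comp ((repF_mapP1 hk d p q hp hq).iterate n))

theorem isMult_up [∀ j, IsAlgClosed (Ω j)] [IsAlgClosed Ω'] (hs : Function.Surjective π)
    (hk : Ker U π) {d : ℕ} (n : ℕ) (hd : 1 ≤ d) (p q : ∀ j, (Ω j)[X])
    (hp : ∀ j, (p j).natDegree ≤ d) (hq : ∀ j, (q j).natDegree ≤ d) (l : ∀ j, Ω j) :
    IsMult (up π d p) (up π d q) d n (π l) ↔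
      ∀ᶠ j in (U : Filter ℕ), IsMult (p j) (q j) d n (l j) := by
  constructor
  · rw [isMult_iff]
    rintro ⟨a', b', c', e', P', Q', h⟩
    obtain ⟨a, rfl⟩ := hs a'
    obtain ⟨b, rfl⟩ := hs b'
    obtain ⟨c, rfl⟩ := hs c'
    obtain ⟨e, rfl⟩ := hs e'
    have hdeg := h.2.1.2
    obtain ⟨P, hP, rfl⟩ := up_surj hs (d ^ n) P' (by omega)
    obtain ⟨Q, hQ, rfl⟩ := up_surj hs (d ^ n) Q' (by omega)
    rw [cl_up hs hk hd p q hp hq l a b c e P Q hP hQ] at h
    filter_upwards [h] with j hj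
    rw [isMult_iff]
    exact ⟨_, _, _, _, _, _, hj⟩
  · intro h
    have h1 : ∀ j, ∃ a b c e, ∃ P Q : (Ω j)[X], P.natDegree ≤ d ^ n ∧ Q.natDegree ≤ d ^ n ∧
        (IsMult (p j) (q j) d n (l j) → Cl (p j) (q j) d n (l j) a b c e P Q) := by
      intro j
      by_cases hj : IsMult (p j) (q j) d n (l j)
      · obtain ⟨a, b, c, e, P, Q, hh⟩ := (isMult_iff _ _ _ _ _).1 hj
        have := hh.2.1.2
        exact ⟨a, b, c, e, P, Q, by omega, by omega, fun _ => hh⟩
      · exact ⟨0, 0, 0, 0, 0, 0, by simp, by simp, fun h => absurd h hj⟩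
    choose a b c e P Q hP hQ hh using h1
    rw [isMult_iff]
    refine ⟨π a, π b, π c, π e, up π (d ^ n) P, up π (d ^ n) Q, ?_⟩
    rw [cl_up hs hk hd p q hp hq l a b c e P Q hP hQ]
    filter_upwards [h] with j hj
    exact hh j hj

theorem t_LSM : S_LSM.{u} := by
  intro U Ω _ _ _ Ω' _ _ _ π hs hk d n hd p q hpq l
  exact isMult_up hs hk n hd p q (fun j => (hpq j).1) (fun j => (hpq j).2) l

end Pool.Agent.N820.SU.Lsm
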