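import Mathlib
import Pool.Agent.N820.SU.Stm

/-!
# Project SU: field extensions and the group of Moebius transformations
-/

set_option autoImplicit false

namespace Pool.Agent.N820.SU.Mob

open Polynomial Pool.Agent.N820.SU

universe u

section Lem

variable {K : Type u} [Field K]

theorem mapP1_none_pos {p q : K[X]} {d : ℕ} (h : q.coeff d = 0) : mapP1 p q d none = none := by
  simp only [mapP1]
  exact if_pos h

theorem mapP1_none_neg {p q : K[X]} {d : ℕ} (h : q.coeff d ≠ 0) :
    mapP1 p q d none = some (p.coeff d / q.coeff d) := by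
  simp only [mapP1]
  exact if_neg h

theorem mapP1_some_pos {p q : K[X]} {d : ℕ} {x : K} (h : q.eval x = 0) :
    mapP1 p q d (some x) = none := by
  simp only [mapP1]
  exact if_pos h

theorem mapP1_some_neg {p q : K[X]} {d : ℕ} {x : K} (h : q.eval x ≠ 0) :
    mapP1 p q d (some x) = some (p.eval x / q.eval x) := by
  simp only [mapP1]
  exact if_neg h

theorem mob_none_pos {a b c e : K} (h : c = 0) : mob a b c e none = none := by
  simp only [mob]
  exact if_pos h

theorem mob_none_neg {a b c e : K} (h : c ≠ 0) : mob a b c e none = some (a / c) := by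
  simp only [mob]
  exact if_neg h

theorem mob_some_pos {a b c e x : K} (h : c * x + e = 0) : mob a b c e (some x) = none := by
  simp only [mob]
  exact if_pos h

theorem mob_some_neg {a b c e x : K} (h : c * x + e ≠ 0) :
    mob a b c e (some x) = some ((a * x + b) / (c * x + e)) := by
  simp only [mob]
  exact if_neg h

end Lem

section MAP

variable {K K' : Type u} [Field K] [Field K'] (φ : K →+* K')

theorem hm_map (d : ℕ) (p A B : K[X]) :
    hm d (p.map φ) (A.map φ) (B.map φ) = (hm d p A B).map φ := by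
  unfold hm
  rw [Polynomial.map_sum]
  refine Finset.sum_congr rfl fun i _ => ?_
  rw [Polynomial.map_mul, Polynomial.map_mul, Polynomial.map_pow, Polynomial.map_pow,
    Polynomial.map_C, Polynomial.coeff_map]

theorem t_MAP : S_MAP.{u} := by
  intro K K' _ _ φ d
  refine ⟨?_, ?_, ?_, ?_⟩
  · intro p q z
    cases z with
    | none =>
      rw [Option.map_none]
      by_cases h : q.coeff d = 0
      · rw [mapP1_none_pos h, mapP1_none_pos (by rw [Polynomial.coeff_map, h, map_zero])]
        rfl
      · rw [mapP1_none_neg h, mapP1_none_neg (by rw [Polynomial.coeff_map]; exact (map_ne_zero φ).2 h),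
          Option.map_some, map_div₀, Polynomial.coeff_map, Polynomial.coeff_map]
    | some x =>
      rw [Option.map_some]
      have e1 : ∀ f : K[X], (f.map φ).eval (φ x) = φ (f.eval x) := fun f => by
        rw [Polynomial.eval_map, Polynomial.eval₂_hom]
      by_cases h : q.eval x = 0
      · rw [mapP1_some_pos h, mapP1_some_pos (by rw [e1, h, map_zero])]
        rfl
      · rw [mapP1_some_neg h, mapP1_some_neg (by rw [e1]; exact (map_ne_zero φ).2 h),
          Option.map_some, map_div₀, e1, e1]
  · intro a b c e z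
    cases z with
    | none =>
      rw [Option.map_none]
      by_cases h : c = 0
      · rw [mob_none_pos h, mob_none_pos (by rw [h, map_zero])]
        rfl
      · rw [mob_none_neg h, mob_none_neg ((map_ne_zero φ).2 h), Option.map_some, map_div₀]
    | some x =>
      rw [Option.map_some]
      have h1 : φ c * φ x + φ e = φ (c * x + e) := by rw [map_add, map_mul]
      have h2 : φ a * φ x + φ b = φ (a * x + b) := by rw [map_add, map_mul]
      by_cases h : c * x + e = 0
      · rw [mob_some_pos h, mob_some_pos (by rw [h1, h, map_zero])]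
        rfl
      · rw [mob_some_neg h, mob_some_neg (by rw [h1]; exact (map_ne_zero φ).2 h),
          Option.map_some, map_div₀, h1, h2]
  · intro p q h
    refine ⟨?_, ?_⟩
    · exact h.1.map (Polynomial.mapRingHom φ)
    · rw [Polynomial.natDegree_map, Polynomial.natDegree_map]
      exact h.2
  · intro p q n
    induction n with
    | zero => simp [itP]
    | succ n ih =>
      simp only [itP, ih, hm_map]

end MAP

section MOB

variable {K : Type u} [Field K]

/-- the point with homogeneous coordinates `u`, `v` -/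
noncomputable def pt (u v : K) : Option K := by
  classical exact if v = 0 then none else some (u / v)

theorem pt_pos {u v : K} (h : v = 0) : pt u v = none := by
  simp only [pt]
  exact if_pos h

theorem pt_neg {u v : K} (h : v ≠ 0) : pt u v = some (u / v) := by
  simp only [pt]
  exact if_neg h

theorem exists_pt (z : Option K) : ∃ u v : K, ¬ (u = 0 ∧ v = 0) ∧ z = pt u v := by
  cases z with
  | none => exact ⟨1, 0, by simp, (pt_pos rfl).symm⟩
  | some x => exact ⟨x, 1, by simp, by rw [pt_neg one_ne_zero, div_one]⟩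

theorem pt_smul {s : K} (hs : s ≠ 0) (u v : K) : pt (s * u) (s * v) = pt u v := by
  by_cases hv : v = 0
  · rw [pt_pos hv, pt_pos (by rw [hv, mul_zero])]
  · have h : s * v ≠ 0 := mul_ne_zero hs hv
    rw [pt_neg h, pt_neg hv, mul_div_mul_left _ _ hs]

theorem pt_eq {u v u' v' : K} (h : ¬ (u = 0 ∧ v = 0)) (h' : ¬ (u' = 0 ∧ v' = 0))
    (e : u * v' = u' * v) : pt u v = pt u' v' := by
  by_cases hv : v = 0
  · have hu : u ≠ 0 := fun hu => h ⟨hu, hv⟩
    have hv' : v' = 0 := by
      rw [hv, mul_zero] at e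
      exact (mul_eq_zero.1 e).resolve_left hu
    rw [pt_pos hv, pt_pos hv']
  · have hv' : v' ≠ 0 := by
      intro hv'
      rw [hv', mul_zero] at e
      exact h' ⟨(mul_eq_zero.1 e.symm).resolve_right hv, hv'⟩
    rw [pt_neg hv, pt_neg hv']
    congr 1
    rw [div_eq_div_iff hv hv', e]

theorem mob_pt (a b c e : K) {u v : K} (h : ¬ (u = 0 ∧ v = 0)) :
    mob a b c e (pt u v) = pt (a * u + b * v) (c * u + e * v) := by
  by_cases hv : v = 0
  · have hu : u ≠ 0 := fun hu => h ⟨hu, hv⟩
    rw [pt_pos hv, hv, mul_zero, mul_zero, add_zero, add_zero]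
    by_cases hc : c = 0
    · rw [mob_none_pos hc, pt_pos (by rw [hc, zero_mul])]
    · rw [mob_none_neg hc, pt_neg (mul_ne_zero hc hu), mul_div_mul_right _ _ hu]
  · rw [pt_neg hv]
    have h2 : c * u + e * v = (c * (u / v) + e) * v := by field_simp
    have h3 : a * u + b * v = (a * (u / v) + b) * v := by field_simp
    rw [h2, h3]
    by_cases hc : c * (u / v) + e = 0
    · rw [mob_some_pos hc, pt_pos (by rw [hc, zero_mul])]
    · rw [mob_some_neg hc, pt_neg (mul_ne_zero hc hv), mul_div_mul_right _ _ hv]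

theorem det_ne {a b c e u v : K} (hd : a * e - b * c ≠ 0) (h : ¬ (u = 0 ∧ v = 0)) :
    ¬ (a * u + b * v = 0 ∧ c * u + e * v = 0) := by
  rintro ⟨h1, h2⟩
  apply h
  constructor
  · have : (a * e - b * c) * u = 0 := by linear_combination e * h1 - b * h2
    exact (mul_eq_zero.1 this).resolve_left hd
  · have : (a * e - b * c) * v = 0 := by linear_combination a * h2 - c * h1
    exact (mul_eq_zero.1 this).resolve_left hd

theorem t_MOB : S_MOB.{u} := by
  intro K _
  refine ⟨?_, ?_, ?_, ?_⟩
  · intro a b c e hd z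
    obtain ⟨u, v, h, rfl⟩ := exists_pt z
    have hd' : e * a - (-b) * (-c) ≠ 0 := by
      intro h0
      apply hd
      linear_combination h0
    constructor
    · rw [mob_pt _ _ _ _ h, mob_pt _ _ _ _ (det_ne hd h), ← pt_smul hd u v]
      congr 1 <;> ring
    · rw [mob_pt _ _ _ _ h, mob_pt _ _ _ _ (det_ne hd' h), ← pt_smul hd u v]
      congr 1 <;> ring
  · intro a b c e a' b' c' e' hd hd' z
    obtain ⟨u, v, h, rfl⟩ := exists_pt z
    rw [mob_pt _ _ _ _ h, mob_pt _ _ _ _ (det_ne hd' h), mob_pt _ _ _ _ h]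
    congr 1 <;> ring
  · intro x y z hxy hxz hyz
    obtain ⟨x1, x2, hx, rfl⟩ := exists_pt x
    obtain ⟨y1, y2, hy, rfl⟩ := exists_pt y
    obtain ⟨z1, z2, hz, rfl⟩ := exists_pt z
    have dxy : x1 * y2 - y1 * x2 ≠ 0 := fun h => hxy (pt_eq hx hy (sub_eq_zero.1 h))
    have dxz : x1 * z2 - z1 * x2 ≠ 0 := fun h => hxz (pt_eq hx hz (sub_eq_zero.1 h))
    have dyz : y1 * z2 - z1 * y2 ≠ 0 := fun h => hyz (pt_eq hy hz (sub_eq_zero.1 h))
    refine ⟨x2 * (y1 * z2 - z1 * y2), -x1 * (y1 * z2 - z1 * y2), y2 * (x1 * z2 - z1 * x2),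
      -y1 * (x1 * z2 - z1 * x2), ?_, ?_, ?_, ?_⟩
    · have e : x2 * (y1 * z2 - z1 * y2) * (-y1 * (x1 * z2 - z1 * x2)) -
          -x1 * (y1 * z2 - z1 * y2) * (y2 * (x1 * z2 - z1 * x2)) =
          (x1 * y2 - y1 * x2) * ((x1 * z2 - z1 * x2) * (y1 * z2 - z1 * y2)) := by ring
      rw [e]
      exact mul_ne_zero dxy (mul_ne_zero dxz dyz)
    · rw [mob_pt _ _ _ _ hx]
      have e1 : x2 * (y1 * z2 - z1 * y2) * x1 + -x1 * (y1 * z2 - z1 * y2) * x2 = 0 := by ring
      have e2 : y2 * (x1 * z2 - z1 * x2) * x1 + -y1 * (x1 * z2 - z1 * x2) * x2 =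
          (x1 * z2 - z1 * x2) * (x1 * y2 - y1 * x2) := by ring
      rw [e1, e2, pt_neg (mul_ne_zero dxz dxy), zero_div]
    · rw [mob_pt _ _ _ _ hy]
      have e2 : y2 * (x1 * z2 - z1 * x2) * y1 + -y1 * (x1 * z2 - z1 * x2) * y2 = 0 := by ring
      rw [e2, pt_pos rfl]
    · rw [mob_pt _ _ _ _ hz]
      have e1 : x2 * (y1 * z2 - z1 * y2) * z1 + -x1 * (y1 * z2 - z1 * y2) * z2 =
          -((x1 * z2 - z1 * x2) * (y1 * z2 - z1 * y2)) := by ring
      have e2 : y2 * (x1 * z2 - z1 * x2) * z1 + -y1 * (x1 * z2 - z1 * x2) * z2 =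
          -((x1 * z2 - z1 * x2) * (y1 * z2 - z1 * y2)) := by ring
      rw [e1, e2]
      have e3 : -((x1 * z2 - z1 * x2) * (y1 * z2 - z1 * y2)) ≠ 0 :=
        neg_ne_zero.2 (mul_ne_zero dxz dyz)
      rw [pt_neg e3, div_self e3]
  · intro a b c e hd h0 hi h1 z
    have hc : c = 0 := by
      by_contra hc
      rw [mob_none_neg hc] at hi
      exact absurd hi (by simp)
    subst hc
    have he : e ≠ 0 := by
      rintro rfl
      simp at hd
    have hb : b = 0 := by
      rw [mob_some_neg (by rw [zero_mul, zero_add]; exact he), Option.some.injEq, zero_mul, zero_add,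
        mul_zero, zero_add] at h0
      exact (div_eq_zero_iff.1 h0).resolve_right he
    subst hb
    have ha : a = e := by
      rw [mob_some_neg (by rw [zero_mul, zero_add]; exact he), Option.some.injEq, zero_mul, zero_add,
        mul_one, add_zero] at h1
      rwa [div_eq_one_iff_eq he] at h1
    subst ha
    cases z with
    | none => exact mob_none_pos rfl
    | some x =>
      rw [mob_some_neg (by rw [zero_mul, zero_add]; exact he), zero_mul, zero_add, add_zero,
        mul_div_cancel_left₀ _ he]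

end MOB

section CIV

variable {K : Type u} [Field K]

theorem isMult_of_semiconj (hMOB : S_MOB.{u}) {d : ℕ} {p q u w : K[X]} {a b c e : K}
    (hd : a * e - b * c ≠ 0)
    (h : ∀ z, mapP1 u w d (mob a b c e z) = mob a b c e (mapP1 p q d z)) (n : ℕ) (l : K)
    (hm : IsMult u w d n l) : IsMult p q d n l := by
  obtain ⟨a', b', c', e', hd', P, Q, h1, h2, h3, h4, h5⟩ := hm
  have hit : ∀ z, (mapP1 u w d)^[n] (mob a b c e z) = mob a b c e ((mapP1 p q d)^[n] z) := by
    have hs : Function.Semiconj (mob a b c e) (mapP1 p q d) (mapP1 u w d) := fun z => (h z).symm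
    intro z
    exact ((hs.iterate_right n) z).symm
  have hcomp := (hMOB K).2.1 a' b' c' e' a b c e hd' hd
  refine ⟨a' * a + b' * c, a' * b + b' * e, c' * a + e' * c, c' * b + e' * e, ?_, P, Q, h1, h2,
    h3, h4, fun z => ?_⟩
  · have e1 : (a' * a + b' * c) * (c' * b + e' * e) - (a' * b + b' * e) * (c' * a + e' * c) =
        (a' * e' - b' * c') * (a * e - b * c) := by ring
    rw [e1]
    exact mul_ne_zero hd' hd
  · rw [← hcomp, ← hcomp, h5, hit]

theorem t_CIV (hMOB : S_MOB.{u}) : S_CIV.{u} := by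
  intro K _ d p q u w hconj
  obtain ⟨a, b, c, e, hd, h⟩ := hconj
  have hd' : e * a - (-b) * (-c) ≠ 0 := by
    intro h0
    apply hd
    linear_combination h0
  have h' : ∀ z, mapP1 p q d (mob e (-b) (-c) a z) = mob e (-b) (-c) a (mapP1 u w d z) := by
    intro z
    have hi := (hMOB K).1 a b c e hd
    have e1 := h (mob e (-b) (-c) a z)
    rw [(hi z).2] at e1
    rw [e1, (hi _).1]
  have key : ∀ n l, IsMult u w d n l ↔ IsMult p q d n l := fun n l =>
    ⟨isMult_of_semiconj hMOB hd h n l, isMult_of_semiconj hMOB hd' h' n l⟩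
  refine ⟨key, fun B hF u' w' hu => ?_⟩
  refine hF u' w' fun i => ⟨(hu i).1, fun n hn hB l => ?_⟩
  rw [(hu i).2 n hn hB l, key]

end CIV

end Pool.Agent.N820.SU.Mob
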