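import Pool.Agent.N820.SU.Stm2

/-!
# Project SU: normal forms over an extension of bounded degree
-/

set_option autoImplicit false

namespace Pool.Agent.N820.SU.Nfe

open Polynomial Pool.Agent.N820.SU

universe u v w

/-- the degree of the extension generated by a set of roots -/
theorem card_deg (L : Type v) (M : Type u) [Field L] [Field M] [Algebra L M] (W : L[X])
    (r : ℕ) (hW : W ≠ 0) (hr : W.natDegree ≤ r) (S : Finset M) (hS : ∀ x ∈ S, x ∈ W.rootSet M) :
    FiniteDimensional L (IntermediateField.adjoin L (S : Set M)) ∧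
    Module.finrank L (IntermediateField.adjoin L (S : Set M)) ≤ (r + 1) ^ S.card := by
  classical
  induction S using Finset.induction_on with
  | empty =>
    rw [Finset.coe_empty, IntermediateField.adjoin_empty]
    refine ⟨inferInstance, ?_⟩
    simp
  | insert a S ha ih =>
    obtain ⟨i1, i2⟩ := ih fun x hx => hS x (Finset.mem_insert_of_mem hx)
    have h1 : IntermediateField.adjoin L ((insert a S : Finset M) : Set M) =
        IntermediateField.adjoin L {a} ⊔ IntermediateField.adjoin L (S : Set M) := by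
      rw [Finset.coe_insert, Set.insert_eq, IntermediateField.adjoin_union]
    have ha' := hS a (Finset.mem_insert_self _ _)
    have haW : aeval a W = 0 := (mem_rootSet.1 ha').2
    have hint : IsIntegral L a := by
      rw [← isAlgebraic_iff_isIntegral]
      exact ⟨W, hW, haW⟩
    have := IntermediateField.adjoin.finiteDimensional hint
    rw [h1]
    refine ⟨inferInstance, ?_⟩
    refine (IntermediateField.finrank_sup_le _ _).trans ?_
    rw [Finset.card_insert_of_notMem ha, pow_succ']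
    refine Nat.mul_le_mul ?_ i2
    rw [IntermediateField.adjoin.finrank hint]
    exact (natDegree_le_of_dvd (minpoly.dvd L a haW) hW).trans (hr.trans (Nat.le_succ r))

theorem deg (L : Type v) (M : Type u) [Field L] [Field M] [Algebra L M] (W : L[X])
    (r : ℕ) (hW : W ≠ 0) (hr : W.natDegree ≤ r) :
    FiniteDimensional L (IntermediateField.adjoin L (W.rootSet M)) ∧
    Module.finrank L (IntermediateField.adjoin L (W.rootSet M)) ≤ (r + 1) ^ r := by
  classical
  have h1 : (((W.rootSet M).toFinset : Finset M) : Set M) = W.rootSet M := Set.coe_toFinset _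
  obtain ⟨i1, i2⟩ := card_deg L M W r hW hr (W.rootSet M).toFinset
    (fun x hx => Set.mem_toFinset.1 hx)
  rw [h1] at i1 i2
  refine ⟨i1, i2.trans (Nat.pow_le_pow_right (Nat.succ_pos r) ?_)⟩
  rw [← Set.ncard_eq_toFinset_card']
  exact (Polynomial.ncard_rootSet_le W M).trans hr

lemma natDegree_eq_of_dvd_dvd {K : Type u} [Field K] {p q : K[X]} (h1 : p ∣ q) (h2 : q ∣ p) :
    p.natDegree = q.natDegree := by
  by_cases hp : p = 0
  · subst hp
    rw [zero_dvd_iff.1 h1]
  · have hq : q ≠ 0 := fun h => hp (zero_dvd_iff.1 (h ▸ h2))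
    exact le_antisymm (natDegree_le_of_dvd h1 hq) (natDegree_le_of_dvd h2 hp)

/-- two proportional coprime pairs have the same degree -/
lemma deg_eq {K : Type u} [Field K] {D D' : ℕ} {P Q P' Q' : K[X]} (h : IsRat D P Q)
    (h' : IsRat D' P' Q') (he : P * Q' - P' * Q = 0) : D = D' := by
  have he' : P * Q' = P' * Q := sub_eq_zero.1 he
  have hQ : Q ∣ Q' := h.1.symm.dvd_of_dvd_mul_left ⟨P', by rw [he', mul_comm]⟩
  have hQ' : Q' ∣ Q := h'.1.symm.dvd_of_dvd_mul_left ⟨P, by rw [← he', mul_comm]⟩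
  have hP : P ∣ P' := h.1.dvd_of_dvd_mul_right ⟨Q', he'.symm⟩
  have hP' : P' ∣ P := h'.1.dvd_of_dvd_mul_right ⟨Q, he'⟩
  rw [← h.2, ← h'.2, natDegree_eq_of_dvd_dvd hQ hQ', natDegree_eq_of_dvd_dvd hP hP']

lemma mapP1_some_ne {K : Type u} [Field K] (p q : K[X]) (d : ℕ) (x : K) (h : q.eval x ≠ 0) :
    mapP1 p q d (some x) = some (p.eval x / q.eval x) := by
  classical
  show (if q.eval x = 0 then none else some (p.eval x / q.eval x)) = _
  rw [if_neg h]

lemma mapP1_some_eq {K : Type u} [Field K] (p q : K[X]) (d : ℕ) (x : K) (h : q.eval x = 0) :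
    mapP1 p q d (some x) = none := by
  classical
  show (if q.eval x = 0 then none else some (p.eval x / q.eval x)) = _
  rw [if_pos h]

lemma mapP1_none_ne {K : Type u} [Field K] (p q : K[X]) (d : ℕ) (h : q.coeff d ≠ 0) :
    mapP1 p q d none = some (p.coeff d / q.coeff d) := by
  classical
  show (if q.coeff d = 0 then none else some (p.coeff d / q.coeff d)) = _
  rw [if_neg h]

lemma mapP1_none_eq {K : Type u} [Field K] (p q : K[X]) (d : ℕ) (h : q.coeff d = 0) :
    mapP1 p q d none = none := by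
  classical
  show (if q.coeff d = 0 then none else some (p.coeff d / q.coeff d)) = _
  rw [if_pos h]

/-- a common value is a root -/
lemma eval_eq_zero {K : Type u} [Field K] {P Q P' Q' : K[X]} {D D' : ℕ} {x : K}
    (h : mapP1 P Q D (some x) = mapP1 P' Q' D' (some x)) :
    (P * Q' - P' * Q).eval x = 0 := by
  rw [eval_sub, eval_mul, eval_mul]
  by_cases h1 : Q.eval x = 0
  · by_cases h2 : Q'.eval x = 0
    · rw [h1, h2]; ring
    · rw [mapP1_some_eq _ _ _ _ h1, mapP1_some_ne _ _ _ _ h2] at h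
      exact absurd h (by simp)
  · by_cases h2 : Q'.eval x = 0
    · rw [mapP1_some_ne _ _ _ _ h1, mapP1_some_eq _ _ _ _ h2] at h
      exact absurd h (by simp)
    · rw [mapP1_some_ne _ _ _ _ h1, mapP1_some_ne _ _ _ _ h2] at h
      have h3 := Option.some.inj h
      rw [div_eq_div_iff h1 h2] at h3
      rw [h3, sub_self]

/-- the scaled pair -/
lemma scale {K : Type u} [Field K] {d : ℕ} {u w : K[X]} (h : IsRat d u w) (hd : 1 ≤ d) :
    ∃ u' w' : K[X], IsRat d u' w' ∧ (∀ z, mapP1 u' w' d z = mapP1 u w d z) ∧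
      ((∃ i, u'.coeff i = 1) ∨ ∃ i, w'.coeff i = 1) := by
  have key : ∀ s : K, s ≠ 0 → IsRat d (C s * u) (C s * w) ∧
      ∀ z, mapP1 (C s * u) (C s * w) d z = mapP1 u w d z := by
    intro s hs
    have hu : IsUnit (C s : K[X]) := isUnit_C.2 (isUnit_iff_ne_zero.2 hs)
    refine ⟨⟨?_, ?_⟩, ?_⟩
    · exact (isCoprime_mul_unit_left hu _ _).2 h.1
    · rw [natDegree_C_mul hs, natDegree_C_mul hs]
      exact h.2
    · intro z
      cases z with
      | none =>
        by_cases h1 : w.coeff d = 0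
        · rw [mapP1_none_eq _ _ _ h1, mapP1_none_eq _ _ _ (by rw [coeff_C_mul, h1, mul_zero])]
        · rw [mapP1_none_ne _ _ _ h1, mapP1_none_ne _ _ _ (by
            rw [coeff_C_mul]; exact mul_ne_zero hs h1), coeff_C_mul, coeff_C_mul,
            mul_div_mul_left _ _ hs]
      | some x =>
        by_cases h1 : w.eval x = 0
        · rw [mapP1_some_eq _ _ _ _ h1, mapP1_some_eq _ _ _ _ (by
            rw [eval_mul, h1, mul_zero])]
        · rw [mapP1_some_ne _ _ _ _ h1, mapP1_some_ne _ _ _ _ (by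
            rw [eval_mul, eval_C]; exact mul_ne_zero hs h1), eval_mul, eval_mul, eval_C,
            mul_div_mul_left _ _ hs]
  by_cases hu : u = 0
  · have hw : w ≠ 0 := by
      rintro rfl
      rw [hu] at h
      have := h.2
      simp at this
      omega
    obtain ⟨k1, k2⟩ := key w.leadingCoeff⁻¹ (inv_ne_zero (leadingCoeff_ne_zero.2 hw))
    refine ⟨_, _, k1, k2, Or.inr ⟨w.natDegree, ?_⟩⟩
    rw [coeff_C_mul]
    exact inv_mul_cancel₀ (leadingCoeff_ne_zero.2 hw)
  · obtain ⟨k1, k2⟩ := key u.leadingCoeff⁻¹ (inv_ne_zero (leadingCoeff_ne_zero.2 hu))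
    refine ⟨_, _, k1, k2, Or.inl ⟨u.natDegree, ?_⟩⟩
    rw [coeff_C_mul]
    exact inv_mul_cancel₀ (leadingCoeff_ne_zero.2 hu)

lemma coprime_eval {K : Type u} [Field K] {P Q : K[X]} (h : IsCoprime P Q) {x : K}
    (hP : P.eval x = 0) : Q.eval x ≠ 0 := by
  intro hQ
  obtain ⟨a, b, hab⟩ := h
  have := congrArg (eval x) hab
  rw [eval_add, eval_mul, eval_mul, hP, hQ] at this
  simp at this

/-- the fibre of a fixed point with nonzero multiplier -/
lemma exists_fibre {Ω : Type u} [Field Ω] [IsAlgClosed Ω] {D : ℕ} (hD : 2 ≤ D)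
    {P Q : Polynomial Ω} (h : IsRat D P Q) (h0 : P.coeff 0 = 0) (h1 : P.coeff 1 ≠ 0) :
    ∃ y, y ≠ some 0 ∧ mapP1 P Q D y = some 0 := by
  by_contra hcon
  push Not at hcon
  have hP0 : P ≠ 0 := by
    rintro rfl
    exact h1 (coeff_zero _)
  -- the coefficient of degree D
  have hPD : P.coeff D ≠ 0 := by
    intro hc
    by_cases hQ : Q.coeff D = 0
    · have h2 := h.2
      rcases le_total P.natDegree Q.natDegree with h3 | h3
      · rw [max_eq_right h3] at h2
        have : Q ≠ 0 := by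
          rintro rfl
          simp at h2
          omega
        rw [← h2] at hQ
        exact (leadingCoeff_ne_zero.2 this) hQ
      · rw [max_eq_left h3] at h2
        rw [← h2] at hc
        exact (leadingCoeff_ne_zero.2 hP0) hc
    · apply hcon none (by simp)
      rw [mapP1_none_ne _ _ _ hQ, hc, zero_div]
  have hPn : P.natDegree = D := by
    apply le_antisymm
    · rw [← h.2]; exact le_max_left _ _
    · exact le_natDegree_of_ne_zero hPD
  obtain ⟨R, hR⟩ := X_dvd_iff.2 h0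
  have hR0 : R ≠ 0 := by
    rintro rfl
    exact hP0 (by rw [hR, mul_zero])
  have hRn : R.natDegree = D - 1 := by
    have := natDegree_X_mul hR0
    rw [← hR] at this
    omega
  obtain ⟨x, hx⟩ := IsAlgClosed.exists_root R (by
    intro hdeg
    have : R.natDegree = 0 := natDegree_eq_of_degree_eq_some hdeg
    omega)
  have hPx : P.eval x = 0 := by
    rw [hR, eval_mul, hx, mul_zero]
  by_cases hx0 : x = 0
  · subst hx0
    apply h1
    rw [hR, coeff_X_mul, coeff_zero_eq_eval_zero]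
    exact hx
  · apply hcon (some x) (by simpa using hx0)
    rw [mapP1_some_ne _ _ _ _ (coprime_eval h.1 hPx), hPx, zero_div]

/-- the polynomial whose roots contain all points of the construction -/
noncomputable def bigW {L : Type u} [Field L] (d B : ℕ) (p q : L[X]) : L[X] :=
  ∏ n ∈ Finset.Icc 1 B, ((itP d p q (3 * n)).1 * (itP d p q (2 * n)).2 -
    (itP d p q (2 * n)).1 * (itP d p q (3 * n)).2)

/-- the bound for its degree -/
def r0 (d B : ℕ) : ℕ := ∑ n ∈ Finset.Icc 1 B, (d ^ (3 * n) + d ^ (2 * n))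

lemma bigW_ne (hITR : S_ITR.{u}) {L : Type u} [Field L] {d : ℕ} (hd : 2 ≤ d) (B : ℕ)
    {p q : L[X]} (h : IsRat d p q) : bigW d B p q ≠ 0 := by
  unfold bigW
  rw [Finset.prod_ne_zero_iff]
  intro n hn he
  rw [Finset.mem_Icc] at hn
  have h1 := (hITR L d (by omega) p q h (3 * n)).1
  have h2 := (hITR L d (by omega) p q h (2 * n)).1
  have h3 := deg_eq h1 h2 he
  have h4 : 3 * n = 2 * n := Nat.pow_right_injective hd h3
  omega

lemma bigW_deg (hITR : S_ITR.{u}) {L : Type u} [Field L] {d : ℕ} (hd : 2 ≤ d) (B : ℕ)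
    {p q : L[X]} (h : IsRat d p q) : (bigW d B p q).natDegree ≤ r0 d B := by
  unfold bigW r0
  refine (natDegree_prod_le _ _).trans (Finset.sum_le_sum fun n _ => ?_)
  have h1 := (hITR L d (by omega) p q h (3 * n)).1.2
  have h2 := (hITR L d (by omega) p q h (2 * n)).1.2
  have a1 : (itP d p q (3 * n)).1.natDegree ≤ d ^ (3 * n) := h1 ▸ le_max_left _ _
  have a2 : (itP d p q (3 * n)).2.natDegree ≤ d ^ (3 * n) := h1 ▸ le_max_right _ _
  have a3 : (itP d p q (2 * n)).1.natDegree ≤ d ^ (2 * n) := h2 ▸ le_max_left _ _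
  have a4 : (itP d p q (2 * n)).2.natDegree ≤ d ^ (2 * n) := h2 ▸ le_max_right _ _
  refine (natDegree_sub_le _ _).trans (max_le ?_ ?_)
  · exact natDegree_mul_le.trans (by omega)
  · exact natDegree_mul_le.trans (by omega)

/-- a point whose orbit is constant after `2n` steps of `n` is infinity or a root -/
lemma mem_E (hMAP : S_MAP.{u}) (hITR : S_ITR.{u}) {L Ω : Type u} [Field L] [Field Ω]
    [Algebra L Ω] {d : ℕ} (hd : 2 ≤ d) (B : ℕ) {p q : L[X]} (h : IsRat d p q) {n : ℕ}
    (hn : 1 ≤ n) (hnB : n ≤ B) (z : Option Ω)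
    (hz : (mapP1 (p.map (algebraMap L Ω)) (q.map (algebraMap L Ω)) d)^[3 * n] z =
      (mapP1 (p.map (algebraMap L Ω)) (q.map (algebraMap L Ω)) d)^[2 * n] z) :
    ∃ z' : Option (IntermediateField.adjoin L ((bigW d B p q).rootSet Ω)),
      z'.map (algebraMap _ Ω) = z := by
  cases z with
  | none => exact ⟨none, rfl⟩
  | some x =>
    obtain ⟨_, _, m3, m4⟩ := hMAP L Ω (algebraMap L Ω) d
    have hr := m3 p q h
    have h3 := (hITR Ω d (by omega) _ _ hr (3 * n)).2 (some x)
    have h2 := (hITR Ω d (by omega) _ _ hr (2 * n)).2 (some x)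
    rw [← h3, ← h2] at hz
    have h4 := eval_eq_zero hz
    rw [m4, m4] at h4
    dsimp only at h4
    rw [← Polynomial.map_mul, ← Polynomial.map_mul, ← Polynomial.map_sub, eval_map_algebraMap] at h4
    have h5 : x ∈ (bigW d B p q).rootSet Ω := by
      rw [mem_rootSet]
      refine ⟨bigW_ne hITR hd B h, ?_⟩
      unfold bigW
      rw [map_prod]
      exact Finset.prod_eq_zero (Finset.mem_Icc.2 ⟨hn, hnB⟩) h4
    exact ⟨some ⟨x, IntermediateField.subset_adjoin _ _ h5⟩, rfl⟩

lemma semiconj_iter {α β : Type u} {f : α → α} {g : β → β} {m : α → β}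
    (h : ∀ z, g (m z) = m (f z)) (n : ℕ) (z : α) : g^[n] (m z) = m (f^[n] z) :=
  (Function.Semiconj.iterate_right (f := m) (ga := f) (gb := g) (fun z => (h z).symm) n z).symm

theorem t_NFE (hMAP : S_MAP.{u}) (hMOB : S_MOB.{u}) (hCNJ : S_CNJ.{u}) (hITR : S_ITR.{u})
    (hFIB : S_FIB.{u}) (hMIV : S_MIV.{u}) (hFEX : S_FEX.{u}) : S_NFE.{u} := by
  intro d B hd
  refine ⟨(r0 d B + 1) ^ (r0 d B), ?_⟩
  intro L Ω _ _ _ _ _ p q hpq
  obtain ⟨hfd, hfr⟩ := deg L Ω (bigW d B p q) (r0 d B) (bigW_ne hITR hd B hpq)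
    (bigW_deg hITR hd B hpq)
  refine ⟨IntermediateField.adjoin L ((bigW d B p q).rootSet Ω), hfd, hfr, ?_⟩
  intro n l hn hnB hl hl0
  set E := IntermediateField.adjoin L ((bigW d B p q).rootSet Ω) with hE
  set φ : E →+* Ω := algebraMap E Ω with hφ
  set pΩ := p.map (algebraMap L Ω) with hpΩ
  set qΩ := q.map (algebraMap L Ω) with hqΩ
  set F := mapP1 pΩ qΩ d with hF
  have hd1 : 1 ≤ d := by omega
  have hD2 : 2 ≤ d ^ n := by
    calc 2 ≤ d := hd
      _ = d ^ 1 := (pow_one d).symm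
      _ ≤ d ^ n := Nat.pow_le_pow_right (by omega) hn
  have hrΩ : IsRat d pΩ qΩ := (hMAP L Ω (algebraMap L Ω) d).2.2.1 p q hpq
  obtain ⟨a₀, b₀, c₀, e₀, hdet0, P, Q, hco, hdeg, hP0, hlPQ, hcj⟩ := hl
  have hPQ : IsRat (d ^ n) P Q := ⟨hco, hdeg⟩
  obtain ⟨mo1, mo2, mo3, mo4⟩ := hMOB Ω
  obtain ⟨moE1, moE2, moE3, moE4⟩ := hMOB E
  have hP1 : P.coeff 1 ≠ 0 := by
    intro h
    exact hl0 (by rw [hlPQ, h, zero_div])
  obtain ⟨y', hy'0, hy'⟩ := exists_fibre hD2 hPQ hP0 hP1
  set G := F^[n] with hG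
  set m0 := mob a₀ b₀ c₀ e₀ with hm0
  set m0' := mob e₀ (-b₀) (-c₀) a₀ with hm0'
  have hinv1 : ∀ z, m0' (m0 z) = z := fun z => (mo1 a₀ b₀ c₀ e₀ hdet0 z).1
  have hinv2 : ∀ z, m0 (m0' z) = z := fun z => (mo1 a₀ b₀ c₀ e₀ hdet0 z).2
  have hdet0' : e₀ * a₀ - -b₀ * -c₀ ≠ 0 := by
    have : e₀ * a₀ - -b₀ * -c₀ = a₀ * e₀ - b₀ * c₀ := by ring
    rw [this]; exact hdet0
  have hcj' : ∀ z, G (m0' z) = m0' (mapP1 P Q (d ^ n) z) := by
    intro z
    have := hcj (m0' z)
    rw [hinv2] at this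
    rw [this, hinv1]
  have hP00 : mapP1 P Q (d ^ n) (some 0) = some 0 := by
    have h1 : P.eval 0 = 0 := by rw [← coeff_zero_eq_eval_zero]; exact hP0
    rw [mapP1_some_ne _ _ _ _ (coprime_eval hco h1), h1, zero_div]
  obtain ⟨z0, hz0⟩ : ∃ z0, z0 = m0' (some 0) := ⟨_, rfl⟩
  obtain ⟨zi, hzi⟩ : ∃ zi, zi = m0' y' := ⟨_, rfl⟩
  have hGz0 : G z0 = z0 := by rw [hz0, hcj', hP00]
  have hGzi : G zi = z0 := by rw [hzi, hcj', hy', hz0]
  have hz0i : z0 ≠ zi := by
    intro h
    apply hy'0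
    have := congrArg m0 h
    rw [hz0, hzi, hinv2, hinv2] at this
    exact this.symm
  have hFs : Function.Surjective F := (hFIB Ω d hd1 pΩ qΩ hrΩ).2.2 inferInstance
  obtain ⟨z1, hGz1⟩ : ∃ z1, G z1 = zi := (hFs.iterate n) zi
  have hz01 : z0 ≠ z1 := by
    intro h
    apply hz0i
    rw [← hGz1, ← h, hGz0]
  have hzi1 : zi ≠ z1 := by
    intro h
    apply hz0i
    rw [← hGzi]
    rw [h, hGz1]
    exact h.symm ▸ rfl
  have hit3 : ∀ z, F^[3 * n] z = G (G (G z)) := by
    intro z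
    rw [hG, ← Function.iterate_add_apply, ← Function.iterate_add_apply]
    congr 1
    omega
  have hit2 : ∀ z, F^[2 * n] z = G (G z) := by
    intro z
    rw [hG, ← Function.iterate_add_apply]
    congr 1
    omega
  obtain ⟨z0', hz0'⟩ := mem_E hMAP hITR hd B hpq hn hnB z0 (by
    show F^[3 * n] z0 = F^[2 * n] z0
    rw [hit3, hit2, hGz0, hGz0, hGz0])
  obtain ⟨zi', hzi'⟩ := mem_E hMAP hITR hd B hpq hn hnB zi (by
    show F^[3 * n] zi = F^[2 * n] zi
    rw [hit3, hit2, hGzi, hGz0, hGz0])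
  obtain ⟨z1', hz1'⟩ := mem_E hMAP hITR hd B hpq hn hnB z1 (by
    show F^[3 * n] z1 = F^[2 * n] z1
    rw [hit3, hit2, hGz1, hGzi, hGz0])
  obtain ⟨a, b, c, e, hdet, hm1, hm2, hm3⟩ := moE3 z0' zi' z1'
    (fun h => hz0i (by rw [← hz0', ← hzi', h]))
    (fun h => hz01 (by rw [← hz0', ← hz1', h]))
    (fun h => hzi1 (by rw [← hzi', ← hz1', h]))
  have hrE : IsRat d (p.map (algebraMap L E)) (q.map (algebraMap L E)) := by
    obtain ⟨h1, h2⟩ := hpq
    refine ⟨?_, ?_⟩
    · have := h1.map (Polynomial.mapRingHom (algebraMap L E))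
      simpa using this
    · rw [natDegree_map, natDegree_map]
      exact h2
  obtain ⟨u₁, w₁, huw₁, hc₁⟩ := hCNJ E d hd1 _ _ hrE a b c e hdet
  obtain ⟨u, w, huw, hc₂, hone⟩ := scale huw₁ hd1
  have hcE : ∀ z : Option E, mapP1 u w d (mob a b c e z) =
      mob a b c e (mapP1 (p.map (algebraMap L E)) (q.map (algebraMap L E)) d z) := by
    intro z
    rw [hc₂, hc₁]
  refine ⟨a, b, c, e, hdet, u, w, huw, hcE, ?_⟩
  obtain ⟨ma1, ma2, ma3, ma4⟩ := hMAP E Ω φ d
  have : Infinite E := by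
    have : CharZero E := charZero_of_injective_algebraMap (algebraMap L E).injective
    infer_instance
  have : Infinite Ω := Infinite.of_injective φ φ.injective
  have hfex := hFEX E Ω φ d hd1 _ _ _ _ hrE huw a b c e hdet hcE
  have hpE : (p.map (algebraMap L E)).map φ = pΩ := by
    rw [Polynomial.map_map, hpΩ]
    rfl
  have hqE : (q.map (algebraMap L E)).map φ = qΩ := by
    rw [Polynomial.map_map, hqΩ]
    rfl
  rw [hpE, hqE] at hfex
  set μ := mob (φ a) (φ b) (φ c) (φ e) with hμ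
  set H := mapP1 (u.map φ) (w.map φ) d with hH
  have hHn : ∀ z, H^[n] (μ z) = μ (G z) := fun z => semiconj_iter hfex n z
  have hμ0 : μ z0 = some 0 := by
    rw [← hz0', hμ, ma2, hm1]
    simp
  have hμi : μ zi = none := by
    rw [← hzi', hμ, ma2, hm2]
    rfl
  have hμ1 : μ z1 = some 1 := by
    rw [← hz1', hμ, ma2, hm3]
    simp
  have hruw : IsRat d (u.map φ) (w.map φ) := ma3 u w huw
  have hH0 : H^[n] (some 0) = some 0 := by
    have := hHn z0
    rw [hGz0, hμ0] at this
    exact this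
  refine ⟨⟨hruw, hH0, ?_, ?_, ?_⟩, ?_⟩
  · have := hHn zi
    rw [hGzi, hμ0, hμi] at this
    exact this
  · have := hHn z1
    rw [hGz1, hμi, hμ1] at this
    exact this
  · rcases hone with ⟨i, hi⟩ | ⟨i, hi⟩
    · left
      exact ⟨i, by rw [coeff_map, hi, map_one]⟩
    · right
      exact ⟨i, by rw [coeff_map, hi, map_one]⟩
  · obtain ⟨hitR, hitM⟩ := hITR Ω d hd1 (u.map φ) (w.map φ) hruw n
    have hit0 : (itP d (u.map φ) (w.map φ) n).1.coeff 0 = 0 := by
      have h1 := hitM (some 0)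
      have h2 : mapP1 (itP d (u.map φ) (w.map φ) n).1 (itP d (u.map φ) (w.map φ) n).2 (d ^ n)
          (some 0) = some 0 := h1.trans hH0
      by_cases h3 : (itP d (u.map φ) (w.map φ) n).2.eval 0 = 0
      · rw [mapP1_some_eq _ _ _ _ h3] at h2
        exact absurd h2 (by simp)
      · rw [mapP1_some_ne _ _ _ _ h3] at h2
        have h4 := Option.some.inj h2
        rw [div_eq_zero_iff] at h4
        rw [coeff_zero_eq_eval_zero]
        exact h4.resolve_right h3
    have hφdet : φ a * φ e - φ b * φ c ≠ 0 := by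
      rw [← map_mul, ← map_mul, ← map_sub]
      exact (map_ne_zero φ).2 hdet
    have hcomp := mo2 (φ a) (φ b) (φ c) (φ e) e₀ (-b₀) (-c₀) a₀ hφdet hdet0'
    have hmiv := hMIV Ω (d ^ n) (by omega) P Q (itP d (u.map φ) (w.map φ) n).1
      (itP d (u.map φ) (w.map φ) n).2 hPQ hitR hP0 hit0
      (φ a * e₀ + φ b * -c₀) (φ a * -b₀ + φ b * a₀) (φ c * e₀ + φ e * -c₀)
      (φ c * -b₀ + φ e * a₀) (by
        have : (φ a * e₀ + φ b * -c₀) * (φ c * -b₀ + φ e * a₀) -
            (φ a * -b₀ + φ b * a₀) * (φ c * e₀ + φ e * -c₀) =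
            (φ a * φ e - φ b * φ c) * (e₀ * a₀ - -b₀ * -c₀) := by ring
        rw [this]
        exact mul_ne_zero hφdet hdet0') (by
        rw [← hcomp]
        show μ (m0' (some 0)) = some 0
        rw [← hz0]
        exact hμ0) (by
        intro z
        rw [← hcomp, ← hcomp]
        show mapP1 (itP d (u.map φ) (w.map φ) n).1 (itP d (u.map φ) (w.map φ) n).2 (d ^ n)
          (μ (m0' z)) = μ (m0' (mapP1 P Q (d ^ n) z))
        rw [hitM]
        show H^[n] (μ (m0' z)) = _
        rw [hHn, hcj'])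
    rw [hlPQ, ← hmiv, ma4, map_div₀, coeff_map, coeff_map]

end Pool.Agent.N820.SU.Nfe
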