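import Pool.Agent.N820.SU.Stm2
import Pool.Agent.Y676.CH.Cnj
import Pool.Agent.Y195.CH.NRM

/-!
# Project SU: from conjugate polynomials to conjugate functions
-/

set_option autoImplicit false

namespace Pool.Agent.N820.SU.Pcf

open Polynomial Pool.Agent.N820.SU Pool.Agent.Y706.CH Pool.Agent.Y676.CH

universe u v w

lemma mapP1_eq {K : Type u} [Field K] (p q : K[X]) (d : ℕ) (z : Option K) :
    mapP1 p q d z = Pool.Agent.W277.UH.ratP1 p q d z := by
  cases z <;> rfl

lemma mob_eq {K : Type u} [Field K] (a b c e : K) (z : Option K) :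
    mob a b c e z = pt (Ph a b c e (vec z)) := by
  cases z with
  | none =>
    have h : Ph a b c e (vec none) = (a, c) := by
      refine Prod.ext ?_ ?_
      · show a * 1 + b * 0 = a
        ring
      · show c * 1 + e * 0 = c
        ring
    rw [h]
    rfl
  | some x =>
    have h : Ph a b c e (vec (some x)) = (a * x + b, c * x + e) := by
      refine Prod.ext ?_ ?_
      · show a * x + b * 1 = a * x + b
        ring
      · show c * x + e * 1 = c * x + e
        ring
    rw [h]
    rfl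

theorem t_PCF : S_PCF.{u} := by
  intro M _ d hd p q u w hpq huw a b c e hdet hcj z
  obtain ⟨hco, hpq⟩ := hpq
  obtain ⟨hco', huw⟩ := huw
  obtain ⟨s, hs, h1, h2⟩ := hcj
  have hp : p.natDegree ≤ d := by rw [← hpq]; exact le_max_left _ _
  have hq : q.natDegree ≤ d := by rw [← hpq]; exact le_max_right _ _
  have hK : ∀ Z : M × M, bK d u w (Ph a b c e Z) = s • Ph a b c e (bK d p q Z) := by
    intro Z
    refine Prod.ext ?_ ?_
    · exact key d a b c e s p q u hp hq a b h1 Z
    · exact key d a b c e s p q w hp hq c e h2 Z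
  have hφ : ∀ Z : M × M, Z ≠ 0 → pt (Ph a b c e Z) = pt (Ph a b c e (vec (pt Z))) := by
    intro Z hZ
    obtain ⟨t, ht, h3⟩ := exists_smul Z hZ
    conv_lhs => rw [h3]
    rw [Ph_smul, pt_smul t ht]
  obtain ⟨g1, g2⟩ := Pool.Agent.Y195.CH.t_PT M d hd p q hpq hco (vec z) (vec_ne z)
  obtain ⟨_, g4⟩ := Pool.Agent.Y195.CH.t_PT M d hd u w huw hco' (Ph a b c e (vec z))
    (Ph_ne a b c e hdet _ (vec_ne z))
  rw [pt_vec] at g2
  rw [mapP1_eq, mapP1_eq, mob_eq, mob_eq, g4, hK, pt_smul s hs, g2, ← hφ _ g1]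

theorem t_FEX (hMAP : S_MAP.{u}) (hCNP : S_CNP.{u}) : S_FEX.{u} := by
  intro K K' _ _ _ φ d hd p q u w hpq huw a b c e hdet h
  have hcj := hCNP K d hd p q u w hpq huw a b c e hdet h
  apply t_PCF K' d hd _ _ _ _ ((hMAP K K' φ d).2.2.1 p q hpq) ((hMAP K K' φ d).2.2.1 u w huw)
  · rw [← map_mul, ← map_mul, ← map_sub]
    exact (map_ne_zero φ).mpr hdet
  · obtain ⟨s, hs, h1, h2⟩ := hcj
    have key : ∀ f : K[X], (hm d f (C a * X + C b) (C c * X + C e)).map φ =
        hm d (f.map φ) (C (φ a) * X + C (φ b)) (C (φ c) * X + C (φ e)) := by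
      intro f
      unfold hm
      rw [Polynomial.map_sum]
      refine Finset.sum_congr rfl fun i _ => ?_
      simp only [Polynomial.map_mul, Polynomial.map_pow, Polynomial.map_add, map_C, map_X,
        coeff_map]
    refine ⟨φ s, (map_ne_zero φ).mpr hs, ?_, ?_⟩
    · rw [← key, h1]
      simp only [Polynomial.map_mul, Polynomial.map_add, map_C]
    · rw [← key, h2]
      simp only [Polynomial.map_mul, Polynomial.map_add, map_C]

end Pool.Agent.N820.SU.Pcf
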