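import Mathlib
import Pool.Agent.N820.SU.Stm

/-!
# Project SU: heights of roots and of the coefficients of iterates (helper478)
-/

set_option autoImplicit false

namespace Pool.Agent.N820.SU.Roo

open Polynomial Pool.Agent.W277.UB Pool.Agent.W277.UB.PlaceData Pool.Agent.N820.SU

universe u v w

section local_part

variable {k : Type v} {K : Type u} [Field k] [Field K] [Algebra k K] {Q : PlaceData.{w} k K}

/-- from inequalities at all places to heights -/
lemma hq_le (h2 : ∀ x : K, {v | Q.wt v * Q.pole v x ≠ 0}.Finite)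
    (h3 : ∀ (x : K) (S : Finset Q.Pl), (∀ v, v ∉ S → Q.pole v x = 0) →
      hq Q x = ∑ v ∈ S, Q.wt v * Q.pole v x) {ι : Type*} (V : Finset ι) (c : ι → ℤ) (y : ι → K)
    (x z : K) (h : ∀ v, Q.pole v x ≤ Q.pole v z + ∑ i ∈ V, c i * Q.pole v (y i)) :
    hq Q x ≤ hq Q z + ∑ i ∈ V, c i * hq Q (y i) := by
  classical
  have hp : ∀ (a : K) (v : Q.Pl), v ∉ (h2 a).toFinset → Q.pole v a = 0 := by
    intro a v hv
    by_contra hne
    apply hv
    rw [Set.Finite.mem_toFinset]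
    have h1 := Q.wt_one v
    exact mul_ne_zero (by omega) hne
  set T : Finset Q.Pl := (h2 x).toFinset ∪ (h2 z).toFinset ∪ V.biUnion (fun i => (h2 (y i)).toFinset)
    with hT
  have hx := h3 x T (fun v hv => hp x v fun h => hv (by simp only [hT, Finset.mem_union]; exact Or.inl (Or.inl h)))
  have hz := h3 z T (fun v hv => hp z v fun h => hv (by simp only [hT, Finset.mem_union]; exact Or.inl (Or.inr h)))
  have hy : ∀ i ∈ V, hq Q (y i) = ∑ v ∈ T, Q.wt v * Q.pole v (y i) := fun i hi =>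
    h3 (y i) T (fun v hv => hp (y i) v fun h => hv (by
      simp only [hT, Finset.mem_union, Finset.mem_biUnion]
      exact Or.inr ⟨i, hi, h⟩))
  rw [hx, hz]
  calc ∑ v ∈ T, Q.wt v * Q.pole v x ≤
      ∑ v ∈ T, Q.wt v * (Q.pole v z + ∑ i ∈ V, c i * Q.pole v (y i)) :=
        Finset.sum_le_sum fun v _ => mul_le_mul_of_nonneg_left (h v) (Q.wt_nonneg v)
    _ = ∑ v ∈ T, Q.wt v * Q.pole v z + ∑ v ∈ T, ∑ i ∈ V, c i * (Q.wt v * Q.pole v (y i)) := by
        rw [← Finset.sum_add_distrib]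
        refine Finset.sum_congr rfl fun v _ => ?_
        rw [mul_add, Finset.mul_sum]
        congr 1
        exact Finset.sum_congr rfl fun i _ => by ring
    _ = ∑ v ∈ T, Q.wt v * Q.pole v z + ∑ i ∈ V, c i * hq Q (y i) := by
        congr 1
        rw [Finset.sum_comm]
        refine Finset.sum_congr rfl fun i hi => ?_
        rw [hy i hi, Finset.mul_sum]

lemma hq_zero (h3 : ∀ (x : K) (S : Finset Q.Pl), (∀ v, v ∉ S → Q.pole v x = 0) →
      hq Q x = ∑ v ∈ S, Q.wt v * Q.pole v x) : hq Q (0 : K) = 0 := by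
  rw [h3 0 ∅ (fun v _ => pole_zero), Finset.sum_empty]

lemma G_int (v : Q.Pl) (n : ℤ) : Q.G v 0 ((n : ℤ) : K) := by
  have h : ((n : ℤ) : K) = algebraMap k K (n : k) := by simp
  rw [h]
  exact G_alg _

/-- the pole of a polynomial expression -/
lemma G_eval (v : Q.Pl) (l : ℕ → K) (c : MvPolynomial ℕ ℤ) (V : Finset ℕ) (δ : ℕ)
    (hV : c.vars ⊆ V) (hδ : c.totalDegree ≤ δ) :
    Q.G v (-(δ * ∑ i ∈ V, Q.pole v (l i))) (MvPolynomial.eval₂Hom (Int.castRingHom K) l c) := by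
  set M := ∑ i ∈ V, Q.pole v (l i) with hM
  have hM0 : 0 ≤ M := Finset.sum_nonneg fun i _ => pole_nonneg v _
  rw [MvPolynomial.coe_eval₂Hom, MvPolynomial.eval₂_eq]
  refine G_sum _ _ fun d hd => ?_
  have h1 : Q.G v (∑ i ∈ d.support, -((d i : ℤ) * Q.pole v (l i))) (∏ i ∈ d.support, l i ^ d i) := by
    refine G_prod _ _ _ fun i _ => ?_
    have := G_pow (G_pole v (l i)) (d i)
    refine G_mono this (le_of_eq ?_)
    ring
  have h2 := G_mul (G_int (k := k) v (MvPolynomial.coeff d c)) h1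
  refine G_mono h2 ?_
  rw [zero_add, Finset.sum_neg_distrib, neg_le_neg_iff]
  have h3 : ∑ i ∈ d.support, (d i : ℤ) * Q.pole v (l i) ≤ ∑ i ∈ d.support, (d i : ℤ) * M := by
    refine Finset.sum_le_sum fun i hi => ?_
    refine mul_le_mul_of_nonneg_left ?_ (by positivity)
    have hiV : i ∈ V := hV ((MvPolynomial.mem_vars_iff_mem_support i).mpr ⟨d, hd, hi⟩)
    exact Finset.single_le_sum (f := fun i => Q.pole v (l i)) (fun i _ => pole_nonneg v _) hiV
  refine h3.trans ?_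
  rw [← Finset.sum_mul]
  refine mul_le_mul_of_nonneg_right ?_ hM0
  have h4 : (d.sum fun _ e => e) ≤ c.totalDegree := MvPolynomial.le_totalDegree hd
  have h5 : ∑ i ∈ d.support, (d i : ℤ) = ((d.sum fun _ e => e : ℕ) : ℤ) := by
    rw [Finsupp.sum]
    push_cast
    rfl
  rw [h5]
  exact_mod_cast h4.trans hδ

/-- the pole of a root of a polynomial -/
lemma pole_root (v : Q.Pl) (f : K[X]) (x : K) (A : ℤ) (hA : 0 ≤ A) (hf : f ≠ 0)
    (hfx : f.eval x = 0) (hc : ∀ j, Q.G v (-A) (f.coeff j)) :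
    Q.pole v x ≤ Q.pole v (f.leadingCoeff⁻¹) + A := by
  have hp := pole_nonneg v (f.leadingCoeff⁻¹)
  rcases (pole_nonneg v x).lt_or_eq with hm | hm
  swap
  · rw [← hm]; positivity
  set m := Q.pole v x with hmdef
  have hx : x ≠ 0 := by
    rintro rfl
    rw [pole_zero] at hmdef
    omega
  have hord : Q.ord v x = -m := by
    rw [pole_of_ne hx] at hmdef
    rcases max_cases 0 (-Q.ord v x) with h | h
    · omega
    · omega
  have hlc : f.leadingCoeff ≠ 0 := leadingCoeff_ne_zero.mpr hf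
  set n := f.natDegree with hn
  have hn1 : n ≠ 0 := by
    intro h0
    have h1 : f = C (f.coeff 0) := eq_C_of_natDegree_eq_zero (by rw [← hn, h0])
    rw [h1, eval_C] at hfx
    rw [hfx] at h1
    exact hf (by rw [h1, C_0])
  have hsum : f.leadingCoeff * x ^ n = -∑ j ∈ Finset.range n, f.coeff j * x ^ j := by
    rw [eval_eq_sum_range, Finset.sum_range_succ, ← hn] at hfx
    rw [leadingCoeff, ← hn]
    exact eq_neg_of_add_eq_zero_right hfx
  have hG : Q.G v (-A - (n - 1) * m) (f.leadingCoeff * x ^ n) := by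
    rw [hsum]
    refine G_neg (G_sum _ _ fun j hj => ?_)
    have hj' := Finset.mem_range.mp hj
    have h1 := G_mul (hc j) (G_pow (G_pole v x) j)
    refine G_mono h1 ?_
    rw [← hmdef]
    have h2 : (j : ℤ) ≤ n - 1 := by omega
    nlinarith
  have h2 := hG (mul_ne_zero hlc (pow_ne_zero n hx))
  rw [Q.ord_mul v _ _ hlc (pow_ne_zero n hx), ord_pow hx, hord] at h2
  have h3 : Q.ord v f.leadingCoeff ≤ Q.pole v (f.leadingCoeff⁻¹) := by
    rw [pole_of_ne (inv_ne_zero hlc), ord_inv hlc, neg_neg]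
    exact le_max_right _ _
  nlinarith

/-- all coefficients have bounded poles -/
def PG (v : Q.Pl) (m : ℤ) (A : K[X]) : Prop := ∀ i, Q.G v (-m) (A.coeff i)

lemma PG.mono {v : Q.Pl} {m n : ℤ} {A : K[X]} (h : PG v m A) (hmn : m ≤ n) : PG v n A :=
  fun i => G_mono (h i) (by linarith)

lemma PG.mul {v : Q.Pl} {m n : ℤ} {A B : K[X]} (hA : PG v m A) (hB : PG v n B) : PG v (m + n) (A * B) := by
  intro i
  rw [coeff_mul]
  refine G_sum _ _ fun x _ => ?_
  exact G_mono (G_mul (hA x.1) (hB x.2)) (by linarith)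

lemma PG.one {v : Q.Pl} : PG v 0 (1 : K[X]) := by
  intro i
  rw [coeff_one]
  split_ifs
  · rw [neg_zero]; exact G_one
  · exact G_zero

lemma PG.varX {v : Q.Pl} : PG v 0 (X : K[X]) := by
  intro i
  rw [coeff_X]
  split_ifs
  · rw [neg_zero]; exact G_one
  · exact G_zero

lemma PG.pow {v : Q.Pl} {m : ℤ} {A : K[X]} (hA : PG v m A) (j : ℕ) : PG v (j * m) (A ^ j) := by
  induction j with
  | zero => simpa using PG.one
  | succ j ih =>
    rw [pow_succ]
    refine (ih.mul hA).mono (le_of_eq ?_)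
    push_cast
    ring

lemma PG.const {v : Q.Pl} {m : ℤ} {a : K} (h : Q.pole v a ≤ m) : PG v m (C a) := by
  intro i
  rw [coeff_C]
  split_ifs
  · exact G_of_pole_le h
  · exact G_zero

lemma PG.sum {v : Q.Pl} {m : ℤ} {ι : Type*} (s : Finset ι) (f : ι → K[X]) (h : ∀ i ∈ s, PG v m (f i)) :
    PG v m (∑ i ∈ s, f i) := by
  intro i
  rw [finsetSum_coeff]
  exact G_sum _ _ fun j hj => h j hj i

lemma PG.hsub {v : Q.Pl} {M m : ℤ} (hm0 : 0 ≤ m) (d : ℕ) (p A B : K[X]) (hp : ∀ i ≤ d, Q.pole v (p.coeff i) ≤ M)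
    (hA : PG v m A) (hB : PG v m B) : PG v (M + d * m) (hm d p A B) := by
  unfold Pool.Agent.N820.SU.hm
  refine PG.sum _ _ fun i hi => ?_
  have hi' : i ≤ d := Nat.lt_succ_iff.mp (Finset.mem_range.mp hi)
  refine (((PG.const (hp i hi')).mul (hA.pow i)).mul (hB.pow (d - i))).mono (le_of_eq ?_)
  rw [add_assoc, ← add_mul, Nat.cast_sub hi']
  ring

/-- the exponent for the iterates -/
def cc (d : ℕ) : ℕ → ℕ
  | 0 => 0
  | n + 1 => 1 + d * cc d n

lemma PG.it {v : Q.Pl} {M : ℤ} (hM : 0 ≤ M) (d : ℕ) (p q : K[X]) (hp : ∀ i ≤ d, Q.pole v (p.coeff i) ≤ M)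
    (hq : ∀ i ≤ d, Q.pole v (q.coeff i) ≤ M) (n : ℕ) :
    PG v (cc d n * M) (itP d p q n).1 ∧ PG v (cc d n * M) (itP d p q n).2 := by
  induction n with
  | zero => simpa [cc, itP] using (⟨PG.varX, PG.one⟩ : PG v 0 (X : K[X]) ∧ PG v 0 (1 : K[X]))
  | succ n ih =>
    obtain ⟨h1, h2⟩ := ih
    have h0 : 0 ≤ (cc d n : ℤ) * M := by positivity
    have e : M + d * ((cc d n : ℤ) * M) = (cc d (n + 1) : ℤ) * M := by
      rw [cc]; push_cast; ring
    refine ⟨?_, ?_⟩
    · rw [← e]; exact PG.hsub h0 d p _ _ hp h1 h2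
    · rw [← e]; exact PG.hsub h0 d q _ _ hq h1 h2

end local_part

theorem t_ROO (hHQ : S_HQ.{u, v, w}) : S_ROO.{u, v, w} := by
  classical
  intro P
  set V : Finset ℕ := P.support.biUnion (fun j => (P.coeff j).vars) with hV
  set δ : ℕ := P.support.sup (fun j => (P.coeff j).totalDegree) with hδ
  refine ⟨2 * δ * V.card, ?_⟩
  intro k K _ _ _ _ Q l x H hl hP hx
  obtain ⟨h1, h2, h3, h4, -, -, -, -, -⟩ := hHQ k K Q
  have hH : 0 ≤ H := (h1 (l 0)).trans (hl 0)
  set f := P.map (MvPolynomial.eval₂Hom (Int.castRingHom K) l) with hf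
  have hcoef : ∀ (v : Q.Pl) (j : ℕ), Q.G v (-(δ * ∑ i ∈ V, Q.pole v (l i))) (f.coeff j) := by
    intro v j
    rw [hf, coeff_map]
    by_cases hj : j ∈ P.support
    · exact G_eval v l (P.coeff j) V δ (Finset.subset_biUnion_of_mem (fun j => (P.coeff j).vars) hj)
        (Finset.le_sup (f := fun j => (P.coeff j).totalDegree) hj)
    · rw [notMem_support_iff.mp hj, map_zero]
      exact G_zero
  have hA0 : ∀ v : Q.Pl, 0 ≤ (δ : ℤ) * ∑ i ∈ V, Q.pole v (l i) := fun v =>
    mul_nonneg (by positivity) (Finset.sum_nonneg fun i _ => pole_nonneg v _)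
  have hlc : f.leadingCoeff ≠ 0 := leadingCoeff_ne_zero.mpr hP
  have e1 : hq Q f.leadingCoeff ≤ ∑ i ∈ V, (δ : ℤ) * hq Q (l i) := by
    have h := hq_le h2 h3 V (fun _ => (δ : ℤ)) l f.leadingCoeff 0 (fun v => by
      rw [pole_zero, zero_add, ← Finset.mul_sum]
      exact pole_le_of_G (hA0 v) (hcoef v _))
    rwa [hq_zero h3, zero_add] at h
  have e2 : hq Q x ≤ hq Q (f.leadingCoeff⁻¹) + ∑ i ∈ V, (δ : ℤ) * hq Q (l i) :=
    hq_le h2 h3 V (fun _ => (δ : ℤ)) l x (f.leadingCoeff⁻¹) (fun v => by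
      rw [← Finset.mul_sum]
      exact pole_root v f x _ (hA0 v) hP hx (hcoef v))
  rw [h4 _ hlc] at e2
  have e3 : ∑ i ∈ V, (δ : ℤ) * hq Q (l i) ≤ V.card * (δ * H) := by
    calc ∑ i ∈ V, (δ : ℤ) * hq Q (l i) ≤ ∑ _i ∈ V, (δ : ℤ) * H :=
          Finset.sum_le_sum fun i _ => mul_le_mul_of_nonneg_left (hl i) (by positivity)
      _ = _ := by rw [Finset.sum_const, nsmul_eq_mul]
  push_cast
  nlinarith

theorem t_ITH (hHQ : S_HQ.{u, v, w}) : S_ITH.{u, v, w} := by
  classical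
  intro d n hd
  refine ⟨cc d n * (2 * (d + 1)), ?_⟩
  intro k K _ _ _ _ Q p q H hp hq' hH i
  obtain ⟨h1, h2, h3, h4, -, -, -, -, -⟩ := hHQ k K Q
  have hH0 : 0 ≤ H := (h1 (p.coeff 0)).trans (hH 0).1
  set y : ℕ × Fin 2 → K := fun a => if a.2 = 0 then p.coeff a.1 else q.coeff a.1 with hy
  set V : Finset (ℕ × Fin 2) := Finset.range (d + 1) ×ˢ Finset.univ with hV
  have hM0 : ∀ v : Q.Pl, 0 ≤ ∑ a ∈ V, Q.pole v (y a) := fun v =>
    Finset.sum_nonneg fun i _ => pole_nonneg v _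
  have hMp : ∀ (v : Q.Pl), ∀ j ≤ d, Q.pole v (p.coeff j) ≤ ∑ a ∈ V, Q.pole v (y a) := by
    intro v j hj
    have hmem : (j, (0 : Fin 2)) ∈ V := by
      simp only [hV, Finset.mem_product, Finset.mem_range, Finset.mem_univ, and_true]
      omega
    have h := Finset.single_le_sum (f := fun a => Q.pole v (y a)) (fun i _ => pole_nonneg v _) hmem
    simpa [hy] using h
  have hMq : ∀ (v : Q.Pl), ∀ j ≤ d, Q.pole v (q.coeff j) ≤ ∑ a ∈ V, Q.pole v (y a) := by
    intro v j hj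
    have hmem : (j, (1 : Fin 2)) ∈ V := by
      simp only [hV, Finset.mem_product, Finset.mem_range, Finset.mem_univ, and_true]
      omega
    have h := Finset.single_le_sum (f := fun a => Q.pole v (y a)) (fun i _ => pole_nonneg v _) hmem
    simpa [hy] using h
  have hit := fun v => PG.it (v := v) (hM0 v) d p q (hMp v) (hMq v) n
  have hcard : V.card = 2 * (d + 1) := by
    rw [hV, Finset.card_product, Finset.card_range, Finset.card_univ, Fintype.card_fin, mul_comm]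
  have hyH : ∀ a, hq Q (y a) ≤ H := by
    intro a
    rw [hy]
    simp only
    split_ifs
    · exact (hH _).1
    · exact (hH _).2
  have key : ∀ x : K, (∀ v : Q.Pl, Q.G v (-((cc d n : ℤ) * ∑ a ∈ V, Q.pole v (y a))) x) →
      hq Q x ≤ ((cc d n * (2 * (d + 1)) : ℕ) : ℤ) * H := by
    intro x hx
    have h := hq_le h2 h3 V (fun _ => (cc d n : ℤ)) y x 0 (fun v => by
      rw [pole_zero, zero_add, ← Finset.mul_sum]
      exact pole_le_of_G (mul_nonneg (by positivity) (hM0 v)) (hx v))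
    rw [hq_zero h3, zero_add] at h
    refine h.trans ?_
    calc ∑ a ∈ V, (cc d n : ℤ) * hq Q (y a) ≤ ∑ _a ∈ V, (cc d n : ℤ) * H :=
          Finset.sum_le_sum fun a _ => mul_le_mul_of_nonneg_left (hyH a) (by positivity)
      _ = _ := by
          rw [Finset.sum_const, nsmul_eq_mul, hcard]
          push_cast
          ring
  exact ⟨key _ fun v => (hit v).1 i, key _ fun v => (hit v).2 i⟩

end Pool.Agent.N820.SU.Roo
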