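import Pool.Agent.N820.SU.Fin
import Pool.Agent.Y706.CH.Gon
import Pool.Agent.Y833.CH.Ext

/-!
# Project SU: points of bounded degree
-/

set_option autoImplicit false

namespace Pool.Agent.N820.SU.Subp

open Polynomial Pool.Agent.W277.UB Pool.Agent.N820.SU Pool.Agent.N820.SU.Key

universe u v w

/-- the starting theorem for maps of large critical height -/
lemma fin2 : Pool.Agent.Y706.CH7.S_FIN2.{u, v} := by
  have e5 : ∀ (K : Type u) [Field K] (p q : K[X]) (d : ℕ),
      Pool.Agent.Results.MP_9b502d_nt.LargeCriticalHeight.mapP1 p q d =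
        Pool.Agent.W277.UH.ratP1 p q d := by
    intro K _ p q d
    funext z
    cases z <;> rfl
  obtain ⟨N, hN⟩ := Pool.Agent.Results.MP_9b502d_nt.LargeCriticalHeight.result.{u, v}
  refine ⟨N, ?_⟩
  intro k L _ _ _ _ t ht hfd n d B hn hd p q hco hmax hlch
  have h := hN k L t ht hfd n d B hn hd p q hco hmax (Or.inl (by
    obtain ⟨M, i1, i2, i3, i4, i5, i6, u, w, h1, h2, h3, h4, c, h5, h6, h7⟩ := hlch
    have e6 : ∀ z : Option M,
        Pool.Agent.Results.MP_9b502d_nt.LargeCriticalHeight.height k z =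
          Pool.Agent.Y706.CH7.height k z := by
      intro z
      cases z <;> rfl
    have e7 : Pool.Agent.Results.MP_9b502d_nt.LargeCriticalHeight.mapHeight k u w d =
        Pool.Agent.Y706.CH7.mapHeight k u w d := by
      unfold Pool.Agent.Results.MP_9b502d_nt.LargeCriticalHeight.mapHeight
        Pool.Agent.Y706.CH7.mapHeight
      simp only [e6]
    have e8 : Pool.Agent.Results.MP_9b502d_nt.LargeCriticalHeight.canonicalHeight k u w d c =
        Pool.Agent.Y706.CH7.canHeight k u w d c := by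
      unfold Pool.Agent.Results.MP_9b502d_nt.LargeCriticalHeight.canonicalHeight
        Pool.Agent.Y706.CH7.canHeight
      rw [e5]
      simp only [e6]
    refine ⟨M, i1, i2, i3, i4, i5, i6, u, w, h1, h2, h3, h4, c, ?_, ?_, ?_⟩
    · cases c <;> exact h5
    · rw [e7]
      exact h6
    · rw [e7, e8]
      exact h7))
  rw [e5] at h
  exact h

/-- SUBP: points of bounded degree -/
def S_SUBP : Prop := ∃ N : ℕ → ℕ → ℕ → ℕ → ℕ, ∀ (k : Type v) (L : Type u) [Field k]
  [CharZero k] [Field L] [Algebra k L] (t : L), Transcendental k t →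
  FiniteDimensional (IntermediateField.adjoin k {t}) L →
  ∀ (n D d B : ℕ), Module.finrank (IntermediateField.adjoin k {t}) L ≤ n → 2 ≤ d →
  ∀ p q : L[X], IsRat d p q →
  ¬ ConjAlg k (p.map (algebraMap L (AlgebraicClosure L)))
    (q.map (algebraMap L (AlgebraicClosure L))) d →
  Few (p.map (algebraMap L (AlgebraicClosure L)))
    (q.map (algebraMap L (AlgebraicClosure L))) d B →
  {z : Option (AlgebraicClosure L) | (Set.range fun m : ℕ =>
      (mapP1 (p.map (algebraMap L (AlgebraicClosure L)))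
        (q.map (algebraMap L (AlgebraicClosure L))) d)^[m] z).Finite ∧
    ∀ x, z = some x → (minpoly L x).natDegree ≤ D}.encard ≤ ((N n D d B : ℕ) : ℕ∞)

theorem t_SUBP (hMAP : S_MAP.{u}) (hITR : S_ITR.{u})
    (hLCH : ∀ n d B : ℕ, 2 ≤ d → ∃ R : ℕ, ∀ (k : Type v) (L : Type u) [Field k]
    [CharZero k] [Field L] [Algebra k L] (t : L), Transcendental k t →
    FiniteDimensional (IntermediateField.adjoin k {t}) L →
    Module.finrank (IntermediateField.adjoin k {t}) L ≤ n → ∀ p q : L[X], IsRat d p q →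
    ¬ ConjAlg k (p.map (algebraMap L (AlgebraicClosure L)))
      (q.map (algebraMap L (AlgebraicClosure L))) d →
    Few (p.map (algebraMap L (AlgebraicClosure L)))
      (q.map (algebraMap L (AlgebraicClosure L))) d B →
    ∃ m : ℕ, 1 ≤ m ∧ m ≤ B ∧ Pool.Agent.Y706.CH7.LCH k (itP d p q m).1 (itP d p q m).2
      (d ^ m) R) : S_SUBP.{u, v} := by
  classical
  have hBDG : Pool.Agent.Y706.CH7.S_BDG2.{u, v} := Pool.Agent.Y706.CH7.bdg2 fin2.{u, v}
    Pool.Agent.Y706.CH7.t_BDC (Pool.Agent.Y833.CH.t_EXT Pool.Agent.Y555.CH.t_HTE)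
  obtain ⟨N₁, hN₁⟩ := hBDG
  have h1 : ∀ n d B : ℕ, ∃ R : ℕ, 2 ≤ d → ∀ (k : Type v) (L : Type u) [Field k]
      [CharZero k] [Field L] [Algebra k L] (t : L), Transcendental k t →
      FiniteDimensional (IntermediateField.adjoin k {t}) L →
      Module.finrank (IntermediateField.adjoin k {t}) L ≤ n → ∀ p q : L[X], IsRat d p q →
      ¬ ConjAlg k (p.map (algebraMap L (AlgebraicClosure L)))
        (q.map (algebraMap L (AlgebraicClosure L))) d →
      Few (p.map (algebraMap L (AlgebraicClosure L)))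
        (q.map (algebraMap L (AlgebraicClosure L))) d B →
      ∃ m : ℕ, 1 ≤ m ∧ m ≤ B ∧ Pool.Agent.Y706.CH7.LCH k (itP d p q m).1 (itP d p q m).2
        (d ^ m) R := by
    intro n d B
    by_cases hd : 2 ≤ d
    · obtain ⟨R, hR⟩ := hLCH n d B hd
      exact ⟨R, fun _ => hR⟩
    · exact ⟨0, fun h => absurd h hd⟩
  choose R hR using h1
  refine ⟨fun n D d B => (Finset.range (B + 1)).sup fun m => N₁ n D (d ^ m) (R n d B), ?_⟩
  intro k L _ _ _ _ t ht hfd n D d B hn hd p q hpq hiso hfew
  obtain ⟨m, hm1, hmB, hm⟩ := hR n d B hd k L t ht hfd hn p q hpq hiso hfew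
  obtain ⟨hr1, hr2⟩ := hITR L d (by omega) p q hpq m
  have hD : 2 ≤ d ^ m := hd.trans (Nat.le_self_pow (by omega) d)
  have h2 := hN₁ k L t ht hfd n D (d ^ m) (R n d B) hn hD _ _ hr1.1 hr1.2 hm
  set j := algebraMap L (AlgebraicClosure L) with hj
  have hrat' := (hMAP L (AlgebraicClosure L) j d).2.2.1 p q hpq
  obtain ⟨-, hr4⟩ := hITR (AlgebraicClosure L) d (by omega) _ _ hrat' m
  have hitm := (hMAP L (AlgebraicClosure L) j d).2.2.2 p q m
  rw [hitm] at hr4
  have hit : Pool.Agent.W277.UH.ratP1 ((itP d p q m).1.map j) ((itP d p q m).2.map j) (d ^ m) =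
      (mapP1 (p.map j) (q.map j) d)^[m] := by
    funext z
    rw [← hr4 z]
    cases z <;> rfl
  rw [hit] at h2
  refine le_trans (Set.encard_le_encard ?_) (h2.trans ?_)
  · rintro z ⟨hz1, hz2⟩
    refine ⟨?_, ?_⟩
    · refine hz1.subset ?_
      rintro _ ⟨i, rfl⟩
      refine ⟨m * i, ?_⟩
      show (mapP1 (p.map j) (q.map j) d)^[m * i] z = _
      rw [Function.iterate_mul]
    · intro x hx
      have hint : IsIntegral L x := (Algebra.IsAlgebraic.isAlgebraic (R := L) x).isIntegral
      refine ⟨IntermediateField.adjoin L {x}, IntermediateField.adjoin.finiteDimensional hint, ?_,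
        IntermediateField.mem_adjoin_simple_self L x⟩
      rw [IntermediateField.adjoin.finrank hint]
      exact hz2 x hx
  · have h3 : N₁ n D (d ^ m) (R n d B) ≤
        (Finset.range (B + 1)).sup fun m => N₁ n D (d ^ m) (R n d B) :=
      Finset.le_sup (f := fun m => N₁ n D (d ^ m) (R n d B)) (Finset.mem_range.mpr (by omega))
    exact_mod_cast h3

end Pool.Agent.N820.SU.Subp
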