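import Pool.Agent.N820.SU.Stm

/-!
# Project SU, job ULT: ultraproducts of algebraically closed fields
-/

set_option autoImplicit false

namespace Pool.Agent.N820.SU.Ult

open Polynomial Pool.Agent.N820.SU

universe u

variable (U : Ultrafilter ℕ) (Ω : ℕ → Type u) [∀ j, Field (Ω j)]

/-- the ideal of the families which vanish almost everywhere -/
def I : Ideal (∀ j, Ω j) where
  carrier := {x | ∀ᶠ j in (U : Filter ℕ), x j = 0}
  add_mem' := by
    intro a b ha hb
    have ha' : ∀ᶠ j in (U : Filter ℕ), a j = 0 := ha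
    have hb' : ∀ᶠ j in (U : Filter ℕ), b j = 0 := hb
    have : ∀ᶠ j in (U : Filter ℕ), (a + b) j = 0 := by
      filter_upwards [ha', hb'] with j h1 h2
      simp [h1, h2]
    exact this
  zero_mem' := by
    have : ∀ᶠ j in (U : Filter ℕ), (0 : ∀ j, Ω j) j = 0 := Filter.Eventually.of_forall fun _ => rfl
    exact this
  smul_mem' := by
    intro c x hx
    have hx' : ∀ᶠ j in (U : Filter ℕ), x j = 0 := hx
    have : ∀ᶠ j in (U : Filter ℕ), (c • x) j = 0 := by
      filter_upwards [hx'] with j h
      simp [h]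
    exact this

lemma mem_I (x : ∀ j, Ω j) : x ∈ I U Ω ↔ ∀ᶠ j in (U : Filter ℕ), x j = 0 := Iff.rfl

lemma isMaximal_I : (I U Ω).IsMaximal := by
  rw [Ideal.isMaximal_iff]
  constructor
  · intro h
    rw [mem_I] at h
    obtain ⟨j, hj⟩ := h.exists
    exact one_ne_zero hj
  · intro J x hIJ hxI hxJ
    rw [mem_I, ← Ultrafilter.eventually_not] at hxI
    have h1 : x * (fun j => (x j)⁻¹) ∈ J := J.mul_mem_right _ hxJ
    have h2 : 1 - x * (fun j => (x j)⁻¹) ∈ J := by
      apply hIJ
      rw [mem_I]
      filter_upwards [hxI] with j hj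
      simp [hj]
    have := J.add_mem h2 h1
    simpa using this

theorem t_ULT : S_ULT.{u} := by
  intro U Ω _ _ _
  have hmax := isMaximal_I U Ω
  let _ : Field ((∀ j, Ω j) ⧸ I U Ω) := Ideal.Quotient.field (I U Ω)
  let π : (∀ j, Ω j) →+* ((∀ j, Ω j) ⧸ I U Ω) := Ideal.Quotient.mk (I U Ω)
  have hsurj : Function.Surjective π := Ideal.Quotient.mk_surjective
  have hker : ∀ x, π x = 0 ↔ ∀ᶠ j in (U : Filter ℕ), x j = 0 := by
    intro x
    exact Ideal.Quotient.eq_zero_iff_mem
  have hchar : CharZero ((∀ j, Ω j) ⧸ I U Ω) := by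
    apply charZero_of_inj_zero
    intro n hn
    have h1 : π (n : ∀ j, Ω j) = 0 := by rw [map_natCast]; exact hn
    rw [hker] at h1
    obtain ⟨j, hj⟩ := h1.exists
    simpa using hj
  have hclosed : IsAlgClosed ((∀ j, Ω j) ⧸ I U Ω) := by
    apply IsAlgClosed.of_exists_root
    intro p hp hirr
    have hc : ∀ i, ∃ c : ∀ j, Ω j, π c = p.coeff i := fun i => hsurj _
    choose c hc using hc
    set n := p.natDegree with hn
    have hn0 : n ≠ 0 := hirr.natDegree_pos.ne'
    have hroot : ∀ j, ∃ x : Ω j, x ^ n + ∑ i ∈ Finset.range n, c i j * x ^ i = 0 := by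
      intro j
      have hlt : (∑ i ∈ Finset.range n, C (c i j) * X ^ i : (Ω j)[X]).degree < (n : ℕ) := by
        refine (Polynomial.degree_sum_le _ _).trans_lt ?_
        rw [Finset.sup_lt_iff (by exact_mod_cast WithBot.bot_lt_coe n)]
        intro i hi
        refine (degree_C_mul_X_pow_le i _).trans_lt ?_
        exact_mod_cast Finset.mem_range.1 hi
      have hdeg : (X ^ n + ∑ i ∈ Finset.range n, C (c i j) * X ^ i : (Ω j)[X]).degree = n := by
        rw [degree_add_eq_left_of_degree_lt (by rw [degree_X_pow]; exact hlt), degree_X_pow]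
      obtain ⟨x, hx⟩ := IsAlgClosed.exists_root
        (X ^ n + ∑ i ∈ Finset.range n, C (c i j) * X ^ i : (Ω j)[X])
        (by rw [hdeg]; exact_mod_cast hn0)
      refine ⟨x, ?_⟩
      have := hx
      simpa [IsRoot, eval_add, eval_finsetSum] using this
    choose x hx using hroot
    refine ⟨π x, ?_⟩
    have h0 : π (x ^ n + ∑ i ∈ Finset.range n, c i * x ^ i) = 0 := by
      rw [hker]
      refine Filter.Eventually.of_forall fun j => ?_
      have := hx j
      simpa [Finset.sum_apply] using this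
    rw [hp.as_sum, eval_add, eval_finsetSum, eval_pow, eval_X]
    simp only [eval_mul, eval_C, eval_pow, eval_X]
    rw [map_add, map_pow, map_sum] at h0
    simpa [hc] using h0
  exact ⟨_, _, hchar, hclosed, π, hsurj, hker⟩

end Pool.Agent.N820.SU.Ult
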