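import Pool.Agent.N820.SU.Stm

/-!
# Project SU: uniform equations for the coefficients of normal forms, by compactness
-/

set_option autoImplicit false

namespace Pool.Agent.N820.SU.Uni

open Polynomial Pool.Agent.N820.SU Filter

universe u

/-- finitely many generators suffice for one element -/
theorem mem_adjoin_fin {A : Type*} [CommRing A] (M : Set A) (a : A)
    (ha : a ∈ Algebra.adjoin ℤ M) : ∃ F : Finset A, (F : Set A) ⊆ M ∧
      a ∈ Algebra.adjoin ℤ (F : Set A) := by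
  classical
  induction ha using Algebra.adjoin_induction with
  | mem x hx => exact ⟨{x}, by simpa using hx, Algebra.subset_adjoin (by simp)⟩
  | algebraMap r => exact ⟨∅, by simp, Subalgebra.algebraMap_mem _ r⟩
  | add x y _ _ hx hy =>
    obtain ⟨F, hF, hxF⟩ := hx
    obtain ⟨G, hG, hyG⟩ := hy
    refine ⟨F ∪ G, by simp [hF, hG], ?_⟩
    exact add_mem (Algebra.adjoin_mono (by simp) hxF) (Algebra.adjoin_mono (by simp) hyG)
  | mul x y _ _ hx hy =>
    obtain ⟨F, hF, hxF⟩ := hx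
    obtain ⟨G, hG, hyG⟩ := hy
    refine ⟨F ∪ G, by simp [hF, hG], ?_⟩
    exact mul_mem (Algebra.adjoin_mono (by simp) hxF) (Algebra.adjoin_mono (by simp) hyG)

/-- an algebraic element is a root of a polynomial with coefficients integral polynomials in
elements of `M` -/
theorem exists_poly {Ω : Type u} [Field Ω] (M : Set Ω) (y : Ω)
    (hy : IsAlgebraic (Algebra.adjoin ℤ M) y) :
    ∃ (P : Polynomial (MvPolynomial ℕ ℤ)) (l : ℕ → Ω), (∀ i, l i = 0 ∨ l i ∈ M) ∧
      P.map (MvPolynomial.eval₂Hom (Int.castRingHom Ω) l) ≠ 0 ∧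
      (P.map (MvPolynomial.eval₂Hom (Int.castRingHom Ω) l)).eval y = 0 := by
  classical
  obtain ⟨p, hp0, hpy⟩ := hy
  have hc : ∀ k, ∃ F : Finset Ω, (F : Set Ω) ⊆ M ∧
      ((p.coeff k : Algebra.adjoin ℤ M) : Ω) ∈ Algebra.adjoin ℤ (F : Set Ω) :=
    fun k => mem_adjoin_fin M _ (p.coeff k).2
  choose F hFM hF using hc
  set G : Finset Ω := p.support.biUnion F with hG
  obtain ⟨l, hl⟩ : ∃ l : ℕ → Ω, insert 0 (G : Set Ω) = Set.range l :=
    ((G.countable_toSet).insert 0).exists_eq_range (Set.insert_nonempty _ _)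
  have hlM : ∀ i, l i = 0 ∨ l i ∈ M := by
    intro i
    have : l i ∈ insert 0 (G : Set Ω) := by rw [hl]; exact ⟨i, rfl⟩
    rcases this with h | h
    · exact Or.inl h
    · right
      rw [Finset.mem_coe, hG, Finset.mem_biUnion] at h
      obtain ⟨k, -, hk⟩ := h
      exact hFM k hk
  have hlift : p.map (algebraMap (Algebra.adjoin ℤ M) Ω) ∈
      Polynomial.lifts (MvPolynomial.eval₂Hom (Int.castRingHom Ω) l) := by
    rw [Polynomial.lifts_iff_coeff_lifts]
    intro k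
    rw [Polynomial.coeff_map]
    by_cases hk : k ∈ p.support
    · have h1 : ((p.coeff k : Algebra.adjoin ℤ M) : Ω) ∈ Algebra.adjoin ℤ (Set.range l) := by
        refine Algebra.adjoin_mono ?_ (hF k)
        rw [← hl]
        intro z hz
        right
        rw [Finset.mem_coe, hG, Finset.mem_biUnion]
        exact ⟨k, hk, hz⟩
      rw [Algebra.adjoin_range_eq_range_aeval] at h1
      obtain ⟨q, hq⟩ := h1
      exact ⟨q, hq⟩
    · rw [Polynomial.notMem_support_iff.mp hk, map_zero]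
      exact ⟨0, map_zero _⟩
  obtain ⟨P, hP⟩ := hlift
  refine ⟨P, l, hlM, ?_, ?_⟩
  · rw [← Polynomial.coe_mapRingHom, hP]
    intro h0
    apply hp0
    refine Polynomial.map_injective (algebraMap (Algebra.adjoin ℤ M) Ω)
      (FaithfulSMul.algebraMap_injective _ _) ?_
    rw [h0, Polynomial.map_zero]
  · rw [← Polynomial.coe_mapRingHom, hP, Polynomial.eval_map]
    exact hpy

/-- the compactness step -/
theorem main (U : Ultrafilter ℕ) (Ω : ℕ → Type u) [∀ j, Field (Ω j)] (Ω' : Type u) [Field Ω']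
    (π : (∀ j, Ω j) →+* Ω') (hs : Function.Surjective π)
    (hz : ∀ x, π x = 0 ↔ ∀ᶠ j in (U : Filter ℕ), x j = 0) (M : ∀ j, Set (Ω j)) (M' : Set Ω')
    (hM : ∀ l : ∀ j, Ω j, π l ∈ M' → ∀ᶠ j in (U : Filter ℕ), l j ∈ M j) (c : ∀ j, Ω j)
    (hc : IsAlgebraic (Algebra.adjoin ℤ M') (π c)) :
    ∃ P : Polynomial (MvPolynomial ℕ ℤ), ∀ᶠ j in (U : Filter ℕ), ∃ l : ℕ → Ω j,
      (∀ i, l i = 0 ∨ l i ∈ M j) ∧
      P.map (MvPolynomial.eval₂Hom (Int.castRingHom (Ω j)) l) ≠ 0 ∧
      (P.map (MvPolynomial.eval₂Hom (Int.castRingHom (Ω j)) l)).eval (c j) = 0 := by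
  classical
  obtain ⟨P, l', hl', hP0, hPc⟩ := exists_poly M' (π c) hc
  choose l hl using fun i => hs (l' i)
  set l2 : ℕ → ∀ j, Ω j := fun i j => if l i j ∈ M j then l i j else 0 with hl2
  have h2 : ∀ i, π (l2 i) = l' i := by
    intro i
    rw [← hl i, ← sub_eq_zero, ← map_sub, hz]
    rcases hl' i with h | h
    · rw [← hl i, hz] at h
      filter_upwards [h] with j hj
      simp [hl2, hj]
    · rw [← hl i] at h
      filter_upwards [hM _ h] with j hj
      simp [hl2, hj]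
  set Q : Polynomial (∀ j, Ω j) :=
    P.map (MvPolynomial.eval₂Hom (Int.castRingHom (∀ j, Ω j)) l2) with hQ
  have hcomp : π.comp (MvPolynomial.eval₂Hom (Int.castRingHom (∀ j, Ω j)) l2) =
      MvPolynomial.eval₂Hom (Int.castRingHom Ω') l' := by
    apply MvPolynomial.ringHom_ext
    · intro r; simp
    · intro i; simp [h2]
  have hcomp2 : ∀ j, (Pi.evalRingHom Ω j).comp
      (MvPolynomial.eval₂Hom (Int.castRingHom (∀ j, Ω j)) l2) =
      MvPolynomial.eval₂Hom (Int.castRingHom (Ω j)) (fun i => l2 i j) := by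
    intro j
    apply MvPolynomial.ringHom_ext
    · intro r; simp
    · intro i; simp
  have hQπ : Q.map π = P.map (MvPolynomial.eval₂Hom (Int.castRingHom Ω') l') := by
    rw [hQ, Polynomial.map_map, hcomp]
  have hQj : ∀ j, Q.map (Pi.evalRingHom Ω j) =
      P.map (MvPolynomial.eval₂Hom (Int.castRingHom (Ω j)) (fun i => l2 i j)) := by
    intro j
    rw [hQ, Polynomial.map_map, hcomp2]
  rw [← hQπ] at hP0 hPc
  have hE : ∀ᶠ j in (U : Filter ℕ), (Q.eval c) j = 0 := by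
    rw [← hz, ← Polynomial.eval₂_hom, ← Polynomial.eval_map]
    exact hPc
  obtain ⟨k, hk⟩ : ∃ k, (Q.map π).coeff k ≠ 0 := by
    by_contra h
    push Not at h
    exact hP0 (Polynomial.ext (by simpa using h))
  rw [Polynomial.coeff_map, Ne, hz, ← Ultrafilter.eventually_not] at hk
  refine ⟨P, ?_⟩
  filter_upwards [hE, hk] with j hj hkj
  refine ⟨fun i => l2 i j, ?_, ?_, ?_⟩
  · intro i
    by_cases h : l i j ∈ M j
    · right; simp [hl2, h]
    · left; simp [hl2, h]
  · rw [← hQj]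
    intro h0
    apply hkj
    have := congrArg (fun f => Polynomial.coeff f k) h0
    simpa using this
  · rw [← hQj, Polynomial.eval_map]
    have : c j = Pi.evalRingHom Ω j c := rfl
    rw [this, Polynomial.eval₂_hom]
    exact hj

theorem up_coeff {Ω : ℕ → Type u} [∀ j, Field (Ω j)] {Ω' : Type u} [Field Ω']
    (π : (∀ j, Ω j) →+* Ω') (d : ℕ) (f : ∀ j, (Ω j)[X]) (i : ℕ) (hi : i ≤ d) :
    (up π d f).coeff i = π fun j => (f j).coeff i := by
  rw [up, Polynomial.finsetSum_coeff]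
  simp only [Polynomial.coeff_C_mul_X_pow]
  rw [Finset.sum_ite_eq (Finset.range (d + 1)) i]
  simp [Nat.lt_succ_of_le hi]

/-- The equation satisfied by a coefficient. -/
def Good {Ω : Type u} [Field Ω] (M : Set Ω) (x : Ω) (P : Polynomial (MvPolynomial ℕ ℤ)) : Prop :=
  ∃ l : ℕ → Ω, (∀ i, l i = 0 ∨ l i ∈ M) ∧
    P.map (MvPolynomial.eval₂Hom (Int.castRingHom Ω) l) ≠ 0 ∧
    (P.map (MvPolynomial.eval₂Hom (Int.castRingHom Ω) l)).eval x = 0

theorem good_zero {Ω : Type u} [Field Ω] (M : Set Ω) : Good M 0 X :=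
  ⟨fun _ => 0, fun _ => Or.inl rfl, by simp, by simp⟩

theorem key (hALG : S_ALG.{u}) (hULT : S_ULT.{u}) (hLSM : S_LSM.{u}) (hLSF : S_LSF.{u})
    (U : Ultrafilter ℕ) (d n B : ℕ) (hd : 2 ≤ d) (hn : 1 ≤ n) (Ω : ℕ → Type u)
    [∀ j, Field (Ω j)] [∀ j, CharZero (Ω j)] [∀ j, IsAlgClosed (Ω j)]
    (p q : ∀ j, Polynomial (Ω j)) (hNF : ∀ j, NF d n (p j) (q j))
    (hFew : ∀ j, Few (p j) (q j) d B) (i : ℕ) (hi : i ≤ d) :
    (∃ P, ∀ᶠ j in (U : Filter ℕ), Good (Ms (p j) (q j) d B) ((p j).coeff i) P) ∧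
    (∃ P, ∀ᶠ j in (U : Filter ℕ), Good (Ms (p j) (q j) d B) ((q j).coeff i) P) := by
  obtain ⟨Ω', i1, i2, i3, π, hs, hz⟩ := hULT U Ω
  have hdeg : ∀ j, (p j).natDegree ≤ d ∧ (q j).natDegree ≤ d := by
    intro j
    have := (hNF j).1.2
    constructor
    · rw [← this]; exact le_max_left _ _
    · rw [← this]; exact le_max_right _ _
  obtain ⟨hNF', hFew'⟩ := hLSF U Ω Ω' π hs hz d n B (by omega) p q fun j => ⟨hNF j, hFew j⟩
  have hA := hALG Ω' d n B hd hn _ _ hNF' hFew' i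
  rw [up_coeff π d p i hi, up_coeff π d q i hi] at hA
  have hM : ∀ l : ∀ j, Ω j, π l ∈ Ms (up π d p) (up π d q) d B →
      ∀ᶠ j in (U : Filter ℕ), l j ∈ Ms (p j) (q j) d B := by
    rintro l ⟨m, hm1, hmB, hm⟩
    have := (hLSM U Ω Ω' π hs hz d m (by omega) p q hdeg l).mp hm
    filter_upwards [this] with j hj
    exact ⟨m, hm1, hmB, hj⟩
  exact ⟨main U Ω Ω' π hs hz _ _ hM _ hA.1, main U Ω Ω' π hs hz _ _ hM _ hA.2⟩

theorem countable_T : Countable (Polynomial (MvPolynomial ℕ ℤ)) := by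
  have h1 : Cardinal.mk (MvPolynomial ℕ ℤ) ≤ Cardinal.aleph0 := by
    refine MvPolynomial.cardinalMk_le_max.trans ?_
    simp
  rw [← Cardinal.mk_le_aleph0_iff]
  refine Polynomial.cardinalMk_le_max.trans ?_
  exact max_le h1 le_rfl

theorem t_UNI (hALG : S_ALG.{u}) (hULT : S_ULT.{u}) (hLSM : S_LSM.{u}) (hLSF : S_LSF.{u}) :
    S_UNI.{u} := by
  classical
  intro d n B hd hn
  by_contra hcon
  have := countable_T
  obtain ⟨P, hP⟩ := exists_surjective_nat (Polynomial (MvPolynomial ℕ ℤ))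
  have H : ∀ j : ℕ, ∃ (Ω : Type u) (_ : Field Ω) (_ : CharZero Ω) (_ : IsAlgClosed Ω)
      (p q : Polynomial Ω), NF d n p q ∧ Few p q d B ∧ ∃ x : Ω,
      (∃ i, x = p.coeff i ∨ x = q.coeff i) ∧
      (∀ P' ∈ insert X ((Finset.range (j + 1)).image P), ¬ Good (Ms p q d B) x P') := by
    intro j
    by_contra h
    apply hcon
    refine ⟨insert X ((Finset.range (j + 1)).image P), ?_⟩
    intro Ω _ _ _ p q hNF hFew x hx
    by_contra h2
    apply h
    refine ⟨Ω, ‹_›, ‹_›, ‹_›, p, q, hNF, hFew, x, hx, ?_⟩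
    intro P' hP' hg
    exact h2 ⟨P', hP', hg⟩
  choose Ω i1 i2 i3 p q hNF hFew x hx hbad using H
  have hdeg : ∀ j, (p j).natDegree ≤ d ∧ (q j).natDegree ≤ d := by
    intro j
    have := (hNF j).1.2
    constructor
    · rw [← this]; exact le_max_left _ _
    · rw [← this]; exact le_max_right _ _
  have hx0 : ∀ j, x j ≠ 0 := by
    intro j h0
    apply hbad j X (Finset.mem_insert_self _ _)
    rw [h0]
    exact good_zero _
  have hx2 : ∀ j, ∃ i ∈ Finset.range (d + 1), x j = (p j).coeff i ∨ x j = (q j).coeff i := by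
    intro j
    obtain ⟨i, hi⟩ := hx j
    refine ⟨i, ?_, hi⟩
    rw [Finset.mem_range]
    by_contra hlt
    push Not at hlt
    rcases hi with h | h
    · exact hx0 j (h.trans (Polynomial.coeff_eq_zero_of_natDegree_lt (by
        have := (hdeg j).1; omega)))
    · exact hx0 j (h.trans (Polynomial.coeff_eq_zero_of_natDegree_lt (by
        have := (hdeg j).2; omega)))
  set U : Ultrafilter ℕ := Filter.hyperfilter ℕ with hU
  have hev : ∀ᶠ j in (U : Filter ℕ), ∃ i ∈ Finset.range (d + 1),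
      x j = (p j).coeff i ∨ x j = (q j).coeff i := Filter.Eventually.of_forall hx2
  have hev2 : ∃ i ∈ Finset.range (d + 1), ∀ᶠ j in (U : Filter ℕ),
      (x j = (p j).coeff i ∨ x j = (q j).coeff i) := by
    have : (⋃ i ∈ ((Finset.range (d + 1) : Finset ℕ) : Set ℕ),
        {j | x j = (p j).coeff i ∨ x j = (q j).coeff i}) ∈ U := by
      filter_upwards [hev] with j hj
      simpa using hj
    rw [Ultrafilter.finite_biUnion_mem_iff (Finset.finite_toSet _)] at this
    obtain ⟨i, hi, h⟩ := this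
    exact ⟨i, hi, h⟩
  obtain ⟨i, hi, hxi⟩ := hev2
  have hid : i ≤ d := by
    have := Finset.mem_range.mp hi
    omega
  have hfin : ∃ P', ∀ᶠ j in (U : Filter ℕ), Good (Ms (p j) (q j) d B) (x j) P' := by
    obtain ⟨⟨P1, hP1⟩, ⟨P2, hP2⟩⟩ :=
      key hALG hULT hLSM hLSF U d n B hd hn Ω p q hNF hFew i hid
    rcases Ultrafilter.eventually_or.mp hxi with h | h
    · refine ⟨P1, ?_⟩
      filter_upwards [hP1, h] with j h1 h2
      rw [h2]; exact h1
    · refine ⟨P2, ?_⟩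
      filter_upwards [hP2, h] with j h1 h2
      rw [h2]; exact h1
  obtain ⟨P', hP'⟩ := hfin
  obtain ⟨j0, rfl⟩ := hP P'
  have hge : ∀ᶠ j in (U : Filter ℕ), j0 ≤ j := by
    have h1 : ∀ᶠ j in (cofinite : Filter ℕ), j0 ≤ j := by
      rw [Nat.cofinite_eq_atTop]
      exact eventually_ge_atTop j0
    exact Filter.hyperfilter_le_cofinite h1
  obtain ⟨j, hj1, hj2⟩ := (hP'.and hge).exists
  exact hbad j (P j0) (Finset.mem_insert_of_mem (Finset.mem_image_of_mem P
    (Finset.mem_range.mpr (by omega)))) hj1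

end Pool.Agent.N820.SU.Uni
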