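import Pool.Agent.N820.SU.Alg
import Pool.Agent.N820.SU.Aut0
import Pool.Agent.N820.SU.Cnj
import Pool.Agent.N820.SU.Cnp0
import Pool.Agent.N820.SU.Cnt
import Pool.Agent.N820.SU.Fib
import Pool.Agent.N820.SU.Fix
import Pool.Agent.N820.SU.Fnf
import Pool.Agent.N820.SU.Glb
import Pool.Agent.N820.SU.Hf
import Pool.Agent.N820.SU.Hgt
import Pool.Agent.N820.SU.Hq0
import Pool.Agent.N820.SU.Iso
import Pool.Agent.N820.SU.Lcp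
import Pool.Agent.N820.SU.Loc
import Pool.Agent.N820.SU.Lsf
import Pool.Agent.N820.SU.Lsm
import Pool.Agent.N820.SU.Mob
import Pool.Agent.N820.SU.Nfe
import Pool.Agent.N820.SU.Pcf
import Pool.Agent.N820.SU.Roo
import Pool.Agent.N820.SU.Ult
import Pool.Agent.N820.SU.Uni
import Pool.Agent.N820.SU.Subp

/-!
# Project SU: assembly
-/

set_option autoImplicit false

namespace Pool.Agent.N820.SU.All

open Polynomial Pool.Agent.W277.UB Pool.Agent.N820.SU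

universe u v w

theorem fex : S_FEX.{u} := Pcf.t_FEX Mob.t_MAP Cnp0.t_CNP

theorem fib : S_FIB.{u} := Fib.t_FIB

theorem civ : S_CIV.{u} := Mob.t_CIV Mob.t_MOB

theorem unq : S_UNQ.{u} := Cnp0.t_UNQ

theorem fms : S_FMS.{u} := Fib.t_FMS Mob.t_MOB Cnp0.t_ITR Fib.t_FIB Fib.t_MIV

theorem fnf : S_FNF.{u} := Fnf.t_FNF Mob.t_MOB Cnp0.t_ITR Fib.t_FIB unq

theorem alg : S_ALG.{u} := Alg.t_ALG Mob.t_MAP Aut0.t_AUT fnf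

theorem iso : S_ISO.{u, v} := Iso.t_ISO Mob.t_MOB Cnp0.t_CNP Cnj.t_CNJ Fib.t_FIB
  (Fix.t_FIX Mob.t_MOB Cnj.t_CNJ Fib.t_FIB) civ alg

theorem uni : S_UNI.{u} := Uni.t_UNI alg Ult.t_ULT Lsm.t_LSM Lsf.t_LSF

theorem nfe : S_NFE.{u} := Nfe.t_NFE Mob.t_MAP Mob.t_MOB Cnj.t_CNJ Cnp0.t_ITR Fib.t_FIB Fib.t_MIV
  fex

theorem hf : S_HF.{u, v, w} := Hf.t_HF Hq0.t_HQ

theorem lcp : S_LCP.{u, v, w} := Lcp.t_LCP Mob.t_MAP (Loc.t_LOC Cnt.t_CNT)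

theorem glb : S_GLB.{u, v, w} := Glb.t_GLB Hq0.t_HQ hf lcp

theorem key : S_KEY.{u, v} := Key.t_KEY Mob.t_MAP Cnp0.t_ITR fms civ fex iso uni nfe Hq0.t_HQ
  (Roo.t_ROO Hq0.t_HQ) (Roo.t_ITH Hq0.t_HQ) Hgt.t_HGT Pool.Agent.Y555.CH.t_HTE

theorem subp : Subp.S_SUBP.{u, v} := Subp.t_SUBP Mob.t_MAP Cnp0.t_ITR
  (Fin.t_LCH Mob.t_MAP Cnp0.t_CNP Cnp0.t_ITR Hq0.t_HQ Pool.Agent.Y555.CH.t_HTE
    Pool.Agent.Y555.CH.t_DEG Hgt.t_HGT glb key)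

end Pool.Agent.N820.SU.All
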