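import Mathlib
import Pool.Agent.W277.UB.Pl

/-!
# Project SU: strong uniform boundedness in characteristic zero. Definitions
-/

namespace Pool.Agent.N820.SU

open Polynomial

universe u v w

/-- The self-map of the projective line `K ∪ {∞}`, where `none` is `∞`, given by the rational
function `p / q`, where `p` and `q` are coprime and `d` is the larger of their degrees. -/
noncomputable def mapP1 {K : Type*} [Field K] (p q : K[X]) (d : ℕ) : Option K → Option K
  | some x => by classical exact if q.eval x = 0 then none else some (p.eval x / q.eval x)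
  | none => by classical exact if q.coeff d = 0 then none else some (p.coeff d / q.coeff d)

/-- The map `x ↦ (a x + b) / (c x + e)` of the projective line. -/
noncomputable def mob {K : Type*} [Field K] (a b c e : K) : Option K → Option K
  | some x => by classical exact if c * x + e = 0 then none else some ((a * x + b) / (c * x + e))
  | none => by classical exact if c = 0 then none else some (a / c)

/-- `p / q` is a rational map of degree `d`, in lowest terms -/
def IsRat {K : Type*} [Field K] (d : ℕ) (p q : K[X]) : Prop :=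
  IsCoprime p q ∧ max p.natDegree q.natDegree = d

/-- `l` is the multiplier of the `n`-th iterate of `p / q` at one of its fixed points: in some
coordinate the iterate is `P / Q` with `P(0) = 0` and `l = P'(0) / Q(0)` -/
def IsMult {K : Type*} [Field K] (p q : K[X]) (d n : ℕ) (l : K) : Prop :=
  ∃ a b c e : K, a * e - b * c ≠ 0 ∧ ∃ P Q : K[X], IsCoprime P Q ∧
    max P.natDegree Q.natDegree = d ^ n ∧ P.coeff 0 = 0 ∧ l = P.coeff 1 / Q.coeff 0 ∧
    ∀ z, mapP1 P Q (d ^ n) (mob a b c e z) = mob a b c e ((mapP1 p q d)^[n] z)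

/-- `p / q` and `u / w` are conjugate -/
def ConjP1 {K : Type*} [Field K] (p q u w : K[X]) (d : ℕ) : Prop :=
  ∃ a b c e : K, a * e - b * c ≠ 0 ∧
    ∀ z, mapP1 u w d (mob a b c e z) = mob a b c e (mapP1 p q d z)

/-- `u / w` has the multipliers of `p / q`, for all iterates of order at most `B` -/
def SameMult {K : Type*} [Field K] (p q u w : K[X]) (d B : ℕ) : Prop :=
  ∀ n, 1 ≤ n → n ≤ B → ∀ l, IsMult u w d n l ↔ IsMult p q d n l

/-- Among any `B + 1` maps of degree `d` which have the multipliers of `p / q`, for all iterates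
of order at most `B`, two are conjugate. -/
def Few {K : Type*} [Field K] (p q : K[X]) (d B : ℕ) : Prop :=
  ∀ u w : Fin (B + 1) → K[X], (∀ i, IsRat d (u i) (w i) ∧ SameMult p q (u i) (w i) d B) →
    ∃ i j, i ≠ j ∧ ConjP1 (u i) (w i) (u j) (w j) d

/-- `u / w` is a normal form of type `n`: its `n`-th iterate maps `∞` and `0` to `0` and `1` to
`∞`, and some coefficient is `1` -/
def NF {K : Type*} [Field K] (d n : ℕ) (u w : K[X]) : Prop :=
  IsRat d u w ∧ (mapP1 u w d)^[n] (some 0) = some 0 ∧ (mapP1 u w d)^[n] none = some 0 ∧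
    (mapP1 u w d)^[n] (some 1) = none ∧ ((∃ i, u.coeff i = 1) ∨ ∃ i, w.coeff i = 1)

/-- the multipliers of the iterates of order at most `B` -/
def Ms {K : Type*} [Field K] (p q : K[X]) (d B : ℕ) : Set K :=
  {l | ∃ m, 1 ≤ m ∧ m ≤ B ∧ IsMult p q d m l}

/-- the homogeneous substitution -/
noncomputable def hm {K : Type*} [Field K] (d : ℕ) (p A B : K[X]) : K[X] :=
  ∑ i ∈ Finset.range (d + 1), C (p.coeff i) * A ^ i * B ^ (d - i)

/-- the iterates, as pairs of polynomials -/
noncomputable def itP {K : Type*} [Field K] (d : ℕ) (p q : K[X]) : ℕ → K[X] × K[X]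
  | 0 => (X, 1)
  | n + 1 => (hm d p (itP d p q n).1 (itP d p q n).2, hm d q (itP d p q n).1 (itP d p q n).2)

/-- conjugation, as an identity of polynomials -/
def PolyConj {K : Type*} [Field K] (p q u w : K[X]) (d : ℕ) (a b c e : K) : Prop :=
  ∃ s : K, s ≠ 0 ∧ hm d u (C a * X + C b) (C c * X + C e) = C s * (C a * p + C b * q) ∧
    hm d w (C a * X + C b) (C c * X + C e) = C s * (C c * p + C e * q)

/-- The map `p / q` of degree `d` is conjugate over `F` to a map with coefficients algebraic over
`k` (the definition of the starting file `RationalMapsAllChar`). -/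
def ConjAlg (k : Type*) {F : Type*} [Field k] [Field F] [Algebra k F] (p q : F[X])
    (d : ℕ) : Prop :=
  ∃ a b c e : F, a * e - b * c ≠ 0 ∧ ∃ u w : F[X], (u ≠ 0 ∨ w ≠ 0) ∧
    u.natDegree ≤ d ∧ w.natDegree ≤ d ∧ (∀ n, IsAlgebraic k (u.coeff n)) ∧
    (∀ n, IsAlgebraic k (w.coeff n)) ∧
    (C a * p + C b * q) * ∑ i ∈ Finset.range (d + 1),
      C (w.coeff i) * (C a * X + C b) ^ i * (C c * X + C e) ^ (d - i) =
    (C c * p + C e * q) * ∑ i ∈ Finset.range (d + 1),
      C (u.coeff i) * (C a * X + C b) ^ i * (C c * X + C e) ^ (d - i)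

/-- the number of roots in a set, with multiplicities -/
noncomputable def nr {K : Type*} [Field K] (f : K[X]) (A : Set K) : ℕ := by
  classical exact (f.roots.filter (· ∈ A)).card

/-- the Wronskian -/
noncomputable def Wr {K : Type*} [Field K] (p q : K[X]) : K[X] :=
  derivative p * q - p * derivative q

/-- the height given by the places -/
noncomputable def hq {k K : Type*} [Field k] [Field K] [Algebra k K]
    (Q : Pool.Agent.W277.UB.PlaceData.{w} k K) (x : K) : ℤ := ∑ᶠ v, Q.wt v * Q.pole v x

/-- the polynomial over the ultraproduct -/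
noncomputable def up {Ω : ℕ → Type u} [∀ j, Field (Ω j)] {Ω' : Type u} [Field Ω']
    (π : (∀ j, Ω j) →+* Ω') (d : ℕ) (f : ∀ j, (Ω j)[X]) : Ω'[X] :=
  ∑ i ∈ Finset.range (d + 1), C (π fun j => (f j).coeff i) * X ^ i

end Pool.Agent.N820.SU
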