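import Pool.Agent.N820.SU.Stm2
import Pool.Agent.Y555.CH.Ext

/-!
# Project SU: a conjugate of an iterate with a multiplier of large height
-/

set_option autoImplicit false

namespace Pool.Agent.N820.SU.Key

open Polynomial Pool.Agent.W277.UB Pool.Agent.N820.SU

universe u v w

lemma iter_map {K K' : Type u} [Field K] [Field K'] (hMAP : S_MAP.{u}) (φ : K →+* K') (d : ℕ)
    (p q : K[X]) (n : ℕ) (z : Option K) :
    (mapP1 (p.map φ) (q.map φ) d)^[n] (z.map φ) = ((mapP1 p q d)^[n] z).map φ := by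
  induction n with
  | zero => rfl
  | succ n ih =>
    rw [Function.iterate_succ_apply', Function.iterate_succ_apply', ih,
      (hMAP K K' φ d).1 p q]

lemma iter_conj {K : Type u} [Field K] (d : ℕ) (p q u w : K[X]) (a b c e : K)
    (h : ∀ z, mapP1 u w d (mob a b c e z) = mob a b c e (mapP1 p q d z)) (n : ℕ) (z : Option K) :
    (mapP1 u w d)^[n] (mob a b c e z) = mob a b c e ((mapP1 p q d)^[n] z) := by
  induction n with
  | zero => rfl
  | succ n ih =>
    rw [Function.iterate_succ_apply', Function.iterate_succ_apply', ih, h]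

lemma mapP1_some {K : Type u} [Field K] (p q : K[X]) (d : ℕ) (x : K) (h : q.eval x ≠ 0) :
    mapP1 p q d (some x) = some (p.eval x / q.eval x) := by
  unfold mapP1
  exact if_neg h

lemma mapP1_some' {K : Type u} [Field K] (p q : K[X]) (d : ℕ) (x : K) (h : q.eval x = 0) :
    mapP1 p q d (some x) = none := by
  unfold mapP1
  exact if_pos h

lemma mapP1_none {K : Type u} [Field K] (p q : K[X]) (d : ℕ) (h : q.coeff d ≠ 0) :
    mapP1 p q d none = some (p.coeff d / q.coeff d) := by
  unfold mapP1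
  exact if_neg h

lemma mapP1_none' {K : Type u} [Field K] (p q : K[X]) (d : ℕ) (h : q.coeff d = 0) :
    mapP1 p q d none = none := by
  unfold mapP1
  exact if_pos h

/-- scaling does not change the map -/
lemma mapP1_smul {K : Type u} [Field K] (d : ℕ) (p q : K[X]) (s : K) (hs : s ≠ 0)
    (z : Option K) : mapP1 (C s * p) (C s * q) d z = mapP1 p q d z := by
  cases z with
  | none =>
    by_cases h : q.coeff d = 0
    · rw [mapP1_none' p q d h, mapP1_none' _ _ d (by rw [coeff_C_mul, h, mul_zero])]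
    · rw [mapP1_none p q d h, mapP1_none _ _ d (by rw [coeff_C_mul]; exact mul_ne_zero hs h),
        coeff_C_mul, coeff_C_mul, mul_div_mul_left _ _ hs]
  | some x =>
    by_cases h : q.eval x = 0
    · rw [mapP1_some' p q d x h, mapP1_some' _ _ d x (by rw [eval_mul, h, mul_zero])]
    · rw [mapP1_some p q d x h, mapP1_some _ _ d x
        (by rw [eval_mul, eval_C]; exact mul_ne_zero hs h), eval_mul, eval_C, eval_mul, eval_C,
        mul_div_mul_left _ _ hs]

lemma isRat_smul {K : Type u} [Field K] (d : ℕ) (p q : K[X]) (s : K) (hs : s ≠ 0)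
    (h : IsRat d p q) : IsRat d (C s * p) (C s * q) := by
  obtain ⟨h1, h2⟩ := h
  refine ⟨?_, ?_⟩
  · have hu : IsUnit (C s : K[X]) := isUnit_C.mpr (isUnit_iff_ne_zero.mpr hs)
    exact (isCoprime_mul_unit_left hu p q).mpr h1
  · rw [natDegree_C_mul hs, natDegree_C_mul hs]
    exact h2

lemma some_map_eq {K K' : Type u} (f : K → K') (hf : Function.Injective f) (z y : Option K)
    (h : z.map f = y.map f) : z = y := Option.map_injective hf h

/-- elements of height zero are algebraic -/
lemma alg_of_hq {k E : Type u} [Field k] [CharZero k] [Field E] [Algebra k E]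
    (Q : PlaceData.{w} k E) (hHQ : S_HQ.{u, u, w}) (x : E) (h : hq Q x = 0) : IsAlgebraic k x := by
  classical
  by_cases hx : x = 0
  · rw [hx]
    exact isAlgebraic_zero
  obtain ⟨h0, hfin, hsum, -⟩ := hHQ k E Q
  have h1 : ∀ v, 0 ≤ Q.ord v x := by
    intro v
    by_contra hv
    push Not at hv
    have h2 : 1 ≤ Q.pole v x := by
      rw [PlaceData.pole_of_ne hx]
      apply le_max_of_le_right
      omega
    have h3 : 1 ≤ Q.wt v * Q.pole v x := by nlinarith [Q.wt_one v]
    have h4 : hq Q x = ∑ v ∈ (hfin x).toFinset ∪ {v}, Q.wt v * Q.pole v x := by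
      apply hsum
      intro v' hv'
      rw [Finset.mem_union, not_or, Set.Finite.mem_toFinset] at hv'
      have h5 := hv'.1
      simp only [Set.mem_setOf_eq, not_not] at h5
      rcases mul_eq_zero.mp h5 with h6 | h6
      · have := Q.wt_one v'
        omega
      · exact h6
    have h5 : Q.wt v * Q.pole v x ≤ ∑ v ∈ (hfin x).toFinset ∪ {v}, Q.wt v * Q.pole v x :=
      Finset.single_le_sum (f := fun v => Q.wt v * Q.pole v x)
        (fun v _ => mul_nonneg (Q.wt_nonneg v) (PlaceData.pole_nonneg v x))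
        (Finset.mem_union_right _ (Finset.mem_singleton_self v))
    omega
  obtain ⟨c, hc⟩ := Q.const x hx h1
  rw [← hc]
  exact isAlgebraic_algebraMap c

theorem t_KEY (hMAP : S_MAP.{u}) (hITR : S_ITR.{u}) (hFMS : S_FMS.{u}) (hCIV : S_CIV.{u})
    (hFEX : S_FEX.{u}) (hISO : S_ISO.{u, v}) (hUNI : S_UNI.{u}) (hNFE : S_NFE.{u})
    (hHQ : S_HQ.{u, u, u}) (hROO : S_ROO.{u, u, u}) (hITH : S_ITH.{u, u, u})
    (hHGT : S_HGT.{u, v}) (hHTE : Pool.Agent.Y706.CH.S_HTE.{u, v, u}) : S_KEY.{u, v} := by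
  classical
  intro n d B hd
  obtain ⟨r, hr⟩ := hNFE d B hd
  obtain ⟨Ch, hCh⟩ := hHGT
  have hU : ∀ m : ℕ, ∃ S : Finset (Polynomial (MvPolynomial ℕ ℤ)), 1 ≤ m →
      ∀ (Ω : Type u) [Field Ω] [CharZero Ω] [IsAlgClosed Ω] (u w : Polynomial Ω), NF d m u w →
      Few u w d B → ∀ x : Ω, (∃ i, x = u.coeff i ∨ x = w.coeff i) → ∃ P ∈ S, ∃ l : ℕ → Ω,
      (∀ i, l i = 0 ∨ l i ∈ Ms u w d B) ∧
      P.map (MvPolynomial.eval₂Hom (Int.castRingHom Ω) l) ≠ 0 ∧
      (P.map (MvPolynomial.eval₂Hom (Int.castRingHom Ω) l)).eval x = 0 := by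
    intro m
    by_cases hm : 1 ≤ m
    · obtain ⟨S, hS⟩ := hUNI d m B hd hm
      exact ⟨S, fun _ => hS⟩
    · exact ⟨∅, fun h => absurd h hm⟩
  choose S hS using hU
  choose Cr hCr using hROO
  choose Ci hCi using fun m => hITH d m (by omega)
  set C1 : ℕ := (Finset.range (B + 1)).sup fun m => Ci m * (S m).sup Cr with hC1
  set CH : ℕ := (Finset.range (n * r + 1)).sup Ch with hCH
  refine ⟨r, CH * (2 * C1) * CH, ?_⟩
  intro k L _ _ _ _ t ht hfd hn p q hrat hiso hfew
  have cL : CharZero L := charZero_of_injective_algebraMap (algebraMap k L).injective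
  have cΩ : CharZero (AlgebraicClosure L) :=
    charZero_of_injective_algebraMap (algebraMap L (AlgebraicClosure L)).injective
  obtain ⟨E, hEfd, hEr, hE⟩ := hr L (AlgebraicClosure L) p q hrat
  refine ⟨E, hEfd, hEr, ?_⟩
  have cE : CharZero E := charZero_of_injective_algebraMap (algebraMap L E).injective
  set φ : E →+* AlgebraicClosure L := algebraMap E (AlgebraicClosure L) with hφ
  have hφi : Function.Injective φ := φ.injective
  have twk : IsScalarTower k E (AlgebraicClosure L) := IsScalarTower.of_algebraMap_eq fun x => rfl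
  -- heights
  have htE : Transcendental k (algebraMap L E t) := by
    intro h
    exact ht ((isAlgebraic_algebraMap_iff (algebraMap L E).injective).mp h)
  have hfrE := hHTE k L E t
  have hposL : 0 < Module.finrank (IntermediateField.adjoin k {t}) L := Module.finrank_pos
  have hfdE : FiniteDimensional (IntermediateField.adjoin k {algebraMap L E t}) E := by
    apply FiniteDimensional.of_finrank_pos
    rw [hfrE]
    exact Nat.mul_pos hposL Module.finrank_pos
  obtain ⟨Q, hQ⟩ := hCh k E (algebraMap L E t) htE hfdE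
  have hCHle : Ch (Module.finrank (IntermediateField.adjoin k {algebraMap L E t}) E) ≤ CH := by
    apply Finset.le_sup (f := Ch)
    rw [Finset.mem_range, hfrE]
    exact Nat.lt_succ_of_le (Nat.mul_le_mul hn hEr)
  obtain ⟨q0, qfin, qsum, qinv, -, qmul, -, qalg, -⟩ := hHQ (algebraicClosure k E) E Q
  have hQ1 : ∀ x : E, hq Q x ≤ CH * Module.finrank (IntermediateField.adjoin k {x}) E := by
    intro x
    refine (hQ x).1.trans ?_
    exact mul_le_mul_of_nonneg_right (by exact_mod_cast hCHle) (by positivity)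
  have hQ2 : ∀ x : E, (Module.finrank (IntermediateField.adjoin k {x}) E : ℤ) ≤ CH * hq Q x := by
    intro x
    refine (hQ x).2.trans ?_
    exact mul_le_mul_of_nonneg_right (by exact_mod_cast hCHle) (q0 x)
  have hqtr : ∀ x : E, Transcendental k (φ x) → 0 < hq Q x := by
    intro x hx
    rcases (q0 x).lt_or_eq with h | h
    · exact h
    · exfalso
      apply hx
      have h1 : IsAlgebraic (algebraicClosure k E) x := alg_of_hq Q hHQ x h.symm
      have h2 : IsAlgebraic k x := h1.restrictScalars k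
      exact h2.algebraMap
  -- the multipliers
  set p' := p.map (algebraMap L (AlgebraicClosure L)) with hp'
  set q' := q.map (algebraMap L (AlgebraicClosure L)) with hq'
  have hrat' : IsRat d p' q' :=
    (hMAP L (AlgebraicClosure L) (algebraMap L (AlgebraicClosure L)) d).2.2.1 p q hrat
  obtain ⟨l₁, hl₁M, hl₁⟩ : ∃ l ∈ Ms p' q' d B, ¬ IsAlgebraic k l := by
    by_contra hcon
    push Not at hcon
    exact hiso (hISO k (AlgebraicClosure L) d B hd p' q' hrat' hfew hcon)
  have hMfin : (φ ⁻¹' (Ms p' q' d B)).Finite :=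
    (hFMS (AlgebraicClosure L) d B hd p' q' hrat').preimage hφi.injOn
  have hMim : ∀ l ∈ Ms p' q' d B, ∃ l' : E, φ l' = l := by
    rintro l ⟨m, hm1, hmB, hIs⟩
    by_cases h0 : l = 0
    · exact ⟨0, by rw [h0, map_zero]⟩
    · obtain ⟨a, b, c, e, hdet, u, w, hr1, hcj, hnf, hl⟩ := hE m l hm1 hmB hIs h0
      exact ⟨_, hl⟩
  obtain ⟨l₁', hl₁'⟩ := hMim l₁ hl₁M
  obtain ⟨l₀, hl₀M, hl₀max⟩ := Set.exists_max_image _ (fun x => hq Q x) hMfin
    ⟨l₁', Set.mem_preimage.mpr (by rw [hl₁']; exact hl₁M)⟩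
  have hpos : 0 < hq Q l₀ := by
    have h1 : hq Q l₁' ≤ hq Q l₀ := hl₀max l₁' (Set.mem_preimage.mpr (by rw [hl₁']; exact hl₁M))
    have h2 := hqtr l₁' (by rw [hl₁']; exact hl₁)
    omega
  have hl₀ne : l₀ ≠ 0 := by
    rintro rfl
    have h1 := qalg 0
    rw [map_zero] at h1
    omega
  obtain ⟨m, hm1, hmB, hIs⟩ := hl₀M
  obtain ⟨a, b, c, e, hdet, u, w, hratE, hcj, hnf, hl⟩ := hE m (φ l₀) hm1 hmB hIs
    ((map_ne_zero φ).mpr hl₀ne)
  have hl' : (itP d u w m).1.coeff 1 / (itP d u w m).2.coeff 0 = l₀ := hφi hl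
  refine ⟨m, hm1, hmB, a, b, c, e, hdet, ?_⟩
  -- the multipliers of the normal form
  have hcjΩ : ConjP1 p' q' (u.map φ) (w.map φ) d := by
    refine ⟨φ a, φ b, φ c, φ e, ?_, ?_⟩
    · rw [← map_mul, ← map_mul, ← map_sub]
      exact (map_ne_zero φ).mpr hdet
    · have h1 := hFEX E (AlgebraicClosure L) φ d (by omega) (p.map (algebraMap L E))
        (q.map (algebraMap L E)) u w
        ((hMAP L E (algebraMap L E) d).2.2.1 p q hrat) hratE a b c e hdet hcj
      have h2 : ∀ f : L[X], (f.map (algebraMap L E)).map φ =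
          f.map (algebraMap L (AlgebraicClosure L)) := by
        intro f
        rw [Polynomial.map_map]
        rfl
      rw [h2, h2] at h1
      exact h1
  obtain ⟨hciv1, hciv2⟩ := hCIV (AlgebraicClosure L) d p' q' _ _ hcjΩ
  have hMs : Ms (u.map φ) (w.map φ) d B = Ms p' q' d B := by
    ext l
    constructor
    · rintro ⟨m, h1, h2, h3⟩
      exact ⟨m, h1, h2, (hciv1 m l).mp h3⟩
    · rintro ⟨m, h1, h2, h3⟩
      exact ⟨m, h1, h2, (hciv1 m l).mpr h3⟩
  set H : ℤ := hq Q l₀ with hH
  have hcoef : ∀ x : E, (∃ i, x = u.coeff i ∨ x = w.coeff i) →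
      hq Q x ≤ ((S m).sup Cr : ℕ) * H := by
    rintro x ⟨i, hx⟩
    obtain ⟨P, hPS, l, hl1, hl2, hl3⟩ := hS m hm1 (AlgebraicClosure L) (u.map φ) (w.map φ) hnf
      (hciv2 B hfew) (φ x) ⟨i, by
        rcases hx with h | h
        · exact Or.inl (by rw [h, coeff_map])
        · exact Or.inr (by rw [h, coeff_map])⟩
    have hl4 : ∀ i, ∃ y : E, φ y = l i ∧ hq Q y ≤ H := by
      intro i
      rcases hl1 i with h | h
      · refine ⟨0, by rw [h, map_zero], ?_⟩
        have h1 := qalg 0
        rw [map_zero] at h1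
        rw [h1]
        exact hpos.le
      · rw [hMs] at h
        obtain ⟨y, hy⟩ := hMim _ h
        refine ⟨y, hy, ?_⟩
        apply hl₀max
        apply Set.mem_preimage.mpr
        rw [hy]
        exact h
    choose l' hl'1 hl'2 using hl4
    have hmap : P.map (MvPolynomial.eval₂Hom (Int.castRingHom (AlgebraicClosure L)) l) =
        (P.map (MvPolynomial.eval₂Hom (Int.castRingHom E) l')).map φ := by
      rw [Polynomial.map_map]
      congr 1
      apply MvPolynomial.ringHom_ext
      · intro z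
        simp
      · intro i
        simp [hl'1]
    rw [hmap] at hl2 hl3
    have h5 := hCr P (algebraicClosure k E) E Q l' x H hl'2
      (fun h => hl2 (by rw [h, Polynomial.map_zero]))
      (by
        apply hφi
        rw [map_zero, ← eval₂_at_apply, ← eval_map]
        exact hl3)
    refine h5.trans ?_
    exact mul_le_mul_of_nonneg_right (by exact_mod_cast Finset.le_sup (f := Cr) hPS) hpos.le
  have hud : u.natDegree ≤ d := by rw [← hratE.2]; exact le_max_left _ _
  have hwd : w.natDegree ≤ d := by rw [← hratE.2]; exact le_max_right _ _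
  have hith := hCi m (algebraicClosure k E) E Q u w (((S m).sup Cr : ℕ) * H) hud hwd
    (fun i => ⟨hcoef _ ⟨i, Or.inl rfl⟩, hcoef _ ⟨i, Or.inr rfl⟩⟩)
  set P₁ := (itP d u w m).1 with hP₁
  set Q₁ := (itP d u w m).2 with hQ₁
  obtain ⟨hitr1, hitr2⟩ := hITR E d (by omega) u w hratE m
  -- the orbits
  have horb : ∀ z y : Option E, (mapP1 (u.map φ) (w.map φ) d)^[m] (z.map φ) = y.map φ →
      mapP1 P₁ Q₁ (d ^ m) z = y := by
    intro z y hzy
    rw [iter_map hMAP φ d u w m z] at hzy
    rw [hitr2 z]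
    exact Option.map_injective hφi hzy
  obtain ⟨-, hn1, hn2, hn3, -⟩ := hnf
  have ho0 : mapP1 P₁ Q₁ (d ^ m) (some 0) = some 0 := by
    apply horb
    rw [Option.map_some, map_zero]
    exact hn1
  have hoi : mapP1 P₁ Q₁ (d ^ m) none = some 0 := by
    apply horb
    rw [Option.map_some, map_zero, Option.map_none]
    exact hn2
  have ho1 : mapP1 P₁ Q₁ (d ^ m) (some 1) = none := by
    apply horb
    rw [Option.map_some, map_one, Option.map_none]
    exact hn3
  have hQ0 : Q₁.coeff 0 ≠ 0 := by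
    intro h
    rw [coeff_zero_eq_eval_zero] at h
    rw [mapP1_some' _ _ _ _ h] at ho0
    simp at ho0
  have hP0 : P₁.coeff 0 = 0 := by
    rw [coeff_zero_eq_eval_zero] at hQ0 ⊢
    rw [mapP1_some _ _ _ _ hQ0] at ho0
    have h1 := Option.some.inj ho0
    rcases div_eq_zero_iff.mp h1 with h2 | h2
    · exact h2
    · exact absurd h2 hQ0
  have hQd : Q₁.coeff (d ^ m) ≠ 0 := by
    intro h
    rw [mapP1_none' _ _ _ h] at hoi
    simp at hoi
  have hPd : P₁.coeff (d ^ m) = 0 := by
    rw [mapP1_none _ _ _ hQd] at hoi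
    have h1 := Option.some.inj hoi
    rcases div_eq_zero_iff.mp h1 with h2 | h2
    · exact h2
    · exact absurd h2 hQd
  have hQ1e : Q₁.eval 1 = 0 := by
    by_contra h
    rw [mapP1_some _ _ _ _ h] at ho1
    simp at ho1
  have hPle : P₁.natDegree ≤ d ^ m := by rw [← hitr1.2]; exact le_max_left _ _
  have hQle : Q₁.natDegree ≤ d ^ m := by rw [← hitr1.2]; exact le_max_right _ _
  have hQdeg : Q₁.natDegree = d ^ m := le_antisymm hQle (le_natDegree_of_ne_zero hQd)
  have hdm : 0 < d ^ m := Nat.pow_pos (by omega)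
  have hPdeg : P₁.natDegree < d ^ m := by
    rcases hPle.lt_or_eq with h | h
    · exact h
    · exfalso
      have h1 : P₁.leadingCoeff = 0 := by
        unfold leadingCoeff
        rw [h]
        exact hPd
      rw [leadingCoeff_eq_zero] at h1
      rw [h1, natDegree_zero] at h
      omega
  set s : E := (Q₁.coeff 0)⁻¹ with hs
  have hs0 : s ≠ 0 := inv_ne_zero hQ0
  have hl0' : s * P₁.coeff 1 = l₀ := by
    rw [← hl', hs, div_eq_mul_inv, mul_comm]
  refine ⟨C s * P₁, C s * Q₁, isRat_smul _ _ _ s hs0 hitr1, ?_, ?_, ?_, ?_, ?_, ?_, ?_⟩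
  · rw [coeff_C_mul, hP0, mul_zero]
  · rw [coeff_C_mul, hs, inv_mul_cancel₀ hQ0]
  · rw [natDegree_C_mul hs0, natDegree_C_mul hs0, hQdeg]
    exact hPdeg
  · rw [eval_mul, hQ1e, mul_zero]
  · intro z
    rw [mapP1_smul _ _ _ s hs0, hitr2]
    exact iter_conj d _ _ u w a b c e hcj m z
  · rw [coeff_C_mul, hl0']
    have h1 := hQ1 l₀
    by_contra h2
    have h3 : Module.finrank (IntermediateField.adjoin k {l₀}) E = 0 := by omega
    rw [h3] at h1
    simp only [Nat.cast_zero, mul_zero] at h1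
    omega
  · have hfin : ∀ x : E, hq Q x ≤ (Ci m : ℕ) * (((S m).sup Cr : ℕ) * H) →
        Module.finrank (IntermediateField.adjoin k {s * x}) E ≤
          CH * (2 * C1) * CH * Module.finrank (IntermediateField.adjoin k {l₀}) E := by
      intro x hx
      have h1 : hq Q s ≤ (Ci m : ℕ) * (((S m).sup Cr : ℕ) * H) := by
        rw [hs, qinv _ hQ0]
        exact (hith 0).2
      have h2 : hq Q (s * x) ≤ 2 * ((Ci m : ℕ) * (((S m).sup Cr : ℕ) * H)) := by
        have := qmul s x
        linarith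
      have h3 : ((Ci m : ℕ) : ℤ) * (((S m).sup Cr : ℕ) * H) ≤ C1 * H := by
        rw [← mul_assoc]
        refine mul_le_mul_of_nonneg_right ?_ hpos.le
        have h4 : Ci m * (S m).sup Cr ≤ C1 :=
          Finset.le_sup (f := fun m => Ci m * (S m).sup Cr) (Finset.mem_range.mpr (by omega))
        exact_mod_cast h4
      have h4 : hq Q (s * x) ≤ 2 * C1 * H := by linarith
      have h5 := hQ2 (s * x)
      have h6 := hQ1 l₀
      have h7 : (CH : ℤ) * hq Q (s * x) ≤ CH * (2 * C1 * H) :=
        mul_le_mul_of_nonneg_left h4 (by positivity)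
      have h8 : (CH : ℤ) * (2 * C1 * H) ≤ CH * (2 * C1 * (CH *
          Module.finrank (IntermediateField.adjoin k {l₀}) E)) :=
        mul_le_mul_of_nonneg_left (mul_le_mul_of_nonneg_left h6 (by positivity)) (by positivity)
      have h9 : (Module.finrank (IntermediateField.adjoin k {s * x}) E : ℤ) ≤
          CH * (2 * C1) * CH * Module.finrank (IntermediateField.adjoin k {l₀}) E := by
        calc (Module.finrank (IntermediateField.adjoin k {s * x}) E : ℤ)
            ≤ CH * (2 * C1 * (CH * Module.finrank (IntermediateField.adjoin k {l₀}) E)) :=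
              h5.trans (h7.trans h8)
          _ = _ := by ring
      exact_mod_cast h9
    intro i
    rw [coeff_C_mul, coeff_C_mul, coeff_C_mul, hl0']
    exact ⟨hfin _ (hith i).1, hfin _ (hith i).2⟩

end Pool.Agent.N820.SU.Key
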