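import Pool.Agent.N820.SU.Stm2
import Pool.Agent.N820.SU.Key
import Pool.Agent.Y706.CH.Bdg2


import Pool.Agent.Results.MP_9b502d_nt.LargeCriticalHeight

/-!
# Project SU: the final theorem
-/

set_option autoImplicit false

namespace Pool.Agent.N820.SU.Fin

open Polynomial Pool.Agent.W277.UB Pool.Agent.N820.SU Pool.Agent.N820.SU.Key

universe u v w

/-- large critical height -/
lemma lch_aux (hMAP : S_MAP.{u}) (hCNP : S_CNP.{u}) (hHQ : S_HQ.{u, u, u})
    (hHTE : Pool.Agent.Y706.CH.S_HTE.{u, v, u}) (D C₀ CH B₂ m₀ : ℕ) (hD : 2 ≤ D)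
    (hG : ∀ (k : Type u) (K : Type u) [Field k]
      [CharZero k] [Field K] [Algebra k K] (Q : PlaceData.{u} k K) (p q : K[X]), IsCoprime p q →
      p.coeff 0 = 0 → q.coeff 0 = 1 → p.natDegree < q.natDegree → q.natDegree = D →
      q.eval 1 = 0 → (Wr p q).Splits → 0 < hq Q (p.coeff 1) →
      (∀ i, hq Q (p.coeff i) ≤ (CH * C₀ * CH : ℕ) * hq Q (p.coeff 1) ∧
        hq Q (q.coeff i) ≤ (CH * C₀ * CH : ℕ) * hq Q (p.coeff 1)) →
      ∃ c : K, (Wr p q).eval c = 0 ∧ ∀ m, m₀ ≤ m → ∃ x, (mapP1 p q D)^[m] (some c) = some x ∧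
        D ^ m * hq Q (p.coeff 1) ≤ B₂ * hq Q x)
    (k : Type v) (L E M : Type u) [Field k] [CharZero k] [Field L] [Field E] [Field M]
    [Algebra k L] [Algebra k E] [Algebra k M] [Algebra L E] [Algebra L M] [Algebra E M]
    [IsScalarTower k L M] [IsScalarTower k E M] [IsScalarTower L E M] [FiniteDimensional E M]
    [FiniteDimensional L M] (R : ℕ) (hR : Module.finrank L M ≤ R)
    (p q : L[X]) (hpq : IsRat D p q) (a b c e : E) (hdet : a * e - b * c ≠ 0)
    (P Q : E[X]) (hPQ : IsRat D P Q) (hP0 : P.coeff 0 = 0) (hQ0 : Q.coeff 0 = 1)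
    (hdeg : P.natDegree < Q.natDegree) (hQ1 : Q.eval 1 = 0)
    (hcj : ∀ z : Option E, mapP1 P Q D (mob a b c e z) = mob a b c e
      (mapP1 (p.map (algebraMap L E)) (q.map (algebraMap L E)) D z))
    (hsp : ((Wr P Q).map (algebraMap E M)).Splits)
    (hpos : 0 < Module.finrank (IntermediateField.adjoin k {P.coeff 1}) E)
    (hht : ∀ i, Module.finrank (IntermediateField.adjoin k {P.coeff i}) E ≤
      C₀ * Module.finrank (IntermediateField.adjoin k {P.coeff 1}) E ∧
      Module.finrank (IntermediateField.adjoin k {Q.coeff i}) E ≤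
      C₀ * Module.finrank (IntermediateField.adjoin k {P.coeff 1}) E)
    (Qd : PlaceData.{u} (algebraicClosure k M) M)
    (hq1 : ∀ x : M, hq Qd x ≤ CH * Module.finrank (IntermediateField.adjoin k {x}) M)
    (hq2 : ∀ x : M, (Module.finrank (IntermediateField.adjoin k {x}) M : ℤ) ≤ CH * hq Qd x) :
    Pool.Agent.Y706.CH7.LCH k p q D (R + C₀ * CH * CH * B₂ + 1) := by
  classical
  set ψ : E →+* M := algebraMap E M with hψ
  have hψi : Function.Injective ψ := ψ.injective
  have cE : CharZero E := charZero_of_injective_algebraMap (algebraMap k E).injective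
  have cM : CharZero M := charZero_of_injective_algebraMap ψ.injective
  set P' := P.map ψ with hP'
  set Q' := Q.map ψ with hQ'
  have hrat' : IsRat D P' Q' := (hMAP E M ψ D).2.2.1 P Q hPQ
  have hP'i : ∀ i, P'.coeff i = ψ (P.coeff i) := fun i => coeff_map ..
  have hQ'i : ∀ i, Q'.coeff i = ψ (Q.coeff i) := fun i => coeff_map ..
  have hWmap : Wr P' Q' = (Wr P Q).map ψ := by
    unfold Wr
    rw [Polynomial.map_sub, Polynomial.map_mul, Polynomial.map_mul, derivative_map,
      derivative_map]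
  have hQdeg : Q.natDegree = D := by
    have := hPQ.2
    rw [max_eq_right hdeg.le] at this
    exact this
  -- heights
  have hpM : 0 < Module.finrank E M := Module.finrank_pos
  have hfr : ∀ x : E, Module.finrank (IntermediateField.adjoin k {ψ x}) M =
      Module.finrank (IntermediateField.adjoin k {x}) E * Module.finrank E M :=
    fun x => hHTE k E M x
  set h : ℕ := Module.finrank (IntermediateField.adjoin k {P'.coeff 1}) M with hh
  have hh' : h = Module.finrank (IntermediateField.adjoin k {P.coeff 1}) E *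
      Module.finrank E M := by rw [hh, hP'i, hfr]
  have hhpos : 0 < h := by
    rw [hh']
    exact Nat.mul_pos hpos hpM
  have hcoP : ∀ i, Module.finrank (IntermediateField.adjoin k {P'.coeff i}) M ≤ C₀ * h := by
    intro i
    rw [hP'i, hfr, hh', ← mul_assoc]
    exact Nat.mul_le_mul_right _ (hht i).1
  have hcoQ : ∀ i, Module.finrank (IntermediateField.adjoin k {Q'.coeff i}) M ≤ C₀ * h := by
    intro i
    rw [hQ'i, hfr, hh', ← mul_assoc]
    exact Nat.mul_le_mul_right _ (hht i).2
  obtain ⟨q0, -⟩ := hHQ (algebraicClosure k M) M Qd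
  set l : ℤ := hq Qd (P'.coeff 1) with hl
  have hl0 : 0 ≤ l := q0 _
  have hhl : (h : ℤ) ≤ CH * l := hq2 _
  have hlpos : 0 < l := by
    rcases hl0.lt_or_eq with h1 | h1
    · exact h1
    · rw [← h1, mul_zero] at hhl
      omega
  have hco : ∀ x : M, Module.finrank (IntermediateField.adjoin k {x}) M ≤ C₀ * h →
      hq Qd x ≤ (CH * C₀ * CH : ℕ) * l := by
    intro x hx
    have h1 := hq1 x
    have h2 : (CH : ℤ) * Module.finrank (IntermediateField.adjoin k {x}) M ≤
        CH * (C₀ * h : ℕ) := mul_le_mul_of_nonneg_left (by exact_mod_cast hx) (by positivity)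
    have h3 : (CH : ℤ) * (C₀ * h : ℕ) ≤ CH * (C₀ * (CH * l)) := by
      push_cast
      exact mul_le_mul_of_nonneg_left (mul_le_mul_of_nonneg_left hhl (by positivity))
        (by positivity)
    calc hq Qd x ≤ CH * (C₀ * (CH * l)) := h1.trans (h2.trans h3)
      _ = _ := by push_cast; ring
  obtain ⟨cr, hcr, horb⟩ := hG (algebraicClosure k M) M Qd P' Q' hrat'.1
    (by rw [hP'i, hP0, map_zero]) (by rw [hQ'i, hQ0, map_one])
    (by rw [hP', hQ', natDegree_map_eq_of_injective hψi, natDegree_map_eq_of_injective hψi]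
        exact hdeg)
    (by rw [hQ', natDegree_map_eq_of_injective hψi, hQdeg])
    (by rw [hQ', ← map_one ψ, eval_map, eval₂_at_apply, hQ1, map_zero])
    (by rw [hWmap]; exact hsp) hlpos (fun i => ⟨hco _ (hcoP i), hco _ (hcoQ i)⟩)
  refine ⟨M, inferInstance, inferInstance, inferInstance, inferInstance, inferInstance, by omega,
    P', Q', hrat'.1, hrat'.2, ?_, ?_, some cr, hcr, ?_, ?_⟩
  · -- conjugacy
    obtain ⟨s, hs, h1, h2⟩ := hCNP E D (by omega) _ _ P Q
      ((hMAP L E (algebraMap L E) D).2.2.1 p q hpq) hPQ a b c e hdet hcj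
    have key : ∀ f : E[X], (hm D f (C a * X + C b) (C c * X + C e)).map ψ =
        ∑ i ∈ Finset.range (D + 1), C ((f.map ψ).coeff i) * (C (ψ a) * X + C (ψ b)) ^ i *
          (C (ψ c) * X + C (ψ e)) ^ (D - i) := by
      intro f
      unfold hm
      rw [Polynomial.map_sum]
      refine Finset.sum_congr rfl fun i _ => ?_
      simp only [Polynomial.map_mul, Polynomial.map_pow, Polynomial.map_add, map_C, map_X,
        coeff_map]
    have hmm : ∀ f : L[X], (f.map (algebraMap L E)).map ψ = f.map (algebraMap L M) := by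
      intro f
      rw [Polynomial.map_map, hψ, ← IsScalarTower.algebraMap_eq]
    refine ⟨ψ a, ψ b, ψ c, ψ e, ?_, ψ s, (map_ne_zero ψ).mpr hs, ?_, ?_⟩
    · rw [← map_mul, ← map_mul, ← map_sub]
      exact (map_ne_zero ψ).mpr hdet
    · rw [← key, h1]
      simp only [Polynomial.map_mul, Polynomial.map_add, map_C, hmm]
    · rw [← key, h2]
      simp only [Polynomial.map_mul, Polynomial.map_add, map_C, hmm]
  · have h1 : (Wr P' Q').Splits := by
      rw [hWmap]
      exact hsp
    exact h1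
  · -- positive height
    have h1 : h ≤ Pool.Agent.Y706.CH7.mapHeight k P' Q' D := by
      unfold Pool.Agent.Y706.CH7.mapHeight
      refine le_trans ?_ (Finset.le_sup (f := fun i => max
        (Pool.Agent.Y706.CH7.height k (some (P'.coeff i)))
        (Pool.Agent.Y706.CH7.height k (some (Q'.coeff i)))) (Finset.mem_range.mpr
          (by omega : 1 < D + 1)))
      exact le_max_left _ _
    omega
  · have h1 : Pool.Agent.Y706.CH7.mapHeight k P' Q' D ≤ C₀ * h := by
      unfold Pool.Agent.Y706.CH7.mapHeight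
      apply Finset.sup_le
      intro i _
      exact max_le (hcoP i) (hcoQ i)
    have h2 : ∀ m, m₀ ≤ m → (h : ENNReal) ≤ (CH * CH * B₂ : ℕ) *
        ((Pool.Agent.Y706.CH7.height k ((Pool.Agent.W277.UH.ratP1 P' Q' D)^[m] (some cr)) :
          ENNReal) / (D : ENNReal) ^ m) := by
      intro m hm
      obtain ⟨x, hx1, hx2⟩ := horb m hm
      have e1 : (Pool.Agent.W277.UH.ratP1 P' Q' D)^[m] (some cr) = some x := by
        have : Pool.Agent.W277.UH.ratP1 P' Q' D = mapP1 P' Q' D := by
          funext z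
          cases z <;> rfl
        rw [this]
        exact hx1
      rw [e1]
      have h3 : (D : ℤ) ^ m * h ≤ (CH * CH * B₂ : ℕ) *
          Module.finrank (IntermediateField.adjoin k {x}) M := by
        have h4 := hq1 x
        calc (D : ℤ) ^ m * h ≤ D ^ m * (CH * l) :=
              mul_le_mul_of_nonneg_left hhl (by positivity)
          _ = CH * (D ^ m * l) := by ring
          _ ≤ CH * (B₂ * hq Qd x) := mul_le_mul_of_nonneg_left hx2 (by positivity)
          _ ≤ CH * (B₂ * (CH * Module.finrank (IntermediateField.adjoin k {x}) M)) :=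
              mul_le_mul_of_nonneg_left (mul_le_mul_of_nonneg_left h4 (by positivity))
                (by positivity)
          _ = _ := by push_cast; ring
      have h4 : D ^ m * h ≤ (CH * CH * B₂) *
          Module.finrank (IntermediateField.adjoin k {x}) M := by exact_mod_cast h3
      have hDm0 : ((D : ENNReal) ^ m) ≠ 0 := by
        apply pow_ne_zero
        exact_mod_cast (by omega : D ≠ 0)
      have hDmt : ((D : ENNReal) ^ m) ≠ ⊤ := ENNReal.pow_ne_top (ENNReal.natCast_ne_top D)
      rw [← mul_div_assoc, ENNReal.le_div_iff_mul_le (Or.inl hDm0) (Or.inl hDmt)]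
      have h5 : ((D ^ m * h : ℕ) : ENNReal) ≤ (((CH * CH * B₂) *
          Module.finrank (IntermediateField.adjoin k {x}) M : ℕ) : ENNReal) := by
        exact_mod_cast h4
      have h6 : Pool.Agent.Y706.CH7.height k (some x) =
          Module.finrank (IntermediateField.adjoin k {x}) M := rfl
      rw [h6]
      calc (h : ENNReal) * (D : ENNReal) ^ m = ((D ^ m * h : ℕ) : ENNReal) := by
            push_cast
            ring
        _ ≤ _ := h5
        _ = _ := by push_cast; ring
    set B' : ℕ := R + C₀ * CH * CH * B₂ + 1 with hB'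
    have hB'0 : (B' : ENNReal) ≠ 0 := by
      simp [hB']
    have hB't : (B' : ENNReal) ≠ ⊤ := ENNReal.natCast_ne_top _
    have h3 : ((Pool.Agent.Y706.CH7.mapHeight k P' Q' D : ℕ) : ENNReal) / B' ≤
        Pool.Agent.Y706.CH7.canHeight k P' Q' D (some cr) := by
      unfold Pool.Agent.Y706.CH7.canHeight
      apply Filter.le_limsup_of_frequently_le'
      apply Filter.Eventually.frequently
      filter_upwards [Filter.eventually_ge_atTop m₀] with m hm
      rw [ENNReal.div_le_iff hB'0 hB't]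
      have h4 := h2 m hm
      set y : ENNReal := ((Pool.Agent.Y706.CH7.height k
        ((Pool.Agent.W277.UH.ratP1 P' Q' D)^[m] (some cr)) : ENNReal) / (D : ENNReal) ^ m) with hy
      calc ((Pool.Agent.Y706.CH7.mapHeight k P' Q' D : ℕ) : ENNReal)
          ≤ ((C₀ * h : ℕ) : ENNReal) := by exact_mod_cast h1
        _ = C₀ * (h : ENNReal) := by push_cast; ring
        _ ≤ C₀ * ((CH * CH * B₂ : ℕ) * y) := mul_le_mul_right h4 _
        _ = ((C₀ * CH * CH * B₂ : ℕ) : ENNReal) * y := by push_cast; ring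
        _ ≤ (B' : ENNReal) * y := by
            apply mul_le_mul_left
            exact_mod_cast (by omega : C₀ * CH * CH * B₂ ≤ B')
        _ = y * B' := mul_comm _ _
    calc ((Pool.Agent.Y706.CH7.mapHeight k P' Q' D : ℕ) : ENNReal)
        = (Pool.Agent.Y706.CH7.mapHeight k P' Q' D : ENNReal) / B' * B' :=
          (ENNReal.div_mul_cancel hB'0 hB't).symm
      _ ≤ Pool.Agent.Y706.CH7.canHeight k P' Q' D (some cr) * B' := mul_le_mul_left h3 _
      _ = _ := mul_comm _ _

/-- the Wronskian of a coprime pair of positive degree is not zero -/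
lemma wr_facts {K : Type u} [Field K] [CharZero K] (P Q : K[X]) (D : ℕ) (hD : 1 ≤ D)
    (h : IsRat D P Q) : Wr P Q ≠ 0 ∧ (Wr P Q).natDegree ≤ 2 * D := by
  refine ⟨Pool.Agent.Y706.CH.wr_ne P Q h.1 D hD h.2, ?_⟩
  have hp : P.natDegree ≤ D := by rw [← h.2]; exact le_max_left _ _
  have hq : Q.natDegree ≤ D := by rw [← h.2]; exact le_max_right _ _
  unfold Wr
  refine (natDegree_sub_le _ _).trans (max_le ?_ ?_)
  · refine (natDegree_mul_le).trans ?_
    have := natDegree_derivative_le P
    omega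
  · refine (natDegree_mul_le).trans ?_
    have := natDegree_derivative_le Q
    omega

/-- an iterate has large critical height -/
theorem t_LCH (hMAP : S_MAP.{u}) (hCNP : S_CNP.{u}) (hITR : S_ITR.{u}) (hHQ : S_HQ.{u, u, u})
    (hHTE : Pool.Agent.Y706.CH.S_HTE.{u, v, u}) (hDEG : Pool.Agent.Y706.CH.S_DEG.{u, u})
    (hHGT : S_HGT.{u, v}) (hGLB : S_GLB.{u, u, u}) (hKEY : S_KEY.{u, v}) :
    ∀ n d B : ℕ, 2 ≤ d → ∃ R : ℕ, ∀ (k : Type v) (L : Type u) [Field k]
    [CharZero k] [Field L] [Algebra k L] (t : L), Transcendental k t →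
    FiniteDimensional (IntermediateField.adjoin k {t}) L →
    Module.finrank (IntermediateField.adjoin k {t}) L ≤ n → ∀ p q : L[X], IsRat d p q →
    ¬ ConjAlg k (p.map (algebraMap L (AlgebraicClosure L)))
      (q.map (algebraMap L (AlgebraicClosure L))) d →
    Few (p.map (algebraMap L (AlgebraicClosure L)))
      (q.map (algebraMap L (AlgebraicClosure L))) d B →
    ∃ m : ℕ, 1 ≤ m ∧ m ≤ B ∧ Pool.Agent.Y706.CH7.LCH k (itP d p q m).1 (itP d p q m).2
      (d ^ m) R := by
  classical
  intro n d B hd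
  obtain ⟨r, C₀, hK⟩ := hKEY n d B hd
  obtain ⟨Ch, hCh⟩ := hHGT
  set R₀ : ℕ := (Finset.range (B + 1)).sup fun m => (2 * d ^ m + 1) ^ (2 * d ^ m) with hR₀
  set CH : ℕ := (Finset.range (n * (r * R₀) + 1)).sup Ch with hCH
  have hD2 : ∀ m, 1 ≤ m → 2 ≤ d ^ m := fun m hm =>
    hd.trans (Nat.le_self_pow (by omega) d)
  have hG1 : ∀ m : ℕ, ∃ B₂ m₀ : ℕ, 1 ≤ m → ∀ (k : Type u) (K : Type u) [Field k]
      [CharZero k] [Field K] [Algebra k K] (Q : PlaceData.{u} k K) (p q : K[X]), IsCoprime p q →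
      p.coeff 0 = 0 → q.coeff 0 = 1 → p.natDegree < q.natDegree → q.natDegree = d ^ m →
      q.eval 1 = 0 → (Wr p q).Splits → 0 < hq Q (p.coeff 1) →
      (∀ i, hq Q (p.coeff i) ≤ (CH * C₀ * CH : ℕ) * hq Q (p.coeff 1) ∧
        hq Q (q.coeff i) ≤ (CH * C₀ * CH : ℕ) * hq Q (p.coeff 1)) →
      ∃ c : K, (Wr p q).eval c = 0 ∧ ∀ j, m₀ ≤ j → ∃ x,
        (mapP1 p q (d ^ m))^[j] (some c) = some x ∧
        ((d ^ m : ℕ) : ℤ) ^ j * hq Q (p.coeff 1) ≤ B₂ * hq Q x := by
    intro m
    by_cases hm : 1 ≤ m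
    · obtain ⟨B₂, m₀, h⟩ := hGLB (d ^ m) (CH * C₀ * CH) (hD2 m hm)
      exact ⟨B₂, m₀, fun _ => h⟩
    · exact ⟨0, 0, fun h => absurd h hm⟩
  choose B₂ m₀ hG using hG1
  set R : ℕ := r * R₀ + C₀ * CH * CH * ((Finset.range (B + 1)).sup B₂) + 1 with hR
  refine ⟨R, ?_⟩
  intro k L _ _ _ _ t ht hfd hn p q hpq hiso hfew
  have cL : CharZero L := charZero_of_injective_algebraMap (algebraMap k L).injective
  obtain ⟨E, hEfd, hEr, m, hm1, hmB, a, b, c, e, hdet, P, Q, hPQ, hP0, hQ0, hdeg, hQ1, hcj, hpos,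
    hht⟩ := hK k L t ht hfd hn p q hpq hiso hfew
  refine ⟨m, hm1, hmB, ?_⟩
  have cE : CharZero E := charZero_of_injective_algebraMap (algebraMap L E).injective
  have hD := hD2 m hm1
  obtain ⟨hW0, hWd⟩ := wr_facts P Q (d ^ m) (by omega) hPQ
  let M : IntermediateField E (AlgebraicClosure E) :=
    IntermediateField.adjoin E ((Wr P Q).rootSet (AlgebraicClosure E))
  obtain ⟨hfdM, hdegM⟩ := hDEG E (AlgebraicClosure E) (Wr P Q) (2 * d ^ m) hW0 hWd
  have hfdM' : FiniteDimensional E M := hfdM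
  have hdegM' : Module.finrank E M ≤ R₀ :=
    le_trans hdegM (Finset.le_sup (f := fun m => (2 * d ^ m + 1) ^ (2 * d ^ m))
      (Finset.mem_range.mpr (by omega)))
  have hspl : (Wr P Q).IsSplittingField E M :=
    IntermediateField.adjoin_rootSet_isSplittingField (IsAlgClosed.splits _)
  have tw1 : IsScalarTower k E M := IsScalarTower.of_algebraMap_eq fun x => rfl
  have tw2 : IsScalarTower L E M := IsScalarTower.of_algebraMap_eq fun x => rfl
  have tw3 : IsScalarTower k L M := IsScalarTower.of_algebraMap_eq fun x => rfl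
  have hfdLM : FiniteDimensional L M := FiniteDimensional.trans L E M
  have hLM : Module.finrank L M ≤ r * R₀ := by
    rw [← Module.finrank_mul_finrank L E M]
    exact Nat.mul_le_mul hEr hdegM'
  -- heights
  have htM : Transcendental k (algebraMap L M t) := by
    intro h
    exact ht ((isAlgebraic_algebraMap_iff (algebraMap L M).injective).mp h)
  have hfrM := hHTE k L M t
  have hposL : 0 < Module.finrank (IntermediateField.adjoin k {t}) L := Module.finrank_pos
  have hfdM2 : FiniteDimensional (IntermediateField.adjoin k {algebraMap L M t}) M := by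
    apply FiniteDimensional.of_finrank_pos
    rw [hfrM]
    exact Nat.mul_pos hposL Module.finrank_pos
  obtain ⟨Qd, hQd⟩ := hCh k M (algebraMap L M t) htM hfdM2
  have hCHle : Ch (Module.finrank (IntermediateField.adjoin k {algebraMap L M t}) M) ≤ CH := by
    apply Finset.le_sup (f := Ch)
    rw [Finset.mem_range, hfrM]
    exact Nat.lt_succ_of_le (Nat.mul_le_mul hn hLM)
  obtain ⟨q0, -⟩ := hHQ (algebraicClosure k M) M Qd
  have hQ1' : ∀ x : M, hq Qd x ≤ CH * Module.finrank (IntermediateField.adjoin k {x}) M := by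
    intro x
    refine (hQd x).1.trans ?_
    exact mul_le_mul_of_nonneg_right (by exact_mod_cast hCHle) (by positivity)
  have hQ2' : ∀ x : M, (Module.finrank (IntermediateField.adjoin k {x}) M : ℤ) ≤
      CH * hq Qd x := by
    intro x
    refine (hQd x).2.trans ?_
    exact mul_le_mul_of_nonneg_right (by exact_mod_cast hCHle) (q0 x)
  -- the iterate
  obtain ⟨hr1, hr2⟩ := hITR L d (by omega) p q hpq m
  have hratE := (hMAP L E (algebraMap L E) d).2.2.1 p q hpq
  obtain ⟨-, hr4⟩ := hITR E d (by omega) _ _ hratE m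
  have hitm := (hMAP L E (algebraMap L E) d).2.2.2 p q m
  have hcj' : ∀ z : Option E, mapP1 P Q (d ^ m) (mob a b c e z) = mob a b c e
      (mapP1 ((itP d p q m).1.map (algebraMap L E)) ((itP d p q m).2.map (algebraMap L E))
        (d ^ m) z) := by
    intro z
    rw [hcj z, ← hr4 z, hitm]
  have hmain := lch_aux hMAP hCNP hHQ hHTE (d ^ m) C₀ CH (B₂ m) (m₀ m) hD (hG m hm1) k L E M
    (r * R₀) hLM (itP d p q m).1 (itP d p q m).2 hr1 a b c e hdet P Q hPQ hP0 hQ0 hdeg hQ1 hcj'
    hspl.splits' hpos hht Qd hQ1' hQ2'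
  obtain ⟨M', i1, i2, i3, i4, i5, i6, u, w, g1, g2, g3, g4, c', g5, g6, g7⟩ := hmain
  have hle : r * R₀ + C₀ * CH * CH * B₂ m + 1 ≤ R := by
    have h1 : B₂ m ≤ (Finset.range (B + 1)).sup B₂ :=
      Finset.le_sup (f := B₂) (Finset.mem_range.mpr (by omega))
    have h2 : C₀ * CH * CH * B₂ m ≤ C₀ * CH * CH * ((Finset.range (B + 1)).sup B₂) :=
      Nat.mul_le_mul_left _ h1
    omega
  refine ⟨M', i1, i2, i3, i4, i5, i6.trans hle, u, w, g1, g2, g3, g4, c', g5, g6, g7.trans ?_⟩
  exact mul_le_mul_left (by exact_mod_cast hle) _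

end Pool.Agent.N820.SU.Fin
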