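import Pool.Agent.N820.SU.Stm
import Pool.Agent.W277.UG.A1

/-!
# The local lemma at a place
-/

set_option autoImplicit false

namespace Pool.Agent.N820.SU.Lcp

open Polynomial Pool.Agent.W277.UB Pool.Agent.W277.UG Pool.Agent.N820.SU

universe u v w

theorem Wr_map {K L : Type*} [Field K] [Field L] (ι : K →+* L) (p q : K[X]) :
    Wr (p.map ι) (q.map ι) = (Wr p q).map ι := by
  unfold Wr
  rw [Polynomial.map_sub, Polynomial.map_mul, Polynomial.map_mul, derivative_map, derivative_map]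

theorem iter_map {K L : Type u} [Field K] [Field L] (ι : K →+* L) (d : ℕ) (p q : K[X])
    (h : ∀ z : Option K, mapP1 (p.map ι) (q.map ι) d (z.map ι) = (mapP1 p q d z).map ι) (n : ℕ)
    (z : Option K) : (mapP1 (p.map ι) (q.map ι) d)^[n] (z.map ι) =
      ((mapP1 p q d)^[n] z).map ι := by
  induction n with
  | zero => rfl
  | succ n ih => rw [Function.iterate_succ_apply', ih, h, Function.iterate_succ_apply']

theorem t_LCP (hMAP : S_MAP.{u}) (hLOC : S_LOC.{u}) : S_LCP.{u, v, w} := by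
  intro k K _ _ _ _ Q v p q hco hp0 hq0 hpq hq2 hp1 hord hq1 hspl
  obtain ⟨Ω, i1, i2, i3, ι, hι⟩ := exists_ext Q v (p.coeff 1) hp1 hord.ne'
  have hnat : ∀ n : ℕ, n ≠ 0 → ‖(n : Ω)‖ = 1 := by
    intro n hn
    have h1 : (n : K) = algebraMap k K (n : k) := by simp
    have h2 : (n : k) ≠ 0 := Nat.cast_ne_zero.mpr hn
    have h1' : (n : K) ≠ 0 := by
      rw [h1]
      exact (_root_.map_ne_zero _).mpr h2
    have h2' : Q.ord v (n : K) = 0 := by
      rw [h1]
      exact Q.ord_alg v _ h2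
    have h3 := hι (n : K) h1'
    rw [h2', map_natCast] at h3
    rw [h3]
    simp
  have hcoΩ : IsCoprime (p.map ι) (q.map ι) := by
    obtain ⟨u, w, h⟩ := hco
    refine ⟨u.map ι, w.map ι, ?_⟩
    rw [← Polynomial.map_mul, ← Polynomial.map_mul, ← Polynomial.map_add, h, Polynomial.map_one]
  have hc1 : ‖(p.map ι).coeff 1‖ = Real.exp (-(Q.ord v (p.coeff 1) : ℝ)) := by
    rw [coeff_map, hι _ hp1]
  have hordR : (0 : ℝ) < Q.ord v (p.coeff 1) := by exact_mod_cast hord
  obtain ⟨c', hc', hj⟩ := hLOC Ω hnat (p.map ι) (q.map ι) hcoΩ (by rw [coeff_map, hp0, map_zero])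
    (by rw [coeff_map, hq0, map_one]) (by rw [natDegree_map, natDegree_map]; exact hpq)
    (by rw [natDegree_map]; exact hq2) (by rw [hc1]; exact Real.exp_pos _)
    (by rw [hc1]; exact Real.exp_lt_one_iff.2 (by linarith)) 1
    (by rw [← map_one ι, eval_map, eval₂_at_apply, hq1, map_zero])
  rw [natDegree_map] at hj
  have hW0 : Wr p q ≠ 0 := by
    intro h
    have h1 : (Wr p q).eval 0 = p.coeff 1 := by
      unfold Wr
      rw [eval_sub, eval_mul, eval_mul, ← coeff_zero_eq_eval_zero, ← coeff_zero_eq_eval_zero,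
        ← coeff_zero_eq_eval_zero, coeff_derivative, hp0, hq0]
      simp
    rw [h, eval_zero] at h1
    exact hp1 h1.symm
  rw [Wr_map] at hc'
  have hroots : c' ∈ ((Wr p q).map ι).roots := by
    rw [mem_roots ((Polynomial.map_ne_zero_iff ι.injective).2 hW0)]
    exact hc'
  rw [hspl.roots_map, Multiset.mem_map] at hroots
  obtain ⟨c, hc, rfl⟩ := hroots
  rw [mem_roots hW0] at hc
  refine ⟨c, hc, fun j => ?_⟩
  obtain ⟨x', hx', hx0, hxn⟩ := hj j
  have h1 := iter_map ι q.natDegree p q ((hMAP K Ω ι q.natDegree).1 p q) (j + 1) (some c)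
  rw [Option.map_some, hx'] at h1
  obtain ⟨x, hx, rfl⟩ := Option.map_eq_some_iff.1 h1.symm
  have hx0' : x ≠ 0 := fun h => hx0 (by rw [h, map_zero])
  refine ⟨x, hx, hx0', ?_⟩
  rw [hι x hx0', hc1, norm_one, mul_one, ← Real.exp_nat_mul, Real.exp_le_exp] at hxn
  have : ((j : ℝ) + 1) * Q.ord v (p.coeff 1) ≤ Q.ord v x := by
    push_cast at hxn
    linarith
  exact_mod_cast this

end Pool.Agent.N820.SU.Lcp
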