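import Pool.Agent.N820.SU.Stm

/-!
# Project SU: further statements
-/

namespace Pool.Agent.N820.SU

open Polynomial Pool.Agent.W277.UB

universe u v w

/-- PCF: from the conjugation of polynomials to the conjugation of functions -/
def S_PCF : Prop := ∀ (K : Type u) [Field K] (d : ℕ), 1 ≤ d →
  ∀ p q u w : K[X], IsRat d p q → IsRat d u w → ∀ a b c e : K, a * e - b * c ≠ 0 →
  PolyConj p q u w d a b c e → ∀ z, mapP1 u w d (mob a b c e z) = mob a b c e (mapP1 p q d z)

/-- FEX: conjugation over a field is conjugation over an extension -/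
def S_FEX : Prop := ∀ (K K' : Type u) [Field K] [Infinite K] [Field K'] (φ : K →+* K') (d : ℕ),
  1 ≤ d → ∀ p q u w : K[X], IsRat d p q → IsRat d u w → ∀ a b c e : K, a * e - b * c ≠ 0 →
  (∀ z, mapP1 u w d (mob a b c e z) = mob a b c e (mapP1 p q d z)) →
  ∀ z : Option K', mapP1 (u.map φ) (w.map φ) d (mob (φ a) (φ b) (φ c) (φ e) z) =
    mob (φ a) (φ b) (φ c) (φ e) (mapP1 (p.map φ) (q.map φ) d z)

end Pool.Agent.N820.SU
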